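import Pool.Agent.Lib.E5.Spec

/-! E5 block AB2: the last step of the abelian procedure. -/

namespace Pool.Agent.Lib.E5

open Equiv Pool.Agent.Lib.helper80 Pool.Agent.Lib.MP_e519cf_lc Polynomial

noncomputable section
open Classical

namespace AB2

variable [KA]

omit [KA] in
theorem self_so (X : Grp) : ∀ h ∈ X.1, ∀ x, So X.1 x (h • x) := fun h hh _ => ⟨h, hh, rfl⟩

omit [KA] in
theorem ni_fx {X Q : SG} (hQ : ∀ q ∈ Q, ∀ x, So X x (q • x)) {U : Set ℕ}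
    (hU : ∀ x y, So X x y → x ∈ U → y ∈ U) : NI Q (Q ⊓ fx U) := by
  refine ⟨inf_le_left, fun l hl d hd => ⟨Q.mul_mem (Q.mul_mem hl hd.1) (Q.inv_mem hl), fun x hx => ?_⟩⟩
  have h1 : l⁻¹ • x ∈ U := hU _ _ (hQ _ (inv_mem hl) x) hx
  rw [mul_smul, mul_smul, hd.2 _ h1, smul_inv_smul]

theorem sol {n p : ℕ} {L D X : Grp} (hL : L.1 ≤ Sy n) (hD : NI L.1 D.1) (hX : EA p X.1 D.1) :
    Sol (L.1 ⊓ (X.hat X).1) D.1 := by
  intro R hR hRR
  have hDX : ∀ h ∈ D.1, ∀ x, So X.1 x (h • x) := fun h hh => self_so X h (hX.1 hh)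
  have hea := M3h.hat_ea (self_so X) hX
  set Q : SG := L.1 ⊓ (X.hat D).1 with hQ
  have hQso : ∀ q ∈ Q, ∀ x, So X.1 x (q • x) := fun q hq =>
    M3h.hat_so (self_so X) (hea.1 hq.2)
  have hRQ : R ≤ Q := by
    refine le_inf (hR.trans inf_le_left) (hRR.trans (Subgroup.commutator_le.2 ?_))
    intro a ha b hb
    exact hea.2.1 a (hR ha).2 b (hR hb).2
  have hDQ : NI Q D.1 := ⟨le_inf hD.1 (M3h.le_hat hDX), M1.nm_mono inf_le_left hD.2⟩
  have hst : ∀ q ∈ Q, ∀ a, q ∈ sst (X.orb a) := by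
    intro q hq a x
    simp only [Finset.mem_coe, Grp.mem_orb]
    exact ⟨fun h => M3.so_trans h (M3.so_symm (hQso q hq x)), fun h => M3.so_trans h (hQso q hq x)⟩
  have hK : ∀ a, Q ≤ D.1 ⊔ (Q ⊓ fx {x | So X.1 a x}) := by
    intro a y hy
    obtain ⟨h, hh, e⟩ := M3h.hat_res a hDX hy.2
    have h1 : h⁻¹ * y ∈ Q ⊓ fx {x | So X.1 a x} := by
      refine ⟨Q.mul_mem (Q.inv_mem (hDQ.1 hh)) hy, fun x hx => ?_⟩
      have hx' : x ∈ X.orb a := Grp.mem_orb.2 hx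
      have a1 := M3.res_smul (hst y hy a) x
      have a2 := M3.res_smul (hst h (hDQ.1 hh) a) x
      rw [if_pos hx'] at a1 a2
      rw [mul_smul, ← a1, e, a2, inv_smul_smul]
    have := mul_mem (Subgroup.mem_sup_left hh) (Subgroup.mem_sup_right h1 :
      h⁻¹ * y ∈ D.1 ⊔ (Q ⊓ fx {x | So X.1 a x}))
    simpa using this
  have key : ∀ m, R ≤ D.1 ⊔ (Q ⊓ fx {x | ∃ a < m, So X.1 a x}) := by
    intro m
    induction m with
    | zero => exact le_sup_of_le_right (le_inf hRQ fun g _ x hx => by simp at hx)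
    | succ m ih =>
      have n1 : NI Q (Q ⊓ fx {x | ∃ a < m, So X.1 a x}) :=
        ni_fx hQso fun x y h ⟨a, ha, hx⟩ => ⟨a, ha, M3.so_trans hx h⟩
      have n2 : NI Q (Q ⊓ fx {x | So X.1 m x}) := ni_fx hQso fun x y h hx => M3.so_trans hx h
      refine hRR.trans ((Subgroup.commutator_mono ih (hRQ.trans (hK m))).trans
        ((M1.comm_le hDQ n1 n2).trans (sup_le_sup_left ?_ _)))
      rintro g ⟨⟨h1, h2⟩, -, h3⟩
      refine ⟨h1, fun x ⟨a, ha, hx⟩ => ?_⟩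
      rcases Nat.lt_succ_iff_lt_or_eq.1 ha with h | rfl
      · exact h2 x ⟨a, h, hx⟩
      · exact h3 x hx
  refine (key n).trans (sup_le le_rfl ?_)
  rintro g ⟨h1, h2⟩
  have : g = 1 := FP.ext fun x => by
    rw [one_smul]
    by_cases hx : x < n
    · exact h2 x ⟨x, hx, M3.so_refl _ _⟩
    · exact hL h1.1 x (not_lt.1 hx)
  rw [this]
  exact one_mem _

end AB2

theorem b_abel2 [KA] (h : Prim) (hp : S_pabel) : S_abel2 := by
  obtain ⟨g, hg, hs⟩ := hp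
  have hi := h.inf
  unfold S_inf at hi
  refine ⟨fun a => g (a.1, a.2.1, a.2.2.1, a.2.2.2.1,
    a.2.2.1.inf (a.2.2.2.2.1.hat a.2.2.2.2.1), a.2.2.2.2.1, a.2.2.2.2.2), by fun_prop, ?_⟩
  intro n p L D X Z v hn hZ
  exact hs (n, p, L, D, L.inf (X.hat X), X, Z)
    ⟨v.le, v.pp, v.nD, ⟨inf_le_left, M1.nm_inf (M1.nm_of_le le_rfl) hn⟩,
      le_inf v.XL (M3h.le_hat (AB2.self_so X)), le_inf v.ZL hZ, v.eX, v.eZ,
      AB2.sol v.le v.nD v.eX⟩

end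

end Pool.Agent.Lib.E5
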