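import Pool.Agent.Lib.E5.Spec

/-! Block ABEL: transporting elementary abelian sections. -/

namespace Pool.Agent.Lib.E5

open Equiv Pool.Agent.Lib.helper80 Pool.Agent.Lib.MP_e519cf_lc Polynomial

noncomputable section
open Classical

namespace Abel

set_option linter.unusedSectionVars false

abbrev AI : Type := ℕ × ℕ × Grp × Grp × Grp × Grp

def aV (a : AI) : Prop := VAb a.1 a.2.1 a.2.2.1.1 a.2.2.2.1.1 a.2.2.2.2.1.1 a.2.2.2.2.2.1
def aF (a : AI) : Cos := TR a.2.2.1 a.2.2.2.2.1 a.2.2.2.2.2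
def aN (a : AI) : ℕ := a.1 + a.2.1
def mv (n : ℕ) (X : SG) : Finset ℕ := (Finset.range n).filter fun i => ∃ g ∈ X, g • i ≠ i
def aC (a : AI) : ℕ := (mv a.1 a.2.2.2.2.1.1).card

/-- The first coset. -/
def c1 (a : AI) : Cos := partt a.2.2.1 a.2.2.2.2.1 a.2.2.2.2.2
def x1 (a : AI) : Grp := Grp.cj (c1 a).rep⁻¹ a.2.2.2.2.2
def xh (a : AI) : Grp := a.2.2.2.2.1.hat a.2.2.2.2.1
def zh (a : AI) : Grp := a.2.2.2.2.1.hat (x1 a)
def dh (a : AI) : Grp := a.2.2.2.2.1.hat a.2.2.2.1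
def ss (a : AI) : Grp := ((c1 a).grp.sup (xh a)).sup (zh a)
def tt (a : AI) : Finset ℕ := (xh a).reps a.1

variable [KA]

theorem sizes (a : AI) (h : aV a) : aN a ≤ sz a ∧
    sz a ≤ (2 * Polynomial.X + 6 + 9 * SBp : ℕ[X]).eval (aN a) ∧
    sz (aF a) ≤ (2 * Polynomial.X + 6 + 9 * SBp : ℕ[X]).eval (aN a) ∧
    aC a ≤ (2 * Polynomial.X + 6 + 9 * SBp : ℕ[X]).eval (aN a) := by
  obtain ⟨n, p, L, D, X, Z⟩ := a
  have h' : VAb n p L.1 D.1 X.1 Z.1 := h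
  have e : (2 * Polynomial.X + 6 + 9 * SBp : ℕ[X]).eval (n + p) =
      2 * (n + p) + 6 + 9 * SB (n + p) := by simp
  change n + p ≤ _ ∧ _ ≤ eval (n + p) _ ∧ sz (TR L X Z) ≤ eval (n + p) _ ∧
    (mv n X.1).card ≤ eval (n + p) _
  rw [e]
  have hL : L.1 ≤ Sy (n + p) := h'.le.trans (Sy_mono (Nat.le_add_right _ _))
  have s1 := KG.sz_Grp hL
  have s2 := KG.sz_Grp (h'.nD.1.trans hL)
  have s4 := KG.sz_Grp (h'.XL.trans hL)
  have s5 := KG.sz_Grp (h'.ZL.trans hL)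
  have s6 : sz (TR L X Z) ≤ SB (n + p) := KG.sz_Cos fun x hx => hL hx.1
  have l1 : (mv n X.1).card ≤ n := (Finset.card_filter_le _ _).trans (Finset.card_range n).le
  simp only [sz_pair, sz_nat]
  refine ⟨by omega, by omega, by omega, by omega⟩

/-- Elements that permute the orbits of `X`. -/
def poG (X : SG) : SG where
  carrier := {g | Po X g}
  one_mem' := fun x y => by rw [one_smul, one_smul]
  mul_mem' := fun ha hb x y => by rw [mul_smul, mul_smul, ← ha, ← hb]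
  inv_mem' := fun {a} ha x y => by rw [ha (a⁻¹ • x), smul_inv_smul, smul_inv_smul]

theorem po_of_so {X : SG} {g : FP} (h : ∀ x, So X x (g • x)) : Po X g := fun x y =>
  ⟨fun e => M3.so_trans (M3.so_trans (M3.so_symm (h x)) e) (h y),
    fun e => M3.so_trans (M3.so_trans (h x) e) (M3.so_symm (h y))⟩

theorem self_so (X : SG) : ∀ h ∈ X, ∀ x, So X x (h • x) := fun h hh _ => ⟨h, hh, rfl⟩

theorem so_hat {X H : Grp} (h : ∀ h ∈ H.1, ∀ x, So X.1 x (h • x)) (x y : ℕ) :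
    So (X.hat H).1 x y ↔ So H.1 x y :=
  ⟨fun ⟨_, hg, e⟩ => e ▸ M3h.hat_so h hg x, fun ⟨g, hg, e⟩ => ⟨g, M3h.le_hat h hg, e⟩⟩

theorem res_hat {X H : Grp} (h : ∀ x y, So X.1 x y ↔ So H.1 x y) :
    ∀ j ∈ (X.hat H).1, ∀ a, res ((X.hat H).orb a) j ∈ (X.hat H).1 := by
  intro j hj a
  have h0 : ∀ g ∈ H.1, ∀ x, So X.1 x (g • x) := fun g hg x => (h _ _).2 ⟨g, hg, rfl⟩
  rw [M3.orb_congr (K := X) (fun x y => (so_hat h0 x y).trans (h x y).symm) a]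
  obtain ⟨g, hg, e⟩ := M3h.hat_res a h0 hj
  rw [e, M3h.hat_eq h0]
  exact Subgroup.subset_closure ⟨a, g, hg, rfl⟩

theorem cj_hat {X H H' : Grp} {l : FP} (h : ∀ h ∈ H.1, ∀ x, So X.1 x (h • x))
    (h' : ∀ h ∈ H'.1, ∀ x, So X.1 x (h • x)) (hl : Po X.1 l) (e : cj l H.1 = H'.1) :
    cj l (X.hat H).1 = (X.hat H').1 := by
  have e1 : Grp.cj l H = H' := Grp.ext e
  have e2 := M3h.hat_cj l h
  rw [e1] at e2
  rw [M3h.hat_congr (Z := Grp.cj l X) h' fun x y => ?_, e2, Grp.cj_val]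
  have := M3.so_cj l X.1 (l⁻¹ • x) (l⁻¹ • y)
  rw [smul_inv_smul, smul_inv_smul] at this
  rw [Grp.cj_val, this]
  exact (poG X.1).inv_mem hl x y

theorem sub_partt {L X Z : Grp} : ∀ x ∈ TR L X Z, x ∈ partt L X Z := fun l hl =>
  mem_partt.2 ⟨hl.1, fun x y => by rw [← (mem_TR.1 hl).2, M3.so_cj]⟩

theorem node {g2 : AI → Cos} {gu : ℕ × Grp × Grp × Grp × Cos → Cos}
    (s2 : ∀ n p (L D X Z : Grp), VAb n p L.1 D.1 X.1 Z.1 → Nm L.1 (X.hat X).1 →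
      Z.1 ≤ (X.hat X).1 → g2 (n, p, L, D, X, Z) = TR L X Z)
    (su : ∀ n (S A Z : Grp), S.1 ≤ Sy n → A.1 ≤ S.1 → Z.1 ≤ S.1 → (∀ s ∈ S.1, Po A.1 s) →
      (∀ x y, So A.1 x y ↔ So Z.1 x y) → (∀ j ∈ A.1, ∀ a, res (A.orb a) j ∈ A.1) →
      (∀ j ∈ Z.1, ∀ a, res (Z.orb a) j ∈ Z.1) →
      gu (n, S, A, Z, TR (S.stab (A.reps n)) (A.stab (A.reps n)) (Z.stab (A.reps n))) = TR S A Z)
    (a : AI) (hV : aV a) (hX : ¬ a.2.2.2.2.1.1 ≤ a.2.2.2.1.1) (hE : (c1 a).isE = false) :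
    VAb a.1 a.2.1 ((ss a).stab (tt a)).1 ((dh a).stab (tt a)).1 ((xh a).stab (tt a)).1
      ((zh a).stab (tt a)).1 ∧
    (mv a.1 ((xh a).stab (tt a)).1).card + 1 ≤ aC a ∧
    ∀ C : Cos, C = (gu (a.1, ss a, xh a, zh a, TR ((ss a).stab (tt a)) ((xh a).stab (tt a))
      ((zh a).stab (tt a)))).inter (c1 a).grp →
      Cos.lmul (c1 a).rep (bif C.isE then Cos.emp else Cos.lmul C.rep
        (g2 (a.1, a.2.1, C.grp, a.2.2.2.1, a.2.2.2.2.1, Grp.cj C.rep⁻¹ (x1 a)))) = aF a := by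
  obtain ⟨n, p, L, D, X, Z⟩ := a
  change VAb n p L.1 D.1 X.1 Z.1 at hV
  change ¬ X.1 ≤ D.1 at hX
  have hE' : (partt L X Z).isE = false := hE
  obtain ⟨x0, hx0⟩ := Cos.isE_false.1 hE'
  obtain ⟨r1, r2⟩ := mem_partt.1 (KG.rep_mem hx0)
  have gL : ∀ {h : FP}, h ∈ (partt L X Z).grp.1 ↔ h ∈ L.1 ∧ Po X.1 h := M6.grp_partt hE'
  have hR := M6.ref (sub_partt (L := L) (X := X) (Z := Z)) (fun x hx => hx.1) hE'
  simp only [ss, tt, xh, zh, dh, x1, c1, aC, aF]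
  set l1 := (partt L X Z).rep with hl1
  set L1 := (partt L X Z).grp with hL1
  set X1 := Grp.cj l1⁻¹ Z with hX1
  have o1 : ∀ x y, So X.1 x y ↔ So X1.1 x y := fun x y => by
    have := M3.so_cj l1⁻¹ Z.1 (l1 • x) (l1 • y)
    rw [inv_smul_smul, inv_smul_smul] at this
    exact (r2 x y).trans this.symm
  have pX := self_so X.1
  have pD : ∀ h ∈ D.1, ∀ x, So X.1 x (h • x) := fun h hh => pX h (hV.eX.1 hh)
  have p1 : ∀ h ∈ X1.1, ∀ x, So X.1 x (h • x) := fun g hg x => (o1 _ _).2 ⟨g, hg, rfl⟩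
  have L1L : L1.1 ≤ L.1 := fun g hg => (gL.1 hg).1
  have X1L : X1.1 ≤ L.1 := M1.cj_le_of_mem (inv_mem r1) hV.ZL
  have XL1 : X.1 ≤ L1.1 := fun g hg => gL.2 ⟨hV.XL hg, po_of_so (pX g hg)⟩
  have X1L1 : X1.1 ≤ L1.1 := fun g hg => gL.2 ⟨X1L hg, po_of_so (p1 g hg)⟩
  have e1 : EA p X1.1 D.1 := by
    rw [← M1.cj_of_nm hV.nD.2 (inv_mem r1)]; exact M1.ea_cj _ hV.eZ
  have eh := M3h.hat_ea pX hV.eX
  have eh1 := M3h.hat_ea p1 e1
  have oh := so_hat pX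
  have oh1 := so_hat p1
  set S := (L1.sup (X.hat X)).sup (X.hat X1) with hS
  have S1 : L1.1 ≤ S.1 := le_sup_left.trans le_sup_left
  have S2 : (X.hat X).1 ≤ S.1 := le_sup_right.trans le_sup_left
  have S3 : (X.hat X1).1 ≤ S.1 := le_sup_right
  have Sn : S.1 ≤ Sy n := sup_le (sup_le (L1L.trans hV.le) (M3h.hat_fx pX (hV.XL.trans hV.le)))
    (M3h.hat_fx p1 (X1L.trans hV.le))
  have Sp : S.1 ≤ poG X.1 := sup_le (sup_le (fun g hg => (gL.1 hg).2)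
    fun g hg => po_of_so (M3h.hat_so pX hg))
    fun g hg => po_of_so fun x => (o1 _ _).2 (M3h.hat_so p1 hg x)
  have SD : Nm S.1 (X.hat D).1 := M1.nm_sup_left (M1.nm_sup_left
    (M1.nm_of_cj fun l hl => cj_hat pD pD (gL.1 hl).2 (M1.cj_of_nm hV.nD.2 (L1L hl)))
    (M1.ea_nm eh le_rfl eh.1)) (M1.ea_nm eh1 le_rfl eh1.1)
  refine ⟨⟨inf_le_left.trans Sn, hV.pp, ⟨inf_le_inf_right _ (eh.1.trans S2),
    M1.nm_inf (M1.nm_mono inf_le_left SD) (M1.nm_of_le inf_le_right)⟩, inf_le_inf_right _ S2,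
    inf_le_inf_right _ S3, M1.ea_inf _ eh, M1.ea_inf _ eh1⟩, ?_, ?_⟩
  · obtain ⟨j, hj, x, hx⟩ : ∃ j ∈ X.1, ∃ x : ℕ, j • x ≠ x := by
      by_contra hc
      refine hX fun j hj => ?_
      have : j = 1 := FP.ext fun x => by
        by_contra hx
        exact hc ⟨j, hj, x, by simpa using hx⟩
      exact this ▸ one_mem _
    have hx2 : x < n := by
      by_contra hc
      exact hx (hV.le (hV.XL hj) x (not_lt.1 hc))
    set t := (X.hat X).rep x with ht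
    have ht1 : t < n := (Grp.rep_le (M3.so_refl (X.hat X).1 x)).trans_lt hx2
    have ht2 : (X.hat X).rep t = t := (M3.rep_eq ((X.hat X).so_rep x)).symm
    refine Finset.card_lt_card ⟨fun i hi => ?_, fun hc => ?_⟩
    · obtain ⟨h1, g, hg, h2⟩ := Finset.mem_filter.1 hi
      obtain ⟨g', hg', e⟩ := M3h.hat_so pX hg.1 i
      exact Finset.mem_filter.2 ⟨h1, g', hg', e ▸ h2⟩
    · have h1 : t ∈ mv n X.1 := by
        refine Finset.mem_filter.2 ⟨Finset.mem_range.2 ht1, ?_⟩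
        have h2 : So X.1 t x := M3.so_symm ((oh _ _).1 ((X.hat X).so_rep x))
        by_cases e : x = t
        · exact ⟨j, hj, e ▸ hx⟩
        · obtain ⟨g, hg, e'⟩ := h2
          exact ⟨g, hg, e' ▸ e⟩
      obtain ⟨-, g, hg, h2⟩ := Finset.mem_filter.1 (hc h1)
      have h3 : g • t ∈ (X.hat X).reps n := (hg.2 t).2 (Grp.mem_reps.2 ⟨ht1, ht2⟩)
      exact h2 ((Grp.mem_reps.1 h3).2.symm.trans
        ((M3.rep_eq (H := X.hat X) ⟨g, hg.1, rfl⟩).symm.trans ht2))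
  intro C hC
  rw [su n S _ _ Sn S2 S3 (fun s hs x y => by rw [oh, oh]; exact Sp hs x y)
    (fun x y => by rw [oh, oh1, o1]) (res_hat fun _ _ => Iff.rfl) (res_hat o1)] at hC
  have mC : ∀ {g : FP}, g ∈ C ↔ (g ∈ S.1 ∧ cj g (X.hat X).1 = (X.hat X1).1) ∧ g ∈ L1.1 := by
    intro g; rw [hC]; rfl
  have hsub : ∀ g ∈ TR L1 X X1, g ∈ C := fun g hg =>
    mC.2 ⟨⟨S1 hg.1, cj_hat pX p1 (gL.1 hg.1).2 (mem_TR.1 hg).2⟩, hg.1⟩
  rw [hR]
  congr 1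
  cases hE4 : C.isE
  swap
  · exact (M6.ref_emp hsub hE4).symm
  obtain ⟨y0, hy0⟩ := Cos.isE_false.1 hE4
  obtain ⟨⟨-, q1⟩, q2⟩ := mC.1 (KG.rep_mem hy0)
  have g1 : C.grp.1 ≤ L1.1 := KG.grp_le fun x hx => (mC.1 hx).2
  have g2' : ∀ h ∈ L1.1, cj h (X.hat X).1 = (X.hat X).1 → h ∈ C.grp.1 := fun h h1 h2 =>
    Cos.mem_grp.2 (Or.inr ⟨C.rep, KG.rep_mem hy0, C.rep * h,
      mC.2 ⟨⟨S1 (mul_mem q2 h1), by rw [M1.cj_mul, h2, q1]⟩, mul_mem q2 h1⟩, by group⟩)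
  have g3 : Nm C.grp.1 (X.hat X).1 := M1.nm_of_cj fun h hh => by
    rcases Cos.mem_grp.1 hh with rfl | ⟨x, hx, y, hy, rfl⟩
    · exact M1.cj_one _
    · rw [M1.cj_mul, (mC.1 hy).1.2, ← (mC.1 hx).1.2, M1.cj_inv_cj]
  have g4 : cj C.rep⁻¹ X1.1 ≤ (X.hat X).1 := by
    rw [← M1.cj_inv_cj C.rep (X.hat X).1, q1]
    exact M1.cj_le_cj.2 (M3h.le_hat p1)
  have g5 : X.1 ≤ C.grp.1 := fun g hg => g2' g (XL1 hg) (M1.cj_of_mem (M3h.le_hat pX hg))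
  rw [M6.ref hsub (fun x hx => (mC.1 hx).2) hE4, cond_false,
    s2 n p C.grp D X _ ⟨g1.trans (L1L.trans hV.le), hV.pp,
      ⟨hV.eX.1.trans g5, M1.nm_mono (g1.trans L1L) hV.nD.2⟩, g5,
      fun g hg => g2' g (M1.cj_le_of_mem (inv_mem q2) X1L1 hg) (M1.cj_of_mem (g4 hg)), hV.eX,
      by rw [← M1.cj_of_nm hV.nD.2 (inv_mem (L1L q2))]; exact M1.ea_cj _ e1⟩ g3 g4]

end Abel

open Abel in
theorem b_abel [KA] (h : Prim) (h2 : S_abel2) (hu : S_hatup) : S_abel := by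
  obtain ⟨g2, o2, s2⟩ := h2
  obtain ⟨gu, ou, su⟩ := hu
  have hi := h.inter
  have hp := h.partt
  unfold S_inter at hi
  unfold S_partt at hp
  have oc : OT c1 := by unfold c1; fun_prop
  have ox : OT x1 := by unfold x1; fun_prop
  have oxh : OT xh := by unfold xh; fun_prop
  have ozh : OT zh := by unfold zh; fun_prop
  have odh : OT dh := by unfold dh; fun_prop
  have os : OT ss := by unfold ss; fun_prop
  have ot : OT tt := by unfold tt; fun_prop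
  suffices H : ∃ g, OT g ∧ ∀ a, aV a → g a = aF a by
    obtain ⟨g, og, sg⟩ := H
    exact ⟨g, og, fun n p L D X Z hV => sg (n, p, L, D, X, Z) hV⟩
  refine KR.rec2 (N := aN) (c := aC) _ ?_ sizes
  refine KR.node_cond (b := fun a : AI => Grp.le a.2.2.2.2.1 a.2.2.2.1) (by fun_prop) ?_ ?_
  · refine KR.node_leaf (g := fun a : AI =>
      bif Grp.le a.2.2.2.2.2 a.2.2.2.1 then Cos.lc 1 a.2.2.1 else Cos.emp) (by fun_prop) ?_
    rintro ⟨n, p, L, D, X, Z⟩ hV ⟨-, hX⟩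
    change VAb n p L.1 D.1 X.1 Z.1 at hV
    have e : X.1 = D.1 := le_antisymm (Grp.le_iff.1 hX) hV.eX.1
    change (bif Grp.le Z D then Cos.lc 1 L else Cos.emp) = TR L X Z
    cases hZ : Grp.le Z D
    · refine Cos.ext fun x => ⟨fun hx => (Cos.not_mem_emp x hx).elim, fun hx => ?_⟩
      refine (Grp.le_false.1 hZ ?_).elim
      rw [← (mem_TR.1 hx).2, e, M1.cj_of_nm hV.nD.2 hx.1]
    · exact (M6.TR_all (e ▸ hV.nD.2)
        (Grp.ext ((le_antisymm (Grp.le_iff.1 hZ) hV.eZ.1).trans e.symm))).symm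
  refine KR.node_cond (b := fun a : AI => (c1 a).isE) (by fun_prop) ?_ ?_
  · exact KR.node_leaf (g := fun _ => Cos.emp) (by fun_prop) fun a _ hU =>
      (M6.ref_emp sub_partt hU.2).symm
  have oC : OT fun q : AI × Cos =>
      (gu (q.1.1, ss q.1, xh q.1, zh q.1, q.2)).inter (c1 q.1).grp := by fun_prop
  generalize hC : (fun q : AI × Cos =>
      (gu (q.1.1, ss q.1, xh q.1, zh q.1, q.2)).inter (c1 q.1).grp) = Cf at oC
  refine KR.node_one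
    (s := fun a : AI => ((a.1, a.2.1, (ss a).stab (tt a), (dh a).stab (tt a), (xh a).stab (tt a),
      (zh a).stab (tt a)) : AI))
    (out := fun q : AI × Cos => Cos.lmul (c1 q.1).rep (bif (Cf q).isE then Cos.emp else
      Cos.lmul (Cf q).rep (g2 (q.1.1, q.1.2.1, (Cf q).grp, q.1.2.2.2.1, q.1.2.2.2.2.1,
        Grp.cj (Cf q).rep⁻¹ (x1 q.1))))) (by fun_prop) (by fun_prop) ?_
  intro a hV hU
  obtain ⟨k1, k2, k3⟩ := node s2 su a hV (Grp.le_false.1 hU.1.2) hU.2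
  exact ⟨k1, le_rfl, k2, k3 _ (by rw [← hC]; rfl)⟩

end

end Pool.Agent.Lib.E5
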