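import Pool.Agent.Lib.E5.Spec

/-! E5 block COMP: the case tree for transporting complements. -/

namespace Pool.Agent.Lib.E5

open Equiv Pool.Agent.Lib.helper80 Pool.Agent.Lib.MP_e519cf_lc Polynomial

noncomputable section
open Classical

namespace COMP

set_option linter.unusedSectionVars false

variable [KA] {n p : ℕ} {L D Y X Z : SG}

theorem XL (h : VComp n p L D Y X Z) : X ≤ L := le_sup_left.trans h.nE.1
theorem ZL (h : VComp n p L D Y X Z) : Z ≤ L := le_sup_left.trans (h.eq.le.trans h.nE.1)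

theorem leafY (h : VComp n p L D Y X Z) (hY : Y ≤ D) : Nm L X ∧ Z = X := by
  have h1 : X ⊔ Y = X := sup_eq_left.2 (hY.trans h.eX.1)
  have h2 : Z ⊔ Y = Z := sup_eq_left.2 (hY.trans h.eZ.1)
  exact ⟨h1 ▸ h.nE.2, h2.symm.trans (h.eq.trans h1)⟩

theorem leafX (h : VComp n p L D Y X Z) (hX : X ≤ D) : Nm L X ∧ Z = X := by
  have h1 : X = D := le_antisymm hX h.eX.1
  have h2 : Z ≤ Y := le_sup_left.trans (h.eq.le.trans (sup_le (hX.trans h.DY) le_rfl))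
  have h3 : Z = D := (inf_eq_left.2 h2).symm.trans h.iZ
  exact ⟨h1 ▸ h.nD.2, h3.trans h1.symm⟩

theorem top_ne (h : VComp n p L D Y X Z) (hY : ¬ Y ≤ D) : top Y D ≠ Y := fun e =>
  hY (M2.sol_le (h.nY.1.trans h.le) ⟨h.DY, M1.nm_mono h.nY.1 h.nD.2⟩ h.sol
    ((M4.top_eq_iff (h.nY.1.trans h.le) h.DY).1 e))

theorem top_split (h : VComp n p L D Y X Z) (hY : ¬ Y ≤ D) (ht : ¬ top Y D ≤ D) :
    NI L (top Y D) ∧ D < top Y D ∧ top Y D < Y :=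
  ⟨⟨(M4.yq_le _ h.DY).trans h.nY.1, M4.nm_top h.nY.2 h.nD.2⟩,
    lt_of_le_not_ge (M4.le_yq _ _ _) ht, lt_of_le_of_ne (M4.yq_le _ h.DY) (top_ne h hY)⟩

theorem top_ea (h : VComp n p L D Y X Z) (ht : top Y D ≤ D) : EA (pq Y D) Y D := by
  have h1 : top Y D = D := le_antisymm ht (M4.le_yq _ _ _)
  have h2 : EA (pq Y D) Y (top Y D) := M4.yq_ea _ h.DY
  rwa [h1] at h2

theorem eaY (h : VComp n p L D Y X Z) : EA p (X ⊔ Y) Y :=
  M1.ea_sup h.eX (M1.nm_mono (XL h) h.nY.2) h.DY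

theorem comm_le (h : VComp n p L D Y X Z) : ⁅Y, X ⊔ Y⁆ ⊔ D ≤ Y := by
  refine sup_le (Subgroup.commutator_le.2 fun a ha b hb => ?_) h.DY
  have h1 := h.nY.2 b (h.nE.1 hb) a⁻¹ (inv_mem ha)
  have h2 := mul_mem ha h1
  rwa [← mul_assoc, ← mul_assoc] at h2

theorem comm_split (h : VComp n p L D Y X Z) (hY : ¬ Y ≤ D) (he : EA p Y D)
    (ht : ¬ ⁅Y, X ⊔ Y⁆ ⊔ D ≤ D) :
    NI L (⁅Y, X ⊔ Y⁆ ⊔ D) ∧ D < ⁅Y, X ⊔ Y⁆ ⊔ D ∧ ⁅Y, X ⊔ Y⁆ ⊔ D < Y :=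
  ⟨⟨(comm_le h).trans h.nY.1, M1.nm_sup (M1.nm_comm h.nY.2 h.nE.2) h.nD.2⟩,
    lt_of_le_not_ge le_sup_right ht, lt_of_le_not_ge (comm_le h) fun e =>
      hY (M2.nilp (h.nE.1.trans h.le) h.pp
        ⟨h.DY.trans le_sup_right, M1.nm_mono h.nE.1 h.nD.2⟩
        ⟨le_sup_right, M1.nm_mono h.nE.1 h.nY.2⟩ he (eaY h).2.2 e)⟩

theorem eaD (h : VComp n p L D Y X Z) (he : EA p Y D) (ht : ⁅Y, X ⊔ Y⁆ ⊔ D ≤ D) :
    EA p (X ⊔ Y) D := by
  have hc : ∀ a ∈ Y, ∀ b ∈ X ⊔ Y, a * b * a⁻¹ * b⁻¹ ∈ D := fun a ha b hb =>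
    (le_sup_left.trans ht) (Subgroup.commutator_mem_commutator ha hb)
  have h1 := M1.ea_closure (p := p) (S := (X : Set FP) ∪ Y) (D := D)
    (fun a ha => M1.cj_of_nm h.nD.2 (ha.elim (fun h' => XL h h') fun h' => h.nY.1 h'))
    (fun a ha b hb => by
      rcases ha with ha | ha
      · rcases hb with hb | hb
        · exact h.eX.2.1 a ha b hb
        · have := inv_mem (hc b hb a (Subgroup.mem_sup_left ha))
          simpa [mul_assoc] using this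
      · exact hc a ha b (hb.elim (fun h' => Subgroup.mem_sup_left h')
          fun h' => Subgroup.mem_sup_right h'))
    (fun a ha => ha.elim (h.eX.2.2 a) (he.2.2 a))
  rwa [← Subgroup.sup_eq_closure, sup_eq_left.2 (h.DY.trans le_sup_right)] at h1

theorem vemb (h : VComp n p L D Y X Z) (hX : ¬ X ≤ D) : VEmb n p L (X ⊔ Y) Y :=
  ⟨h.le, h.pp, h.nE, h.nY, eaY h, fun e =>
    hX (h.iX ▸ le_inf le_rfl (le_sup_left.trans e))⟩

theorem sizes (a : CI) (h : cV a) : cN a ≤ sz a ∧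
    sz a ≤ (2 * Polynomial.X + 6 + 9 * SBp + Polynomial.X ^ 8 : ℕ[X]).eval (cN a) ∧
    sz (cF a) ≤ (2 * Polynomial.X + 6 + 9 * SBp + Polynomial.X ^ 8 : ℕ[X]).eval (cN a) ∧
    cC a ≤ (2 * Polynomial.X + 6 + 9 * SBp + Polynomial.X ^ 8 : ℕ[X]).eval (cN a) := by
  obtain ⟨n, p, L, D, Y, X, Z⟩ := a
  have h' : VComp n p L.1 D.1 Y.1 X.1 Z.1 := h
  have e : (2 * Polynomial.X + 6 + 9 * SBp + Polynomial.X ^ 8 : ℕ[X]).eval (n + p) =
      2 * (n + p) + 6 + 9 * SB (n + p) + (n + p) ^ 8 := by simp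
  change n + p ≤ _ ∧ _ ≤ eval (n + p) _ ∧ sz (TR L X Z) ≤ eval (n + p) _ ∧
    (Y.len - D.len) ^ 2 * (X.len - D.len) ^ 2 ≤ eval (n + p) _
  rw [e]
  have hL : L.1 ≤ Sy (n + p) := h'.le.trans (Sy_mono (Nat.le_add_right _ _))
  have s1 := KG.sz_Grp hL
  have s2 := KG.sz_Grp (h'.nD.1.trans hL)
  have s3 := KG.sz_Grp (h'.nY.1.trans hL)
  have s4 := KG.sz_Grp ((XL h').trans hL)
  have s5 := KG.sz_Grp ((ZL h').trans hL)
  have s6 : sz (TR L X Z) ≤ SB (n + p) := KG.sz_Cos fun x hx => hL hx.1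
  have l1 : Y.len ≤ (n + p) * (n + p) := M2.len_le (h'.nY.1.trans hL)
  have l2 : X.len ≤ (n + p) * (n + p) := M2.len_le ((XL h').trans hL)
  have l3 : (Y.len - D.len) ^ 2 * (X.len - D.len) ^ 2 ≤
      ((n + p) * (n + p)) ^ 2 * ((n + p) * (n + p)) ^ 2 :=
    Nat.mul_le_mul (Nat.pow_le_pow_left (by omega) 2) (Nat.pow_le_pow_left (by omega) 2)
  have l4 : ((n + p) * (n + p)) ^ 2 * ((n + p) * (n + p)) ^ 2 = (n + p) ^ 8 := by ring
  simp only [sz_pair, sz_nat]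
  refine ⟨by omega, by omega, by omega, by omega⟩

end COMP

open COMP in
theorem b_comp [KA] (h : Prim) (he : S_embed) (hh : S_hom) (hc : S_copr) (hy : S_splitY)
    (hv : S_splitV) : S_comp := by
  obtain ⟨ge, oe, se⟩ := he
  obtain ⟨gh, oh, sh⟩ := hh
  obtain ⟨gc, oc, sc⟩ := hc
  refine KR.rec2 (N := cN) (c := cC) _ ?_ sizes
  refine KR.node_cond (b := fun a : CI => Grp.le a.Y a.D) (by fun_prop) ?_ ?_
  · refine KR.node_leaf (g := fun a : CI => Cos.lc 1 a.L) (by fun_prop) fun a ha hu => ?_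
    have h1 := leafY ha (Grp.le_iff.1 hu.2)
    exact (M6.TR_all h1.1 (Grp.ext h1.2)).symm
  refine KR.node_cond (b := fun a : CI => Grp.le a.X a.D) (by fun_prop) ?_ ?_
  · refine KR.node_leaf (g := fun a : CI => Cos.lc 1 a.L) (by fun_prop) fun a ha hu => ?_
    have h1 := leafX ha (Grp.le_iff.1 hu.2)
    exact (M6.TR_all h1.1 (Grp.ext h1.2)).symm
  refine KR.node_cond (b := fun a : CI => Grp.le (Grp.top a.Y a.D) a.D) (by fun_prop) ?_ ?_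
  swap
  · refine hy (fun a => Grp.top a.Y a.D) _ (by fun_prop) fun a ha hu => ?_
    have h1 := top_split ha (Grp.le_false.1 hu.1.1.2) (Grp.le_false.1 hu.2)
    exact ⟨h1.1, h1.2.1, h1.2.2, Grp.le_false.1 hu.1.2⟩
  refine KR.node_cond (b := fun a : CI => eqb (Grp.pq a.Y a.D) a.2.1) (by fun_prop) ?_ ?_
  swap
  · refine KR.node_leaf oc fun a ha hu => ?_
    exact sc a (pq a.Y.1 a.D.1) ha
      (M4.pq_prime (ha.nY.1.trans ha.le) ha.DY (top_ne ha (Grp.le_false.1 hu.1.1.1.2))).1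
      ((eqb_false _ _).1 hu.2) (top_ea ha (Grp.le_iff.1 hu.1.2))
  have hea : ∀ a : CI, cV a → Grp.le (Grp.top a.Y a.D) a.D = true →
      eqb (Grp.pq a.Y a.D) a.2.1 = true → EA a.2.1 a.Y.1 a.D.1 := fun a ha h1 h2 => by
    have h3 : pq a.Y.1 a.D.1 = a.2.1 := (eqb_iff _ _).1 h2
    exact h3 ▸ top_ea ha (Grp.le_iff.1 h1)
  refine KR.node_cond (b := fun a : CI => Grp.le ((a.Y.comm (a.X.sup a.Y)).sup a.D) a.D)
    (by fun_prop) ?_ ?_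
  swap
  · refine hy (fun a => (a.Y.comm (a.X.sup a.Y)).sup a.D) _ (by fun_prop) fun a ha hu => ?_
    have h1 := comm_split ha (Grp.le_false.1 hu.1.1.1.1.2) (hea a ha hu.1.1.2 hu.1.2)
      (Grp.le_false.1 hu.2)
    exact ⟨h1.1, h1.2.1, h1.2.2, Grp.le_false.1 hu.1.1.1.2⟩
  refine KR.node_cond (b := fun a : CI => (ge (a.1, a.2.1, a.L, a.X.sup a.Y, a.Y)).1)
    (by fun_prop) ?_ ?_
  · refine hv (fun a => (ge (a.1, a.2.1, a.L, a.X.sup a.Y, a.Y)).2.1) _ (by fun_prop)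
      fun a ha hu => ?_
    have h1 := (se a.1 a.2.1 a.L (a.X.sup a.Y) a.Y (vemb ha (Grp.le_false.1 hu.1.1.1.1.2))
      _ rfl).1 hu.2
    exact ⟨h1.1, h1.2.1, h1.2.2, Grp.le_false.1 hu.1.1.1.1.1.2,
      eaD ha (hea a ha hu.1.1.1.2 hu.1.1.2) (Grp.le_iff.1 hu.1.2)⟩
  · refine KR.node_leaf (g := fun a : CI => gh (a, (ge (a.1, a.2.1, a.L, a.X.sup a.Y, a.Y)).2.1,
      (ge (a.1, a.2.1, a.L, a.X.sup a.Y, a.Y)).2.2)) (by fun_prop) fun a ha hu => ?_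
    have h1 := (se a.1 a.2.1 a.L (a.X.sup a.Y) a.Y (vemb ha (Grp.le_false.1 hu.1.1.1.1.2))
      _ rfl).2 hu.2
    exact sh a _ _ ha (eaD ha (hea a ha hu.1.1.1.2 hu.1.1.2) (Grp.le_iff.1 hu.1.2)) h1.1 h1.2

end

end Pool.Agent.Lib.E5
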