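import Pool.Agent.Lib.E5.Spec

/-! E5 block COPR: transporting complements in the coprime case. -/

namespace Pool.Agent.Lib.E5

open Equiv Pool.Agent.Lib.helper80 Pool.Agent.Lib.MP_e519cf_lc Polynomial

noncomputable section
open Classical

namespace COPR

variable [KA]

/-- The normaliser of `X` in `L`. -/
def nz (L X : SG) : SG where
  carrier := {h | h ∈ L ∧ cj h X = X}
  one_mem' := ⟨one_mem _, M1.cj_one _⟩
  mul_mem' := fun {a b} ha hb => ⟨mul_mem ha.1 hb.1, by rw [M1.cj_mul, hb.2, ha.2]⟩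
  inv_mem' := fun {a} ha => ⟨inv_mem ha.1, by
    have := M1.cj_inv_cj a X
    rwa [ha.2] at this⟩

theorem mem_nz {L X : SG} {h : FP} : h ∈ nz L X ↔ h ∈ L ∧ cj h X = X := Iff.rfl

/-- The transporter inside `Y`. -/
def cy (g0 : ℕ × Grp × Grp × List FP × List FP → Cos) (n : ℕ) (Y D X Z : Grp) : Cos :=
  g0 (n, Y, D, X.gens, X.gens.map fun x => ((Cos.lc x Y).inter Z).rep)

def Sp0 (g : ℕ × Grp × Grp × List FP × List FP → Cos) : Prop :=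
  ∀ n (L K : Grp) gs hs, L.1 ≤ Sy n → K.1 ≤ Sy n → Nm L.1 K.1 → (∀ a ∈ gs, a ∈ Sy n) →
    (∀ a ∈ hs, a ∈ Sy n) → ∀ l, l ∈ g (n, L, K, gs, hs) ↔
      l ∈ L.1 ∧ ∀ i < gs.length, (hs.getD i 1)⁻¹ * (l * gs.getD i 1 * l⁻¹) ∈ K.1

theorem cy_eq {g0 : ℕ × Grp × Grp × List FP × List FP → Cos} (h0 : Sp0 g0) {n : ℕ} {Y D X Z : Grp}
    (hE : X.1 ⊔ Y.1 ≤ Sy n) (nD : Nm Y.1 D.1) (nY : Nm (X.1 ⊔ Y.1) Y.1)
    (e : Z.1 ⊔ Y.1 = X.1 ⊔ Y.1) (iX : X.1 ⊓ Y.1 = D.1) (iZ : Z.1 ⊓ Y.1 = D.1) :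
    cy g0 n Y D X Z = TR Y X Z := by
  have hX : X.1 ≤ Sy n := le_sup_left.trans hE
  have hY : Y.1 ≤ Sy n := le_sup_right.trans hE
  have hZE : Z.1 ≤ X.1 ⊔ Y.1 := e ▸ le_sup_left
  have hZ : Z.1 ≤ Sy n := hZE.trans hE
  have hDY : D.1 ≤ Y.1 := iX ▸ inf_le_right
  have hDZ : D.1 ≤ Z.1 := iZ ▸ inf_le_left
  have nX : Nm X.1 Y.1 := M1.nm_mono le_sup_left nY
  have nZ : Nm Z.1 Y.1 := M1.nm_mono hZE nY
  have hz : ∀ x ∈ X.1, x⁻¹ * ((Cos.lc x Y).inter Z).rep ∈ Y.1 ∧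
      ((Cos.lc x Y).inter Z).rep ∈ Z.1 := fun x hx => by
    have h1 : x ∈ Z.1 ⊔ Y.1 := e ▸ (le_sup_left : X.1 ≤ X.1 ⊔ Y.1) hx
    obtain ⟨z, hz, y, hy, rfl⟩ := (M1.mem_sup_nm nZ).1 h1
    have h2 : z ∈ (Cos.lc (z * y) Y).inter Z := ⟨by simpa using hy, hz⟩
    exact KG.rep_mem h2
  have hlen : len Z.1 = len X.1 := by
    have h1 := M2.len_sup hX hY nX
    have h2 := M2.len_sup hZ hY nZ
    rw [e, iZ] at h2
    rw [iX] at h1
    omega
  refine Cos.ext fun l => ?_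
  rw [cy, h0 n Y D _ _ hY (hDY.trans hY) nD (fun a ha => hX (KG.mem_of_gens ha))
    (fun a ha => by
      obtain ⟨x, hx, rfl⟩ := List.mem_map.1 ha
      exact hZ (hz x (KG.mem_of_gens hx)).2), mem_TR]
  refine and_congr_right fun hl => ?_
  have hiff : (∀ i < X.gens.length,
      ((X.gens.map fun x => ((Cos.lc x Y).inter Z).rep).getD i 1)⁻¹ *
        (l * X.gens.getD i 1 * l⁻¹) ∈ D.1) ↔
      ∀ x ∈ X.gens, (((Cos.lc x Y).inter Z).rep)⁻¹ * (l * x * l⁻¹) ∈ D.1 := by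
    constructor
    · intro h x hx
      obtain ⟨i, hi, rfl⟩ := List.getElem_of_mem hx
      have := h i hi
      rwa [List.getD_eq_getElem _ _ (by simpa using hi), List.getD_eq_getElem _ _ hi,
        List.getElem_map] at this
    · intro h i hi
      rw [List.getD_eq_getElem _ _ (by simpa using hi), List.getD_eq_getElem _ _ hi,
        List.getElem_map]
      exact h _ (List.getElem_mem hi)
  rw [hiff]
  constructor
  · intro h
    refine M2.eq_of_len hZ ?_ (by rw [M2.len_cj, hlen])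
    rw [← KG.closure_gens X, M1.cj_closure, Subgroup.closure_le]
    rintro _ ⟨x, hx, rfl⟩
    have := mul_mem (hz x (KG.mem_of_gens hx)).2 (hDZ (h x hx))
    rwa [mul_inv_cancel_left] at this
  · intro h x hx
    have hx' := KG.mem_of_gens hx
    have h1 : l * x * l⁻¹ ∈ Z.1 := by
      rw [← h, mem_cj]; simpa [mul_assoc] using hx'
    rw [← iZ]
    refine Subgroup.mem_inf.2 ⟨mul_mem (inv_mem (hz x hx').2) h1, ?_⟩
    have h2 := mul_mem (mul_mem (inv_mem (hz x hx').1) (nX x⁻¹ (inv_mem hx') l hl)) (inv_mem hl)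
    simpa [mul_assoc] using h2

/-- The program. -/
def prog (g0 : ℕ × Grp × Grp × List FP × List FP → Cos) (a : CI) : Cos :=
  Cos.lc (cy g0 a.1 a.Y a.D a.X a.Z).rep (Grp.ofL ((cy g0 a.1 a.Y a.D a.X a.Z).grp.gens ++
    a.L.gens.map fun l => (cy g0 a.1 a.Y a.D a.X (Grp.cj l a.X)).rep⁻¹ * l))

theorem ot_cy {g0 : ℕ × Grp × Grp × List FP × List FP → Cos} (h0 : OT g0) (h : S_inter) :
    OT fun p : ℕ × Grp × Grp × Grp × Grp => cy g0 p.1 p.2.1 p.2.2.1 p.2.2.2.1 p.2.2.2.2 := by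
  unfold S_inter at h; unfold cy; fun_prop

theorem ot_prog {g0 : ℕ × Grp × Grp × List FP × List FP → Cos} (h0 : OT g0) (h : S_inter) :
    OT (prog g0) := by
  have h1 := ot_cy h0 h
  unfold prog; fun_prop

theorem prog_eq {g0 : ℕ × Grp × Grp × List FP × List FP → Cos} (h0 : Sp0 g0) {n p q : ℕ}
    {L D Y X Z : Grp} (hV : VComp n p L.1 D.1 Y.1 X.1 Z.1) (hq : q.Prime) (hne : q ≠ p)
    (hY : EA q Y.1 D.1) : prog g0 (n, p, L, D, Y, X, Z) = TR L X Z := by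
  have hE : X.1 ⊔ Y.1 ≤ Sy n := hV.nE.1.trans hV.le
  have nD : NI (X.1 ⊔ Y.1) D.1 := ⟨hV.DY.trans le_sup_right, M1.nm_mono hV.nE.1 hV.nD.2⟩
  have nY : NI (X.1 ⊔ Y.1) Y.1 := ⟨le_sup_right, M1.nm_mono hV.nE.1 hV.nY.2⟩
  have key : ∀ W : Grp, W.1 ⊔ Y.1 = X.1 ⊔ Y.1 → W.1 ⊓ Y.1 = D.1 → EA p W.1 D.1 →
      cy g0 n Y D X W = TR Y X W ∧ (TR Y X W).isE = false ∧ (TR Y X W).rep ∈ TR Y X W := by
    intro W e i w
    obtain ⟨y, hy, hc⟩ := M2.sylow hE hV.pp hq hne nD nY e hV.iX i hV.eX w hY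
    have : y ∈ TR Y X W := ⟨hy, hc⟩
    exact ⟨cy_eq h0 hE (M1.nm_mono hV.nY.1 hV.nD.2) nY.2 e hV.iX i, Cos.isE_false.2 ⟨y, this⟩,
      KG.rep_mem this⟩
  obtain ⟨e0, ne0, r0⟩ := key Z hV.eq hV.iZ hV.eZ
  have keyl : ∀ l ∈ L.1, (cy g0 n Y D X (Grp.cj l X)).rep ∈ TR Y X (Grp.cj l X) := fun l hl => by
    have h1 : cj l Y.1 = Y.1 := M1.cj_of_nm hV.nY.2 hl
    have h2 : cj l D.1 = D.1 := M1.cj_of_nm hV.nD.2 hl
    obtain ⟨a, -, c⟩ := key (Grp.cj l X)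
      (by rw [Grp.cj_val]; conv_lhs => rw [← h1]
          rw [← M1.cj_sup, M1.cj_of_nm hV.nE.2 hl])
      (by rw [Grp.cj_val]; conv_lhs => rw [← h1]
          rw [← M1.cj_inf, hV.iX, h2])
      (by have := M1.ea_cj l hV.eX
          rwa [h2] at this)
    rwa [a]
  have hG : (Grp.ofL ((TR Y X Z).grp.gens ++
      L.gens.map fun l => (cy g0 n Y D X (Grp.cj l X)).rep⁻¹ * l)).1 = nz L.1 X.1 := by
    set G := (Grp.ofL ((TR Y X Z).grp.gens ++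
      L.gens.map fun l => (cy g0 n Y D X (Grp.cj l X)).rep⁻¹ * l)).1 with hGd
    have h1 : G ≤ nz L.1 X.1 := by
      rw [hGd, Grp.ofL_val, Subgroup.closure_le]
      intro x hx
      rcases List.mem_append.1 hx with hx | hx
      · have := (M6.grp_TR ne0).1 (KG.mem_of_gens hx)
        exact ⟨hV.nY.1 this.1, this.2⟩
      · obtain ⟨l, hl, rfl⟩ := List.mem_map.1 hx
        have hl' := KG.mem_of_gens hl
        obtain ⟨a, b⟩ := mem_TR.1 (keyl l hl')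
        refine ⟨mul_mem (inv_mem (hV.nY.1 a)) hl', ?_⟩
        rw [M1.cj_mul, ← Grp.cj_val, ← b, M1.cj_inv_cj]
    have h2 : (TR Y X Z).grp.1 ≤ G := by
      rw [← KG.closure_gens, hGd, Grp.ofL_val]
      exact Subgroup.closure_mono fun x hx => List.mem_append_left _ hx
    have h3 : L.1 ≤ G ⊔ Y.1 := by
      rw [← KG.closure_gens L, Subgroup.closure_le]
      intro l hl
      have a := (mem_TR.1 (keyl l (KG.mem_of_gens hl))).1
      have b : (cy g0 n Y D X (Grp.cj l X)).rep⁻¹ * l ∈ G :=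
        Subgroup.subset_closure (List.mem_append_right _ (List.mem_map.2 ⟨l, hl, rfl⟩))
      have := mul_mem ((le_sup_right : Y.1 ≤ G ⊔ Y.1) a) ((le_sup_left : G ≤ G ⊔ Y.1) b)
      rwa [mul_inv_cancel_left] at this
    refine le_antisymm h1 fun h hh => ?_
    obtain ⟨g, hg, y, hy, rfl⟩ :=
      (M1.mem_sup_nm (M1.nm_mono (fun x hx => (h1 hx).1) hV.nY.2)).1 (h3 hh.1)
    have h4 := mul_mem (inv_mem (h1 hg)) hh
    rw [inv_mul_cancel_left] at h4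
    exact mul_mem hg (h2 ((M6.grp_TR ne0).2 ⟨hy, h4.2⟩))
  refine Cos.ext fun x => ?_
  show x ∈ Cos.lc (cy g0 n Y D X Z).rep (Grp.ofL ((cy g0 n Y D X Z).grp.gens ++
    L.gens.map fun l => (cy g0 n Y D X (Grp.cj l X)).rep⁻¹ * l)) ↔ _
  obtain ⟨a, b⟩ := mem_TR.1 r0
  have a' := hV.nY.1 a
  rw [e0, Cos.mem_lc, hG, mem_nz, mem_TR, M1.cj_mul]
  constructor
  · rintro ⟨c, d⟩
    refine ⟨by simpa using mul_mem a' c, ?_⟩
    rw [← b, ← M1.cj_cj_inv (TR Y X Z).rep (cj x X.1), d]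
  · rintro ⟨c, d⟩
    refine ⟨mul_mem (inv_mem a') c, ?_⟩
    rw [d]
    conv_lhs => rw [← b]
    exact M1.cj_inv_cj _ _

end COPR

theorem b_copr [KA] (h : Prim) : S_copr := by
  obtain ⟨g0, h0, hs⟩ := h.cf0
  exact ⟨COPR.prog g0, COPR.ot_prog h0 h.inter, fun a q hV hq hne hY =>
    COPR.prog_eq hs hV hq hne hY⟩

end

end Pool.Agent.Lib.E5
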