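import Pool.Agent.Lib.E5.Spec

namespace Pool.Agent.Lib.E5

open Equiv Pool.Agent.Lib.helper80 Pool.Agent.Lib.MP_e519cf_lc Polynomial

noncomputable section
open Classical

namespace Emb

variable [KA]

/-- The diagonal copy of `g` on two halves. -/
def dbl (n : ℕ) (g : FP) : FP := g * (sw n * g * (sw n)⁻¹)

def dG (n : ℕ) (H : Grp) : Grp := Grp.ofL (H.gens.map fun g => g * (sw n * g * (sw n)⁻¹))

omit [KA] in
theorem cj_mem {n : ℕ} {g : FP} (hg : g ∈ Sy n) : sw n * g * (sw n)⁻¹ ∈ (symB n).1 := by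
  simpa [symB, mul_assoc] using hg

theorem dbl_mul {n : ℕ} {g h : FP} (hg : g ∈ Sy n) (hh : h ∈ Sy n) : dbl n (g * h) = dbl n g * dbl n h := by
  have := M3.comm_halves hh (cj_mem hg)
  unfold dbl
  calc _ = g * (h * (sw n * g * (sw n)⁻¹)) * (sw n * h * (sw n)⁻¹) := by group
    _ = _ := by rw [this]; group

omit [KA] in
theorem dbl_one (n : ℕ) : dbl n 1 = 1 := by simp [dbl]

theorem dbl_inv {n : ℕ} {g : FP} (hg : g ∈ Sy n) : dbl n g⁻¹ = (dbl n g)⁻¹ :=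
  eq_inv_of_mul_eq_one_left (by rw [← dbl_mul (inv_mem hg) hg, inv_mul_cancel, dbl_one])

theorem mem_dG {n : ℕ} {H : Grp} (hH : H.1 ≤ Sy n) {x : FP} : x ∈ (dG n H).1 ↔ ∃ h ∈ H.1, dbl n h = x := by
  constructor
  · intro hx
    induction hx using Subgroup.closure_induction with
    | mem y hy =>
      obtain ⟨g, hg, rfl⟩ := List.mem_map.1 hy
      exact ⟨g, KG.mem_of_gens hg, rfl⟩
    | one => exact ⟨1, one_mem _, dbl_one n⟩
    | mul y z _ _ hy hz =>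
      obtain ⟨a, ha, rfl⟩ := hy
      obtain ⟨b, hb, rfl⟩ := hz
      exact ⟨a * b, mul_mem ha hb, dbl_mul (hH ha) (hH hb)⟩
    | inv y _ hy =>
      obtain ⟨a, ha, rfl⟩ := hy
      exact ⟨a⁻¹, inv_mem ha, dbl_inv (hH ha)⟩
  · rintro ⟨h, hh, rfl⟩
    rw [← KG.closure_gens H] at hh hH
    induction hh using Subgroup.closure_induction with
    | mem y hy => exact Subgroup.subset_closure (List.mem_map.2 ⟨y, hy, rfl⟩)
    | one => rw [dbl_one]; exact one_mem _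
    | mul y z a b hy hz => rw [dbl_mul (hH a) (hH b)]; exact mul_mem hy hz
    | inv y a hy => rw [dbl_inv (hH a)]; exact inv_mem hy

theorem dbl_in {n : ℕ} {g : FP} (hg : g ∈ Sy n) : dbl n g ∈ Sy (2 * n) ∧ dbl n g ∈ sst (Finset.range n) := by
  have := (M3.mem_prod (A := Sy n) (J := (symB n).1) le_rfl le_rfl).1
    (Subgroup.mul_mem_sup hg (cj_mem hg))
  exact ⟨this.1, this.2.1⟩

theorem dG_le {n : ℕ} {H : Grp} (hH : H.1 ≤ Sy n) :
    (dG n H).1 ≤ Sy (2 * n) ∧ (dG n H).1 ≤ sst (Finset.range n) := by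
  constructor <;> intro x hx <;> obtain ⟨h, hh, rfl⟩ := (mem_dG hH).1 hx
  exacts [(dbl_in (hH hh)).1, (dbl_in (hH hh)).2]

theorem con_dG {n : ℕ} {H : Grp} (hH : H.1 ≤ Sy n) : ((dG n H).con (Finset.range n)).1 = H.1 := by
  ext x
  rw [M3.mem_con (dG_le hH).2]
  constructor
  · rintro ⟨y, hy, rfl⟩
    obtain ⟨h, hh, rfl⟩ := (mem_dG hH).1 hy
    have e : res (Finset.range n) (dbl n h) = h := M3.lft_prod (hH hh) (cj_mem (hH hh))
    rwa [e]
  · exact fun hx => ⟨_, (mem_dG hH).2 ⟨x, hx, rfl⟩, M3.lft_prod (hH hx) (cj_mem (hH hx))⟩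

theorem lk0 {n p : ℕ} {L K1 K2 : Grp} (h : VEmb n p L.1 K1.1 K2.1) : Lk n L K1 K2 (dG n L) (dG n K1) := by
  have h1 : K1.1 ≤ Sy n := h.n1.1.trans h.le
  refine ⟨(dG_le h.le).1, (dG_le h.le).2, ⟨fun x hx => ?_, fun l hl d hd => ?_⟩,
    by rw [con_dG h.le, sup_eq_left.2 h.n2.1], by rw [con_dG h1, sup_eq_left.2 h.ea.1], fun g hg e => ?_⟩
  · obtain ⟨k, hk, rfl⟩ := (mem_dG h1).1 hx
    exact (mem_dG h.le).2 ⟨k, h.n1.1 hk, rfl⟩
  · obtain ⟨a, ha, rfl⟩ := (mem_dG h.le).1 hl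
    obtain ⟨k, hk, rfl⟩ := (mem_dG h1).1 hd
    refine (mem_dG h1).2 ⟨_, h.n1.2 a ha k hk, ?_⟩
    rw [dbl_mul (mul_mem (h.le ha) (h1 hk)) (inv_mem (h.le ha)), dbl_mul (h.le ha) (h1 hk), dbl_inv (h.le ha)]
  · obtain ⟨k, hk, rfl⟩ := (mem_dG h1).1 hg
    rw [dbl, M3.rgt_prod (h1 hk) (cj_mem (h1 hk)), mul_inv_eq_one, mul_eq_left] at e
    rw [dbl, M3.lft_prod (h1 hk) (cj_mem (h1 hk)), e]
    exact one_mem _

abbrev EI : Type := ℕ × ℕ × Grp × Grp × Grp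
abbrev ER : Type := Bool × Grp × Grp

/-- One step of the loop. -/
def stp (g : ℕ × ℕ × Grp × Grp × Grp × Grp × Grp → ER) (s : EI × ER) : EI × ER :=
  bif s.2.1 then s else bif Grp.ea s.1.2.1 (s.2.2.2.con (RH s.1.1)) Grp.bot then s else
    (s.1, g (s.1.1, s.1.2.1, s.1.2.2.1, s.1.2.2.2.1, s.1.2.2.2.2, s.2.2.1, s.2.2.2))

/-- The loop invariant after `k` steps. -/
def Iv (n p : ℕ) (L K1 K2 : Grp) (k : ℕ) (r : ER) : Prop :=
  (r.1 = true → NI L.1 r.2.1.1 ∧ K2.1 < r.2.1.1 ∧ r.2.1.1 < K1.1 ∧ r.2.2 = Grp.bot) ∧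
  (r.1 = false → Lk n L K1 K2 r.2.1 r.2.2 ∧ (EA p (r.2.2.con (RH n)).1 ⊥ ∨
    pot n (r.2.2.con (RH n)) + k ≤ (4 * n * n + 1) * (4 * n * n + 1)))

end Emb

open Emb in
theorem b_embed [KA] (_h : Prim) (hr : S_round) : S_embed := by
  obtain ⟨g, hg, hs⟩ := hr
  have key : ∀ n p (L K1 K2 : Grp), VEmb n p L.1 K1.1 K2.1 → ∀ k, ∃ r,
      (stp g)^[k] ((n, p, L, K1, K2), false, dG n L, dG n K1) = ((n, p, L, K1, K2), r) ∧ Iv n p L K1 K2 k r := by
    intro n p L K1 K2 hV k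
    induction k with
    | zero =>
      refine ⟨_, rfl, fun e => absurd e Bool.false_ne_true, fun _ => ⟨lk0 hV, Or.inr (M7.pot_le ?_)⟩⟩
      exact M3.con_le _ (dG_le (hV.n1.1.trans hV.le)).1
    | succ k ih =>
      obtain ⟨⟨b, A, B⟩, e, h1, h2⟩ := ih
      rw [Function.iterate_succ_apply', e]
      cases b with
      | true => exact ⟨_, rfl, h1, fun e => absurd e.symm Bool.false_ne_true⟩
      | false =>
        obtain ⟨h3, h4⟩ := h2 rfl
        by_cases hE : EA p (B.con (RH n)).1 ⊥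
        · have : Grp.ea p (B.con (RH n)) Grp.bot = true := Grp.ea_iff.2 hE
          exact ⟨(false, A, B), by simp only [stp, this, cond_true, cond_false], h1, fun _ => ⟨h3, Or.inl hE⟩⟩
        · have : Grp.ea p (B.con (RH n)) Grp.bot = false := Grp.ea_false.2 hE
          obtain ⟨h5, h6⟩ := hs n p L K1 K2 A B hV h3 hE _ rfl
          refine ⟨g (n, p, L, K1, K2, A, B), by simp only [stp, this, cond_false], h5, fun e => ⟨(h6 e).1, Or.inr ?_⟩⟩
          have a1 := (h6 e).2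
          have a2 := h4.resolve_left hE
          simp only at a2
          omega
  obtain ⟨G, hG, hGs⟩ := KO.ot_iter (step := stp g) (n := fun a : EI => (4 * a.1 * a.1 + 1) * (4 * a.1 * a.1 + 1) + 1)
    (s := fun a : EI => (a, false, dG a.1 a.2.2.1, dG a.1 a.2.2.2.1))
    (fun a => VEmb a.1 a.2.1 a.2.2.1.1 a.2.2.2.1.1 a.2.2.2.2.1) (2 * X + 5 + 3 * SBp.comp (2 * X))
    (by unfold stp; fun_prop) (by fun_prop) (by unfold dG; fun_prop) (by
      rintro ⟨n, p, L, K1, K2⟩ hV i -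
      obtain ⟨⟨b, A, B⟩, e, h1, h2⟩ := key n p L K1 K2 hV i
      have hAB : A.1 ≤ Sy (2 * n) ∧ B.1 ≤ Sy (2 * n) := by
        cases b with
        | true =>
          obtain ⟨a1, -, -, a2⟩ := h1 rfl
          simp only at a1 a2
          exact ⟨a1.1.trans (hV.le.trans (Sy_mono (by omega))), by rw [a2]; exact bot_le⟩
        | false => exact ⟨(h2 rfl).1.le, (h2 rfl).1.ni.1.trans (h2 rfl).1.le⟩
      have hn : 2 * n ≤ 2 * sz ((n, p, L, K1, K2) : EI) := by rw [sz_pair, sz_nat]; omega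
      have a1 := (KG.sz_Grp hAB.1).trans (SB_mono hn)
      have a2 := (KG.sz_Grp hAB.2).trans (SB_mono hn)
      simp only [e]
      rw [sz_pair, sz_pair b, sz_pair A, sz_bool]
      simp only [eval_add, eval_mul, eval_comp, eval_X, eval_ofNat, eval_SBp]
      omega)
  refine ⟨fun a => (G a).2, by fun_prop, fun n p L K1 K2 hV r hr => ?_⟩
  obtain ⟨r', e, h1, h2⟩ := key n p L K1 K2 hV ((4 * n * n + 1) * (4 * n * n + 1) + 1)
  simp only [hGs (n, p, L, K1, K2) hV, e] at hr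
  subst hr
  exact ⟨fun e => ⟨(h1 e).1, (h1 e).2.1, (h1 e).2.2.1⟩, fun e => ⟨(h2 e).1, (h2 e).2.resolve_right (by omega)⟩⟩

end

end Pool.Agent.Lib.E5
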