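import Pool.Agent.Lib.E5.Spec

/-! E5, block EXP: export of oracle computations to machines. -/

namespace Pool.Agent.Lib.E5

open Equiv Pool.Agent.Lib.helper80 Pool.Agent.Lib.MP_e519cf_lc Polynomial

noncomputable section
open Classical

namespace EXP

/-! ### Codes -/

theorem mark_eq (u : List Bool) : mark u = delim u := (Comp.delim_eq u).symm

theorem codeL_eq {α : Type} (c : α → List Bool) : codeL c = encList c := by
  funext l
  induction l with
  | nil => rfl
  | cons a l ih => rw [encList, ← ih, codeL, codeL, List.flatMap_cons, mark_eq]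

theorem codeP_eq {α β : Type} [Enc α] [Enc β] :
    codeP (enc : α → List Bool) (enc : β → List Bool) = enc := by
  funext p; rw [codeP, mark_eq]; rfl

theorem codeT_eq : codeT = enc := by rw [codeT, codeL_eq, codeL_eq]; rfl

theorem codeNI_eq : codeNI = enc := by
  have h2 : codeN = enc := rfl
  rw [codeNI, codeT_eq, h2, codeP_eq, codeP_eq]

theorem codeQ_eq : codeQ = enc := by
  have h1 : codeL codeN = enc := by rw [codeL_eq]; rfl
  have h2 : codeN = enc := rfl
  have h3 : (fun b : Bool => [b]) = enc := rfl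
  rw [codeQ, codeT_eq, h1, h2, h3, codeP_eq, codeP_eq, codeP_eq]

theorem codeIn_eq : codeP codeNI (codeL codeT) = enc := by
  have h1 : codeL codeT = enc := by rw [codeT_eq, codeL_eq]; rfl
  rw [h1, codeNI_eq, codeP_eq]

/-! ### Tables -/

/-- The table of `g` in degree `m`. -/
def tbl (m : ℕ) (g : FP) : List ℕ := (List.range m).map fun x => g • x

/-- The group generated by a list of tables. -/
def grpT (m : ℕ) (a : Tabs) : Grp := Grp.ofL (a.map fun l => mkP m fun x => app l x)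

/-- Primality test. -/
def isP (p : ℕ) : Bool :=
  Nat.ble 2 p && (List.range p).all fun d => Nat.blt d 2 || !Nat.beq (p % d) 0

theorem isP_iff (p : ℕ) : isP p = true ↔ p.Prime := by
  rw [Nat.prime_def_lt']
  simp only [isP, Bool.and_eq_true, Nat.ble_eq, List.all_eq_true, List.mem_range, Bool.or_eq_true,
    Nat.blt_eq, Bool.not_eq_true', ← Bool.not_eq_true, Nat.beq_eq]
  refine and_congr_right fun _ => ⟨fun h m h1 h2 h3 => ?_, fun h d hd => ?_⟩
  · rcases h m h2 with h4 | h4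
    · omega
    · exact h4 (Nat.mod_eq_zero_of_dvd h3)
  · by_cases h1 : d < 2
    · exact Or.inl h1
    · exact Or.inr fun h2 => h d (not_lt.1 h1) hd (Nat.dvd_of_mod_eq_zero h2)

/-- The promise of the second oracle. -/
def ok (m : ℕ) (X : Grp) : Bool :=
  Nat.ble X.bd m && (List.range (m + 3)).any fun p => isP p && Grp.ea p X Grp.bot

theorem ok_iff [K1] (m : ℕ) (X : Grp) :
    ok m X = true ↔ X.1 ≤ Sy m ∧ ∃ p, p.Prime ∧ EA p X.1 ⊥ := by
  simp only [ok, Bool.and_eq_true, Nat.ble_eq, List.any_eq_true, List.mem_range, isP_iff,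
    Grp.ea_iff, Grp.bot_val, Grp.bd_le]
  refine and_congr_right fun hX => ⟨fun ⟨p, _, h⟩ => ⟨p, h⟩, fun ⟨p, hp, h⟩ => ?_⟩
  by_cases h1 : ∀ g ∈ X.1, g = 1
  · refine ⟨2, by omega, Nat.prime_two, h.1, h.2.1, fun a ha => ?_⟩
    rw [h1 a ha, one_pow]
    exact one_mem _
  · push Not at h1
    obtain ⟨g, hg, hne⟩ := h1
    have : Fact p.Prime := ⟨hp⟩
    have h2 : orderOf g = p := orderOf_eq_prime (Subgroup.mem_bot.1 (h.2.2 g hg)) hne
    have h3 : orderOf g ∣ Nat.card (Sy m) := Subgroup.orderOf_dvd_natCard _ (hX hg)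
    rw [h2, K1.card_Sy, hp.dvd_factorial] at h3
    exact ⟨p, by omega, hp, h⟩

/-- The degree of the real query. -/
def deg (q : Qy) : ℕ := bif q.1 then q.2.2.1.bd + sz q.2.2.2 else q.2.1

/-- The real query. -/
def rq (q : Qy) : Qr :=
  (q.1, deg q, q.2.2.1.gens.map fun g => tbl (deg q) g, bif q.1 then els q.2.2.2 else [])

/-- The canonical form of an answer. -/
def canon (q : Qy) (a : Tabs) : Grp :=
  bif q.1 || ok q.2.1 q.2.2.1 then grpT (deg q) a else Grp.bot

theorem pt_deg [K1] [KG] : PT deg := by unfold deg; fun_prop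

theorem pt_rq [K1] [KG] : PT rq := by
  have h := pt_deg
  unfold rq tbl; fun_prop

theorem pt_ok [K1] [KG] [K5] : PT fun p : ℕ × Grp => ok p.1 p.2 := by
  unfold ok isP; fun_prop

theorem pt_grpT [K1] [KL] : PT fun p : ℕ × Tabs => grpT p.1 p.2 := by
  unfold grpT; fun_prop

theorem pt_canon [K1] [KG] [KL] [K5] : PT fun p : Qy × Tabs => canon p.1 p.2 := by
  unfold canon
  exact PT.cond (PT.or (by fun_prop)
      (PT.comp (g := fun p : Qy × Tabs => (p.1.2.1, p.1.2.2.1)) pt_ok (by fun_prop)))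
    (PT.comp (g := fun p : Qy × Tabs => (deg p.1, p.2)) pt_grpT
      (PT.prodMk (PT.comp pt_deg (by fun_prop)) (by fun_prop))) (PT.const _)

/-- The embedding of the symmetric group. -/
def upH [K1] (m : ℕ) : Perm (Fin m) →* FP := MonoidHom.mk' up K1.up_mul

theorem up_mem {m : ℕ} (σ : Perm (Fin m)) : up σ ∈ Sy m := mkP_mem _ _

theorem exists_gs [K1] [KG] {m : ℕ} {X : Grp} (h : X.1 ≤ Sy m) :
    ∃ gs : List (Perm (Fin m)), (X.gens.map fun g => tbl m g) = gs.map tab ∧
      (∀ σ ∈ gs, up σ ∈ X.1) ∧ ∀ σ, σ ∈ gen gs ↔ up σ ∈ X.1 := by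
  obtain ⟨gs, hgs⟩ : ∃ gs : List (Perm (Fin m)), gs.map up = X.gens := by
    refine ⟨X.gens.map (Function.invFun up), ?_⟩
    rw [List.map_map]
    conv_rhs => rw [← List.map_id X.gens]
    exact List.map_congr_left fun g hg =>
      Function.invFun_eq (f := up) (K1.up_surj (h (KG.mem_of_gens hg)))
  refine ⟨gs, ?_, fun σ hσ => KG.mem_of_gens (hgs ▸ List.mem_map_of_mem hσ), fun σ => ?_⟩
  · rw [← hgs, List.map_map]
    exact List.map_congr_left fun σ _ => K1.tab_up σ
  · rw [K1.mem_gen_up, hgs, Grp.ofL_val, KG.closure_gens]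

theorem grpT_eq [K1] {m : ℕ} (ns : List (Perm (Fin m))) {K : SG} (hK : K ≤ Sy m)
    (h : ∀ σ, σ ∈ gen ns ↔ up σ ∈ K) : (grpT m (ns.map tab)).1 = K := by
  have e : grpT m (ns.map tab) = Grp.ofL (ns.map up) := by
    rw [grpT, List.map_map]; rfl
  have h1 : (Grp.ofL (ns.map up)).1 ≤ Sy m := by
    rw [Grp.ofL_val, Subgroup.closure_le]
    intro x hx
    obtain ⟨σ, -, rfl⟩ := List.mem_map.1 hx
    exact up_mem σ
  rw [e]
  ext g
  constructor
  · intro hg
    obtain ⟨σ, rfl⟩ := K1.up_surj (h1 hg)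
    exact (h σ).1 ((K1.mem_gen_up ns σ).2 hg)
  · intro hg
    obtain ⟨σ, rfl⟩ := K1.up_surj (hK hg)
    exact (K1.mem_gen_up ns σ).1 ((h σ).2 hg)

theorem canon_true [K1] [KG] (m : ℕ) (X : Grp) (S : Finset ℕ) (a : Tabs)
    (h : Ans (rq (true, m, X, S)) a) : canon (true, m, X, S) a = orc (true, m, X, S) := by
  have hX : X.1 ≤ Sy (X.bd + sz S) := Grp.bd_le.1 (Nat.le_add_right _ _)
  have hS : ∀ x ∈ S, x < X.bd + sz S := fun x hx => (K1.lt_sz_FS hx).trans_le (Nat.le_add_left _ _)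
  obtain ⟨gs, h1, -, h2⟩ := exists_gs hX
  obtain ⟨Δ, hΔ⟩ : ∃ Δ : List (Fin (X.bd + sz S)), Δ.map Fin.val = els S :=
    ⟨(els S).pmap Fin.mk fun x hx => hS x (mem_els.1 hx), by simp [List.map_pmap]⟩
  have hΔ2 : ∀ z : Fin (X.bd + sz S), z ∈ Δ ↔ (z : ℕ) ∈ S := by
    intro z
    rw [← mem_els, ← hΔ, List.mem_map_of_injective Fin.val_injective]
  obtain ⟨ns, rfl, hns⟩ := h.1 (X.bd + sz S) gs Δ (by rw [hΔ, ← h1]; rfl)
  refine Grp.ext (grpT_eq ns (K := X.1 ⊓ sst S) (inf_le_left.trans hX) fun σ => ?_)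
  rw [hns, Subgroup.mem_inf, Subgroup.mem_inf, h2, MulAction.mem_stabilizer_set, mem_sst]
  refine and_congr_right fun _ => ⟨fun h3 x => ?_, fun h3 z => ?_⟩
  · by_cases hx : x < X.bd + sz S
    · have h4 := h3 ⟨x, hx⟩
      simp only [Set.mem_ofPred_eq, hΔ2, Perm.smul_def] at h4
      rw [← K1.up_smul σ ⟨x, hx⟩] at h4
      exact h4
    · rw [up_mem σ x (not_lt.1 hx)]
  · have h4 := h3 z
    rw [K1.up_smul] at h4
    simp only [Set.mem_ofPred_eq, hΔ2, Perm.smul_def]
    exact h4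

theorem canon_false [K1] [KG] (m : ℕ) (X : Grp) (S : Finset ℕ) (a : Tabs)
    (h : Ans (rq (false, m, X, S)) a) : canon (false, m, X, S) a = orc (false, m, X, S) := by
  show (bif false || ok m X then grpT m a else Grp.bot) = Grp.enorm m X
  rw [Bool.false_or, Grp.enorm]
  by_cases hk : X.1 ≤ Sy m ∧ ∃ p, p.Prime ∧ EA p X.1 ⊥
  swap
  · have : ok m X = false := by rw [← Bool.not_eq_true, ok_iff]; exact hk
    rw [this, if_neg hk, cond_false]
  rw [(ok_iff m X).2 hk, if_pos hk, cond_true]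
  obtain ⟨hX, p, hp, hea⟩ := hk
  obtain ⟨gs, h1, h0, h2⟩ := exists_gs hX
  obtain ⟨ns, rfl, hns⟩ := h.2 m gs p (by rw [← h1]; rfl) hp
    (fun g hg k hk => K1.up_inj (by
      have := Subgroup.mem_bot.1 (hea.2.1 _ (h0 g hg) _ (h0 k hk))
      rw [K1.up_mul, K1.up_mul]
      rwa [mul_inv_eq_one, mul_inv_eq_iff_eq_mul] at this))
    (fun g hg => K1.up_inj (by
      have := Subgroup.mem_bot.1 (hea.2.2 _ (h0 g hg))
      exact ((upH m).map_pow g p).trans (this.trans (upH m).map_one.symm)))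
  refine Grp.ext (grpT_eq ns (K := Sy m ⊓ Subgroup.normalizer (X.1 : Set FP)) inf_le_left
    fun σ => ?_)
  have hc : ∀ τ : Perm (Fin m), up (σ * τ * σ⁻¹) = up σ * up τ * (up σ)⁻¹ := fun τ => by
    rw [K1.up_mul, K1.up_mul]
    exact congrArg _ ((upH m).map_inv σ)
  rw [hns, Subgroup.mem_inf, Subgroup.mem_normalizer_iff, Subgroup.mem_normalizer_iff]
  refine ⟨fun h3 => ⟨up_mem σ, fun g => ⟨fun hg => ?_, fun hg => ?_⟩⟩, fun h3 τ => ?_⟩
  · obtain ⟨τ, rfl⟩ := K1.up_surj (hX hg)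
    rw [← hc, ← h2, ← h3, h2]
    exact hg
  · have h4 : g ∈ Sy m := by
      have := mul_mem (mul_mem (inv_mem (up_mem σ)) (hX hg)) (up_mem σ)
      simpa [mul_assoc] using this
    obtain ⟨τ, rfl⟩ := K1.up_surj h4
    rwa [← hc, ← h2, ← h3, h2] at hg
  · rw [h2, h2, hc]
    exact h3.2 _

theorem canon_eq [K1] [KG] (q : Qy) (a : Tabs) (h : Ans (rq q) a) : canon q a = orc q := by
  obtain ⟨b, m, X, S⟩ := q
  cases b
  · exact canon_false m X S a h
  · exact canon_true m X S a h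

end EXP

theorem b_export [KA] : S_export := by
  rintro f ⟨σ, _, init, qry, upd, out, P, h1, h2, h3, h4, h5⟩
  let g : NIn × List Tabs → σ → Tabs → σ := fun p s a =>
    bif Nat.ble (sz (upd (s, EXP.canon (qry s) a))) (P.eval (sz p.1))
      then upd (s, EXP.canon (qry s) a) else init p.1
  let st : NIn × List Tabs → σ := fun p => p.2.foldl (g p) (init p.1)
  obtain ⟨r0, hr0⟩ := h1.sz_le
  have hu : PT fun w : (NIn × List Tabs) × σ × Tabs => upd (w.2.1, EXP.canon (qry w.2.1) w.2.2) :=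
    PT.comp h3 (PT.prodMk (by fun_prop)
      (PT.comp (g := fun w : (NIn × List Tabs) × σ × Tabs => (qry w.2.1, w.2.2)) EXP.pt_canon
        (PT.prodMk (PT.comp h2 (by fun_prop)) (by fun_prop))))
  have hst : PT st := by
    refine PT.foldl (f := g) (PT.cond (PT.ble (PT.sz' hu)
        (PT.comp (K1.pt_eval P) (PT.sz' (by fun_prop)))) hu (PT.comp h1 (by fun_prop)))
      (by fun_prop) (PT.comp h1 (by fun_prop)) (P + r0) fun p n => ?_
    have e0 : sz p.1 ≤ sz p := by
      obtain ⟨x, t⟩ := p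
      simp only [sz_pair]
      omega
    have e1 := eval_mono P e0
    have e2 := (hr0 p.1).trans (eval_mono r0 e0)
    rw [eval_add]
    induction p.2.take n using List.reverseRecOn with
    | nil => exact e2.trans (Nat.le_add_left _ _)
    | append_singleton l a _ =>
      rw [List.foldl_append, List.foldl_cons, List.foldl_nil]
      generalize List.foldl (g p) (init p.1) l = s
      simp only [g]
      cases hb : Nat.ble (sz (upd (s, EXP.canon (qry s) a))) (P.eval (sz p.1))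
      · exact e2.trans (Nat.le_add_left _ _)
      · exact ((Nat.le_of_ble_eq_true hb).trans e1).trans (Nat.le_add_right _ _)
  have hF : PT fun s => EXP.rq (qry s) := PT.comp EXP.pt_rq h2
  obtain ⟨r, hr⟩ := hF.sz_le
  refine ⟨fun p => EXP.rq (qry (st p)), fun p => out (st p), P + r.comp P, ?_, ?_, ?_⟩
  · rw [EXP.codeIn_eq, EXP.codeQ_eq]
    exact Comp.toTM2 (PT.comp EXP.pt_rq (PT.comp h2 hst))
  · rw [EXP.codeIn_eq, EXP.codeT_eq]
    exact Comp.toTM2 (PT.comp h4 hst)
  intro x t ht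
  have key : ∀ k, k ≤ t.length →
      st (x, t.take k) = (fun s => upd (s, orc (qry s)))^[k] (init x) := by
    intro k
    induction k with
    | zero => intro _; rfl
    | succ k ih =>
      intro hk
      have ih := ih (by omega)
      have e := EXP.canon_eq _ _ (ht k hk)
      have e1 : st (x, t.take (k + 1)) = g (x, []) (st (x, t.take k)) t[k] := by
        simp only [st]
        rw [List.take_succ_eq_append_getElem hk, List.foldl_append]
        rfl
      have e2 := (h5 x).1 (k + 1)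
      rw [Function.iterate_succ_apply'] at e2 ⊢
      rw [e1]
      simp only [g]
      rw [e, ih, Nat.ble_eq_true_of_le e2, cond_true]
  have k2 := key t.length le_rfl
  rw [List.take_length] at k2
  rw [EXP.codeQ_eq, EXP.codeNI_eq, eval_add, eval_comp]
  refine ⟨?_, fun hl => ?_⟩
  · refine (hr _).trans ((eval_mono r ?_).trans (Nat.le_add_left _ _))
    rw [k2]
    exact (h5 x).1 _
  · show out (st (x, t)) = f x
    rw [k2]
    exact (h5 x).2 _ (hl ▸ Nat.le_add_right _ _)

end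

end Pool.Agent.Lib.E5
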