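import Pool.Agent.Lib.E5.Spec

/-! E5 block GF: transporters of sets of triples and of graphs of functions. -/

namespace Pool.Agent.Lib.E5

open Equiv Pool.Agent.Lib.helper80 Pool.Agent.Lib.MP_e519cf_lc Polynomial

noncomputable section
open Classical

namespace GF

/-- Code of a triple. -/
def cd (n : ℕ) (w : Tp) : ℕ := n + ((w.1 * n + w.2.1) * n + w.2.2)

/-- Action of a triple on codes. -/
def act (n : ℕ) (t : Tri) (c : ℕ) : ℕ :=
  bif Nat.blt c n then t.l • c else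
    cd n (t.p • ((c - n) / n / n), t.a ((c - n) / n / n) • ((c - n) / n % n), t.l • ((c - n) % n))

def en (n m : ℕ) (t : Tri) : FP := mkP (n + m * n * n) (act n t)

/-- Triples of the right degrees. -/
def Ok (n m : ℕ) : Subgroup Tri where
  carrier := {t | t.p ∈ Sy m ∧ (∀ i, t.a i ∈ Sy n) ∧ t.l ∈ Sy n}
  one_mem' := ⟨one_mem _, fun _ => one_mem _, one_mem _⟩
  mul_mem' := fun ha hb =>
    ⟨mul_mem ha.1 hb.1, fun _ => mul_mem (ha.2.1 _) (hb.2.1 _), mul_mem ha.2.2 hb.2.2⟩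
  inv_mem' := fun ha => ⟨inv_mem ha.1, fun _ => inv_mem (ha.2.1 _), inv_mem ha.2.2⟩

theorem getD_mem {K : SG} {l : List FP} (h : ∀ a ∈ l, a ∈ K) (i : ℕ) : l.getD i 1 ∈ K := by
  rw [List.getD_eq_getElem?_getD]
  cases e : l[i]? with
  | none => exact one_mem _
  | some a => exact h a (List.mem_of_getElem? e)

theorem triG_le {n m : ℕ} {gs : List TriD} (h : OkT n m gs) : triG gs ≤ Ok n m := by
  rw [triG, Subgroup.closure_le]
  rintro _ ⟨d, hd, rfl⟩
  exact ⟨(h d hd).1, getD_mem (h d hd).2.1, (h d hd).2.2⟩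

variable {n m i x y c : ℕ} {s t : Tri}

theorem dm (a : ℕ) (hy : y < n) : (a * n + y) / n = a ∧ (a * n + y) % n = y := by
  constructor
  · rw [add_comm, Nat.add_mul_div_right _ _ (by omega), Nat.div_eq_of_lt hy, zero_add]
  · rw [add_comm, Nat.add_mul_mod_self_right, Nat.mod_eq_of_lt hy]

theorem act_lt (h : c < n) : act n t c = t.l • c := by
  have h1 : Nat.blt c n = true := by rw [Nat.blt_eq]; exact h
  rw [act, h1, cond_true]

theorem act_cd (hx : x < n) (hy : y < n) :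
    act n t (cd n (i, x, y)) = cd n (t.p • i, t.a i • x, t.l • y) := by
  have h1 : Nat.blt (cd n (i, x, y)) n = false := by
    rw [← Bool.not_eq_true, Nat.blt_eq, cd]; omega
  have h2 : cd n (i, x, y) - n = (i * n + x) * n + y := by rw [cd]; exact Nat.add_sub_cancel_left _ _
  rw [act, h1, cond_false, h2, (dm _ hy).1, (dm _ hy).2, (dm _ hx).1, (dm _ hx).2]

theorem cd_lt (hi : i < m) (hx : x < n) (hy : y < n) : cd n (i, x, y) < n + m * n * n := by
  have h1 : i * n + x + 1 ≤ m * n := by nlinarith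
  have h2 : (i * n + x + 1) * n ≤ m * n * n := Nat.mul_le_mul_right _ h1
  simp only [cd]
  nlinarith

theorem cd_inj {i' x' y' : ℕ} (hx : x < n) (hy : y < n) (hx' : x' < n) (hy' : y' < n)
    (h : cd n (i, x, y) = cd n (i', x', y')) : (i, x, y) = (i', x', y') := by
  have h1 : (i * n + x) * n + y = (i' * n + x') * n + y' := Nat.add_left_cancel h
  have h2 : i * n + x = i' * n + x' := by rw [← (dm (i * n + x) hy).1, h1, (dm _ hy').1]
  have h3 : y = y' := by rw [← (dm (i * n + x) hy).2, h1, (dm _ hy').2]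
  have h4 : i = i' := by rw [← (dm i hx).1, h2, (dm _ hx').1]
  have h5 : x = x' := by rw [← (dm i hx).2, h2, (dm _ hx').2]
  rw [h3, h4, h5]

theorem cases_lt (h : c < n + m * n * n) :
    c < n ∨ ∃ i x y, i < m ∧ x < n ∧ y < n ∧ c = cd n (i, x, y) := by
  refine (lt_or_ge c n).imp_right fun hc => ?_
  have hn : 0 < n := Nat.pos_of_ne_zero fun e => by simp [e] at h
  refine ⟨(c - n) / n / n, (c - n) / n % n, (c - n) % n, ?_, Nat.mod_lt _ hn, Nat.mod_lt _ hn, ?_⟩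
  · rw [Nat.div_lt_iff_lt_mul hn, Nat.div_lt_iff_lt_mul hn]; omega
  · simp only [cd]
    rw [Nat.div_add_mod', Nat.div_add_mod']; omega

theorem act_mul (ht : t ∈ Ok n m) (h : c < n + m * n * n) :
    act n (s * t) c = act n s (act n t c) := by
  rcases cases_lt h with h | ⟨i, x, y, -, hx, hy, rfl⟩
  · rw [act_lt h, act_lt h, act_lt ((smul_lt ht.2.2).2 h), Tri.mul_l, mul_smul]
  · rw [act_cd hx hy, act_cd hx hy, act_cd ((smul_lt (ht.2.1 i)).2 hx) ((smul_lt ht.2.2).2 hy)]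
    simp only [Tri.mul_p, Tri.mul_a, Tri.mul_l, mul_smul]

theorem act_one (h : c < n + m * n * n) : act n 1 c = c := by
  rcases cases_lt h with h | ⟨i, x, y, -, hx, hy, rfl⟩
  · rw [act_lt h, Tri.one_l, one_smul]
  · rw [act_cd hx hy]; simp

theorem act_bd (ht : t ∈ Ok n m) (h : c < n + m * n * n) : act n t c < n + m * n * n := by
  rcases cases_lt h with h | ⟨i, x, y, hi, hx, hy, rfl⟩
  · rw [act_lt h]; exact lt_of_lt_of_le ((smul_lt ht.2.2).2 h) (Nat.le_add_right _ _)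
  · rw [act_cd hx hy]
    exact cd_lt ((smul_lt ht.1).2 hi) ((smul_lt (ht.2.1 i)).2 hx) ((smul_lt ht.2.2).2 hy)

theorem en_smul (ht : t ∈ Ok n m) (c : ℕ) :
    en n m t • c = if c < n + m * n * n then act n t c else c :=
  mkP_smul ⟨fun _ => act_bd ht, fun a ha b hb e => by
    rw [← act_one ha, ← act_one hb, ← inv_mul_cancel t, act_mul ht ha, act_mul ht hb, e]⟩ c

theorem en_lt (ht : t ∈ Ok n m) (h : c < n) : en n m t • c = t.l • c := by
  rw [en_smul ht, if_pos (lt_of_lt_of_le h (Nat.le_add_right _ _)), act_lt h]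

theorem en_cd (ht : t ∈ Ok n m) (hi : i < m) (hx : x < n) (hy : y < n) :
    en n m t • cd n (i, x, y) = cd n (t.p • i, t.a i • x, t.l • y) := by
  rw [en_smul ht, if_pos (cd_lt hi hx hy), act_cd hx hy]

theorem en_mul (hs : s ∈ Ok n m) (ht : t ∈ Ok n m) : en n m (s * t) = en n m s * en n m t :=
  FP.ext fun c => by
    rw [mul_smul, en_smul (mul_mem hs ht), en_smul ht, en_smul hs]
    by_cases h : c < n + m * n * n
    · rw [if_pos h, if_pos h, if_pos (act_bd ht h), act_mul ht h]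
    · rw [if_neg h, if_neg h, if_neg h]

theorem en_one : en n m 1 = 1 := FP.ext fun c => by
  rw [en_smul (one_mem _), one_smul]
  split_ifs with h
  exacts [act_one h, rfl]

theorem en_inv (ht : t ∈ Ok n m) : en n m t⁻¹ = (en n m t)⁻¹ :=
  eq_inv_of_mul_eq_one_left (by rw [← en_mul (inv_mem ht) ht, inv_mul_cancel, en_one])

theorem en_sst (ht : t ∈ Ok n m) : en n m t ∈ sst (Finset.range n : Finset ℕ) := fun c => by
  simp only [Finset.coe_range, Set.mem_Iio]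
  refine ⟨fun h => ?_, fun h => by rw [en_lt ht h]; exact (smul_lt ht.2.2).2 h⟩
  have := en_lt (inv_mem ht) h
  rw [en_inv ht, inv_smul_smul] at this
  rw [this]
  exact (smul_lt (inv_mem ht).2.2).2 h

theorem res_en [M3] (ht : t ∈ Ok n m) : res (Finset.range n) (en n m t) = t.l := FP.ext fun c => by
  rw [M3.res_smul (en_sst ht)]
  split_ifs with h
  · exact en_lt ht (Finset.mem_range.1 h)
  · exact (ht.2.2 c (not_lt.1 fun a => h (Finset.mem_range.2 a))).symm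

theorem mem_en {gs : List TriD} (h : OkT n m gs) {g : FP} :
    g ∈ (Grp.ofL (gs.map fun d => en n m (toTri d))).1 ↔ ∃ t ∈ triG gs, en n m t = g := by
  have hle := triG_le h
  rw [Grp.ofL_val]
  constructor
  · intro hg
    induction hg using Subgroup.closure_induction with
    | mem g hg =>
      obtain ⟨d, hd, rfl⟩ := List.mem_map.1 hg
      exact ⟨_, Subgroup.subset_closure ⟨d, hd, rfl⟩, rfl⟩
    | one => exact ⟨1, one_mem _, en_one⟩
    | mul _ _ _ _ h1 h2 =>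
      obtain ⟨s, hs, rfl⟩ := h1
      obtain ⟨t, ht, rfl⟩ := h2
      exact ⟨s * t, mul_mem hs ht, en_mul (hle hs) (hle ht)⟩
    | inv _ _ h1 =>
      obtain ⟨t, ht, rfl⟩ := h1
      exact ⟨t⁻¹, inv_mem ht, en_inv (hle ht)⟩
  · rintro ⟨t, ht, rfl⟩
    induction ht using Subgroup.closure_induction with
    | mem t ht =>
      obtain ⟨d, hd, rfl⟩ := ht
      exact Subgroup.subset_closure (List.mem_map.2 ⟨d, hd, rfl⟩)
    | one => rw [en_one]; exact one_mem _
    | mul s t hs ht h1 h2 => rw [en_mul (hle hs) (hle ht)]; exact mul_mem h1 h2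
    | inv t ht h1 => rw [en_inv (hle ht)]; exact inv_mem h1

/-- Codes of a list of triples. -/
def cds (n : ℕ) (Γ : List Tp) : Finset ℕ := (Γ.map (cd n)).toFinset

theorem mem_cds {Γ : List Tp} : c ∈ cds n Γ ↔ ∃ w ∈ Γ, cd n w = c := by simp [cds]

theorem cd_mem {Γ : List Tp} (h : ∀ w ∈ Γ, w.1 < m ∧ w.2.1 < n ∧ w.2.2 < n) (hx : x < n)
    (hy : y < n) : cd n (i, x, y) ∈ cds n Γ ↔ (i, x, y) ∈ Γ := by
  rw [mem_cds]
  refine ⟨fun ⟨w, hw, e⟩ => ?_, fun hw => ⟨_, hw, rfl⟩⟩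
  rw [← cd_inj (h w hw).2.1 (h w hw).2.2 hx hy e]
  exact hw

theorem stt_iff {Γ Γ' : List Tp} (ht : t ∈ Ok n m)
    (h : ∀ w ∈ Γ, w.1 < m ∧ w.2.1 < n ∧ w.2.2 < n) (h' : ∀ w ∈ Γ', w.1 < m ∧ w.2.1 < n ∧ w.2.2 < n) :
    (∀ c, c ∈ cds n Γ ↔ en n m t • c ∈ cds n Γ') ↔
      ∀ i x y, (i, x, y) ∈ Γ ↔ (t.p • i, t.a i • x, t.l • y) ∈ Γ' := by
  constructor
  · intro H i x y
    by_cases hb : i < m ∧ x < n ∧ y < n
    · rw [← cd_mem h hb.2.1 hb.2.2, H, en_cd ht hb.1 hb.2.1 hb.2.2,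
        cd_mem h' ((smul_lt (ht.2.1 i)).2 hb.2.1) ((smul_lt ht.2.2).2 hb.2.2)]
    · refine iff_of_false (fun a => hb (h _ a)) fun a => hb ?_
      obtain ⟨a1, a2, a3⟩ := h' _ a
      exact ⟨(smul_lt ht.1).1 a1, (smul_lt (ht.2.1 i)).1 a2, (smul_lt ht.2.2).1 a3⟩
  · intro H c
    constructor
    · intro hc
      obtain ⟨⟨i, x, y⟩, hw, rfl⟩ := mem_cds.1 hc
      rw [en_cd ht (h _ hw).1 (h _ hw).2.1 (h _ hw).2.2]
      exact mem_cds.2 ⟨_, (H i x y).1 hw, rfl⟩
    · intro hc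
      obtain ⟨⟨i, x, y⟩, hw, e⟩ := mem_cds.1 hc
      have e' := en_cd (inv_mem ht) (h' _ hw).1 (h' _ hw).2.1 (h' _ hw).2.2
      rw [e, en_inv ht, inv_smul_smul] at e'
      refine mem_cds.2 ⟨_, (H _ _ _).2 ?_, e'.symm⟩
      simpa using hw

/-- The graphs of the permutations `τ i`, `i ∈ S`. -/
def gr (n : ℕ) (S : Finset ℕ) (τ : List FP) : List Tp :=
  (els S).flatMap fun i => (List.range n).map fun x => (i, x, τ.getD i 1 • x)

theorem mem_gr {S : Finset ℕ} {τ : List FP} :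
    (i, x, y) ∈ gr n S τ ↔ i ∈ S ∧ x < n ∧ y = τ.getD i 1 • x := by
  simp only [gr, List.mem_flatMap, mem_els, List.mem_map, List.mem_range, Prod.mk.injEq]
  constructor
  · rintro ⟨_, h1, _, h2, rfl, rfl, rfl⟩
    exact ⟨h1, h2, rfl⟩
  · rintro ⟨h1, h2, rfl⟩
    exact ⟨_, h1, _, h2, rfl, rfl, rfl⟩

theorem pt_cds [K1] : PT fun p : ℕ × List Tp => cds p.1 p.2 := by
  unfold cds cd; fun_prop

theorem pt_en [K1] : PT fun p : ℕ × ℕ × TriD => en p.1 p.2.1 (toTri p.2.2) := by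
  unfold en act cd toTri; fun_prop

end GF

open GF in
theorem b_gf0 [KA] (h : S_stt) : S_gf0 := by
  unfold S_stt at h
  have h1 := pt_cds
  have h2 := pt_en
  refine ⟨fun p => Cos.con (Finset.range p.1)
    (stt (Grp.ofL (p.2.2.1.map fun d => en p.1 p.2.1 (toTri d))) (cds p.1 p.2.2.2.1)
      (cds p.1 p.2.2.2.2)), ?_, fun n m gs Γ Γ' hg hΓ l => ?_⟩
  · have a1 : PT fun p : ℕ × ℕ × List TriD × List Tp × List Tp =>
        (Grp.ofL (p.2.2.1.map fun d => en p.1 p.2.1 (toTri d)), cds p.1 p.2.2.2.1,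
          cds p.1 p.2.2.2.2) := by
      refine PT.prodMk (PT.comp KL.pt_ofL (PT.map ?_ (by fun_prop))) (PT.prodMk ?_ ?_)
      · exact PT.comp (g := fun q : (ℕ × ℕ × List TriD × List Tp × List Tp) × TriD =>
          (q.1.1, q.1.2.1, q.2)) h2 (by fun_prop)
      · exact PT.comp (g := fun q : ℕ × ℕ × List TriD × List Tp × List Tp =>
          (q.1, q.2.2.2.1)) h1 (by fun_prop)
      · exact PT.comp (g := fun q : ℕ × ℕ × List TriD × List Tp × List Tp =>
          (q.1, q.2.2.2.2)) h1 (by fun_prop)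
    exact OT.comp (OT.of_pt K3.pt_ccon)
      (OT.prodMk (OT.of_pt (PT.comp K1.pt_frange (PT.fst PT.id'))) (OT.comp h (OT.of_pt a1)))
  · have hle := triG_le hg
    have b1 := fun w (hw : w ∈ Γ) => hΓ w (List.mem_append_left _ hw)
    have b2 := fun w (hw : w ∈ Γ') => hΓ w (List.mem_append_right _ hw)
    beta_reduce
    rw [M6.mem_ccon fun c hc => by
      obtain ⟨t, ht, rfl⟩ := (mem_en hg).1 hc.1
      exact en_sst (hle ht)]
    constructor
    · rintro ⟨c, hc, rfl⟩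
      obtain ⟨t, ht, rfl⟩ := (mem_en hg).1 hc.1
      exact ⟨t, ht, (res_en (hle ht)).symm, (stt_iff (hle ht) b1 b2).1 hc.2⟩
    · rintro ⟨t, ht, rfl, H⟩
      exact ⟨_, mem_stt.2 ⟨(mem_en hg).2 ⟨t, ht, rfl⟩, (stt_iff (hle ht) b1 b2).2 H⟩,
        res_en (hle ht)⟩

open GF in
theorem b_gf [KA] (h : S_gf0) : S_gf := by
  obtain ⟨g, hg, hs⟩ := h
  refine ⟨fun p => g (p.1 + 1, p.2.1, p.2.2.1, gr (p.1 + 1) p.2.2.2.1 p.2.2.2.2.2.1,
    gr (p.1 + 1) p.2.2.2.2.1 p.2.2.2.2.2.2), ?_, fun n m gs S S' τ τ' ho hS hS' hτ hτ' l => ?_⟩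
  · refine OT.comp hg (OT.of_pt ?_)
    unfold gr
    fun_prop
  · have up : Sy n ≤ Sy (n + 1) := Sy_mono (Nat.le_succ n)
    have bd : ∀ (S : Finset ℕ) (τ : List FP), (∀ i ∈ S, i < m) → (∀ a ∈ τ, a ∈ Sy n) →
        ∀ w ∈ gr (n + 1) S τ, w.1 < m ∧ w.2.1 < n + 1 ∧ w.2.2 < n + 1 := by
      rintro S τ h1 h2 ⟨i, x, y⟩ hw
      obtain ⟨a1, a2, rfl⟩ := mem_gr.1 hw
      exact ⟨h1 i a1, a2, (smul_lt (up (getD_mem h2 i))).2 a2⟩
    beta_reduce
    rw [hs (n + 1) m gs _ _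
      (fun d hd => ⟨(ho d hd).1, fun a ha => up ((ho d hd).2.1 a ha), up (ho d hd).2.2⟩)
      (fun w hw => (List.mem_append.1 hw).elim (bd S τ hS hτ w) (bd S' τ' hS' hτ' w))]
    refine exists_congr fun t => and_congr_right fun ht => and_congr_right ?_
    rintro rfl
    have hk := triG_le ho ht
    have lt : ∀ i x, t.a i • x < n + 1 ↔ x < n + 1 := fun i x => smul_lt (up (hk.2.1 i))
    simp only [mem_gr, lt]
    constructor
    · intro H
      refine ⟨fun i => ⟨fun hi => ((H i 0 _).1 ⟨hi, Nat.succ_pos n, rfl⟩).1, fun hi =>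
        ((H i 0 (t.l⁻¹ • τ'.getD (t.p • i) 1 • t.a i • 0)).2
          ⟨hi, Nat.succ_pos n, smul_inv_smul _ _⟩).1⟩, fun i hi => FP.ext fun x => ?_⟩
      by_cases hx : x < n + 1
      · rw [mul_smul, mul_smul]
        exact ((H i x _).1 ⟨hi, hx, rfl⟩).2.2
      · rw [mul_mem hk.2.2 (getD_mem hτ i) x (by show n ≤ x; omega),
          mul_mem (getD_mem hτ' _) (hk.2.1 i) x (by show n ≤ x; omega)]
    · rintro ⟨H1, H2⟩ i x y
      rw [← H1]
      refine and_congr_right fun hi => and_congr_right fun _ => ?_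
      rw [← mul_smul, ← H2 i hi, mul_smul, smul_left_cancel_iff]

end

end Pool.Agent.Lib.E5
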