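import Pool.Agent.Lib.E5.Spec

/-! E5 block HATUP: climbing from the stabiliser of a transversal. -/

namespace Pool.Agent.Lib.E5

open Equiv Pool.Agent.Lib.helper80 Pool.Agent.Lib.MP_e519cf_lc Polynomial

noncomputable section
open Classical

namespace HATUP

variable [KA]

theorem clo_le {n : ℕ} {J : Grp} (hJ : ∀ j ∈ J.1, ∀ a, res (J.orb a) j ∈ J.1) :
    Subgroup.closure {y | ∃ b < n, gb J b = y} ≤ J.1 := by
  rw [Subgroup.closure_le]
  rintro _ ⟨b, -, rfl⟩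
  exact M3h.gb_mem hJ b

theorem gen {n : ℕ} {J : Grp} (hn : J.1 ≤ Sy n) (hJ : ∀ j ∈ J.1, ∀ a, res (J.orb a) j ∈ J.1) :
    J.1 = (J.1 ⊓ sst (J.reps n)) ⊔ Subgroup.closure {y | ∃ b < n, gb J b = y} := by
  refine le_antisymm (fun a ha => ?_) (sup_le inf_le_left (clo_le hJ))
  obtain ⟨j, hj, h⟩ := M3h.frat hn (hn ha) (M3.po_of_nm (M1.cj_of_mem ha))
  have h1 : j⁻¹ * a ∈ J.1 ⊓ sst (J.reps n) := ⟨J.1.mul_mem (J.1.inv_mem (clo_le hJ hj)) ha, h⟩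
  have := mul_mem (Subgroup.mem_sup_right hj) (Subgroup.mem_sup_left h1 :
    j⁻¹ * a ∈ (J.1 ⊓ sst (J.reps n)) ⊔ Subgroup.closure {y | ∃ b < n, gb J b = y})
  simpa using this

theorem res_closed {Z : Grp} (g : FP) (hZ : ∀ j ∈ Z.1, ∀ a, res (Z.orb a) j ∈ Z.1) :
    ∀ j ∈ (Grp.cj g Z).1, ∀ a, res ((Grp.cj g Z).orb a) j ∈ (Grp.cj g Z).1 := by
  intro j hj a
  have hj' : g⁻¹ * j * g ∈ Z.1 := mem_cj.1 hj
  have e := M3.res_cj (S := (Grp.cj g Z).orb a) (T := Z.orb (g⁻¹ • a)) (g := j) (l := g⁻¹)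
    (M3.le_sst_orb _ a hj) fun x => by
      rw [Grp.mem_orb, Grp.mem_orb, ← M3.so_cj g Z.1, smul_inv_smul, smul_inv_smul]
      rfl
  rw [inv_inv] at e
  refine mem_cj.2 ?_
  rw [e]
  exact hZ _ hj' _

omit [KA] in
theorem sst_of_fx {T : Set ℕ} {g : FP} (h : ∀ t ∈ T, g • t = t) : g ∈ sst T := by
  intro x
  refine ⟨fun hx => ?_, fun hx => by rw [h x hx]; exact hx⟩
  have := h _ hx
  rw [smul_left_cancel_iff] at this
  rwa [this] at hx

theorem fixT {n : ℕ} {A Y : Grp} {l : FP} (hl : l ∈ sst (A.reps n)) (hp : Po A.1 l)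
    (ho : ∀ x y, So A.1 x y ↔ So Y.1 x y) (b : ℕ) :
    (gb Y (l • b))⁻¹ * (l * gb A b * l⁻¹) ∈ sst (A.reps n) := by
  refine sst_of_fx fun t ht => ?_
  have ht' : l⁻¹ • t ∈ A.reps n := (hl (l⁻¹ • t)).1 (by rwa [smul_inv_smul])
  have e := hp b (l⁻¹ • t)
  rw [smul_inv_smul] at e
  rw [mul_smul, mul_smul, mul_smul, inv_smul_eq_iff]
  by_cases h : So A.1 b (l⁻¹ • t)
  · have a1 : A.rep b = l⁻¹ • t := (M3.rep_eq h).trans (Grp.mem_reps.1 ht').2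
    have a2 : Y.rep (l • b) = t :=
      (M3.rep_congr ho _).symm.trans ((M3.rep_eq (e.1 h)).trans (Grp.mem_reps.1 ht).2)
    rw [← a1, M3h.gb_smul, ← a2, M3h.gb_smul]
  · rw [M3h.gb_fix A h, smul_inv_smul, M3h.gb_fix Y fun h' => h (e.2 ((ho _ _).2 h'))]

omit [KA] in
theorem getD_map {n b : ℕ} (f : ℕ → FP) (hb : b < n) : ((List.range n).map f).getD b 1 = f b := by
  simp [List.getD_eq_getElem?_getD, hb]

end HATUP

theorem b_hatup [KA] (h : Prim) : S_hatup := by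
  obtain ⟨g, hg, hs⟩ := h.cf
  refine ⟨fun a => bif a.2.2.2.2.isE then Cos.emp else
    (Cos.lmul a.2.2.2.2.rep (g (a.1, a.2.2.2.2.grp, a.2.2.1.stab (a.2.2.1.reps a.1),
      (List.range a.1).map fun b => gb a.2.2.1 b,
      (List.range a.1).map fun b => gb (Grp.cj a.2.2.2.2.rep⁻¹ a.2.2.2.1) b))).rmul a.2.2.1,
    by fun_prop, ?_⟩
  intro n S A Z hS hA hZ hpo ho hA' hZ'
  set T := A.reps n with hT
  set C := TR (S.stab T) (A.stab T) (Z.stab T) with hC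
  have up : TR S A Z = (TR (S.stab T) A Z).rmul A := by
    refine M6.up_TR inf_le_left hA (M1.nm_of_le le_rfl) (fun s _ e y hy => ?_) fun s hs' => ?_
    · rw [← e]
      simpa [mul_assoc] using hy
    · have hsS : s ∈ S.1 := (mem_TR.1 hs').1
      obtain ⟨j, hj, e⟩ := M3h.frat (hA.trans hS) (hS (inv_mem hsS)) (hpo _ (inv_mem hsS))
      have hjA := HATUP.clo_le hA' hj
      refine ⟨s * j, ⟨mul_mem hsS (hA hjA), ?_⟩, j⁻¹, inv_mem hjA, by simp⟩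
      have := inv_mem e
      rwa [mul_inv_rev, inv_inv, inv_inv] at this
  have sub : ∀ x ∈ TR (S.stab T) A Z, x ∈ C := by
    intro x hx
    obtain ⟨h1, h2⟩ := mem_TR.1 hx
    refine mem_TR.2 ⟨h1, ?_⟩
    rw [Grp.stab_val, Grp.stab_val, M1.cj_inf, h2, M1.cj_of_mem h1.2]
  have hCS : ∀ x ∈ C, x ∈ (S.stab T).1 := fun x hx => (mem_TR.1 hx).1
  show (bif C.isE then Cos.emp else (Cos.lmul C.rep (g (n, C.grp, A.stab T,
      (List.range n).map fun b => gb A b,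
      (List.range n).map fun b => gb (Grp.cj C.rep⁻¹ Z) b))).rmul A) = TR S A Z
  cases hE : C.isE
  swap
  · rw [up, M6.ref_emp sub hE]
    have : Cos.emp.isE = true := Cos.isE_iff.2 Cos.not_mem_emp
    simp [Cos.rmul, this]
  rw [up, M6.ref sub hCS hE, cond_false]
  congr 2
  obtain ⟨x₀, hx₀⟩ := Cos.isE_false.1 hE
  have hr : C.rep ∈ C := KG.rep_mem hx₀
  set l₂ := C.rep with hl₂
  set Y := Grp.cj l₂⁻¹ Z with hY
  have hl₂S := hCS _ hr
  have hgr : ∀ l ∈ C.grp.1, l ∈ (S.stab T).1 ∧ cj l (A.stab T).1 = (A.stab T).1 :=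
    fun l hl => (M6.grp_TR hE).1 hl
  have hGn : C.grp.1 ≤ Sy n := fun l hl => hS (hgr l hl).1.1
  have hNm : Nm C.grp.1 (A.stab T).1 := M1.nm_of_cj fun l hl => (hgr l hl).2
  have hYS : Y.1 ≤ S.1 := M1.cj_le_of_mem (inv_mem hl₂S.1) hZ
  have hY' := HATUP.res_closed l₂⁻¹ hZ'
  have hoY : ∀ x y, So A.1 x y ↔ So Y.1 x y := by
    intro x y
    rw [hpo l₂ hl₂S.1 x y, ho, ← M3.so_cj l₂⁻¹ Z.1, inv_smul_smul, inv_smul_smul]
    rfl
  have hTY : Y.reps n = T := by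
    ext x
    rw [hT, Grp.mem_reps, Grp.mem_reps, M3.rep_congr hoY]
  have hK : (A.stab T).1 = Y.1 ⊓ sst T := by
    have := congrArg (cj l₂⁻¹) (mem_TR.1 hr).2
    rw [M1.cj_inv_cj] at this
    rw [this, Grp.stab_val, M1.cj_inf, M1.cj_of_mem (inv_mem hl₂S.2)]
    rfl
  have gA := HATUP.gen (hA.trans hS) hA'
  have gY := HATUP.gen (hYS.trans hS) hY'
  rw [hTY, ← hK] at gY
  refine Cos.ext fun l => ?_
  rw [hs n C.grp (A.stab T) _ _ hGn (inf_le_left.trans (hA.trans hS)) hNm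
    (fun a ha => by
      obtain ⟨b, -, rfl⟩ := List.mem_map.1 ha
      exact hS (hA (M3h.gb_mem hA' b)))
    (fun a ha => by
      obtain ⟨b, -, rfl⟩ := List.mem_map.1 ha
      exact hS (hYS (M3h.gb_mem hY' b))), mem_TR]
  refine and_congr_right fun hl => ?_
  have e : (∀ b < n, (((List.range n).map fun b => gb Y b).getD (l • b) 1)⁻¹ *
      (l * ((List.range n).map fun b => gb A b).getD b 1 * l⁻¹) ∈ (A.stab T).1) ↔
      ∀ b < n, (gb Y (l • b))⁻¹ * (l * gb A b * l⁻¹) ∈ (A.stab T).1 := by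
    refine forall₂_congr fun b hb => ?_
    rw [HATUP.getD_map _ hb, HATUP.getD_map _ ((smul_lt (hGn hl)).2 hb)]
  rw [e]
  refine ⟨M6.climb hGn hNm gA gY l hl, fun hc b _ => ?_⟩
  rw [hK]
  refine ⟨Y.1.mul_mem (Y.1.inv_mem (M3h.gb_mem hY' _)) ?_,
    HATUP.fixT (hgr l hl).1.2 (hpo l (hgr l hl).1.1) hoY b⟩
  show l * gb A b * l⁻¹ ∈ Y.1
  rw [← hc]
  simpa [mul_assoc] using M3h.gb_mem hA' b

end

end Pool.Agent.Lib.E5
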