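import Pool.Agent.Lib.E5.Spec

/-! E5 block HOM: transporting complements. -/

namespace Pool.Agent.Lib.E5

open Equiv Pool.Agent.Lib.helper80 Pool.Agent.Lib.MP_e519cf_lc Polynomial

noncomputable section
open Classical

namespace HOM

set_option linter.unusedSectionVars false

variable [KA]

theorem exQ {p : ℕ} {E D : SG} (h : EA p E D) : ∃ (A : Type) (_ : CommGroup A) (π : FP → A),
    (∀ x ∈ E, ∀ y ∈ E, π (x * y) = π x * π y) ∧ (∀ x ∈ E, π x = 1 ↔ x ∈ D) ∧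
      ∀ a, ∃ x ∈ E, π x = a := by
  have hn : (D.subgroupOf E).Normal := ⟨fun d hd x => by
    rw [Subgroup.mem_subgroupOf] at hd ⊢
    exact M1.ea_nm h le_rfl h.1 x x.2 d hd⟩
  let A := E ⧸ D.subgroupOf E
  have hc : ∀ a b : A, a * b = b * a := by
    intro a b
    induction a using QuotientGroup.induction_on with | H a =>
    induction b using QuotientGroup.induction_on with | H b =>
    rw [← QuotientGroup.mk_mul, ← QuotientGroup.mk_mul, QuotientGroup.eq, Subgroup.mem_subgroupOf]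
    have := h.2.1 b⁻¹ (inv_mem b.2) a⁻¹ (inv_mem a.2)
    simpa [mul_assoc] using this
  refine ⟨A, { (inferInstance : Group A) with mul_comm := hc },
    fun x => if hx : x ∈ E then (QuotientGroup.mk ⟨x, hx⟩ : A) else 1, ?_, ?_, ?_⟩
  · intro x hx y hy
    simp only [dif_pos hx, dif_pos hy, dif_pos (mul_mem hx hy)]
    rfl
  · intro x hx
    simp only [dif_pos hx]
    exact (QuotientGroup.eq_one_iff _).trans Subgroup.mem_subgroupOf
  · intro a
    induction a using QuotientGroup.induction_on with | H a =>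
    exact ⟨a, a.2, by simp only [dif_pos a.2]⟩

/-- Multiplicative on a subgroup. -/
def Hm {A : Type} [CommGroup A] (H : SG) (ψ : FP → A) : Prop :=
  ∀ s ∈ H, ∀ t ∈ H, ψ (s * t) = ψ s * ψ t

section
variable {A : Type} [CommGroup A] {H : SG} {ψ φ : FP → A}

omit [KA] in
theorem Hm.one (h : Hm H ψ) : ψ 1 = 1 := by
  have := h 1 (one_mem _) 1 (one_mem _)
  rw [one_mul] at this
  exact (mul_eq_left.1 this.symm)

omit [KA] in
theorem Hm.inv (h : Hm H ψ) {s : FP} (hs : s ∈ H) : ψ s⁻¹ = (ψ s)⁻¹ := by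
  have := h s hs s⁻¹ (inv_mem hs)
  rw [mul_inv_cancel, h.one] at this
  exact (eq_inv_of_mul_eq_one_right this.symm)

omit [KA] in
theorem Hm.mul (h : Hm H ψ) (h' : Hm H φ) : Hm H fun s => ψ s * φ s := fun s hs t ht => by
  simp only [h s hs t ht, h' s hs t ht]; exact mul_mul_mul_comm _ _ _ _

omit [KA] in
theorem Hm.inv' (h : Hm H ψ) : Hm H fun s => (ψ s)⁻¹ := fun s hs t ht => by
  simp only [h s hs t ht, mul_inv]

omit [KA] in
theorem Hm.eq_on (h : Hm H ψ) (h' : Hm H φ) {K : SG} {S : Set FP} (e : H = K ⊔ Subgroup.closure S)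
    (h1 : ∀ s ∈ K, ψ s = φ s) (h2 : ∀ s ∈ S, ψ s = φ s) : ∀ s ∈ H, ψ s = φ s := by
  let T : SG :=
    { carrier := {s | s ∈ H ∧ ψ s = φ s}
      one_mem' := ⟨one_mem _, by rw [h.one, h'.one]⟩
      mul_mem' := fun {a b} ha hb => ⟨mul_mem ha.1 hb.1, by
        rw [h a ha.1 b hb.1, h' a ha.1 b hb.1, ha.2, hb.2]⟩
      inv_mem' := fun {a} ha => ⟨inv_mem ha.1, by rw [h.inv ha.1, h'.inv ha.1, ha.2]⟩ }
  have : H ≤ T := by
    have k1 : K ≤ H := e ▸ le_sup_left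
    have k2 : Subgroup.closure S ≤ H := e ▸ le_sup_right
    conv_lhs => rw [e]
    exact sup_le (fun s hs => ⟨k1 hs, h1 s hs⟩)
      ((Subgroup.closure_le _).2 fun s hs => ⟨k2 (Subgroup.subset_closure hs), h2 s hs⟩)
  exact fun s hs => (this hs).2

end

/-- Abstract setting. -/
structure St (n p K : ℕ) (E D M Mh : SG) (sg : ℕ → FP) : Prop where
  pp : p.Prime
  En : E ≤ Sy n
  ea : EA p E D
  MB : Mh ≤ (symB n).1
  eM : EA p Mh ⊥
  MM : M ≤ Mh
  gen : Mh = Subgroup.closure {s | ∃ c < K, sg c = s}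

def Mc (M : SG) (sg : ℕ → FP) (k : ℕ) : SG := M ⊔ Subgroup.closure {s | ∃ c < k, sg c = s}

def Fx (F M : SG) (sg e : ℕ → FP) (k : ℕ) : SG :=
  F ⊔ Subgroup.closure {g | ∃ c < k, sg c ∉ Mc M sg c ∧ e c * sg c = g}

/-- `F` is the graph of a homomorphism from `T` to `E / D`. -/
structure Gr (n : ℕ) (E D Mh F T : SG) : Prop where
  DF : D ≤ F
  le : F ≤ E ⊔ Mh
  ker : ∀ x ∈ Sy n, x ∈ F → x ∈ D
  dom : ∀ s ∈ T, ∃ x ∈ E, x * s ∈ F
  rg : ∀ g ∈ F, rgt n g ∈ T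

section
variable {n p K : ℕ} {E D M Mh : SG} {sg : ℕ → FP}

theorem St.mem (h : St n p K E D M Mh sg) {c : ℕ} (hc : c < K) : sg c ∈ Mh :=
  h.gen ▸ Subgroup.subset_closure ⟨c, hc, rfl⟩

theorem St.cm (h : St n p K E D M Mh sg) {x s : FP} (hx : x ∈ E) (hs : s ∈ Mh) : x * s = s * x :=
  M3.comm_halves (h.En hx) (h.MB hs)

theorem St.dec (h : St n p K E D M Mh sg) {g : FP} (hg : g ∈ E ⊔ Mh) :
    ∃ x ∈ E, ∃ s ∈ Mh, g = x * s :=
  (M1.mem_sup_nm fun l hl d hd => by rw [h.cm hl hd, mul_inv_cancel_right]; exact hd).1 hg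

theorem St.eaP (h : St n p K E D M Mh sg) : EA p (E ⊔ Mh) D := by
  refine ⟨h.ea.1.trans le_sup_left, fun a ha b hb => ?_, fun a ha => ?_⟩
  · obtain ⟨x, hx, s, hs, rfl⟩ := h.dec ha
    obtain ⟨y, hy, t, ht, rfl⟩ := h.dec hb
    have h1 : s * t = t * s := by
      have := Subgroup.mem_bot.1 (h.eM.2.1 s hs t ht)
      rw [mul_inv_eq_one, mul_inv_eq_iff_eq_mul] at this
      exact this
    have h2 := h.cm hy hs
    have h3 := h.cm hx ht
    have h4 := h.cm (inv_mem hx) ht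
    have : x * s * (y * t) * (x * s)⁻¹ * (y * t)⁻¹ = x * y * x⁻¹ * y⁻¹ := by
      calc _ = x * (s * y) * t * s⁻¹ * x⁻¹ * t⁻¹ * y⁻¹ := by group
        _ = x * y * (s * t) * s⁻¹ * x⁻¹ * t⁻¹ * y⁻¹ := by rw [← h2]; group
        _ = x * y * (t * x⁻¹) * t⁻¹ * y⁻¹ := by rw [h1]; group
        _ = _ := by rw [← h4]; group
    rw [this]; exact h.ea.2.1 x hx y hy
  · obtain ⟨x, hx, s, hs, rfl⟩ := h.dec ha
    rw [Commute.mul_pow (h.cm hx hs), Subgroup.mem_bot.1 (h.eM.2.2 s hs), mul_one]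
    exact h.ea.2.2 x hx

theorem Gr.step (h : St n p K E D M Mh sg) {F T : SG} (g : Gr n E D Mh F T) {x s : FP} (hx : x ∈ E)
    (hs : s ∈ Mh) (hT : T ≤ Mh) (hn : s ∉ T) :
    Gr n E D Mh (F ⊔ Subgroup.closure {x * s}) (T ⊔ Subgroup.closure {s}) := by
  have hxs : x * s ∈ E ⊔ Mh := mul_mem (Subgroup.mem_sup_left hx) (Subgroup.mem_sup_right hs)
  have hz : Subgroup.closure {x * s} ≤ E ⊔ Mh := (Subgroup.closure_le _).2 (by simpa using hxs)
  have hz' : Subgroup.closure {s} ≤ Mh := (Subgroup.closure_le _).2 (by simpa using hs)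
  have hN : Nm (Subgroup.closure {x * s}) F := M1.nm_mono hz (M1.ea_nm h.eaP g.DF g.le)
  have hN' : Nm (Subgroup.closure {s}) T := M1.nm_mono hz' (M1.ea_nm h.eM bot_le hT)
  have key : ∀ w ∈ F ⊔ Subgroup.closure {x * s}, ∃ f ∈ F, ∃ k : ℤ, w = f * (x * s) ^ k ∧
      rgt n w = rgt n f * s ^ k := by
    intro w hw
    obtain ⟨f, hf, b, hb, rfl⟩ := (M1.mem_sup_nm' hN).1 hw
    obtain ⟨k, rfl⟩ := Subgroup.mem_closure_singleton.1 hb
    refine ⟨f, hf, k, rfl, ?_⟩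
    obtain ⟨y, hy, t, ht, rfl⟩ := h.dec (g.le hf)
    have e : y * t * (x * s) ^ k = (y * x ^ k) * (t * s ^ k) := by
      rw [Commute.mul_zpow (h.cm hx hs), mul_assoc, mul_assoc, ← mul_assoc t,
        ← h.cm (zpow_mem hx k) ht, mul_assoc]
    rw [e, M3.rgt_prod (h.En (mul_mem hy (zpow_mem hx k))) (h.MB (mul_mem ht (zpow_mem hs k))),
      M3.rgt_prod (h.En hy) (h.MB ht)]
  refine ⟨g.DF.trans le_sup_left, sup_le g.le hz, fun w hw hw' => ?_, fun t ht => ?_,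
    fun w hw => ?_⟩
  · obtain ⟨f, hf, k, e1, e2⟩ := key w hw'
    have e3 : rgt n w = 1 := by simpa using M3.rgt_prod hw (one_mem (symB n).1)
    have hk : s ^ k ∈ T := by
      have : s ^ k = (rgt n f)⁻¹ := eq_inv_of_mul_eq_one_right (e2.symm.trans e3)
      rw [this]; exact inv_mem (g.rg f hf)
    have hp : (p : ℤ) ∣ k := by
      by_contra hd
      obtain ⟨u, v, huv⟩ := ((Int.prime_iff_natAbs_prime.2 (by simpa using h.pp)).coprime_iff_not_dvd).2 hd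
      apply hn
      have : s = (s ^ p) ^ u * (s ^ k) ^ v := by
        rw [← zpow_natCast, ← zpow_mul, ← zpow_mul, ← zpow_add, mul_comm (p : ℤ), mul_comm k, huv,
          zpow_one]
      rw [this, Subgroup.mem_bot.1 (h.eM.2.2 s hs), one_zpow, one_mul]
      exact zpow_mem hk v
    obtain ⟨j, rfl⟩ := hp
    have hd : (x * s) ^ ((p : ℤ) * j) ∈ D := by
      rw [zpow_mul, zpow_natCast]; exact zpow_mem (h.eaP.2.2 _ hxs) j
    have hf' : f ∈ Sy n := by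
      have : f = w * ((x * s) ^ ((p : ℤ) * j))⁻¹ := by rw [e1]; group
      rw [this]; exact mul_mem hw (inv_mem (h.En (h.ea.1 hd)))
    rw [e1]; exact mul_mem (g.ker f hf' hf) hd
  · obtain ⟨f, hf, b, hb, rfl⟩ := (M1.mem_sup_nm' hN').1 ht
    obtain ⟨k, rfl⟩ := Subgroup.mem_closure_singleton.1 hb
    obtain ⟨y, hy, hy'⟩ := g.dom f hf
    refine ⟨y * x ^ k, mul_mem hy (zpow_mem hx k), ?_⟩
    have e : y * x ^ k * (f * s ^ k) = y * f * (x * s) ^ k := by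
      rw [Commute.mul_zpow (h.cm hx hs), mul_assoc, mul_assoc, ← mul_assoc (x ^ k),
        h.cm (zpow_mem hx k) (hT hf), mul_assoc]
    rw [e]
    exact mul_mem (Subgroup.mem_sup_left hy')
      (Subgroup.mem_sup_right (zpow_mem (Subgroup.subset_closure (Set.mem_singleton _)) k))
  · obtain ⟨f, hf, k, -, e2⟩ := key w hw
    rw [e2]
    exact mul_mem (Subgroup.mem_sup_left (g.rg f hf))
      (Subgroup.mem_sup_right (zpow_mem (Subgroup.subset_closure (Set.mem_singleton _)) k))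

omit [KA] in
theorem Mc_succ (M : SG) (sg : ℕ → FP) (k : ℕ) :
    Mc M sg (k + 1) = Mc M sg k ⊔ Subgroup.closure {sg k} := by
  rw [Mc, Mc, sup_assoc, ← Subgroup.closure_union]
  congr 2
  ext s
  simp only [Set.mem_ofPred_eq, Set.mem_union, Set.mem_singleton_iff]
  constructor
  · rintro ⟨c, hc, rfl⟩
    rcases Nat.lt_succ_iff_lt_or_eq.1 hc with h | rfl
    · exact Or.inl ⟨c, h, rfl⟩
    · exact Or.inr rfl
  · rintro (⟨c, hc, rfl⟩ | rfl)
    · exact ⟨c, by omega, rfl⟩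
    · exact ⟨k, by omega, rfl⟩

theorem St.Mc_le (h : St n p K E D M Mh sg) {k : ℕ} (hk : k ≤ K) : Mc M sg k ≤ Mh :=
  sup_le h.MM ((Subgroup.closure_le _).2 (by
    rintro _ ⟨c, hc, rfl⟩; exact h.mem (by omega)))

theorem St.Mc_K (h : St n p K E D M Mh sg) : Mc M sg K = Mh :=
  le_antisymm (h.Mc_le le_rfl) (h.gen ▸ le_sup_right)

theorem Gr.ext (h : St n p K E D M Mh sg) {F : SG} (g : Gr n E D Mh F M) {e : ℕ → FP}
    (he : ∀ c, e c ∈ E) {k : ℕ} (hk : k ≤ K) : Gr n E D Mh (Fx F M sg e k) (Mc M sg k) := by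
  induction k with
  | zero => simpa [Fx, Mc] using g
  | succ k ih =>
    have ih := ih (by omega)
    rw [Mc_succ]
    by_cases hc : sg k ∈ Mc M sg k
    · have e1 : Fx F M sg e (k + 1) = Fx F M sg e k := by
        unfold Fx
        congr 2
        ext s
        simp only [Set.mem_ofPred_eq]
        constructor
        · rintro ⟨c, h1, h2, h3⟩
          rcases Nat.lt_succ_iff_lt_or_eq.1 h1 with h | rfl
          · exact ⟨c, h, h2, h3⟩
          · exact absurd hc h2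
        · rintro ⟨c, h1, h2⟩
          exact ⟨c, by omega, h2⟩
      rw [e1, sup_eq_left.2 ((Subgroup.closure_le _).2 (by simpa using hc))]
      exact ih
    · have e1 : Fx F M sg e (k + 1) = Fx F M sg e k ⊔ Subgroup.closure {e k * sg k} := by
        rw [Fx, Fx, sup_assoc, ← Subgroup.closure_union]
        congr 2
        ext s
        simp only [Set.mem_ofPred_eq, Set.mem_union, Set.mem_singleton_iff]
        constructor
        · rintro ⟨c, h1, h2, rfl⟩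
          rcases Nat.lt_succ_iff_lt_or_eq.1 h1 with h | rfl
          · exact Or.inl ⟨c, h, h2, rfl⟩
          · exact Or.inr rfl
        · rintro (⟨c, h1, h2⟩ | rfl)
          · exact ⟨c, by omega, h2⟩
          · exact ⟨k, by omega, hc, rfl⟩
      rw [e1]
      exact ih.step h (he k) (h.mem (by omega)) (h.Mc_le (by omega)) hc

theorem St.gen' (h : St n p K E D M Mh sg) :
    Mh = M ⊔ Subgroup.closure {s | ∃ c < K, sg c ∉ Mc M sg c ∧ sg c = s} := by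
  have key : ∀ k, k ≤ K →
      Mc M sg k ≤ M ⊔ Subgroup.closure {s | ∃ c < K, sg c ∉ Mc M sg c ∧ sg c = s} := by
    intro k
    induction k with
    | zero => intro _; simp [Mc]
    | succ k ih =>
      intro hk
      rw [Mc_succ]
      refine sup_le (ih (by omega)) ((Subgroup.closure_le _).2 ?_)
      rintro _ rfl
      by_cases hc : sg k ∈ Mc M sg k
      · exact ih (by omega) hc
      · exact Subgroup.mem_sup_right (Subgroup.subset_closure ⟨k, by omega, hc, rfl⟩)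
  refine le_antisymm (h.Mc_K ▸ key K le_rfl) (sup_le h.MM ((Subgroup.closure_le _).2 ?_))
  rintro _ ⟨c, hc, -, rfl⟩
  exact h.mem hc

/-- The homomorphism of a graph with full domain. -/
theorem Gr.hom (h : St n p K E D M Mh sg) {F : SG} (g : Gr n E D Mh F Mh) {A : Type} [CommGroup A]
    {π : FP → A} (h1 : Hm E π) (h2 : ∀ x ∈ E, π x = 1 ↔ x ∈ D) :
    ∃ ψ : FP → A, Hm Mh ψ ∧ ∀ x ∈ E, ∀ s ∈ Mh, (x * s ∈ F ↔ ψ s = π x) := by
  choose! y hy hy' using g.dom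
  have key : ∀ x ∈ E, ∀ s ∈ Mh, (x * s ∈ F ↔ π (y s) = π x) := by
    intro x hx s hs
    have e : π (y s * x⁻¹) = 1 ↔ π (y s) = π x := by
      rw [h1 _ (hy s hs) _ (inv_mem hx), h1.inv hx, mul_inv_eq_one]
    have hm := mul_mem (hy s hs) (inv_mem hx)
    rw [← e, h2 _ hm]
    constructor
    · intro hF
      refine g.ker _ (h.En hm) ?_
      simpa [mul_assoc] using mul_mem (hy' s hs) (inv_mem hF)
    · intro hD
      simpa [mul_assoc] using mul_mem (inv_mem (g.DF hD)) (hy' s hs)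
  refine ⟨fun s => π (y s), fun s hs t ht => ?_, key⟩
  rw [← h1 _ (hy s hs) _ (hy t ht), ← key _ (mul_mem (hy s hs) (hy t ht)) _ (mul_mem hs ht)]
  have : y s * y t * (s * t) = y s * s * (y t * t) := by
    rw [mul_assoc, mul_assoc, ← mul_assoc (y t), h.cm (hy t ht) hs, mul_assoc]
  rw [this]; exact mul_mem (hy' s hs) (hy' t ht)

theorem St.gr0 (h : St n p K E D M Mh sg) : Gr n E D Mh (D ⊔ M) M := by
  have hp := fun g => M3.mem_prod (g := g) (h.ea.1.trans h.En) (h.MM.trans h.MB)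
  refine ⟨le_sup_left, sup_le_sup h.ea.1 h.MM, fun x hx hx' => ?_,
    fun s hs => ⟨1, one_mem _, by simpa using Subgroup.mem_sup_right hs⟩,
    fun g hg => ((hp g).1 hg).2.2.2⟩
  have := ((hp x).1 hx').2.2.1
  rwa [show lft n x = x by simpa using M3.lft_prod hx (one_mem (symB n).1)] at this

/-- Tuples of values of homomorphisms that are trivial on `M`. -/
def W (K : ℕ) (E M Mh : SG) (sg : ℕ → FP) {A : Type} [CommGroup A] (π : FP → A) (u : ℕ → FP) :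
    Prop :=
  (∀ c < K, u c ∈ E) ∧ ∃ ψ : FP → A, Hm Mh ψ ∧ (∀ m ∈ M, ψ m = 1) ∧ ∀ c < K, ψ (sg c) = π (u c)

variable {A : Type} [CommGroup A] {π : FP → A}

theorem W_of_mem (h1 : Hm E π) {us : List (List FP)}
    (g1 : ∀ u ∈ us, W K E M Mh sg π fun i => u.getD i 1) {u : ℕ → FP} (hu : u ∈ tupG us) :
    W K E M Mh sg π u := by
  induction hu using Subgroup.closure_induction with
  | mem x hx => obtain ⟨d, hd, rfl⟩ := hx; exact g1 d hd
  | one => exact ⟨fun _ _ => one_mem _, fun _ => 1, fun _ _ _ _ => (one_mul _).symm, fun _ _ => rfl,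
      fun _ _ => h1.one.symm⟩
  | mul x y _ _ hx hy =>
    obtain ⟨a1, ψ, a2, a3, a4⟩ := hx
    obtain ⟨b1, φ, b2, b3, b4⟩ := hy
    exact ⟨fun c hc => mul_mem (a1 c hc) (b1 c hc), _, a2.mul b2,
      fun m hm => by simp only [a3 m hm, b3 m hm, one_mul],
      fun c hc => by simp only [a4 c hc, b4 c hc, Pi.mul_apply, h1 _ (a1 c hc) _ (b1 c hc)]⟩
  | inv x _ hx =>
    obtain ⟨a1, ψ, a2, a3, a4⟩ := hx
    exact ⟨fun c hc => inv_mem (a1 c hc), _, a2.inv', fun m hm => by simp only [a3 m hm, inv_one],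
      fun c hc => by simp only [a4 c hc, Pi.inv_apply, h1.inv (a1 c hc)]⟩

theorem tupD {us : List (List FP)} {SD : Set FP} (hD : D = Subgroup.closure SD)
    (g2 : ∀ c < K, ∀ d ∈ SD, ∃ u ∈ us, ∀ i < K, u.getD i 1 = if i = c then d else 1)
    {d : ℕ → FP} (hd : ∀ c < K, d c ∈ D) : ∃ w ∈ tupG us, ∀ c < K, w c = d c := by
  have one : ∀ c < K, ∀ x ∈ D, ∃ w ∈ tupG us, ∀ i < K, w i = if i = c then x else 1 := by
    intro c hc x hx
    rw [hD] at hx
    induction hx using Subgroup.closure_induction with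
    | mem x hx =>
      obtain ⟨u, hu, e⟩ := g2 c hc x hx
      exact ⟨_, Subgroup.subset_closure ⟨u, hu, rfl⟩, e⟩
    | one => exact ⟨1, one_mem _, fun i _ => by simp⟩
    | mul x y _ _ hx hy =>
      obtain ⟨v, hv, e⟩ := hx
      obtain ⟨w, hw, e'⟩ := hy
      exact ⟨v * w, mul_mem hv hw, fun i hi => by
        rw [Pi.mul_apply, e i hi, e' i hi]; split_ifs <;> simp⟩
    | inv x _ hx =>
      obtain ⟨v, hv, e⟩ := hx
      exact ⟨v⁻¹, inv_mem hv, fun i hi => by rw [Pi.inv_apply, e i hi]; split_ifs <;> simp⟩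
  have key : ∀ k, k ≤ K → ∃ w ∈ tupG us, ∀ c < K, w c = if c < k then d c else 1 := by
    intro k
    induction k with
    | zero => intro _; exact ⟨1, one_mem _, fun i _ => by simp⟩
    | succ k ih =>
      intro hk
      obtain ⟨v, hv, e⟩ := ih (by omega)
      obtain ⟨w, hw, e'⟩ := one k (by omega) _ (hd k (by omega))
      refine ⟨v * w, mul_mem hv hw, fun i hi => ?_⟩
      rw [Pi.mul_apply, e i hi, e' i hi]
      rcases lt_trichotomy i k with h | rfl | h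
      · rw [if_pos h, if_neg h.ne, if_pos (by omega), mul_one]
      · simp
      · rw [if_neg (by omega), if_neg (by omega), if_neg (by omega), mul_one]
  obtain ⟨w, hw, e⟩ := key K le_rfl
  exact ⟨w, hw, fun c hc => by rw [e c hc, if_pos hc]⟩

theorem mem_of_W (h : St n p K E D M Mh sg) (h1 : Hm E π) (h2 : ∀ x ∈ E, π x = 1 ↔ x ∈ D)
    {us : List (List FP)} {SD SE : Set FP} (hD : D = Subgroup.closure SD)
    (hE : E = Subgroup.closure SE)
    (g1 : ∀ u ∈ us, W K E M Mh sg π fun i => u.getD i 1)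
    (g2 : ∀ c < K, ∀ d ∈ SD, ∃ u ∈ us, ∀ i < K, u.getD i 1 = if i = c then d else 1)
    (g3 : ∀ r < K, ∀ x ∈ SE, ∃ u ∈ us, ∀ c < K, sg c ∉ Mc M sg c →
      π (u.getD c 1) = π (if c = r then x else 1))
    {u : ℕ → FP} (hu : W K E M Mh sg π u) : ∃ v ∈ tupG us, ∀ c < K, v c = u c := by
  have one : ∀ r < K, ∀ x ∈ E, ∃ w ∈ tupG us, ∀ c < K, sg c ∉ Mc M sg c →
      π (w c) = if c = r then π x else 1 := by
    intro r hr x hx
    have hx' := hx
    rw [hE] at hx'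
    induction hx' using Subgroup.closure_induction with
    | mem x hx' =>
      obtain ⟨u, hu, e⟩ := g3 r hr x hx'
      refine ⟨_, Subgroup.subset_closure ⟨u, hu, rfl⟩, fun c hc hc' => ?_⟩
      rw [e c hc hc']; split_ifs
      · rfl
      · exact h1.one
    | one => exact ⟨1, one_mem _, fun i _ _ => by simp [h1.one]⟩
    | mul x y hx1 hy1 ihx ihy =>
      rw [← hE] at hx1 hy1
      obtain ⟨v, hv, e⟩ := ihx hx1
      obtain ⟨w, hw, e'⟩ := ihy hy1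
      refine ⟨v * w, mul_mem hv hw, fun i hi hi' => ?_⟩
      rw [Pi.mul_apply, h1 _ ((W_of_mem h1 g1 hv).1 i hi) _ ((W_of_mem h1 g1 hw).1 i hi), e i hi hi',
        e' i hi hi', h1 x hx1 y hy1]
      split_ifs <;> simp
    | inv x hx1 ihx =>
      rw [← hE] at hx1
      obtain ⟨v, hv, e⟩ := ihx hx1
      refine ⟨v⁻¹, inv_mem hv, fun i hi hi' => ?_⟩
      rw [Pi.inv_apply, h1.inv ((W_of_mem h1 g1 hv).1 i hi), e i hi hi', h1.inv hx1]
      split_ifs <;> simp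
  have key : ∀ k, k ≤ K → ∃ w ∈ tupG us, ∀ c < K, sg c ∉ Mc M sg c →
      π (w c) = if c < k then π (u c) else 1 := by
    intro k
    induction k with
    | zero => intro _; exact ⟨1, one_mem _, fun i _ _ => by simp [h1.one]⟩
    | succ k ih =>
      intro hk
      obtain ⟨v, hv, e⟩ := ih (by omega)
      obtain ⟨w, hw, e'⟩ := one k (by omega) _ (hu.1 k (by omega))
      refine ⟨v * w, mul_mem hv hw, fun i hi hi' => ?_⟩
      rw [Pi.mul_apply, h1 _ ((W_of_mem h1 g1 hv).1 i hi) _ ((W_of_mem h1 g1 hw).1 i hi), e i hi hi',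
        e' i hi hi']
      rcases lt_trichotomy i k with h | rfl | h
      · rw [if_pos h, if_neg h.ne, if_pos (by omega), mul_one]
      · simp
      · rw [if_neg (by omega), if_neg (by omega), if_neg (by omega), mul_one]
  obtain ⟨w, hw, e⟩ := key K le_rfl
  obtain ⟨a1, ψ, a2, a3, a4⟩ := W_of_mem h1 g1 hw
  obtain ⟨b1, φ, b2, b3, b4⟩ := hu
  have eq := a2.eq_on b2 h.gen' (fun s hs => by rw [a3 s hs, b3 s hs]) (by
    rintro _ ⟨c, hc, hc', rfl⟩
    rw [a4 c hc, b4 c hc, e c hc hc', if_pos hc])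
  obtain ⟨d, hd, e'⟩ := tupD hD g2 (d := fun c => (w c)⁻¹ * u c) fun c hc => by
    rw [← h2 _ (mul_mem (inv_mem (a1 c hc)) (b1 c hc)), h1 _ (inv_mem (a1 c hc)) _ (b1 c hc),
      h1.inv (a1 c hc), ← a4 c hc, ← b4 c hc, eq _ (h.mem hc), inv_mul_cancel]
  exact ⟨w * d, mul_mem hw hd, fun c hc => by rw [Pi.mul_apply, e' c hc, mul_inv_cancel_left]⟩

theorem exA (h1 : Hm E π) (h2 : ∀ x ∈ E, π x = 1 ↔ x ∈ D) (h3 : ∀ a, ∃ x ∈ E, π x = a) {l : FP}
    (hE : ∀ x ∈ E, l * x * l⁻¹ ∈ E) (hD : ∀ x ∈ D, l * x * l⁻¹ ∈ D) :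
    ∃ α : A → A, (∀ x ∈ E, α (π x) = π (l * x * l⁻¹)) ∧ ∀ a b, α (a * b) = α a * α b := by
  choose y hy hy' using h3
  have key : ∀ x ∈ E, π (l * y (π x) * l⁻¹) = π (l * x * l⁻¹) := by
    intro x hx
    have hm := mul_mem (inv_mem (hy (π x))) hx
    have : (y (π x))⁻¹ * x ∈ D := by
      rw [← h2 _ hm, h1 _ (inv_mem (hy _)) _ hx, h1.inv (hy _), hy', inv_mul_cancel]
    have h4 := (h2 _ (hE _ hm)).2 (hD _ this)
    have e : l * x * l⁻¹ = (l * y (π x) * l⁻¹) * (l * ((y (π x))⁻¹ * x) * l⁻¹) := by group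
    rw [e, h1 _ (hE _ (hy _)) _ (hE _ hm), h4, mul_one]
  refine ⟨fun a => π (l * y a * l⁻¹), key, fun a b => ?_⟩
  have := key _ (mul_mem (hy a) (hy b))
  rw [h1 _ (hy a) _ (hy b), hy', hy'] at this
  beta_reduce
  rw [this, ← h1 _ (hE _ (hy a)) _ (hE _ (hy b))]
  congr 1; group

end

/-! The program. -/

def sig (n : ℕ) (M : Grp) (c : ℕ) : FP :=
  bif smem (c % (2 * n)) (M.orb (c / (2 * n))) then
    res (M.orb (c / (2 * n))) (tr M (c / (2 * n)) (c % (2 * n))) else 1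

def Rl (n : ℕ) (M : Grp) : List ℕ := (List.range (2 * n * (2 * n))).filter fun c =>
  !Grp.mem (sig n M c) (M.sup (Grp.ofL ((List.range c).map fun i => sig n M i)))

def ext (n : ℕ) (M F : Grp) (r : ℕ) (x : FP) : Grp :=
  F.sup (Grp.ofL ((Rl n M).map fun c => (bif eqb c r then x else 1) * sig n M c))

def lifts (n : ℕ) (M F : Grp) : List FP := (List.range (2 * n * (2 * n))).map fun c =>
  (sig n M c)⁻¹ * ((Cos.lc (sig n M c) (Grp.sy n)).inter F).rep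

def FX (n : ℕ) (LA Y X : Grp) : Grp := (LA.sup Y).inf (X.sup (symB n))

def usL (n : ℕ) (M D E : Grp) : List (List FP) :=
  ((List.range (2 * n * (2 * n))).flatMap fun c => D.gens.map fun d =>
    (List.range (2 * n * (2 * n))).map fun i => bif eqb i c then d else 1) ++
  (List.range (2 * n * (2 * n))).flatMap fun r => E.gens.map fun x =>
    lifts n M (ext n M (D.sup M) r x)

@[fun_prop] theorem pt_sig : PT fun p : ℕ × Grp × ℕ => sig p.1 p.2.1 p.2.2 := by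
  unfold sig; fun_prop

@[fun_prop] theorem pt_Rl : PT fun p : ℕ × Grp => Rl p.1 p.2 := by unfold Rl; fun_prop

@[fun_prop] theorem pt_ext : PT fun p : ℕ × Grp × Grp × ℕ × FP =>
    ext p.1 p.2.1 p.2.2.1 p.2.2.2.1 p.2.2.2.2 := by unfold ext; fun_prop

theorem ot_lifts (h : S_inter) : OT fun p : ℕ × Grp × Grp => lifts p.1 p.2.1 p.2.2 := by
  unfold S_inter at h; unfold lifts; fun_prop

theorem ot_FX (h : S_inf) : OT fun p : ℕ × Grp × Grp × Grp => FX p.1 p.2.1 p.2.2.1 p.2.2.2 := by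
  unfold S_inf at h; unfold FX; fun_prop

theorem ot_usL (h : S_inter) : OT fun p : ℕ × Grp × Grp × Grp => usL p.1 p.2.1 p.2.2.1 p.2.2.2 := by
  have := ot_lifts h
  unfold usL; fun_prop

theorem ext_val (n : ℕ) (M F : Grp) (r : ℕ) (x : FP) : (ext n M F r x).1 =
    Fx F.1 M.1 (sig n M) (fun c => if c = r then x else 1) (2 * n * (2 * n)) := by
  have e : ∀ c, (M.sup (Grp.ofL ((List.range c).map fun i => sig n M i))).1 = Mc M.1 (sig n M) c := by
    intro c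
    simp only [Grp.sup_val, Grp.ofL_val, Mc, List.mem_map, List.mem_range]
  simp only [ext, Fx, Grp.sup_val, Grp.ofL_val, List.mem_map, Rl, List.mem_filter, List.mem_range,
    Bool.not_eq_eq_eq_not, Bool.not_true, Grp.mem_false, ← e, and_assoc]
  congr 2
  ext g
  refine exists_congr fun c => and_congr_right fun _ => and_congr_right fun _ => ?_
  by_cases hc : c = r
  · simp [hc, eqb]
  · simp [hc, eqb]

theorem lifts_spec {n c : ℕ} {M F : Grp} (hs : sig n M c ∈ (symB n).1) (hc : c < 2 * n * (2 * n))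
    {x : FP} (hx : x ∈ Sy n) (hF : x * sig n M c ∈ F.1) :
    (lifts n M F).getD c 1 ∈ Sy n ∧ (lifts n M F).getD c 1 * sig n M c ∈ F.1 := by
  have h1 : x * sig n M c ∈ (Cos.lc (sig n M c) (Grp.sy n)).inter F := by
    refine Cos.mem_inter.2 ⟨?_, hF⟩
    rw [Cos.mem_lc, M3.comm_halves hx hs, inv_mul_cancel_left]; exact hx
  have h2 := Cos.mem_inter.1 (KG.rep_mem h1)
  rw [lifts, List.getD_eq_getElem _ _ (by simpa using hc), List.getElem_map, List.getElem_range]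
  refine ⟨h2.1, ?_⟩
  rw [M3.comm_halves h2.1 hs, mul_inv_cancel_left]; exact h2.2

theorem self_so (M : Grp) : ∀ h ∈ M.1, ∀ x, So M.1 x (h • x) := fun h hh _ => ⟨h, hh, rfl⟩

theorem res_eq {M : Grp} (ab : ∀ u ∈ M.1, ∀ v ∈ M.1, u * v = v * u) {g h : FP} {a : ℕ}
    (hg : g ∈ M.1) (hh : h ∈ M.1) (e : g • a = h • a) : res (M.orb a) g = res (M.orb a) h := by
  refine FP.ext fun x => ?_
  rw [M3.res_smul (M3.le_sst_orb M a hg), M3.res_smul (M3.le_sst_orb M a hh)]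
  split_ifs with hx
  · exact M3.ab_reg ab hg hh e (Grp.mem_orb.1 hx)
  · rfl

theorem sig_eq {n a b : ℕ} (M : Grp) (hb : b < 2 * n) : sig n M (a * (2 * n) + b) =
    if So M.1 a b then res (M.orb a) (tr M a b) else 1 := by
  have h1 : (a * (2 * n) + b) / (2 * n) = a := by
    rw [add_comm, Nat.add_mul_div_right _ _ (by omega), Nat.div_eq_of_lt hb, zero_add]
  have h2 : (a * (2 * n) + b) % (2 * n) = b := by
    rw [add_comm, Nat.add_mul_mod_self_right, Nat.mod_eq_of_lt hb]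
  rw [sig, h1, h2]
  split_ifs with h
  · rw [smem_iff.2 (Grp.mem_orb.2 h), cond_true]
  · rw [smem_false.2 fun h' => h (Grp.mem_orb.1 h'), cond_false]

omit [KA] in
theorem dec_lt {N c : ℕ} (hc : c < N * N) : ∃ a < N, ∃ b < N, c = a * N + b := by
  have hN : 0 < N := Nat.pos_of_ne_zero (by rintro rfl; simp at hc)
  exact ⟨c / N, Nat.div_lt_of_lt_mul hc, c % N, Nat.mod_lt _ hN, by
    rw [mul_comm]; exact (Nat.div_add_mod c N).symm⟩

theorem hat_gen {n : ℕ} {M : Grp} (hM : M.1 ≤ Sy (2 * n))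
    (ab : ∀ u ∈ M.1, ∀ v ∈ M.1, u * v = v * u) :
    (M.hat M).1 = Subgroup.closure {s | ∃ c < 2 * n * (2 * n), sig n M c = s} := by
  rw [M3h.hat_eq (self_so M)]
  refine le_antisymm ((Subgroup.closure_le _).2 ?_) ((Subgroup.closure_le _).2 ?_)
  · rintro _ ⟨a, h, hh, rfl⟩
    by_cases ha : a < 2 * n
    · have hb : h • a < 2 * n := (smul_lt (hM hh)).2 ha
      refine Subgroup.subset_closure ⟨a * (2 * n) + h • a, by nlinarith, ?_⟩
      rw [sig_eq M hb, if_pos ⟨h, hh, rfl⟩]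
      exact res_eq ab (KG.tr_mem _ _ _) hh (KG.tr_smul ⟨h, hh, rfl⟩)
    · rw [res_eq ab hh (one_mem _) (by rw [hM hh a (not_lt.1 ha), one_smul]), M3.res_one]
      exact one_mem _
  · rintro _ ⟨c, hc, rfl⟩
    obtain ⟨a, -, b, hb, rfl⟩ := dec_lt hc
    rw [sig_eq M hb]
    split_ifs
    · exact Subgroup.subset_closure ⟨a, _, KG.tr_mem _ _ _, rfl⟩
    · exact one_mem _

theorem sig_cj {n c : ℕ} {M : Grp} (ab : ∀ u ∈ M.1, ∀ v ∈ M.1, u * v = v * u) {g : FP}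
    (hg : g ∈ Sy (2 * n)) (hM : cj g M.1 = M.1) (hc : c < 2 * n * (2 * n)) :
    g * sig n M c * g⁻¹ = sig n M (prP (2 * n) g • c) := by
  obtain ⟨a, ha, b, hb, rfl⟩ := dec_lt hc
  have po := M3.po_of_nm hM
  rw [M3.prP_smul hg ha hb, sig_eq M hb, sig_eq M ((smul_lt hg).2 hb)]
  by_cases h : So M.1 a b
  · rw [if_pos h, if_pos ((po a b).1 h), M3.res_cj (T := M.orb (g • a))
      (M3.le_sst_orb M a (KG.tr_mem _ _ _)) fun x => by rw [Grp.mem_orb, Grp.mem_orb]; exact po a x]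
    refine res_eq ab ?_ (KG.tr_mem _ _ _) ?_
    · rw [← hM, mem_cj]; simpa [mul_assoc] using KG.tr_mem M a b
    · rw [mul_smul, mul_smul, inv_smul_smul, KG.tr_smul h, KG.tr_smul ((po a b).1 h)]
  · rw [if_neg h, if_neg fun h' => h ((po a b).2 h'), mul_one, mul_inv_cancel]

section
variable {n p : ℕ} {L D Y X E LL LA : Grp}

theorem lft_mul {g h : FP} (hg : g ∈ sst (Finset.range n)) (hh : h ∈ sst (Finset.range n)) :
    lft n (g * h) = lft n g * lft n h := M3.res_mul hg hh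

theorem lft_inv {g : FP} (hg : g ∈ sst (Finset.range n)) : lft n g⁻¹ = (lft n g)⁻¹ := M3.res_inv hg

theorem rgt_cj {g h : FP} (hg : g ∈ Sy (2 * n)) (hg' : g ∈ sst (Finset.range n))
    (hh : h ∈ Sy (2 * n)) (hh' : h ∈ sst (Finset.range n)) :
    rgt n (g * h * g⁻¹) = g * rgt n h * g⁻¹ :=
  (M3.res_cj (M3.sst_RH hh hh') fun x => (M3.sst_RH hg hg' x).symm).symm

theorem lft_cj {g h : FP} (hg' : g ∈ sst (Finset.range n)) (hh' : h ∈ sst (Finset.range n)) :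
    lft n (g * h * g⁻¹) = lft n g * lft n h * (lft n g)⁻¹ := by
  rw [lft_mul (mul_mem hg' hh') (inv_mem hg'), lft_mul hg' hh', lft_inv hg']

theorem lft_L (k : Lk n L E Y LL LA) {g : FP} (hg : g ∈ LL.1) : lft n g ∈ L.1 :=
  k.covL ▸ Subgroup.mem_sup_left ((M3.mem_con k.pres).2 ⟨g, hg, rfl⟩)

theorem lft_E (k : Lk n L E Y LL LA) {g : FP} (hg : g ∈ LA.1) : lft n g ∈ E.1 :=
  k.covK ▸ Subgroup.mem_sup_left ((M3.mem_con (k.ni.1.trans k.pres)).2 ⟨g, hg, rfl⟩)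

theorem mem_FX (k : Lk n L E Y LL LA) (En : E.1 ≤ Sy n)
    (hE : X.1 ⊔ Y.1 = E.1) {h x : FP} (hh : h ∈ LA.1) (hx : x ∈ X.1)
    (hy : x⁻¹ * lft n h ∈ Y.1) : x * rgt n h ∈ (FX n LA Y X).1 := by
  have h1 := k.le (k.ni.1 hh)
  have h2 := k.pres (k.ni.1 hh)
  have h3 := M3.rgt_mem h1 h2
  have YE : Y.1 ≤ E.1 := hE ▸ le_sup_right
  refine ⟨?_, mul_mem (Subgroup.mem_sup_left hx) (Subgroup.mem_sup_right h3)⟩
  have : x * rgt n h = h * (x⁻¹ * lft n h)⁻¹ := by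
    rw [eq_mul_inv_iff_mul_eq, mul_assoc, ← M3.comm_halves (En (YE hy)) h3, ← mul_assoc,
      mul_inv_cancel_left, M3.lft_mul_rgt h1 h2]
  rw [this]
  exact mul_mem (Subgroup.mem_sup_left hh) (Subgroup.mem_sup_right (inv_mem hy))

theorem exX (k : Lk n L E Y LL LA) (ea : EA p E.1 D.1) (DY : D.1 ≤ Y.1)
    (hE : X.1 ⊔ Y.1 = E.1) {h : FP} (hh : h ∈ LA.1) : ∃ x ∈ X.1, x⁻¹ * lft n h ∈ Y.1 := by
  have YE : Y.1 ≤ E.1 := hE ▸ le_sup_right
  have XE : X.1 ≤ E.1 := hE ▸ le_sup_left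
  obtain ⟨x, hx, y, hy, e⟩ := (M1.mem_sup_nm (M1.nm_mono XE (M1.ea_nm ea DY YE))).1
    (hE ▸ lft_E k hh)
  exact ⟨x, hx, by rw [e, inv_mul_cancel_left]; exact hy⟩

theorem exH (k : Lk n L E Y LL LA) (ea : EA p E.1 D.1) (DY : D.1 ≤ Y.1) (YE : Y.1 ≤ E.1) {x : FP}
    (hx : x ∈ E.1) : ∃ h ∈ LA.1, x⁻¹ * lft n h ∈ Y.1 := by
  have CE : (LA.con (Finset.range n)).1 ≤ E.1 := k.covK ▸ le_sup_left
  obtain ⟨c, hc, y, hy, rfl⟩ := (M1.mem_sup_nm (M1.nm_mono CE (M1.ea_nm ea DY YE))).1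
    (k.covK.symm ▸ hx)
  obtain ⟨h, hh, rfl⟩ := (M3.mem_con (k.ni.1.trans k.pres)).1 hc
  exact ⟨h, hh, by simpa [lft] using hy⟩

theorem gr_FX {Mh : SG} (k : Lk n L E Y LL LA) (nY : NI L.1 Y.1) (En : E.1 ≤ Sy n)
    (ea : EA p E.1 D.1) (hE : X.1 ⊔ Y.1 = E.1) (hI : X.1 ⊓ Y.1 = D.1)
    (hM : (LA.con (RH n)).1 ≤ Mh) :
    Gr n E.1 D.1 Mh (FX n LA Y X).1 (LA.con (RH n)).1 := by
  have YE : Y.1 ≤ E.1 := hE ▸ le_sup_right
  have XE : X.1 ≤ E.1 := hE ▸ le_sup_left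
  have DY : D.1 ≤ Y.1 := hI ▸ inf_le_right
  have DX : D.1 ≤ X.1 := hI ▸ inf_le_left
  obtain ⟨-, -, m3⟩ := M7.lk_M k
  have hN : Nm LA.1 Y.1 := by
    intro h hh y hy
    have h1 := k.le (k.ni.1 hh)
    have h2 := k.pres (k.ni.1 hh)
    have e : h * y * h⁻¹ = lft n h * y * (lft n h)⁻¹ := by
      conv_lhs => rw [← M3.lft_mul_rgt h1 h2]
      rw [mul_assoc (lft n h), ← M3.comm_halves (En (YE hy)) (M3.rgt_mem h1 h2)]
      group
    rw [e]; exact nY.2 _ (lft_L k (k.ni.1 hh)) y hy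
  have key : ∀ g ∈ (FX n LA Y X).1, ∃ h ∈ LA.1, ∃ y ∈ Y.1,
      g = lft n h * y * rgt n h ∧ lft n h * y ∈ X.1 ∧ rgt n g = rgt n h := by
    intro g hg
    obtain ⟨h, hh, y, hy, rfl⟩ := (M1.mem_sup_nm hN).1 hg.1
    have h1 := k.le (k.ni.1 hh)
    have h2 := k.pres (k.ni.1 hh)
    have h3 := M3.rgt_mem h1 h2
    have h4 := mul_mem (En (lft_E k hh)) (En (YE hy))
    have e : h * y = lft n h * y * rgt n h := by
      rw [mul_assoc, M3.comm_halves (En (YE hy)) h3, ← mul_assoc, M3.lft_mul_rgt h1 h2]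
    refine ⟨h, hh, y, hy, e, ?_, by rw [e, M3.rgt_prod h4 h3]⟩
    have := ((M3.mem_prod (XE.trans En) le_rfl).1 hg.2).2.2.1
    rwa [e, M3.lft_prod h4 h3] at this
  refine ⟨fun d hd => ⟨Subgroup.mem_sup_right (DY hd), Subgroup.mem_sup_left (DX hd)⟩,
    fun g hg => ?_, fun x hx hx' => ?_, fun s hs => ?_, fun g hg => ?_⟩
  · obtain ⟨h, hh, y, -, e, h1, -⟩ := key g hg
    rw [e]
    exact mul_mem (Subgroup.mem_sup_left (XE h1))
      (Subgroup.mem_sup_right (hM ((m3 _).2 ⟨h, hh, rfl⟩)))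
  · obtain ⟨h, hh, y, hy, e, h1, h2⟩ := key x hx'
    have e3 : rgt n x = 1 := by simpa using M3.rgt_prod hx (one_mem (symB n).1)
    rw [e3] at h2
    rw [e, ← h2, mul_one, ← hI]
    exact ⟨h1, mul_mem (k.ker h hh h2.symm) hy⟩
  · obtain ⟨h, hh, rfl⟩ := (m3 _).1 hs
    obtain ⟨x, hx, hy⟩ := exX k ea DY hE hh
    exact ⟨x, XE hx, mem_FX k En hE hh hx hy⟩
  · obtain ⟨h, hh, y, -, -, -, h2⟩ := key g hg
    exact (m3 _).2 ⟨h, hh, h2.symm⟩

theorem lifts_of_gr {M F : Grp} {Mh : SG}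
    (h : St n p (2 * n * (2 * n)) E.1 D.1 M.1 Mh (sig n M)) (g : Gr n E.1 D.1 Mh F.1 M.1) (r : ℕ)
    {x : FP} (hx : x ∈ E.1) {A : Type} [CommGroup A] {π : FP → A} (h1 : Hm E.1 π)
    (h2 : ∀ x ∈ E.1, π x = 1 ↔ x ∈ D.1) : ∃ ψ : FP → A, Hm Mh ψ ∧
      (∀ y ∈ E.1, ∀ s ∈ Mh, y * s ∈ F.1 → ψ s = π y) ∧
      (∀ c < 2 * n * (2 * n), sig n M c ∉ Mc M.1 (sig n M) c →
        ψ (sig n M c) = π (if c = r then x else 1)) ∧
      ∀ c < 2 * n * (2 * n), (lifts n M (ext n M F r x)).getD c 1 ∈ E.1 ∧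
        ψ (sig n M c) = π ((lifts n M (ext n M F r x)).getD c 1) := by
  have he : ∀ c, (if c = r then x else 1) ∈ E.1 := fun c => by
    split_ifs
    · exact hx
    · exact one_mem _
  have g' := g.ext h he le_rfl
  rw [h.Mc_K, ← ext_val] at g'
  obtain ⟨ψ, a1, a2⟩ := g'.hom h h1 h2
  refine ⟨ψ, a1, fun y hy s hs hF => (a2 y hy s hs).1 (Subgroup.mem_sup_left hF),
    fun c hc hc' => (a2 _ (he c) _ (h.mem hc)).1 ?_, fun c hc => ?_⟩
  · rw [ext_val]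
    exact Subgroup.mem_sup_right (Subgroup.subset_closure ⟨c, hc, hc', rfl⟩)
  · obtain ⟨y, hy, hy'⟩ := g'.dom _ (h.mem hc)
    obtain ⟨b1, b2⟩ := lifts_spec (h.MB (h.mem hc)) hc (h.En hy) hy'
    have := ((M3.mem_prod h.En h.MB).1 (g'.le b2)).2.2.1
    rw [M3.lft_prod b1 (h.MB (h.mem hc))] at this
    exact ⟨this, (a2 _ this _ (h.mem hc)).1 b2⟩

theorem mem_PP (k : Lk n L E Y LL LA) {d : FP × FP} :
    d ∈ Subgroup.closure {d | d ∈ LL.gens.map fun g => (prP (2 * n) g, lft n g)} ↔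
      ∃ g ∈ LL.1, d = (prP (2 * n) g, lft n g) := by
  have one : prP (2 * n) 1 = 1 := by
    have := M3.prP_mul (N := 2 * n) (one_mem _) (one_mem _)
    rw [one_mul] at this
    exact mul_eq_left.1 this.symm
  have inv : ∀ g ∈ LL.1, prP (2 * n) g⁻¹ = (prP (2 * n) g)⁻¹ := fun g hg => by
    rw [eq_inv_iff_mul_eq_one, ← M3.prP_mul (inv_mem (k.le hg)) (k.le hg), inv_mul_cancel, one]
  constructor
  · intro hd
    induction hd using Subgroup.closure_induction with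
    | mem x hx =>
      obtain ⟨g, hg, rfl⟩ := List.mem_map.1 hx
      exact ⟨g, KG.mem_of_gens hg, rfl⟩
    | one => exact ⟨1, one_mem _, by rw [one, lft, M3.res_one]; rfl⟩
    | mul x y _ _ hx hy =>
      obtain ⟨g, hg, rfl⟩ := hx
      obtain ⟨h, hh, rfl⟩ := hy
      exact ⟨g * h, mul_mem hg hh, by
        rw [M3.prP_mul (k.le hg) (k.le hh), lft_mul (k.pres hg) (k.pres hh)]; rfl⟩
    | inv x _ hx =>
      obtain ⟨g, hg, rfl⟩ := hx
      exact ⟨g⁻¹, inv_mem hg, by rw [inv g hg, lft_inv (k.pres hg)]; rfl⟩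
  · rintro ⟨g, hg, rfl⟩
    have hg' := hg
    rw [← KG.closure_gens] at hg'
    induction hg' using Subgroup.closure_induction with
    | mem x hx => exact Subgroup.subset_closure (List.mem_map.2 ⟨x, hx, rfl⟩)
    | one => rw [one, lft, M3.res_one]; exact one_mem _
    | mul x y hx hy ihx ihy =>
      rw [KG.closure_gens] at hx hy
      rw [M3.prP_mul (k.le hx) (k.le hy), lft_mul (k.pres hx) (k.pres hy)]
      exact mul_mem (ihx hx) (ihy hy)
    | inv x hx ihx =>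
      rw [KG.closure_gens] at hx
      rw [inv x hx, lft_inv (k.pres hx)]
      exact inv_mem (ihx hx)

theorem core {Z : Grp} (k : Lk n L E Y LL LA) (nY : NI L.1 Y.1) (nE : NI L.1 E.1) (nD : NI L.1 D.1)
    (ea : EA p E.1 D.1) (hX : X.1 ⊔ Y.1 = E.1) (hZ : Z.1 ⊔ Y.1 = E.1) (DX : D.1 ≤ X.1)
    (DZ : D.1 ≤ Z.1) (DY : D.1 ≤ Y.1) {A : Type} [CommGroup A] {π : FP → A} (h1 : Hm E.1 π)
    (h2 : ∀ x ∈ E.1, π x = 1 ↔ x ∈ D.1) {ψX ψZ : FP → A}
    (sX : ∀ h ∈ LA.1, ∀ x ∈ X.1, x⁻¹ * lft n h ∈ Y.1 → ψX (rgt n h) = π x)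
    (sZ : ∀ h ∈ LA.1, ∀ x ∈ Z.1, x⁻¹ * lft n h ∈ Y.1 → ψZ (rgt n h) = π x)
    {g : FP} (hg : g ∈ LL.1) {α : A → A}
    (hα : ∀ x ∈ E.1, α (π x) = π (lft n g * x * (lft n g)⁻¹)) :
    cj (lft n g) X.1 = Z.1 ↔ ∀ h ∈ LA.1, α (ψX (g⁻¹ * rgt n h * g)) = ψZ (rgt n h) := by
  have XE : X.1 ≤ E.1 := hX ▸ le_sup_left
  have ZE : Z.1 ≤ E.1 := hZ ▸ le_sup_left
  have YE : Y.1 ≤ E.1 := hX ▸ le_sup_right
  have lL := lft_L k hg
  have eqD : ∀ x ∈ E.1, ∀ y ∈ E.1, π x = π y → x⁻¹ * y ∈ D.1 := fun x hx y hy e => by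
    rw [← h2 _ (mul_mem (inv_mem hx) hy), h1 _ (inv_mem hx) _ hy, h1.inv hx, e, inv_mul_cancel]
  have c1 : ∀ h ∈ LA.1, g⁻¹ * h * g ∈ LA.1 := fun h hh => by
    simpa using k.ni.2 _ (inv_mem hg) h hh
  have c2 : ∀ h ∈ LA.1, rgt n (g⁻¹ * h * g) = g⁻¹ * rgt n h * g := fun h hh => by
    simpa using rgt_cj (inv_mem (k.le hg)) (inv_mem (k.pres hg)) (k.le (k.ni.1 hh))
      (k.pres (k.ni.1 hh))
  have c3 : ∀ h ∈ LA.1, lft n (g⁻¹ * h * g) = (lft n g)⁻¹ * lft n h * lft n g := fun h hh => by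
    simpa [lft_inv (k.pres hg)] using lft_cj (inv_mem (k.pres hg)) (k.pres (k.ni.1 hh))
  constructor
  · intro e h hh
    obtain ⟨x, hx, hy⟩ := exX k ea DY hX (c1 h hh)
    rw [← c2 h hh, sX _ (c1 h hh) x hx hy, hα x (XE hx), sZ h hh]
    · rw [← e, mem_cj]; simpa [mul_assoc] using hx
    · have := nY.2 _ lL _ hy
      rw [c3 h hh] at this
      simpa [mul_assoc] using this
  · intro e
    ext z
    rw [mem_cj]
    constructor
    · intro hx
      have zE : z ∈ E.1 := by simpa [mul_assoc] using nE.2 _ lL _ (XE hx)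
      obtain ⟨h, hh, hy⟩ := exH k ea DY YE zE
      obtain ⟨w, hw, hw'⟩ := exX k ea DY hZ hh
      have e1 := e h hh
      rw [← c2 h hh, sX _ (c1 h hh) _ hx (by
        rw [c3 h hh]
        simpa [mul_assoc] using nY.2 _ (inv_mem lL) _ hy), hα _ (XE hx), sZ h hh w hw hw'] at e1
      have e2 := eqD _ (ZE hw) _ zE (by rw [← e1]; congr 1; group)
      simpa using mul_mem hw (DZ e2)
    · intro hz
      obtain ⟨h, hh, hy⟩ := exH k ea DY YE (ZE hz)
      obtain ⟨x, hx, hx'⟩ := exX k ea DY hX (c1 h hh)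
      have e1 := e h hh
      rw [← c2 h hh, sX _ (c1 h hh) x hx hx', hα x (XE hx), sZ h hh z hz hy] at e1
      have e2 := eqD _ (nE.2 _ lL _ (XE hx)) _ (ZE hz) e1
      have e3 : x⁻¹ * ((lft n g)⁻¹ * z * lft n g) ∈ X.1 :=
        DX (by simpa [mul_assoc] using nD.2 _ (inv_mem lL) _ e2)
      simpa using mul_mem hx e3

omit [KA] in
theorem getD_mem {l : List FP} {H : SG} (h : ∀ c < l.length, l.getD c 1 ∈ H) : ∀ a ∈ l, a ∈ H := by
  intro a ha
  obtain ⟨i, hi, rfl⟩ := List.getElem_of_mem ha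
  have := h i hi
  rwa [List.getD_eq_getElem _ _ hi] at this

theorem main {Z : Grp} {cp : ℕ × ℕ × List (FP × FP) × List (List FP) × List FP × List FP → Cos}
    (hs : ∀ n m ps us gs hs, (∀ d ∈ ps, d.1 ∈ Sy m ∧ d.2 ∈ Sy n) → (∀ u ∈ us, ∀ a ∈ u, a ∈ Sy n) →
      (∀ a ∈ gs, a ∈ Sy n) → (∀ a ∈ hs, a ∈ Sy n) →
      (∀ d ∈ Subgroup.closure {d | d ∈ ps}, ∀ u ∈ tupG us, ∃ v ∈ tupG us,
        ∀ i < m, v (d.1 • i) = d.2 * u i * d.2⁻¹) →
      ∀ l, l ∈ cp (n, m, ps, us, gs, hs) ↔ ∃ π, (π, l) ∈ Subgroup.closure {d | d ∈ ps} ∧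
        ∃ u ∈ tupG us, ∀ i < m, l * gs.getD i 1 * l⁻¹ = hs.getD (π • i) 1 * u (π • i))
    (v : VComp n p L.1 D.1 Y.1 X.1 Z.1) (hE : X.1 ⊔ Y.1 = E.1) (ea : EA p E.1 D.1)
    (k : Lk n L E Y LL LA) {M : Grp} (hM : M = LA.con (RH n)) (eM : EA p M.1 ⊥) :
    cp (n, 2 * n * (2 * n), LL.gens.map fun g => (prP (2 * n) g, lft n g), usL n M D E,
      lifts n M (ext n M (FX n LA Y X) 0 1), lifts n M (ext n M (FX n LA Y Z) 0 1)) =
      TR (LL.con (Finset.range n)) X Z := by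
  obtain ⟨A, _, π, h1, h2, h3⟩ := exQ ea
  obtain ⟨m1, m2, m3⟩ := M7.lk_M k
  rw [← hM] at m1 m2 m3
  have nE : NI L.1 E.1 := hE ▸ v.nE
  have En : E.1 ≤ Sy n := nE.1.trans v.le
  have hZ : Z.1 ⊔ Y.1 = E.1 := v.eq.trans hE
  have ab : ∀ u ∈ M.1, ∀ w ∈ M.1, u * w = w * u := fun u hu w hw => by
    have := Subgroup.mem_bot.1 (eM.2.1 u hu w hw)
    rwa [mul_inv_eq_one, mul_inv_eq_iff_eq_mul] at this
  have M2n : M.1 ≤ Sy (2 * n) := fun x hx => (M3.mem_symB.1 (m1 hx)).1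
  have st : St n p (2 * n * (2 * n)) E.1 D.1 M.1 (M.hat M).1 (sig n M) := by
    refine ⟨v.pp, En, ea, fun x hx => M3.mem_symB.2 ⟨M3h.hat_fx (self_so M) M2n hx,
      M3h.hat_fx (self_so M) (fun x hx => (M3.mem_symB.1 (m1 hx)).2) hx⟩, ?_,
      M3h.le_hat (self_so M), hat_gen M2n ab⟩
    have := M3h.hat_ea (X := M) (D := Grp.bot) (self_so M) eM
    rwa [M3h.hat_bot] at this
  have cM : ∀ g ∈ LL.1, cj g M.1 = M.1 := fun g hg => M1.cj_of_nm m2 hg
  have cH : ∀ g ∈ LL.1, ∀ s ∈ (M.hat M).1, g⁻¹ * s * g ∈ (M.hat M).1 := by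
    intro g hg s hs
    have e := M3h.hat_cj g (self_so M)
    rw [show Grp.cj g M = M from Grp.ext (cM g hg)] at e
    rw [e] at hs
    exact mem_cj.1 hs
  have gX := gr_FX k v.nY En ea hE v.iX (hM ▸ st.MM)
  have gZ := gr_FX k v.nY En ea hZ v.iZ (hM ▸ st.MM)
  rw [← hM] at gX gZ
  obtain ⟨ψX, x1, x2, -, x4⟩ := lifts_of_gr st gX 0 (one_mem _) h1 h2
  obtain ⟨ψZ, z1, z2, -, z4⟩ := lifts_of_gr st gZ 0 (one_mem _) h1 h2
  have rM : ∀ h ∈ LA.1, rgt n h ∈ M.1 := fun h hh => (m3 _).2 ⟨h, hh, rfl⟩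
  have sX : ∀ h ∈ LA.1, ∀ x ∈ X.1, x⁻¹ * lft n h ∈ Y.1 → ψX (rgt n h) = π x := fun h hh x hx hy =>
    x2 x (hE ▸ Subgroup.mem_sup_left hx) _ (st.MM (rM h hh)) (mem_FX k En hE hh hx hy)
  have sZ : ∀ h ∈ LA.1, ∀ x ∈ Z.1, x⁻¹ * lft n h ∈ Y.1 → ψZ (rgt n h) = π x := fun h hh x hx hy =>
    z2 x (hZ ▸ Subgroup.mem_sup_left hx) _ (st.MM (rM h hh)) (mem_FX k En hZ hh hx hy)
  have u2 : ∀ c, ∀ d : FP, ∀ i < 2 * n * (2 * n), ((List.range (2 * n * (2 * n))).map fun i =>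
      bif eqb i c then d else 1).getD i 1 = if i = c then d else 1 := by
    intro c d i hi
    rw [List.getD_eq_getElem _ _ (by simpa using hi), List.getElem_map, List.getElem_range]
    by_cases h : i = c <;> simp [h, eqb]
  have g1 : ∀ u ∈ usL n M D E,
      W (2 * n * (2 * n)) E.1 M.1 (M.hat M).1 (sig n M) π fun i => u.getD i 1 := by
    intro u hu
    simp only [usL, List.mem_append, List.mem_flatMap, List.mem_map] at hu
    rcases hu with ⟨c, -, d, hd, rfl⟩ | ⟨r, -, x, hx, rfl⟩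
    · have : ∀ i < 2 * n * (2 * n), ((List.range (2 * n * (2 * n))).map fun i =>
          bif eqb i c then d else 1).getD i 1 ∈ D.1 := fun i hi => by
        rw [u2 c d i hi]; split_ifs
        · exact KG.mem_of_gens hd
        · exact one_mem _
      exact ⟨fun i hi => ea.1 (this i hi), fun _ => 1, fun _ _ _ _ => (one_mul _).symm,
        fun _ _ => rfl, fun i hi => ((h2 _ (ea.1 (this i hi))).2 (this i hi)).symm⟩
    · obtain ⟨ψ, a1, a2, -, a4⟩ := lifts_of_gr (F := D.sup M) st st.gr0 r (KG.mem_of_gens hx) h1 h2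
      exact ⟨fun c hc => (a4 c hc).1, ψ, a1, fun m hm => by
        rw [a2 1 (one_mem _) m (st.MM hm) (by simpa using Subgroup.mem_sup_right hm)]
        exact Hm.one h1, fun c hc => (a4 c hc).2⟩
  have hW : ∀ u, W (2 * n * (2 * n)) E.1 M.1 (M.hat M).1 (sig n M) π u →
      ∃ w ∈ tupG (usL n M D E), ∀ c < 2 * n * (2 * n), w c = u c := by
    intro u hu
    refine mem_of_W st h1 h2 (KG.closure_gens D).symm (KG.closure_gens E).symm g1 ?_ ?_ hu
    · intro c hc d hd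
      refine ⟨_, ?_, u2 c d⟩
      simp only [usL, List.mem_append, List.mem_flatMap, List.mem_map]
      exact Or.inl ⟨c, List.mem_range.2 hc, d, hd, rfl⟩
    · intro r hr x hx
      obtain ⟨ψ, -, -, a3, a4⟩ := lifts_of_gr (F := D.sup M) st st.gr0 r (KG.mem_of_gens hx) h1 h2
      refine ⟨lifts n M (ext n M (D.sup M) r x), ?_, fun c hc hc' => ?_⟩
      · simp only [usL, List.mem_append, List.mem_flatMap, List.mem_map]
        exact Or.inr ⟨r, List.mem_range.2 hr, x, hx, rfl⟩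
      · rw [← (a4 c hc).2, a3 c hc hc']
  have lt : ∀ g : FP, ∀ c, (prP (2 * n) g)⁻¹ • c < 2 * n * (2 * n) ↔ c < 2 * n * (2 * n) :=
    fun g c => smul_lt (inv_mem (mkP_mem _ _))
  have lt' : ∀ g : FP, ∀ c, prP (2 * n) g • c < 2 * n * (2 * n) ↔ c < 2 * n * (2 * n) :=
    fun g c => smul_lt (mkP_mem _ _)
  have sc : ∀ g ∈ LL.1, ∀ c < 2 * n * (2 * n),
      g⁻¹ * sig n M c * g = sig n M ((prP (2 * n) g)⁻¹ • c) := by
    intro g hg c hc
    have := sig_cj ab (k.le hg) (cM g hg) ((lt g c).2 hc)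
    rw [smul_inv_smul] at this
    rw [← this]; group
  have hmα : ∀ g ∈ LL.1, ∀ (α : A → A) (ψ : FP → A), (∀ a b, α (a * b) = α a * α b) →
      Hm (M.hat M).1 ψ → Hm (M.hat M).1 fun s => α (ψ (g⁻¹ * s * g)) := by
    intro g hg α ψ ha hψ s hs t ht
    beta_reduce
    rw [← ha, ← hψ _ (cH g hg s hs) _ (cH g hg t ht)]
    congr 2; group
  have len : ∀ F, (lifts n M F).length = 2 * n * (2 * n) := fun F => by simp [lifts]
  refine Cos.ext fun l => ?_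
  rw [hs _ _ _ _ _ _ ?_ ?_ (getD_mem fun c hc => En (x4 c (len _ ▸ hc)).1)
    (getD_mem fun c hc => En (z4 c (len _ ▸ hc)).1) ?_, mem_TR, M3.mem_con k.pres]
  · constructor
    · rintro ⟨π', hp, u, hu, e⟩
      obtain ⟨g, hg, e'⟩ := (mem_PP k).1 hp
      obtain ⟨rfl, rfl⟩ := Prod.mk.inj e'
      obtain ⟨α, a1, a2⟩ := exA h1 h2 h3 (nE.2 _ (lft_L k hg)) (v.nD.2 _ (lft_L k hg))
      refine ⟨⟨g, hg, rfl⟩, (core k v.nY nE v.nD ea hE hZ v.eX.1 v.eZ.1 v.DY h1 h2 sX sZ hg a1).2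
        fun h hh => ?_⟩
      obtain ⟨b1, ψ, b2, b3, b4⟩ := W_of_mem h1 g1 hu
      have := (hmα g hg α ψX a2 x1).eq_on (z1.mul b2) (K := ⊥) (by rw [bot_sup_eq]; exact st.gen)
        (by
          intro s hs
          rw [Subgroup.mem_bot.1 hs, (hmα g hg α ψX a2 x1).one, (z1.mul b2).one]) (by
          rintro _ ⟨c, hc, rfl⟩
          have hc' := (lt g c).2 hc
          have e1 := e _ hc'
          rw [smul_inv_smul] at e1
          rw [sc g hg c hc, (x4 _ hc').2, a1 _ (x4 _ hc').1, e1, h1 _ (z4 c hc).1 _ (b1 c hc),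
            (z4 c hc).2, b4 c hc]) _ (st.MM (rM h hh))
      rw [this, b3 _ (rM h hh), mul_one]
    · rintro ⟨⟨g, hg, rfl⟩, e⟩
      obtain ⟨α, a1, a2⟩ := exA h1 h2 h3 (nE.2 _ (lft_L k hg)) (v.nD.2 _ (lft_L k hg))
      have e1 := (core k v.nY nE v.nD ea hE hZ v.eX.1 v.eZ.1 v.DY h1 h2 sX sZ hg a1).1 e
      obtain ⟨w, hw, e2⟩ := hW (fun c => ((lifts n M (ext n M (FX n LA Y Z) 0 1)).getD c 1)⁻¹ *
          (lft n g * (lifts n M (ext n M (FX n LA Y X) 0 1)).getD ((prP (2 * n) g)⁻¹ • c) 1 *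
            (lft n g)⁻¹))
        ⟨fun c hc => mul_mem (inv_mem (z4 c hc).1) (nE.2 _ (lft_L k hg) _ (x4 _ ((lt g c).2 hc)).1),
          _, z1.inv'.mul (hmα g hg α ψX a2 x1), fun m hm => by
            obtain ⟨h, hh, rfl⟩ := (m3 m).1 hm
            beta_reduce
            rw [e1 h hh, inv_mul_cancel], fun c hc => by
            have hc' := (lt g c).2 hc
            beta_reduce
            rw [h1 _ (inv_mem (z4 c hc).1) _ (nE.2 _ (lft_L k hg) _ (x4 _ hc').1),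
              Hm.inv h1 (z4 c hc).1, ← (z4 c hc).2, ← a1 _ (x4 _ hc').1, ← (x4 _ hc').2,
              sc g hg c hc]⟩
      refine ⟨prP (2 * n) g, (mem_PP k).2 ⟨g, hg, rfl⟩, w, hw, fun i hi => ?_⟩
      rw [e2 _ ((lt' g i).2 hi), inv_smul_smul, mul_inv_cancel_left]
      rfl
  · intro d hd
    obtain ⟨g, hg, rfl⟩ := List.mem_map.1 hd
    exact ⟨mkP_mem _ _, M3.lft_mem (k.pres (KG.mem_of_gens hg))⟩
  · intro u hu
    refine getD_mem fun c hc => En ((g1 u hu).1 c ?_)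
    simp only [usL, List.mem_append, List.mem_flatMap, List.mem_map] at hu
    rcases hu with ⟨c, -, d, hd, rfl⟩ | ⟨r, -, x, hx, rfl⟩
    · simpa using hc
    · exact len _ ▸ hc
  · intro d hd u hu
    obtain ⟨g, hg, rfl⟩ := (mem_PP k).1 hd
    obtain ⟨α, a1, a2⟩ := exA h1 h2 h3 (nE.2 _ (lft_L k hg)) (v.nD.2 _ (lft_L k hg))
    obtain ⟨b1, ψ, b2, b3, b4⟩ := W_of_mem h1 g1 hu
    obtain ⟨w, hw, e2⟩ := hW (fun c => lft n g * u ((prP (2 * n) g)⁻¹ • c) * (lft n g)⁻¹)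
      ⟨fun c hc => nE.2 _ (lft_L k hg) _ (b1 _ ((lt g c).2 hc)), _, hmα g hg α ψ a2 b2,
        fun m hm => by
          have hm' : g⁻¹ * m * g ∈ M.1 := by simpa using m2 _ (inv_mem hg) m hm
          beta_reduce
          rw [b3 _ hm', ← Hm.one h1, a1 1 (one_mem _), mul_one, mul_inv_cancel], fun c hc => by
          beta_reduce
          rw [sc g hg c hc, b4 _ ((lt g c).2 hc), a1 _ (b1 _ ((lt g c).2 hc))]⟩
    exact ⟨w, hw, fun i hi => by rw [e2 _ ((lt' g i).2 hi), inv_smul_smul]⟩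

end

end HOM

open HOM in
theorem b_hom [KA] (h : Prim) : S_hom := by
  obtain ⟨cp, hcp, hs⟩ := h.cjp
  have h1 := ot_lifts h.inter
  have h2 := ot_FX h.inf
  have h3 := ot_usL h.inter
  refine ⟨fun q => (cp (q.1.1, 2 * q.1.1 * (2 * q.1.1),
    q.2.1.gens.map fun g => (prP (2 * q.1.1) g, lft q.1.1 g),
    usL q.1.1 (q.2.2.con (RH q.1.1)) q.1.D (q.1.X.sup q.1.Y),
    lifts q.1.1 (q.2.2.con (RH q.1.1)) (ext q.1.1 (q.2.2.con (RH q.1.1)) (FX q.1.1 q.2.2 q.1.Y q.1.X) 0 1),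
    lifts q.1.1 (q.2.2.con (RH q.1.1))
      (ext q.1.1 (q.2.2.con (RH q.1.1)) (FX q.1.1 q.2.2 q.1.Y q.1.Z) 0 1))).rmul q.1.Y,
    by fun_prop, fun a LL LA v ea k eM => ?_⟩
  beta_reduce
  rw [main hs v rfl ea k rfl eM]
  have CL : (LL.con (Finset.range a.1)).1 ≤ a.L.1 := k.covL ▸ le_sup_left
  refine (M6.up_TR CL v.nY.1 (M1.nm_mono le_sup_right (M1.ea_nm ea v.eX.1 le_sup_left))
    (fun s hs _ y hy => v.nY.2 s (CL hs) y hy) fun s hs => ?_).symm
  exact (M1.mem_sup_nm (M1.nm_mono CL v.nY.2)).1 (k.covL.symm ▸ (mem_TR.1 hs).1)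

end

end Pool.Agent.Lib.E5
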