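import Pool.Agent.Lib.E5.Spec

/-! E5 block INT: intersections and transporters of orbit partitions. -/

namespace Pool.Agent.Lib.E5

open Equiv Pool.Agent.Lib.helper80 Pool.Agent.Lib.MP_e519cf_lc Polynomial

noncomputable section
open Classical

namespace INT

set_option linter.unusedSectionVars false

variable [KA]

/-- Generators of the product of `K` (acting in slot `0`) and `H`. -/
def gsI (K H : Grp) : List TriD :=
  (K.gens.map fun k => ((1 : FP), [k], (1 : FP))) ++ H.gens.map fun h => ((1 : FP), ([] : List FP), h)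

theorem gsI_sub {K H : Grp} {t : Tri} (ht : t ∈ triG (gsI K H)) :
    t.p = 1 ∧ t.a 0 ∈ K.1 ∧ t.l ∈ H.1 := by
  induction ht using Subgroup.closure_induction with
  | mem x hx =>
    obtain ⟨d, hd, rfl⟩ := hx
    rcases List.mem_append.1 hd with hd | hd
    · obtain ⟨k, hk, rfl⟩ := List.mem_map.1 hd
      exact ⟨rfl, KG.mem_of_gens hk, one_mem _⟩
    · obtain ⟨h, hh, rfl⟩ := List.mem_map.1 hd
      exact ⟨rfl, one_mem _, KG.mem_of_gens hh⟩
  | one => exact ⟨rfl, one_mem _, one_mem _⟩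
  | mul x y _ _ hx hy =>
    refine ⟨by rw [Tri.mul_p, hx.1, hy.1, mul_one], ?_, mul_mem hx.2.2 hy.2.2⟩
    rw [Tri.mul_a, hy.1, one_smul]
    exact mul_mem hx.2.1 hy.2.1
  | inv x _ hx =>
    refine ⟨by rw [Tri.inv_p, hx.1, inv_one], ?_, inv_mem hx.2.2⟩
    rw [Tri.inv_a, hx.1, inv_one, one_smul]
    exact inv_mem hx.2.1

theorem gsI_left {K H : Grp} {k : FP} (hk : k ∈ K.1) :
    ∃ t ∈ triG (gsI K H), t.a 0 = k ∧ t.l = 1 := by
  rw [← KG.closure_gens K] at hk
  induction hk using Subgroup.closure_induction with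
  | mem x hx =>
    exact ⟨toTri (1, [x], 1), Subgroup.subset_closure
      ⟨_, List.mem_append_left _ (List.mem_map_of_mem hx), rfl⟩, rfl, rfl⟩
  | one => exact ⟨1, one_mem _, rfl, rfl⟩
  | mul x y _ _ hx hy =>
    obtain ⟨s, hs, e1, e2⟩ := hx
    obtain ⟨t, ht, f1, f2⟩ := hy
    refine ⟨s * t, mul_mem hs ht, ?_, by rw [Tri.mul_l, e2, f2, mul_one]⟩
    rw [Tri.mul_a, (gsI_sub ht).1, one_smul, e1, f1]
  | inv x _ hx =>
    obtain ⟨s, hs, e1, e2⟩ := hx
    refine ⟨s⁻¹, inv_mem hs, ?_, by rw [Tri.inv_l, e2, inv_one]⟩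
    rw [Tri.inv_a, (gsI_sub hs).1, inv_one, one_smul, e1]

theorem gsI_right {K H : Grp} {h : FP} (hh : h ∈ H.1) :
    ∃ t ∈ triG (gsI K H), t.a 0 = 1 ∧ t.l = h := by
  rw [← KG.closure_gens H] at hh
  induction hh using Subgroup.closure_induction with
  | mem x hx =>
    exact ⟨toTri (1, [], x), Subgroup.subset_closure
      ⟨_, List.mem_append_right _ (List.mem_map_of_mem hx), rfl⟩, rfl, rfl⟩
  | one => exact ⟨1, one_mem _, rfl, rfl⟩
  | mul x y _ _ hx hy =>
    obtain ⟨s, hs, e1, e2⟩ := hx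
    obtain ⟨t, ht, f1, f2⟩ := hy
    refine ⟨s * t, mul_mem hs ht, ?_, by rw [Tri.mul_l, e2, f2]⟩
    rw [Tri.mul_a, (gsI_sub ht).1, one_smul, e1, f1, mul_one]
  | inv x _ hx =>
    obtain ⟨s, hs, e1, e2⟩ := hx
    refine ⟨s⁻¹, inv_mem hs, ?_, by rw [Tri.inv_l, e2]⟩
    rw [Tri.inv_a, (gsI_sub hs).1, inv_one, one_smul, e1, inv_one]

theorem gsI_ok {K H : Grp} {n m : ℕ} (hK : K.1 ≤ Sy n) (hH : H.1 ≤ Sy n) : OkT n m (gsI K H) := by
  intro d hd
  rcases List.mem_append.1 hd with hd | hd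
  · obtain ⟨k, hk, rfl⟩ := List.mem_map.1 hd
    refine ⟨one_mem _, fun a ha => ?_, one_mem _⟩
    rw [List.mem_singleton.1 ha]
    exact hK (KG.mem_of_gens hk)
  · obtain ⟨h, hh, rfl⟩ := List.mem_map.1 hd
    exact ⟨one_mem _, fun a ha => absurd ha List.not_mem_nil, hH (KG.mem_of_gens hh)⟩

/-- Diagonal generators. -/
def gsD (L : Grp) : List TriD := L.gens.map fun l => (l, ([] : List FP), l)

theorem gsD_iff {L : Grp} {t : Tri} :
    t ∈ triG (gsD L) ↔ t.l ∈ L.1 ∧ t.p = t.l ∧ ∀ i, t.a i = 1 := by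
  constructor
  · intro ht
    induction ht using Subgroup.closure_induction with
    | mem x hx =>
      obtain ⟨d, hd, rfl⟩ := hx
      obtain ⟨k, hk, rfl⟩ := List.mem_map.1 hd
      exact ⟨KG.mem_of_gens hk, rfl, fun _ => rfl⟩
    | one => exact ⟨one_mem _, rfl, fun _ => rfl⟩
    | mul x y _ _ hx hy =>
      exact ⟨mul_mem hx.1 hy.1, by rw [Tri.mul_p, Tri.mul_l, hx.2.1, hy.2.1],
        fun i => by rw [Tri.mul_a, hx.2.2, hy.2.2, mul_one]⟩
    | inv x _ hx =>
      exact ⟨inv_mem hx.1, by rw [Tri.inv_p, Tri.inv_l, hx.2.1],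
        fun i => by rw [Tri.inv_a, hx.2.2, inv_one]⟩
  · have key : ∀ l ∈ L.1, (⟨l, fun _ => 1, l⟩ : Tri) ∈ triG (gsD L) := by
      intro l hl
      rw [← KG.closure_gens L] at hl
      induction hl using Subgroup.closure_induction with
      | mem x hx => exact Subgroup.subset_closure ⟨_, List.mem_map_of_mem hx, rfl⟩
      | one => exact one_mem _
      | mul x y _ _ hx hy =>
        have := mul_mem hx hy
        convert this using 1
        exact Tri.ext rfl (funext fun _ => (mul_one _).symm) rfl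
      | inv x _ hx =>
        have := inv_mem hx
        convert this using 1
        exact Tri.ext rfl (funext fun _ => inv_one.symm) rfl
    rintro ⟨h1, h2, h3⟩
    have := key _ h1
    convert this using 1
    exact Tri.ext h2 (funext h3) rfl

/-- The relation of lying in one orbit, below `n`. -/
def gam (n : ℕ) (X : Grp) : List Tp :=
  (List.range n).flatMap fun i => (els (X.orb i)).map fun y => (i, 0, y)

omit [KA] in
theorem mem_gam {n : ℕ} {X : Grp} {i x y : ℕ} :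
    (i, x, y) ∈ gam n X ↔ i < n ∧ x = 0 ∧ So X.1 i y := by
  simp only [gam, List.mem_flatMap, List.mem_range, List.mem_map, mem_els, Grp.mem_orb,
    Prod.mk.injEq]
  constructor
  · rintro ⟨a, ha, b, hb, rfl, rfl, rfl⟩
    exact ⟨ha, rfl, hb⟩
  · rintro ⟨h1, rfl, h3⟩
    exact ⟨i, h1, y, h3, rfl, rfl, rfl⟩

omit [KA] in
theorem so_ge {n : ℕ} {X : SG} (hX : X ≤ Sy n) {x y : ℕ} (hx : n ≤ x) : So X x y ↔ x = y := by
  constructor
  · rintro ⟨h, hh, rfl⟩
    exact (hX hh x hx).symm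
  · rintro rfl
    exact ⟨1, one_mem _, one_smul _ _⟩

omit [KA] in
theorem foldl_le (B : Grp) (l : List Grp) : (l.foldl Grp.inf B).1 ≤ B.1 := by
  induction l generalizing B with
  | nil => exact le_rfl
  | cons a t ih => exact (ih _).trans inf_le_left

end INT

open INT

theorem b_inter [KA] (h : S_gf) : S_inter := by
  obtain ⟨g, hg, hs⟩ := h
  have h1 : OT fun p : Cos × Grp => bif p.1.isE then Cos.emp else
      g (p.1.grp.bd + bd p.1.rep + p.2.bd, 1, gsI p.1.grp p.2, ({0} : Finset ℕ), ({0} : Finset ℕ),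
        ([] : List FP), [p.1.rep]) := by
    refine OT.cond (OT.of_pt (by fun_prop)) (OT.const _) (OT.comp hg (OT.of_pt ?_))
    unfold gsI
    fun_prop
  refine h1.congr fun ⟨C, H⟩ => ?_
  cases hE : C.isE
  · simp only [cond_false]
    refine Cos.ext fun l => ?_
    rw [hs _ _ _ _ _ _ _ (gsI_ok (Grp.bd_le.1 (by omega)) (Grp.bd_le.1 (by omega))) (by simp)
      (by simp) (by simp) (fun a ha => by
        rw [List.mem_singleton.1 ha]; exact bd_le.1 (by omega)), Cos.mem_inter, KG.mem_cos hE]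
    constructor
    · rintro ⟨t, ht, rfl, -, h2⟩
      obtain ⟨e1, e2, e3⟩ := gsI_sub ht
      have h3 := h2 0 (Finset.mem_singleton_self 0)
      rw [e1, one_smul] at h3
      simp only [List.getD_nil, mul_one, List.getD_cons_zero] at h3
      exact ⟨by rw [h3, inv_mul_cancel_left]; exact e2, e3⟩
    · rintro ⟨h2, h3⟩
      obtain ⟨s, hs, e1, e2⟩ := gsI_left (H := H) h2
      obtain ⟨t, ht, f1, f2⟩ := gsI_right (K := C.grp) h3
      have hst := mul_mem hs ht
      refine ⟨s * t, hst, by rw [Tri.mul_l, e2, f2, one_mul], fun i => ?_, fun i hi => ?_⟩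
      · rw [(gsI_sub hst).1, one_smul]
      · rw [Finset.mem_singleton.1 hi, (gsI_sub hst).1, one_smul, Tri.mul_a, (gsI_sub ht).1,
          one_smul, e1, f1]
        simp
  · simp only [cond_true]
    exact Cos.ext fun l => ⟨fun h => h.elim, fun h => (Cos.isE_iff.1 hE l h.1).elim⟩

theorem b_inf [KA] (h : S_inter) : S_inf := by
  have h1 : OT fun p : Grp × Grp => ((Cos.lc 1 p.1).inter p.2).grp :=
    OT.comp (OT.of_pt KG.pt_grp) (OT.comp (g := fun p : Grp × Grp => (Cos.lc 1 p.1, p.2)) h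
      (OT.of_pt (by fun_prop)))
  refine h1.congr fun ⟨A, B⟩ => Grp.ext ?_
  ext x
  simp only [Cos.mem_grp, Cos.mem_inter, Cos.mem_lc, inv_one, one_mul, Grp.inf_val,
    Subgroup.mem_inf]
  constructor
  · rintro (rfl | ⟨a, ha, b, hb, rfl⟩)
    · exact ⟨one_mem _, one_mem _⟩
    · exact ⟨mul_mem (inv_mem ha.1) hb.1, mul_mem (inv_mem ha.2) hb.2⟩
  · intro hx
    exact Or.inr ⟨1, ⟨one_mem _, one_mem _⟩, x, hx, by simp⟩

theorem b_infL [KA] (h : S_inf) : S_infL := by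
  refine OT.foldl (f := fun (_ : Grp × List Grp) (A B : Grp) => A.inf B) (l := fun p => p.2)
    (i := fun p => p.1)
    (OT.comp (g := fun p : (Grp × List Grp) × Grp × Grp => (p.2.1, p.2.2)) h
      (OT.of_pt (by fun_prop))) (OT.of_pt (by fun_prop)) (OT.of_pt (by fun_prop)) SBp ?_
  rintro ⟨B, l⟩ n
  rw [eval_SBp]
  refine KG.sz_Grp ((foldl_le B _).trans (Grp.bd_le.1 ((KG.gbd_le_sz B).trans ?_)))
  rw [sz_pair]; omega

theorem b_partt [KA] (h : S_gf0) : S_partt := by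
  obtain ⟨g, hg, hs⟩ := h
  have h1 : OT fun p : Grp × Grp × Grp =>
      g (p.1.bd + p.2.1.bd + p.2.2.bd + 1, p.1.bd + p.2.1.bd + p.2.2.bd + 1, gsD p.1,
        gam (p.1.bd + p.2.1.bd + p.2.2.bd + 1) p.2.1,
        gam (p.1.bd + p.2.1.bd + p.2.2.bd + 1) p.2.2) := by
    refine OT.comp hg (OT.of_pt ?_)
    unfold gsD gam
    fun_prop
  refine h1.congr fun ⟨L, X, Z⟩ => Cos.ext fun l => ?_
  dsimp only
  have hL : L.1 ≤ Sy (L.bd + X.bd + Z.bd + 1) := Grp.bd_le.1 (by omega)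
  have hX : X.1 ≤ Sy (L.bd + X.bd + Z.bd + 1) := Grp.bd_le.1 (by omega)
  have hZ : Z.1 ≤ Sy (L.bd + X.bd + Z.bd + 1) := Grp.bd_le.1 (by omega)
  have hn : 0 < L.bd + X.bd + Z.bd + 1 := by omega
  generalize L.bd + X.bd + Z.bd + 1 = n at hL hX hZ hn
  have hb : ∀ Y : Grp, Y.1 ≤ Sy n → ∀ w ∈ gam n Y, w.1 < n ∧ w.2.1 < n ∧ w.2.2 < n := by
    rintro Y hY ⟨i, x, y⟩ hw
    obtain ⟨h1, rfl, a, ha, rfl⟩ := mem_gam.1 hw
    exact ⟨h1, hn, (smul_lt (hY ha)).2 h1⟩
  rw [hs n n _ _ _ (fun d hd => by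
      obtain ⟨k, hk, rfl⟩ := List.mem_map.1 hd
      exact ⟨hL (KG.mem_of_gens hk), fun a ha => absurd ha List.not_mem_nil,
        hL (KG.mem_of_gens hk)⟩)
    (fun w hw => (List.mem_append.1 hw).elim (hb X hX w) (hb Z hZ w)), mem_partt]
  constructor
  · rintro ⟨t, ht, rfl, h2⟩
    obtain ⟨e1, e2, e3⟩ := gsD_iff.1 ht
    refine ⟨e1, fun x y => ?_⟩
    by_cases hx : x < n
    · have h3 := h2 x 0 y
      rw [mem_gam, mem_gam, e2, e3, one_smul, smul_lt (hL e1)] at h3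
      simpa [hx] using h3
    · rw [so_ge hX (not_lt.1 hx), so_ge hZ (not_lt.1 fun h => hx ((smul_lt (hL e1)).1 h)),
        smul_left_cancel_iff]
  · rintro ⟨h2, h3⟩
    refine ⟨⟨l, fun _ => 1, l⟩, gsD_iff.2 ⟨h2, rfl, fun _ => rfl⟩, rfl, fun i x y => ?_⟩
    rw [mem_gam, mem_gam, one_smul, smul_lt (hL h2), h3]

end

end Pool.Agent.Lib.E5
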