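import Pool.Agent.Lib.E5.Spec

/-! E5, block K1: permutations, finite sets and arithmetic in polynomial time. -/

namespace Pool.Agent.Lib.E5

open Equiv Pool.Agent.Lib.helper80 Pool.Agent.Lib.MP_e519cf_lc Polynomial

noncomputable section
open Classical

namespace BK1

variable {α : Type} [Enc α]

/-! ### Arithmetic -/

theorem filter_lt {b n : ℕ} (h : b ≤ n) {p : ℕ → Bool} (hp : ∀ i < n, p i = true ↔ i < b) :
    (List.range n).filter p = List.range b := by
  obtain ⟨k, rfl⟩ := Nat.exists_eq_add_of_le h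
  rw [List.range_add, List.filter_append, List.filter_eq_self.2, List.filter_eq_nil_iff.2,
    List.append_nil]
  · intro a ha
    obtain ⟨i, hi, rfl⟩ := List.mem_map.1 ha
    rw [hp _ (by simpa using hi)]
    omega
  · intro a ha
    have := List.mem_range.1 ha
    exact (hp _ (by omega)).2 this

theorem pt_div : PT fun p : ℕ × ℕ => p.1 / p.2 :=
  (show PT fun p : ℕ × ℕ => bif eqb p.2 0 then 0 else
      ((List.range p.1).filter fun q => Nat.ble ((q + 1) * p.2) p.1).length by fun_prop).congr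
    fun p => by
      rcases Nat.eq_zero_or_pos p.2 with h | h
      · simp [h, eqb]
      · rw [(eqb_false _ _).2 h.ne', cond_false, filter_lt (Nat.div_le_self p.1 p.2),
          List.length_range]
        intro i _
        rw [Nat.ble_eq, ← Nat.le_div_iff_mul_le h]
        rfl

theorem pt_mod : PT fun p : ℕ × ℕ => p.1 % p.2 :=
  (PT.sub (PT.fst PT.id') (PT.mul (PT.snd PT.id') pt_div)).congr fun _ => (Nat.mod_def _ _).symm

theorem pt_max : PT fun p : ℕ × ℕ => max p.1 p.2 :=
  (show PT fun p : ℕ × ℕ => p.1 + (p.2 - p.1) by fun_prop).congr fun p => by omega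

theorem pt_sum : PT fun l : List ℕ => l.sum :=
  (show PT fun l : List ℕ => (l.flatMap fun x => List.range x).length by fun_prop).congr
    fun l => by simp [List.length_flatMap]

theorem pt_npow (k : ℕ) : PT fun n : ℕ => n ^ k := by
  induction k with
  | zero => exact (PT.const 1).congr fun n => by simp
  | succ k ih => exact (PT.mul ih PT.id').congr fun n => (pow_succ _ _).symm

theorem pt_eval (P : ℕ[X]) : PT fun n : ℕ => P.eval n := by
  induction P using Polynomial.induction_on' with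
  | add p q hp hq => exact (PT.add hp hq).congr fun n => (eval_add).symm
  | monomial k a => exact (PT.mul (PT.const a) (pt_npow k)).congr fun n => by simp

/-! ### Finite sets -/

theorem pt_els : PT els := Comp.refl _

theorem of_els {F : α → Finset ℕ} (h : PT fun a => els (F a)) : PT F := h

theorem els_fil (n : ℕ) (p : ℕ → Bool) : els (fil n p) = (List.range n).filter p := by
  have h1 : ((List.range n).filter p).Nodup := List.nodup_range.filter _
  have h2 : fil n p = ((List.range n).filter p).toFinset := by ext x; simp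
  rw [h2, els, List.toFinset_sort _ h1]
  exact (List.pairwise_le_range).filter _

theorem pt_fil {n : α → ℕ} {f : α → ℕ → Bool} (hn : PT n) (hf : PT fun p : α × ℕ => f p.1 p.2) :
    PT fun a => fil (n a) (f a) :=
  of_els ((PT.filter hf (PT.range hn)).congr fun _ => (els_fil _ _).symm)

theorem pt_smem : PT fun p : ℕ × Finset ℕ => smem p.1 p.2 :=
  (PT.any (f := fun (p : ℕ × Finset ℕ) y => eqb p.1 y) (by fun_prop)
    (PT.comp pt_els (PT.snd PT.id'))).congr fun p => by rw [Bool.eq_iff_iff]; simp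

theorem pt_card : PT fun S : Finset ℕ => S.card := (PT.length pt_els).congr length_els

theorem lt_sz {x : ℕ} {l : List ℕ} (h : x ∈ l) : x < sz l := by
  induction l with
  | nil => simp at h
  | cons b l ih =>
    rcases List.mem_cons.1 h with rfl | h
    · simp; omega
    · have := ih h; simp; omega

theorem lt_sz_FS {x : ℕ} {S : Finset ℕ} (h : x ∈ S) : x < sz S := lt_sz (mem_els.2 h)

theorem sz_FS {n : ℕ} {S : Finset ℕ} (h : ∀ x ∈ S, x < n) : sz S ≤ n * (2 * n + 1) := by
  have h1 : S.card ≤ n := by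
    simpa using Finset.card_le_card (show S ⊆ Finset.range n from fun x hx => by simpa using h x hx)
  refine (sz_le_of_forall (l := els S) (m := n) fun x hx => ?_).trans ?_
  · simpa using (h x (mem_els.1 hx)).le
  · rw [length_els]; gcongr

theorem pt_frange : PT Finset.range :=
  (pt_fil (f := fun (_ : ℕ) _ => true) PT.id' (PT.const true)).congr fun n => by ext x; simp

theorem pt_toFinset : PT fun l : List ℕ => l.toFinset :=
  (pt_fil (n := fun l : List ℕ => sz l) (f := fun l x => l.any fun y => eqb x y) (by fun_prop)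
    (by fun_prop)).congr fun l => by
      ext x
      simp only [mem_fil, List.any_eq_true, eqb_iff, exists_eq_right', List.mem_toFinset]
      exact ⟨fun h => h.2, fun h => ⟨lt_sz h, h⟩⟩

theorem pt_erase : PT fun p : Finset ℕ × ℕ => p.1.erase p.2 :=
  (PT.comp pt_toFinset (PT.filter (f := fun (p : Finset ℕ × ℕ) y => !eqb y p.2) (by fun_prop)
    (PT.comp pt_els (PT.fst PT.id')))).congr fun p => by ext x; simp [and_comm]

theorem pt_funion : PT fun p : Finset ℕ × Finset ℕ => p.1 ∪ p.2 :=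
  (PT.comp pt_toFinset (PT.append (PT.comp pt_els (PT.fst PT.id'))
    (PT.comp pt_els (PT.snd PT.id')))).congr fun p => by ext x; simp

theorem pt_single : PT fun x : ℕ => ({x} : Finset ℕ) :=
  (PT.comp pt_toFinset (PT.cons PT.id' (PT.const []))).congr fun x => by simp

theorem els_inj {S T : Finset ℕ} (h : els S = els T) : S = T := by
  ext x; rw [← mem_els, h, mem_els]

theorem pt_eqFS : PT fun p : Finset ℕ × Finset ℕ => eqb p.1 p.2 :=
  (pt_eqb (PT.comp pt_els (PT.fst PT.id')) (PT.comp pt_els (PT.snd PT.id'))).congr fun p => by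
    rw [Bool.eq_iff_iff, eqb_iff, eqb_iff]
    exact ⟨els_inj, fun h => by rw [h]⟩

/-! ### Permutations -/

theorem pt_tb : PT tb := Comp.refl _

theorem of_tb {F : α → FP} (h : PT fun a => tb (F a)) : PT F := h

theorem length_tb (g : FP) : (tb g).length = bd g := by simp [tb]

theorem app_tb (g : FP) (x : ℕ) : app (tb g) x = g • x := by
  by_cases h : x < bd g
  · rw [app, List.getD_eq_getElem _ _ (by rwa [length_tb])]
    simp [tb]
  · rw [app, List.getD_eq_default _ _ (by rw [length_tb]; omega), mem_Sy_bd g x (not_lt.1 h)]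

theorem pt_smul : PT fun p : FP × ℕ => p.1 • p.2 :=
  (pt_app (PT.comp pt_tb (PT.fst PT.id')) (PT.snd PT.id')).congr fun _ => app_tb _ _

theorem pt_smul' {g : α → FP} {x : α → ℕ} (hg : PT g) (hx : PT x) : PT fun a => g a • x a :=
  PT.comp (g := fun a => (g a, x a)) pt_smul (PT.prodMk hg hx)

theorem pt_bd : PT bd := (PT.length pt_tb).congr length_tb

theorem pt_bd' {g : α → FP} (hg : PT g) : PT fun a => bd (g a) := PT.comp pt_bd hg

theorem pt_eqFP : PT fun p : FP × FP => eqb p.1 p.2 :=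
  (pt_eqb (PT.comp pt_tb (PT.fst PT.id')) (PT.comp pt_tb (PT.snd PT.id'))).congr fun p => by
    rw [Bool.eq_iff_iff, eqb_iff, eqb_iff]
    exact ⟨fun h => FP.ext fun x => by rw [← app_tb, h, app_tb], fun h => by rw [h]⟩

theorem tb_eq {n : ℕ} {g : FP} (h : g ∈ Sy n) : tb g = ((List.range n).filter fun i =>
    (List.range n).any fun j => Nat.ble i j && !eqb (g • j) j).map fun i => g • i := by
  rw [filter_lt (bd_le.2 h), tb]
  intro i _
  rw [← not_le, bd_le, mem_Sy]
  simp only [List.any_eq_true, List.mem_range, Bool.and_eq_true, Nat.ble_eq, Bool.not_eq_true',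
    eqb_false, not_forall]
  constructor
  · rintro ⟨j, -, h1, h2⟩; exact ⟨j, h1, h2⟩
  · rintro ⟨j, h1, h2⟩
    exact ⟨j, lt_of_not_ge fun h3 => h2 (h j h3), h1, h2⟩

theorem pt_mkF {n : α → ℕ} {F : α → FP} (hn : PT n) (hF : ∀ a, F a ∈ Sy (n a))
    (h : PT fun p : α × ℕ => F p.1 • p.2) : PT F := by
  refine of_tb (PT.congr ?_ fun a => (tb_eq (hF a)).symm)
  refine PT.map h (PT.filter (PT.any (PT.and (by fun_prop) (PT.not (pt_eqb ?_ (by fun_prop))))
    (by fun_prop)) (PT.range hn))
  exact PT.comp (g := fun p : (α × ℕ) × ℕ => (p.1.1, p.2)) h (by fun_prop)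

def okb (n : ℕ) (f : ℕ → ℕ) : Bool :=
  ((List.range n).all fun x => Nat.blt (f x) n) &&
    (List.range n).all fun x => (List.range n).all fun y => !eqb (f x) (f y) || eqb x y

theorem okb_iff {n : ℕ} {f : ℕ → ℕ} : okb n f = true ↔ OkP n f := by
  simp only [okb, OkP, Bool.and_eq_true, List.all_eq_true, List.mem_range, Nat.blt_eq,
    Bool.or_eq_true, Bool.not_eq_true', eqb_false, eqb_iff, imp_iff_not_or, ne_eq]

theorem pt_mkP {n : α → ℕ} {f : α → ℕ → ℕ} (hn : PT n) (hf : PT fun p : α × ℕ => f p.1 p.2) :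
    PT fun a => mkP (n a) (f a) := by
  have hok : PT fun a => okb (n a) (f a) := by
    unfold okb
    refine PT.and (PT.all (PT.blt hf (by fun_prop)) (PT.range hn))
      (PT.all (PT.all (PT.or (PT.not (pt_eqb ?_ ?_)) (by fun_prop)) (by fun_prop)) (PT.range hn))
    · exact PT.comp (g := fun p : (α × ℕ) × ℕ => p.1) hf (by fun_prop)
    · exact PT.comp (g := fun p : (α × ℕ) × ℕ => (p.1.1, p.2)) hf (by fun_prop)
  refine pt_mkF hn (fun a => mkP_mem _ _) (PT.congr (f := fun p : α × ℕ =>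
    bif okb (n p.1) (f p.1) && Nat.blt p.2 (n p.1) then f p.1 p.2 else p.2)
    (PT.cond (PT.and (PT.comp hok (PT.fst PT.id')) (by fun_prop)) hf (by fun_prop)) fun p => ?_)
  by_cases h : OkP (n p.1) (f p.1)
  · rw [mkP_smul h, okb_iff.2 h, Bool.true_and]
    by_cases hx : p.2 < n p.1
    · rw [if_pos hx, Nat.blt_eq ▸ hx |> fun h => (h : Nat.blt p.2 (n p.1) = true), cond_true]
    · rw [if_neg hx, show Nat.blt p.2 (n p.1) = false by simpa [← Bool.not_eq_true] using hx,
        cond_false]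
  · rw [mkP, dif_neg h, show okb (n p.1) (f p.1) = false by rwa [← okb_iff, Bool.not_eq_true] at h]
    simp

theorem pt_mul : PT fun p : FP × FP => p.1 * p.2 :=
  pt_mkF (n := fun p : FP × FP => bd p.1 + bd p.2)
    (PT.add (pt_bd' (by fun_prop)) (pt_bd' (by fun_prop)))
    (fun _ => mul_mem (bd_le.1 (Nat.le_add_right _ _)) (bd_le.1 (Nat.le_add_left _ _)))
    ((pt_smul' (g := fun p : (FP × FP) × ℕ => p.1.1) (by fun_prop)
      (pt_smul' (g := fun p : (FP × FP) × ℕ => p.1.2) (x := fun p => p.2) (by fun_prop)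
        (by fun_prop))).congr fun p => (mul_smul _ _ _).symm)

theorem inv_eq (g : FP) (y : ℕ) :
    ((List.range (bd g)).filter fun x => eqb (g • x) y).headD y = g⁻¹ • y := by
  cases e : (List.range (bd g)).filter fun x => eqb (g • x) y with
  | nil =>
    have h1 := List.filter_eq_nil_iff.1 e (g⁻¹ • y)
    simp only [List.mem_range, smul_inv_smul, eqb_iff, not_true_eq_false, imp_false, not_lt] at h1
    have h2 := mem_Sy_bd g _ h1
    rw [smul_inv_smul] at h2
    exact h2
  | cons a l =>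
    have h1 : a ∈ (List.range (bd g)).filter fun x => eqb (g • x) y := by rw [e]; simp
    have h2 : g • a = y := by simpa using (List.mem_filter.1 h1).2
    rw [List.headD_cons, ← h2, inv_smul_smul]

theorem pt_inv : PT fun g : FP => g⁻¹ :=
  pt_mkF pt_bd (fun g => inv_mem (mem_Sy_bd g))
    ((PT.headD (PT.filter (f := fun (p : FP × ℕ) x => eqb (p.1 • x) p.2)
      (pt_eqb (pt_smul' (by fun_prop) (by fun_prop)) (by fun_prop))
      (PT.range (PT.comp pt_bd (PT.fst PT.id')))) (PT.snd PT.id')).congr fun p => inv_eq _ _)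

theorem bd_le_sz (g : FP) : bd g ≤ sz g := (length_tb g).symm.le.trans (length_le_sz (tb g))

theorem smul_le {n : ℕ} {g : FP} (h : g ∈ Sy n) (x : ℕ) : g • x ≤ n + x := by
  by_cases hx : x < n
  · have := (smul_lt h).2 hx; omega
  · rw [h x (not_lt.1 hx)]; omega

theorem pt_pow : PT fun p : FP × ℕ => p.1 ^ p.2 := by
  have e : ∀ (g : FP) (x i : ℕ), (fun s : FP × ℕ => (s.1, s.1 • s.2))^[i] (g, x) = (g, g ^ i • x) := by
    intro g x i
    induction i with
    | zero => simp
    | succ i ih => rw [Function.iterate_succ_apply', ih, pow_succ', mul_smul]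
  refine pt_mkF (n := fun p : FP × ℕ => bd p.1) (pt_bd' (by fun_prop))
    (fun p => pow_mem (mem_Sy_bd p.1) _) ?_
  refine (PT.snd (PT.iterate (step := fun s : FP × ℕ => (s.1, s.1 • s.2))
    (PT.prodMk (by fun_prop) pt_smul) (n := fun p : (FP × ℕ) × ℕ => p.1.2) (by fun_prop)
    (s := fun p : (FP × ℕ) × ℕ => (p.1.1, p.2)) (by fun_prop) X ?_)).congr fun p => by rw [e]
  rintro ⟨⟨g, k⟩, x⟩ i -
  have h1 := smul_le (pow_mem (mem_Sy_bd g) i) x
  have h2 := bd_le_sz g
  rw [e]
  simp only [sz_pair, sz_nat, eval_X]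
  omega

theorem pt_swp : PT fun p : ℕ × ℕ => swp p.1 p.2 :=
  pt_mkF (n := fun p => p.1 + p.2 + 1) (by fun_prop)
    (fun p x hx => Equiv.swap_apply_of_ne_of_ne (by have : p.1 + p.2 + 1 ≤ x := hx; omega)
      (by have : p.1 + p.2 + 1 ≤ x := hx; omega))
    ((show PT fun p : (ℕ × ℕ) × ℕ => bif eqb p.2 p.1.1 then p.1.2 else
        bif eqb p.2 p.1.2 then p.1.1 else p.2 by fun_prop).congr fun p => by
      rw [swp_smul, Equiv.swap_apply_def]
      simp only [eqb, Bool.cond_decide])

theorem sz_FP {n : ℕ} {g : FP} (h : g ∈ Sy n) : sz g ≤ n * (2 * n + 1) := by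
  have h1 := bd_le.2 h
  refine (sz_le_of_forall (l := tb g) (m := n) fun x hx => ?_).trans ?_
  · obtain ⟨i, hi, rfl⟩ := List.mem_map.1 hx
    have := (smul_lt h).2 ((List.mem_range.1 hi).trans_le h1)
    simpa using this.le
  · rw [length_tb]; gcongr

/-! ### Permutations of `Fin n` -/

section up
variable {n : ℕ}

theorem ok_tab (σ : Perm (Fin n)) : OkP n fun x => app (tab σ) x := by
  refine ⟨fun x hx => ?_, fun x hx y hy h => ?_⟩
  · exact (app_tab σ ⟨x, hx⟩).trans_lt (σ _).2
  · have h1 : (σ ⟨x, hx⟩ : ℕ) = σ ⟨y, hy⟩ := by rw [← app_tab, ← app_tab]; exact h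
    exact congrArg Fin.val (σ.injective (Fin.ext h1))

theorem up_smul (σ : Perm (Fin n)) (x : Fin n) : up σ • (x : ℕ) = σ x := by
  rw [up, mkP_smul (ok_tab σ), if_pos x.2, app_tab]

theorem up_mem (σ : Perm (Fin n)) : up σ ∈ Sy n := mkP_mem _ _

theorem ext_Sy {g h : FP} (hg : g ∈ Sy n) (hh : h ∈ Sy n)
    (e : ∀ x : Fin n, g • (x : ℕ) = h • (x : ℕ)) : g = h :=
  FP.ext fun x => by
    by_cases hx : x < n
    · exact e ⟨x, hx⟩
    · rw [hg x (not_lt.1 hx), hh x (not_lt.1 hx)]

theorem up_mul (σ τ : Perm (Fin n)) : up (σ * τ) = up σ * up τ :=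
  ext_Sy (up_mem _) (mul_mem (up_mem _) (up_mem _)) fun x => by
    rw [mul_smul, up_smul, up_smul, up_smul, Perm.mul_apply]

theorem up_inj : Function.Injective (up : Perm (Fin n) → FP) := fun σ τ h =>
  Equiv.ext fun x => Fin.ext (by rw [← up_smul, ← up_smul, h])

theorem up_surj {g : FP} (h : g ∈ Sy n) : ∃ σ : Perm (Fin n), up σ = g := by
  refine ⟨⟨fun x => ⟨g • (x : ℕ), (smul_lt h).2 x.2⟩,
    fun x => ⟨g⁻¹ • (x : ℕ), (smul_lt (inv_mem h)).2 x.2⟩, fun x => Fin.ext (inv_smul_smul _ _),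
    fun x => Fin.ext (smul_inv_smul _ _)⟩, ext_Sy (up_mem _) h fun x => ?_⟩
  rw [up_smul]; rfl

theorem tab_up (σ : Perm (Fin n)) : ((List.range n).map fun x => up σ • x) = tab σ := by
  rw [range_map_eq, tab]
  congr 1
  funext i
  exact up_smul σ i

theorem bij_up : Function.Bijective fun σ : Perm (Fin n) => (⟨up σ, up_mem σ⟩ : Sy n) :=
  ⟨fun _ _ h => up_inj (congrArg Subtype.val h), fun g => by
    obtain ⟨σ, h⟩ := up_surj g.2
    exact ⟨σ, Subtype.ext h⟩⟩

theorem card_Sy (n : ℕ) : Nat.card (Sy n) = n.factorial := by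
  rw [← Nat.card_eq_of_bijective _ (bij_up (n := n)), Nat.card_perm, Nat.card_fin]

theorem finite_Sy {H : SG} (h : H ≤ Sy n) : Finite H := by
  have : Finite (Sy n) := Finite.of_surjective _ (bij_up (n := n)).2
  exact Finite.of_injective _ (Subgroup.inclusion_injective h)

theorem mem_gen_up (l : List (Perm (Fin n))) (σ : Perm (Fin n)) :
    σ ∈ gen l ↔ up σ ∈ (Grp.ofL (l.map up)).1 := by
  let φ : Perm (Fin n) →* FP := MonoidHom.mk' up up_mul
  have e : {x | x ∈ l.map up} = φ '' {x | x ∈ l} := by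
    ext x; simp [φ]
  rw [Grp.ofL_val, e, ← MonoidHom.map_closure, gen]
  exact (Subgroup.mem_map_iff_mem (f := φ) up_inj).symm

end up

end BK1

theorem b_k1 : K1 where
  pt_smul := BK1.pt_smul
  pt_mul := BK1.pt_mul
  pt_inv := BK1.pt_inv
  pt_pow := BK1.pt_pow
  pt_bd := BK1.pt_bd
  pt_eqFP := BK1.pt_eqFP
  pt_mkF := BK1.pt_mkF
  pt_mkP := BK1.pt_mkP
  pt_swp := BK1.pt_swp
  pt_div := BK1.pt_div
  pt_mod := BK1.pt_mod
  pt_max := BK1.pt_max
  pt_sum := BK1.pt_sum
  pt_eval := BK1.pt_eval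
  pt_els := BK1.pt_els
  pt_fil := BK1.pt_fil
  pt_smem := BK1.pt_smem
  pt_card := BK1.pt_card
  pt_frange := BK1.pt_frange
  pt_erase := BK1.pt_erase
  pt_funion := BK1.pt_funion
  pt_single := BK1.pt_single
  pt_toFinset := BK1.pt_toFinset
  pt_eqFS := BK1.pt_eqFS
  sz_FP := BK1.sz_FP
  bd_le_sz := BK1.bd_le_sz
  sz_FS := BK1.sz_FS
  lt_sz_FS := BK1.lt_sz_FS
  finite_Sy := BK1.finite_Sy
  card_Sy := BK1.card_Sy
  up_smul := BK1.up_smul
  up_mul := BK1.up_mul
  up_inj := fun h => BK1.up_inj h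
  up_surj := BK1.up_surj
  tab_up := BK1.tab_up
  mem_gen_up := BK1.mem_gen_up

end

end Pool.Agent.Lib.E5
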