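import Pool.Agent.Lib.E5.Spec

/-! E5, block K3: the standard operations on groups and cosets in polynomial time. -/

namespace Pool.Agent.Lib.E5

open Equiv Pool.Agent.Lib.helper80 Pool.Agent.Lib.MP_e519cf_lc Polynomial

noncomputable section
open Classical

namespace K3B

theorem head_filter (p : ℕ → Bool) (n m : ℕ) (h1 : m < n) (h2 : p m = true)
    (h3 : ∀ k < m, p k = false) : ((List.range n).filter p).headD 0 = m := by
  have h : (List.range n).find? p = some m := by
    rw [List.find?_range_eq_some]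
    exact ⟨h2, List.mem_range.2 h1, fun j hj => by rw [h3 j hj]; rfl⟩
  rw [List.headD_eq_head?_getD, List.head?_filter, h]
  rfl

theorem lc_self (g : FP) (H : Grp) : g ∈ Cos.lc g H := by
  rw [Cos.mem_lc, inv_mul_cancel]; exact one_mem _

theorem sy_closure (n : ℕ) : Subgroup.closure
    {x | x ∈ (List.range n).flatMap fun i => (List.range n).map fun j => swp i j} = Sy n := by
  apply le_antisymm
  · rw [Subgroup.closure_le]
    intro x hx
    obtain ⟨i, hi, hx⟩ := List.mem_flatMap.1 hx
    obtain ⟨j, hj, rfl⟩ := List.mem_map.1 hx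
    rw [List.mem_range] at hi hj
    intro y hy
    have hy' : n ≤ y := hy
    rw [swp_smul, Equiv.swap_apply_of_ne_of_ne (by omega) (by omega)]
  · have key : ∀ m ≤ n, Sy m ≤ Subgroup.closure
        {x | x ∈ (List.range n).flatMap fun i => (List.range n).map fun j => swp i j} := by
      intro m
      induction m with
      | zero =>
        intro _ g hg
        have : g = 1 := FP.ext fun x => by rw [hg x (Nat.zero_le x), one_smul]
        rw [this]; exact one_mem _
      | succ m ih =>
        intro hm g hg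
        have hj : g • m < m + 1 := (smul_lt hg).2 (Nat.lt_succ_self m)
        have hs : swp m (g • m) ∈ Subgroup.closure
            {x | x ∈ (List.range n).flatMap fun i => (List.range n).map fun j => swp i j} :=
          Subgroup.subset_closure (List.mem_flatMap.2 ⟨m, List.mem_range.2 (by omega),
            List.mem_map.2 ⟨g • m, List.mem_range.2 (by omega), rfl⟩⟩)
        have h1 : swp m (g • m) * g ∈ Sy m := by
          intro y hy
          have hy' : m ≤ y := hy
          rw [mul_smul, swp_smul]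
          rcases hy'.eq_or_lt with rfl | h
          · exact Equiv.swap_apply_right _ _
          · rw [hg y h, Equiv.swap_apply_of_ne_of_ne (by omega) (by omega)]
        simpa using mul_mem (inv_mem hs) (ih (by omega) h1)
    exact key n le_rfl

theorem foldl_fix (l : List ℕ) : ∀ H : Grp,
    (l.foldl (fun K x => K.fix {x}) H).1 = H.1 ⊓ fx {x | x ∈ l} := by
  induction l with
  | nil => intro H; ext g; simp
  | cons a t ih => intro H; rw [List.foldl_cons, ih]; ext g; simp [and_assoc]

theorem swp_zero (x : ℕ) : swp 0 x • (0 : ℕ) = x := Equiv.swap_apply_left _ _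

/-- Elements of `H` moving `x` to every point of its orbit. -/
def cands (H : Grp) (x : ℕ) : List FP :=
  1 :: (Grp.cj (swp 0 x)⁻¹ H).gens.map fun k => swp 0 x * k * (swp 0 x)⁻¹

theorem cands_mem [KG] {H : Grp} {x : ℕ} {c : FP} (h : c ∈ cands H x) : c ∈ H.1 := by
  rcases List.mem_cons.1 h with rfl | h
  · exact one_mem _
  · obtain ⟨k, hk, rfl⟩ := List.mem_map.1 h
    simpa using KG.mem_of_gens hk

theorem cands_ex [KG] {H : Grp} (x : ℕ) {h : FP} (hh : h ∈ H.1) :
    ∃ c ∈ cands H x, c • x = h • x := by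
  have h0 : (swp 0 x)⁻¹ • x = 0 := by rw [inv_smul_eq_iff, swp_zero]
  by_cases e : h • x = x
  · exact ⟨1, List.mem_cons_self, by rw [one_smul, e]⟩
  · have h1 : (swp 0 x)⁻¹ * h * swp 0 x ∈ (Grp.cj (swp 0 x)⁻¹ H).1 := by
      simpa [mul_assoc] using hh
    obtain ⟨g, hg, -, hg0⟩ := KG.gens_strong (i := 0) h1 (fun k hk => absurd hk (Nat.not_lt_zero k))
      (by rw [mul_smul, mul_smul, swp_zero, Ne, inv_smul_eq_iff, swp_zero]; exact e)
    refine ⟨_, List.mem_cons_of_mem _ (List.mem_map.2 ⟨g, hg, rfl⟩), ?_⟩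
    rw [mul_smul, mul_smul, h0, hg0, mul_smul, mul_smul, smul_inv_smul, swp_zero]

theorem trC_eq [KG] (H : Grp) (x y : ℕ) :
    lcases ((cands H x).filter fun c => eqb (c • x) y) Cos.emp
      (fun c _ => Cos.lc c (H.fix {x})) = trC H x y := by
  generalize hl : ((cands H x).filter fun c => eqb (c • x) y) = l
  cases l with
  | nil =>
    refine Cos.ext fun g => ⟨fun h => absurd h (Cos.not_mem_emp g), fun h => ?_⟩
    obtain ⟨c, hc, e⟩ := cands_ex x (mem_trC.1 h).1
    have : c ∈ (cands H x).filter fun c => eqb (c • x) y :=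
      List.mem_filter.2 ⟨hc, by rw [eqb_iff, e, (mem_trC.1 h).2]⟩
    rw [hl] at this
    cases this
  | cons c t =>
    have hc : c ∈ (cands H x).filter fun c => eqb (c • x) y := hl ▸ List.mem_cons_self
    obtain ⟨h1, h2⟩ := List.mem_filter.1 hc
    have h3 := cands_mem h1
    rw [eqb_iff] at h2
    refine Cos.ext fun g => ?_
    rw [lcases_cons, Cos.mem_lc, mem_trC, Grp.fix_val, Subgroup.mem_inf, mem_fx,
      Subgroup.mul_mem_cancel_left _ (inv_mem h3)]
    simp [mul_smul, inv_smul_eq_iff, h2]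

variable [K1] [KG] [KL]

theorem pt_mem : PT fun p : FP × Grp => Grp.mem p.1 p.2 := by
  refine PT.congr (f := fun p : FP × Grp => eqb (Cos.lc p.1 p.2).rep (Cos.lc 1 p.2).rep)
    (by fun_prop) fun p => ?_
  rw [Bool.eq_iff_iff, eqb_iff, Grp.mem_iff]
  constructor
  · intro h
    have h1 := KG.rep_mem (lc_self p.1 p.2)
    have h2 := KG.rep_mem (lc_self 1 p.2)
    rw [h, Cos.mem_lc] at h1
    rw [Cos.mem_lc, inv_one, one_mul] at h2
    exact inv_mem_iff.1 ((Subgroup.mul_mem_cancel_right _ h2).1 h1)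
  · intro h
    congr 1
    refine Cos.ext fun x => ?_
    rw [Cos.mem_lc, Cos.mem_lc, inv_one, one_mul, Subgroup.mul_mem_cancel_left _ (inv_mem h)]

attribute [local fun_prop] pt_mem

theorem pt_le : PT fun p : Grp × Grp => Grp.le p.1 p.2 := by
  refine PT.congr (f := fun p : Grp × Grp => p.1.gens.all fun g => Grp.mem g p.2)
    (by fun_prop) fun p => ?_
  rw [Bool.eq_iff_iff, Grp.le_iff, ← KG.closure_gens p.1, Subgroup.closure_le, List.all_eq_true]
  exact forall₂_congr fun x _ => Grp.mem_iff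

attribute [local fun_prop] pt_le

theorem pt_eqG : PT fun p : Grp × Grp => eqb p.1 p.2 := by
  refine PT.congr (f := fun p : Grp × Grp => Grp.le p.1 p.2 && Grp.le p.2 p.1)
    (by fun_prop) fun p => ?_
  rw [Bool.eq_iff_iff, Bool.and_eq_true, Grp.le_iff, Grp.le_iff, eqb_iff]
  exact ⟨fun h => Grp.ext (le_antisymm h.1 h.2), fun h => by rw [h]; exact ⟨le_rfl, le_rfl⟩⟩

theorem pt_sup : PT fun p : Grp × Grp => p.1.sup p.2 := by
  refine PT.congr (f := fun p : Grp × Grp => Grp.ofL (p.1.gens ++ p.2.gens))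
    (by fun_prop) fun p => Grp.ext ?_
  rw [Grp.sup_val, ← KG.closure_gens p.1, ← KG.closure_gens p.2, ← Subgroup.closure_union,
    Grp.ofL_val]
  congr 1
  ext x
  simp

attribute [local fun_prop] pt_sup

theorem pt_sy : PT Grp.sy :=
  PT.congr (f := fun n : ℕ =>
    Grp.ofL ((List.range n).flatMap fun i => (List.range n).map fun j => swp i j))
    (by fun_prop) fun n => Grp.ext (sy_closure n)

attribute [local fun_prop] pt_sy

variable [M1]

theorem pt_cj : PT fun p : FP × Grp => Grp.cj p.1 p.2 := by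
  refine PT.congr (f := fun p : FP × Grp => Grp.ofL (p.2.gens.map fun x => p.1 * x * p.1⁻¹))
    (by fun_prop) fun p => Grp.ext ?_
  rw [Grp.cj_val, ← KG.closure_gens p.2, M1.cj_closure, Grp.ofL_val]
  congr 1
  ext x
  simp

attribute [local fun_prop] pt_cj

theorem pt_fix1 : PT fun p : Grp × ℕ => p.1.fix {p.2} := by
  refine PT.congr (f := fun p : Grp × ℕ => Grp.cj (swp 0 p.2)
    (Grp.ofL ((Grp.cj (swp 0 p.2)⁻¹ p.1).gens.filter fun g => eqb (g • (0 : ℕ)) 0)))
    (by fun_prop) fun p => Grp.ext ?_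
  have e : {x | x ∈ (Grp.cj (swp 0 p.2)⁻¹ p.1).gens.filter fun g => eqb (g • (0 : ℕ)) 0} =
      {x | x ∈ (Grp.cj (swp 0 p.2)⁻¹ p.1).gens ∧ ∀ k < 1, x • k = k} := by
    ext x
    simp
  rw [Grp.cj_val, Grp.ofL_val, e, KG.closure_gens_fx]
  ext g
  simp [mul_assoc, mul_smul, inv_smul_eq_iff, swp_zero]

theorem pt_fix : PT fun p : Grp × Finset ℕ => p.1.fix p.2 := by
  refine PT.congr (PT.foldl (f := fun (_ : Grp × Finset ℕ) (K : Grp) (x : ℕ) => K.fix {x})
    (PT.comp pt_fix1 (PT.snd PT.id')) (l := fun p => els p.2) (by fun_prop) (i := fun p => p.1)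
    (by fun_prop) SBp fun p n => ?_) fun p => Grp.ext ?_
  · rw [eval_SBp]
    refine KG.sz_Grp ?_
    rw [foldl_fix]
    refine inf_le_left.trans (Grp.bd_le.1 ((KG.gbd_le_sz p.1).trans ?_))
    have : sz p = 2 * sz p.1 + 1 + sz p.2 := sz_pair p.1 p.2
    omega
  · rw [foldl_fix, Grp.fix_val]
    congr 2
    ext x
    simp

attribute [local fun_prop] pt_fix

theorem pt_trC : PT fun p : Grp × ℕ × ℕ => trC p.1 p.2.1 p.2.2 := by
  refine PT.congr ?_ fun p => trC_eq p.1 p.2.1 p.2.2
  unfold cands
  fun_prop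

attribute [local fun_prop] pt_trC

theorem pt_tr : PT fun p : Grp × ℕ × ℕ => tr p.1 p.2.1 p.2.2 := by
  unfold tr
  fun_prop

theorem pt_orb : PT fun p : Grp × ℕ => p.1.orb p.2 := by
  refine PT.congr (f := fun p : Grp × ℕ =>
    fil (p.1.bd + p.2 + 1) fun y => !(trC p.1 p.2 y).isE) (by fun_prop) fun p => ?_
  unfold Grp.orb
  congr 1
  funext y
  rw [Bool.eq_iff_iff]
  simp [So]

attribute [local fun_prop] pt_tr pt_orb

theorem pt_rep : PT fun p : Grp × ℕ => p.1.rep p.2 := by
  refine PT.congr (f := fun p : Grp × ℕ =>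
    ((List.range (p.2 + 1)).filter fun y => smem y (p.1.orb p.2)).headD 0) (by fun_prop) fun p => ?_
  refine head_filter _ _ _ (Nat.lt_succ_of_le (Grp.rep_le ⟨1, one_mem _, one_smul _ _⟩))
    (by rw [smem_iff, Grp.mem_orb]; exact Grp.so_rep _ _) fun k hk => ?_
  rw [smem_false, Grp.mem_orb]
  exact fun h => absurd (Grp.rep_le h) (not_le.2 hk)

attribute [local fun_prop] pt_rep

theorem pt_reps : PT fun p : Grp × ℕ => p.1.reps p.2 := by
  unfold Grp.reps
  fun_prop

omit [KG] [KL] [M1] in
theorem pt_sw : PT sw := by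
  unfold sw
  fun_prop

omit [KG] [KL] [M1] in
theorem pt_res : PT fun p : Finset ℕ × FP => res p.1 p.2 := by
  unfold res
  fun_prop

omit [KG] [KL] [M1] in
theorem pt_prP : PT fun p : ℕ × FP => prP p.1 p.2 := by
  unfold prP
  fun_prop

omit [KG] [KL] [M1] in
theorem pt_RH : PT RH := by
  unfold RH
  fun_prop

attribute [local fun_prop] pt_sw pt_res pt_RH

omit [M1] in
theorem pt_con : PT fun p : Finset ℕ × Grp => Grp.con p.1 p.2 := by
  unfold Grp.con
  fun_prop

attribute [local fun_prop] pt_con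

end K3B

open K3B in
theorem b_k3 [K1] [KG] [KL] [M1] : K3 := by
  have h1 := pt_res
  have h2 := pt_orb
  have h3 := pt_tr
  have h4 := pt_rep
  have h5 := pt_fix
  have h6 := pt_RH
  have h7 := pt_sup
  have h8 := pt_con
  have h9 := pt_cj
  have h10 := pt_sw
  have h11 := pt_sy
  exact
    { pt_mem := pt_mem
      pt_le := pt_le
      pt_eqG := pt_eqG
      pt_sup := pt_sup
      pt_cj := pt_cj
      pt_sy := pt_sy
      pt_fix := pt_fix
      pt_trC := pt_trC
      pt_tr := pt_tr
      pt_orb := pt_orb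
      pt_rep := pt_rep
      pt_reps := pt_reps
      pt_sw := pt_sw
      pt_res := pt_res
      pt_prP := pt_prP
      pt_con := pt_con
      pt_hat := by unfold Grp.hat; fun_prop
      pt_gb := by unfold gb; fun_prop
      pt_kers := by unfold kers; fun_prop
      pt_RH := pt_RH
      pt_lft := by unfold lft; fun_prop
      pt_rgt := by unfold rgt; fun_prop
      pt_lmul := by unfold Cos.lmul; fun_prop
      pt_rmul := by unfold Cos.rmul; fun_prop
      pt_ccon := by unfold Cos.con; fun_prop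
      pt_union := by unfold Cos.union; fun_prop
      pt_symB := by unfold symB; fun_prop }

end

end Pool.Agent.Lib.E5
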