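import Pool.Agent.Lib.E5.Spec

/-! E5, block K5: commutators, layers and length in polynomial time. -/

namespace Pool.Agent.Lib.E5

open Equiv Pool.Agent.Lib.helper80 Pool.Agent.Lib.MP_e519cf_lc Polynomial

noncomputable section
open Classical

namespace K5B

theorem head_filter (p : ℕ → Bool) (n m : ℕ) (h1 : m < n) (h2 : p m = true)
    (h3 : ∀ k < m, p k = false) : ((List.range n).filter p).headD 0 = m := by
  have h : (List.range n).find? p = some m := by
    rw [List.find?_range_eq_some]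
    exact ⟨h2, List.mem_range.2 h1, fun j hj => by rw [h3 j hj]; rfl⟩
  rw [List.headD_eq_head?_getD, List.head?_filter, h]
  rfl

/-! ### Normal closure -/

/-- One step of the normal closure. -/
def nst (l : List FP) (N : Grp) : Grp :=
  Grp.ofL (N.gens ++ l.flatMap fun g => N.gens.map fun x => g * x * g⁻¹)

theorem pt_nst [K1] [KG] [KL] : PT fun p : List FP × Grp => nst p.1 p.2 := by
  unfold nst; fun_prop

theorem le_nst [KG] (l : List FP) (N : Grp) : N.1 ≤ (nst l N).1 := by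
  rw [← KG.closure_gens N]
  exact Subgroup.closure_mono fun x hx => List.mem_append_left _ hx

theorem cj_le_nst [KG] [M1] {l : List FP} (N : Grp) {g : FP} (hg : g ∈ l) :
    cj g N.1 ≤ (nst l N).1 := by
  rw [← KG.closure_gens N, M1.cj_closure]
  refine Subgroup.closure_mono ?_
  rintro _ ⟨x, hx, rfl⟩
  exact List.mem_append_right _ (List.mem_flatMap.2 ⟨g, hg, List.mem_map.2 ⟨x, hx, rfl⟩⟩)

theorem nst_le [KG] {l : List FP} {N : Grp} {K : SG} (h : N.1 ≤ K)
    (hl : ∀ g ∈ l, ∀ x ∈ K, g * x * g⁻¹ ∈ K) : (nst l N).1 ≤ K := by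
  rw [nst, Grp.ofL_val, Subgroup.closure_le]
  intro x hx
  rcases List.mem_append.1 hx with hx | hx
  · exact h (KG.mem_of_gens hx)
  · obtain ⟨g, hg, hx⟩ := List.mem_flatMap.1 hx
    obtain ⟨y, hy, rfl⟩ := List.mem_map.1 hx
    exact hl g hg y (h (KG.mem_of_gens hy))

theorem iter_le [KG] {l : List FP} {N : Grp} {K : SG} (h : N.1 ≤ K)
    (hl : ∀ g ∈ l, ∀ x ∈ K, g * x * g⁻¹ ∈ K) (i : ℕ) : ((nst l)^[i] N).1 ≤ K := by
  induction i with
  | zero => exact h
  | succ i ih => rw [Function.iterate_succ_apply']; exact nst_le ih hl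

theorem le_iter [KG] (l : List FP) (N : Grp) (i : ℕ) : N.1 ≤ ((nst l)^[i] N).1 := by
  induction i with
  | zero => exact le_rfl
  | succ i ih => rw [Function.iterate_succ_apply']; exact ih.trans (le_nst _ _)

theorem iter_Sy [KG] {l : List FP} {N : Grp} {n : ℕ} (h : N.1 ≤ Sy n) (hl : ∀ g ∈ l, g ∈ Sy n)
    (i : ℕ) : ((nst l)^[i] N).1 ≤ Sy n :=
  iter_le h (fun g hg _ hx => mul_mem (mul_mem (hl g hg) hx) (inv_mem (hl g hg))) i

theorem iter_fix [KG] [M2] {l : List FP} {N : Grp} {n : ℕ} (h : N.1 ≤ Sy n)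
    (hl : ∀ g ∈ l, g ∈ Sy n) : nst l ((nst l)^[n * n + 1] N) = (nst l)^[n * n + 1] N := by
  have key : ∀ i, nst l ((nst l)^[i] N) = (nst l)^[i] N ∨ i ≤ len ((nst l)^[i] N).1 := by
    intro i
    induction i with
    | zero => exact Or.inr (Nat.zero_le _)
    | succ i ih =>
      by_cases e : nst l ((nst l)^[i] N) = (nst l)^[i] N
      · left
        rw [Function.iterate_succ_apply', e, e]
      · right
        have h1 := ih.resolve_left e
        have h2 := iter_Sy h hl (i + 1)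
        rw [Function.iterate_succ_apply'] at h2 ⊢
        have h3 : ((nst l)^[i] N).1 < (nst l ((nst l)^[i] N)).1 :=
          lt_of_le_of_ne (le_nst _ _) fun e' => e (Grp.ext e'.symm)
        have := M2.len_lt h2 h3
        omega
  refine (key _).resolve_right fun h1 => ?_
  have := M2.len_le (iter_Sy h hl (n * n + 1))
  omega

theorem iter_cj [KG] [M1] [M2] {l : List FP} {N : Grp} {n : ℕ} (h : N.1 ≤ Sy n)
    (hl : ∀ g ∈ l, g ∈ Sy n) {g : FP} (hg : g ∈ l) :
    cj g ((nst l)^[n * n + 1] N).1 = ((nst l)^[n * n + 1] N).1 := by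
  refine M2.eq_of_cj_le (iter_Sy h hl _) ?_
  have := cj_le_nst ((nst l)^[n * n + 1] N) hg
  rwa [iter_fix h hl] at this

/-! ### Commutators -/

theorem nm_left (A B : SG) : Nm A ⁅A, B⁆ := by
  intro l hl d hd
  rw [Subgroup.commutator_def] at hd
  induction hd using Subgroup.closure_induction with
  | mem x hx =>
    obtain ⟨a, ha, b, hb, rfl⟩ := hx
    have h1 := Subgroup.commutator_mem_commutator (mul_mem hl ha) hb
    have h2 := Subgroup.commutator_mem_commutator hl hb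
    simp only [commutatorElement_def] at h1 h2 ⊢
    have e : l * (a * b * a⁻¹ * b⁻¹) * l⁻¹ =
        (l * a * b * (l * a)⁻¹ * b⁻¹) * (l * b * l⁻¹ * b⁻¹)⁻¹ := by group
    rw [e]
    exact mul_mem h1 (inv_mem h2)
  | one => simp
  | mul x y _ _ hx hy =>
    have e : l * (x * y) * l⁻¹ = (l * x * l⁻¹) * (l * y * l⁻¹) := by group
    rw [e]
    exact mul_mem hx hy
  | inv x _ hx =>
    have e : l * x⁻¹ * l⁻¹ = (l * x * l⁻¹)⁻¹ := by group
    rw [e]
    exact inv_mem hx

theorem nm_right (A B : SG) : Nm B ⁅A, B⁆ := by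
  rw [Subgroup.commutator_comm]
  exact nm_left B A

theorem comm_closure_le {S T : Set FP} {N : SG} (hS : Nm (Subgroup.closure S) N)
    (hT : Nm (Subgroup.closure T) N) (h : ∀ s ∈ S, ∀ t ∈ T, s * t * s⁻¹ * t⁻¹ ∈ N) :
    ⁅Subgroup.closure S, Subgroup.closure T⁆ ≤ N := by
  have h1 : ∀ t ∈ T, ∀ a ∈ Subgroup.closure S, a * t * a⁻¹ * t⁻¹ ∈ N := by
    intro t ht a ha
    induction ha using Subgroup.closure_induction with
    | mem x hx => exact h x hx t ht
    | one => simp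
    | mul x y hx' _ hx hy =>
      have e : x * y * t * (x * y)⁻¹ * t⁻¹ =
          (x * (y * t * y⁻¹ * t⁻¹) * x⁻¹) * (x * t * x⁻¹ * t⁻¹) := by group
      rw [e]
      exact mul_mem (hS x hx' _ hy) hx
    | inv x hx' hx =>
      have e : x⁻¹ * t * x⁻¹⁻¹ * t⁻¹ = x⁻¹ * (x * t * x⁻¹ * t⁻¹)⁻¹ * x⁻¹⁻¹ := by group
      rw [e]
      exact hS _ (inv_mem hx') _ (inv_mem hx)
  rw [Subgroup.commutator_le]
  intro a ha b hb
  rw [commutatorElement_def]
  induction hb using Subgroup.closure_induction with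
  | mem x hx => exact h1 x hx a ha
  | one => simp
  | mul x y hx' _ hx hy =>
    have e : a * (x * y) * a⁻¹ * (x * y)⁻¹ =
        (a * x * a⁻¹ * x⁻¹) * (x * (a * y * a⁻¹ * y⁻¹) * x⁻¹) := by group
    rw [e]
    exact mul_mem hx (hT x hx' _ hy)
  | inv x hx' hx =>
    have e : a * x⁻¹ * a⁻¹ * x⁻¹⁻¹ = x⁻¹ * (a * x * a⁻¹ * x⁻¹)⁻¹ * x⁻¹⁻¹ := by group
    rw [e]
    exact hT _ (inv_mem hx') _ (inv_mem hx)

/-- The commutators of the generators. -/
def cg (A B : Grp) : Grp :=
  Grp.ofL (A.gens.flatMap fun a => B.gens.map fun b => a * b * a⁻¹ * b⁻¹)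

theorem cg_le [KG] (A B : Grp) : (cg A B).1 ≤ ⁅A.1, B.1⁆ := by
  rw [cg, Grp.ofL_val, Subgroup.closure_le]
  intro x hx
  obtain ⟨a, ha, hx⟩ := List.mem_flatMap.1 hx
  obtain ⟨b, hb, rfl⟩ := List.mem_map.1 hx
  exact Subgroup.commutator_mem_commutator (KG.mem_of_gens ha) (KG.mem_of_gens hb)

theorem gens_Sy [KG] (A B : Grp) : ∀ g ∈ A.gens ++ B.gens, g ∈ Sy (A.bd + B.bd) := by
  intro g hg
  rcases List.mem_append.1 hg with hg | hg
  · exact Grp.bd_le.1 (Nat.le_add_right _ _) (KG.mem_of_gens hg)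
  · exact Grp.bd_le.1 (Nat.le_add_left _ _) (KG.mem_of_gens hg)

theorem cg_Sy [KG] (A B : Grp) : (cg A B).1 ≤ Sy (A.bd + B.bd) := by
  refine (cg_le A B).trans (Subgroup.commutator_le.2 fun a ha b hb => ?_)
  have h1 : a ∈ Sy (A.bd + B.bd) := Grp.bd_le.1 (Nat.le_add_right _ _) ha
  have h2 : b ∈ Sy (A.bd + B.bd) := Grp.bd_le.1 (Nat.le_add_left _ _) hb
  exact mul_mem (mul_mem (mul_mem h1 h2) (inv_mem h1)) (inv_mem h2)

theorem comm_eq [KG] [M1] [M2] (A B : Grp) :
    (nst (A.gens ++ B.gens))^[(A.bd + B.bd) * (A.bd + B.bd) + 1] (cg A B) = A.comm B := by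
  refine Grp.ext (le_antisymm (iter_le (cg_le A B) (fun g hg x hx => ?_) _) ?_)
  · rcases List.mem_append.1 hg with hg | hg
    · exact nm_left _ _ g (KG.mem_of_gens hg) x hx
    · exact nm_right _ _ g (KG.mem_of_gens hg) x hx
  · rw [Grp.comm_val]
    conv_lhs => rw [← KG.closure_gens A, ← KG.closure_gens B]
    refine comm_closure_le
      (M1.nm_closure fun g hg => iter_cj (cg_Sy A B) (gens_Sy A B) (List.mem_append_left _ hg))
      (M1.nm_closure fun g hg => iter_cj (cg_Sy A B) (gens_Sy A B) (List.mem_append_right _ hg))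
      fun s hs t ht => le_iter _ _ _ (Subgroup.subset_closure ?_)
    exact List.mem_flatMap.2 ⟨s, hs, List.mem_map.2 ⟨t, ht, rfl⟩⟩

theorem pt_comm [K1] [KG] [KL] [M1] [M2] : PT fun p : Grp × Grp => p.1.comm p.2 := by
  have h := PT.foldl
    (f := fun (p : Grp × Grp) (N : Grp) (_ : ℕ) => nst (p.1.gens ++ p.2.gens) N)
    (PT.comp (g := fun q : (Grp × Grp) × Grp × ℕ => (q.1.1.gens ++ q.1.2.gens, q.2.1)) pt_nst
      (by fun_prop))
    (l := fun p => List.range ((p.1.bd + p.2.bd) * (p.1.bd + p.2.bd) + 1)) (by fun_prop)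
    (i := fun p => cg p.1 p.2) (by unfold cg; fun_prop) SBp (fun p n => by
      rw [List.foldl_const, eval_SBp]
      refine (KG.sz_Grp (iter_Sy (cg_Sy p.1 p.2) (gens_Sy p.1 p.2) _)).trans (SB_mono ?_)
      obtain ⟨A, B⟩ := p
      have h1 := KG.gbd_le_sz A
      have h2 := KG.gbd_le_sz B
      simp only [sz_pair]
      omega)
  exact h.congr fun p => by rw [List.foldl_const, List.length_range, comm_eq]

/-! ### Layers -/

theorem yq_eq [KG] [M1] (q : ℕ) (E D : Grp) :
    ((E.comm E).sup (Grp.ofL (E.gens.map fun g => g ^ q))).sup D = Grp.yq q E D := by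
  refine Grp.ext ?_
  simp only [Grp.sup_val, Grp.comm_val, Grp.ofL_val, Grp.yq_val, yq]
  refine congrArg (· ⊔ D.1) (le_antisymm (sup_le_sup_left (Subgroup.closure_mono ?_) _) ?_)
  · intro x hx
    obtain ⟨g, hg, rfl⟩ := List.mem_map.1 hx
    exact ⟨g, KG.mem_of_gens hg, rfl⟩
  · obtain ⟨K, hK⟩ : ∃ K : SG,
        K = ⁅E.1, E.1⁆ ⊔ Subgroup.closure {x | x ∈ E.gens.map fun g => g ^ q} := ⟨_, rfl⟩
    rw [← hK]
    have h1 : ⁅E.1, E.1⁆ ≤ K := hK ▸ le_sup_left
    have h2 : K ≤ E.1 := by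
      rw [hK]
      refine sup_le (M1.comm_self_le _) ((Subgroup.closure_le _).2 fun x hx => ?_)
      obtain ⟨g, hg, rfl⟩ := List.mem_map.1 hx
      exact pow_mem (KG.mem_of_gens hg) q
    have h3 : Nm E.1 K := by
      intro l hl d hd
      have e : l * d * l⁻¹ = (l * d * l⁻¹ * d⁻¹) * d := by group
      rw [e]
      exact mul_mem (h1 (Subgroup.commutator_mem_commutator hl (h2 hd))) hd
    have h4 : EA q (Subgroup.closure {x | x ∈ E.gens} ⊔ K) K := by
      refine M1.ea_closure (fun a ha => M1.cj_of_nm h3 (KG.mem_of_gens ha))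
        (fun a ha b hb =>
          h1 (Subgroup.commutator_mem_commutator (KG.mem_of_gens ha) (KG.mem_of_gens hb)))
        fun a ha => ?_
      rw [hK]
      exact Subgroup.mem_sup_right (Subgroup.subset_closure (List.mem_map.2 ⟨a, ha, rfl⟩))
    rw [KG.closure_gens] at h4
    refine sup_le h1 ((Subgroup.closure_le _).2 ?_)
    rintro _ ⟨e, he, rfl⟩
    exact h4.2.2 e (Subgroup.mem_sup_left he)

theorem pt_yq [K1] [KG] [KL] [K3] [M1] [M2] :
    PT fun p : ℕ × Grp × Grp => Grp.yq p.1 p.2.1 p.2.2 := by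
  have hc := pt_comm
  refine PT.congr (f := fun p : ℕ × Grp × Grp => ((p.2.1.comm p.2.1).sup
    (Grp.ofL (p.2.1.gens.map fun g => g ^ p.1))).sup p.2.2) ?_ fun p => yq_eq _ _ _
  have h1 : PT fun p : ℕ × Grp × Grp => p.2.1.comm p.2.1 :=
    PT.comp (g := fun p : ℕ × Grp × Grp => (p.2.1, p.2.1)) hc (by fun_prop)
  fun_prop

theorem pq_eq [M4] (E D : Grp) : ((List.range (E.bd + 3)).filter
    fun q => Nat.ble 2 q && !eqb (Grp.yq q E D) E).headD 0 = Grp.pq E D := by
  have hp : ∀ q, (Nat.ble 2 q && !eqb (Grp.yq q E D) E) = true ↔ 2 ≤ q ∧ yq q E.1 D.1 ≠ E.1 := by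
    intro q
    simp only [Bool.and_eq_true, Nat.ble_eq, Bool.not_eq_true', eqb_false]
    exact and_congr_right fun _ => not_congr ⟨fun h => congrArg Grp.val h, fun h => Grp.ext h⟩
  have hle : pq E.1 D.1 ≤ E.bd + 2 := M4.pq_le E.le_bd
  rw [Grp.pq]
  by_cases h : ∃ q, 2 ≤ q ∧ yq q E.1 D.1 ≠ E.1
  · rw [pq, dif_pos h] at hle ⊢
    refine head_filter _ _ _ (by omega) ((hp _).2 (Nat.find_spec h)) fun k hk => ?_
    rw [← Bool.not_eq_true, hp]
    exact Nat.find_min h hk
  · rw [pq, dif_neg h, List.filter_eq_nil_iff.2 fun q _ hq => h ⟨q, (hp q).1 hq⟩]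
    rfl

theorem pt_pq [K1] [KG] [KL] [K3] [M1] [M2] [M4] : PT fun p : Grp × Grp => Grp.pq p.1 p.2 := by
  refine PT.congr (f := fun p : Grp × Grp => ((List.range (p.1.bd + 3)).filter
    fun q => Nat.ble 2 q && !eqb (Grp.yq q p.1 p.2) p.1).headD 0) ?_ fun p => pq_eq _ _
  have h1 : PT fun p : (Grp × Grp) × ℕ => Grp.yq p.2 p.1.1 p.1.2 :=
    PT.comp (g := fun p : (Grp × Grp) × ℕ => (p.2, p.1.1, p.1.2)) pt_yq (by fun_prop)
  refine PT.headD (PT.filter (PT.and (by fun_prop) (PT.not (pt_eqb h1 (by fun_prop))))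
    (by fun_prop)) (by fun_prop)

theorem pt_top [K1] [KG] [KL] [K3] [M1] [M2] [M4] : PT fun p : Grp × Grp => Grp.top p.1 p.2 :=
  PT.comp (g := fun p : Grp × Grp => (Grp.pq p.1 p.2, p.1, p.2)) pt_yq
    (PT.prodMk pt_pq (by fun_prop))

theorem ea_eq [KG] [M1] (p : ℕ) (X D : Grp) :
    (D.le X && (X.gens.all fun a => eqb (Grp.cj a D) D) &&
      (X.gens.all fun a => X.gens.all fun b => Grp.mem (a * b * a⁻¹ * b⁻¹) D) &&
      X.gens.all fun a => Grp.mem (a ^ p) D) = Grp.ea p X D := by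
  rw [Bool.eq_iff_iff]
  simp only [Bool.and_eq_true, Grp.le_iff, List.all_eq_true, eqb_iff, Grp.mem_iff, Grp.ea_iff]
  constructor
  · rintro ⟨⟨⟨h1, h2⟩, h3⟩, h4⟩
    have h := M1.ea_closure (p := p) (S := {x | x ∈ X.gens}) (D := D.1)
      (fun a ha => congrArg Grp.val (h2 a ha)) h3 h4
    rwa [KG.closure_gens, sup_eq_left.2 h1] at h
  · intro h
    exact ⟨⟨⟨h.1, fun a ha => Grp.ext (M1.cj_of_nm (M1.ea_nm h le_rfl h.1) (KG.mem_of_gens ha))⟩,
      fun a ha b hb => h.2.1 a (KG.mem_of_gens ha) b (KG.mem_of_gens hb)⟩,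
      fun a ha => h.2.2 a (KG.mem_of_gens ha)⟩

theorem pt_ea [K1] [KG] [K3] [M1] : PT fun p : ℕ × Grp × Grp => Grp.ea p.1 p.2.1 p.2.2 := by
  refine PT.congr (f := fun p : ℕ × Grp × Grp => (p.2.2.le p.2.1 &&
    (p.2.1.gens.all fun a => eqb (Grp.cj a p.2.2) p.2.2) &&
      (p.2.1.gens.all fun a => p.2.1.gens.all fun b => Grp.mem (a * b * a⁻¹ * b⁻¹) p.2.2) &&
      p.2.1.gens.all fun a => Grp.mem (a ^ p.1) p.2.2)) ?_ fun p => ea_eq _ _ _
  fun_prop

/-! ### Length -/

/-- The least factor. -/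
def mf (k : ℕ) : ℕ :=
  ((List.range (k + 1)).filter fun d => Nat.ble 2 d && Nat.beq (k % d) 0).headD 0

theorem mf_eq {k : ℕ} (hk : 2 ≤ k) : mf k = k.minFac := by
  have hp := Nat.minFac_prime (n := k) (by omega)
  refine head_filter _ _ _ (Nat.lt_succ_of_le (Nat.minFac_le (by omega))) ?_ fun j hj => ?_
  · simp only [Bool.and_eq_true, Nat.ble_eq, Nat.beq_eq]
    exact ⟨hp.two_le, Nat.mod_eq_zero_of_dvd (Nat.minFac_dvd k)⟩
  · rw [← Bool.not_eq_true]
    simp only [Bool.and_eq_true, Nat.ble_eq, Nat.beq_eq]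
    rintro ⟨h1, h2⟩
    have := Nat.minFac_le_of_dvd h1 (Nat.dvd_of_mod_eq_zero h2)
    omega

/-- Removal of one prime factor. -/
def ost (s : ℕ × ℕ) : ℕ × ℕ := bif Nat.blt s.1 2 then s else (s.1 / mf s.1, s.2 + 1)

theorem ost_lt {k : ℕ} (c : ℕ) (h : k < 2) : ost (k, c) = (k, c) := by
  have : Nat.blt k 2 = true := by simpa using h
  simp only [ost, this, cond_true]

theorem ost_ge {k : ℕ} (c : ℕ) (h : 2 ≤ k) : ost (k, c) = (k / k.minFac, c + 1) := by
  have : Nat.blt k 2 = false := by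
    rw [← Bool.not_eq_true, Nat.blt_eq]; omega
  simp only [ost, this, cond_false, mf_eq h]

theorem ost_iter (n : ℕ) : ∀ k c : ℕ, k ≤ n + 1 →
    (ost^[n] (k, c)).2 = c + ArithmeticFunction.cardFactors k := by
  induction n with
  | zero =>
    intro k c hk
    interval_cases k <;> simp
  | succ n ih =>
    intro k c hk
    rw [Function.iterate_succ_apply]
    by_cases h : k < 2
    · rw [ost_lt c h]
      exact ih k c (by omega)
    · have h2 : 2 ≤ k := not_lt.1 h
      have hp := Nat.minFac_prime (n := k) (by omega)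
      have h3 : k / k.minFac ≤ k / 2 := Nat.div_le_div_left hp.two_le (by norm_num)
      rw [ost_ge c h2, ih _ _ (by omega)]
      have e : k.minFac * (k / k.minFac) = k := Nat.mul_div_cancel' (Nat.minFac_dvd k)
      have h4 : k / k.minFac ≠ 0 := fun h0 => by rw [h0] at e; omega
      conv_rhs => rw [← e, ArithmeticFunction.cardFactors_mul hp.ne_zero h4,
        ArithmeticFunction.cardFactors_apply_prime hp]
      omega

theorem ost_sz (n : ℕ) (k : ℕ) : (ost^[n] (k, 0)).1 ≤ k ∧ (ost^[n] (k, 0)).2 ≤ n := by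
  induction n with
  | zero => exact ⟨le_rfl, le_rfl⟩
  | succ n ih =>
    rw [Function.iterate_succ_apply']
    generalize ost^[n] (k, 0) = s at ih
    obtain ⟨a, c⟩ := s
    by_cases h : a < 2
    · rw [ost_lt c h]
      exact ⟨ih.1, ih.2.trans (Nat.le_succ _)⟩
    · rw [ost_ge c (not_lt.1 h)]
      exact ⟨(Nat.div_le_self _ _).trans ih.1, Nat.succ_le_succ ih.2⟩

theorem pt_om [K1] : PT fun k : ℕ => ArithmeticFunction.cardFactors k := by
  have h := PT.iterate (step := ost) (by unfold ost mf; fun_prop) (n := fun k : ℕ => k) PT.id'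
    (s := fun k : ℕ => (k, 0)) (by fun_prop) (3 * X + 1) (fun k i hi => by
      have := ost_sz i k
      generalize ost^[i] (k, 0) = s at this
      obtain ⟨a, c⟩ := s
      simp only [sz_pair, sz_nat, eval_add, eval_mul, eval_ofNat, eval_X, eval_one] at this ⊢
      omega)
  exact (PT.snd h).congr fun k => by rw [ost_iter k k 0 (Nat.le_succ _), zero_add]

theorem card_orb (H : Grp) (x : ℕ) :
    Nat.card H.1 = (H.orb x).card * Nat.card (H.1 ⊓ fx {x} : SG) := by
  have e1 : MulAction.stabilizer H.1 x = (H.1 ⊓ fx {x} : SG).subgroupOf H.1 := by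
    ext g
    simp only [MulAction.mem_stabilizer_iff, Subgroup.mem_subgroupOf, Subgroup.mem_inf, mem_fx,
      Set.mem_singleton_iff, forall_eq]
    exact ⟨fun h => ⟨g.2, h⟩, fun h => h.2⟩
  have e2 : MulAction.orbit H.1 x = ↑(H.orb x) := by
    ext y
    simp only [MulAction.mem_orbit_iff, Finset.mem_coe, Grp.mem_orb, So]
    exact ⟨fun ⟨g, hg⟩ => ⟨g, g.2, hg⟩, fun ⟨g, h1, h2⟩ => ⟨⟨g, h1⟩, h2⟩⟩
  rw [← (MulAction.stabilizer H.1 x).index_mul_card, MulAction.index_stabilizer, e2,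
    Set.ncard_coe_finset, e1,
    Nat.card_congr (Subgroup.subgroupOfEquivOfLe inf_le_left).toEquiv]

theorem len_step [K1] (H : Grp) (i : ℕ) : len (H.fix (Finset.range i)).1 =
    ArithmeticFunction.cardFactors ((H.fix (Finset.range i)).orb i).card +
      len (H.fix (Finset.range (i + 1))).1 := by
  have e : ((H.fix (Finset.range i)).1 ⊓ fx {i} : SG) = (H.fix (Finset.range (i + 1))).1 := by
    ext g
    simp only [Grp.fix_val, Subgroup.mem_inf, mem_fx, Finset.coe_range, Set.mem_Iio,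
      Set.mem_singleton_iff, forall_eq]
    constructor
    · rintro ⟨⟨h1, h2⟩, h3⟩
      refine ⟨h1, fun x hx => ?_⟩
      rcases Nat.lt_succ_iff_lt_or_eq.1 hx with h | rfl
      · exact h2 x h
      · exact h3
    · rintro ⟨h1, h2⟩
      exact ⟨⟨h1, fun x hx => h2 x (by omega)⟩, h2 i (by omega)⟩
  have h := card_orb (H.fix (Finset.range i)) i
  rw [e] at h
  have := K1.finite_Sy (H.fix (Finset.range i)).le_bd
  have h0 : Nat.card (H.fix (Finset.range i)).1 ≠ 0 := Nat.card_pos.ne'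
  rw [h] at h0
  rw [len, len, h, ArithmeticFunction.cardFactors_mul (left_ne_zero_of_mul h0)
    (right_ne_zero_of_mul h0)]

theorem len_sum [K1] (H : Grp) (n : ℕ) : len H.1 = ((List.range n).map fun i =>
    ArithmeticFunction.cardFactors ((H.fix (Finset.range i)).orb i).card).sum +
      len (H.fix (Finset.range n)).1 := by
  induction n with
  | zero =>
    have e : (H.fix (Finset.range 0)).1 = H.1 := by
      ext g
      simp
    rw [e]
    simp
  | succ n ih =>
    rw [List.range_succ, List.map_append, List.sum_append, ih, len_step H n]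
    simp only [List.map_cons, List.map_nil, List.sum_cons, List.sum_nil]
    omega

theorem len_eq [K1] [M2] (H : Grp) : ((List.range H.bd).map fun i =>
    ArithmeticFunction.cardFactors ((H.fix (Finset.range i)).orb i).card).sum = H.len := by
  have e : (H.fix (Finset.range H.bd)).1 = ⊥ := by
    rw [eq_bot_iff]
    intro g hg
    rw [Subgroup.mem_bot]
    refine FP.ext fun x => ?_
    rw [one_smul]
    by_cases hx : x < H.bd
    · exact hg.2 x (by simpa using hx)
    · exact H.le_bd hg.1 x (not_lt.1 hx)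
  rw [Grp.len, len_sum H H.bd, e, M2.len_bot, add_zero]

theorem pt_len [K1] [KG] [K3] [M2] : PT Grp.len := by
  refine PT.congr (f := fun H : Grp => ((List.range H.bd).map fun i =>
    ArithmeticFunction.cardFactors ((H.fix (Finset.range i)).orb i).card).sum) ?_ len_eq
  refine PT.comp K1.pt_sum (PT.map ?_ (by fun_prop))
  exact PT.comp (g := fun p : Grp × ℕ => ((p.1.fix (Finset.range p.2)).orb p.2).card) pt_om
    (by fun_prop)

end K5B

theorem b_k5 [K1] [KG] [KL] [K3] [M1] [M2] [M4] : K5 :=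
  ⟨K5B.pt_comm, K5B.pt_yq, K5B.pt_pq, K5B.pt_top, K5B.pt_ea, K5B.pt_len⟩

end

end Pool.Agent.Lib.E5
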