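import Pool.Agent.Lib.E5.Spec

namespace Pool.Agent.Lib.E5

open Equiv Pool.Agent.Lib.helper80 Pool.Agent.Lib.MP_e519cf_lc Polynomial

noncomputable section
open Classical

namespace KGp

theorem rd_unique {H : SG} {g h : FP} (hg : Rd H g) (hh : Rd H h) (hu : g⁻¹ * h ∈ H) : g = h := by
  have key : ∀ k : ℕ, (g⁻¹ * h) • k = k := by
    intro k
    induction k using Nat.strong_induction_on with
    | _ k ih =>
      have h1 := hg k _ hu ih
      have h2 := hh k _ (inv_mem hu) fun i hi => by rw [inv_smul_eq_iff, ih i hi]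
      rw [← mul_smul, mul_inv_cancel_left] at h1
      rw [← mul_smul, mul_inv_rev, inv_inv, mul_inv_cancel_left] at h2
      rw [mul_smul, inv_smul_eq_iff]
      exact le_antisymm h2 h1
  have : g⁻¹ * h = 1 := FP.ext fun x => by rw [key, one_smul]
  exact inv_mul_eq_one.1 this

theorem rd_aux (H : SG) (g : FP) (k : ℕ) : ∃ h, g⁻¹ * h ∈ H ∧
    ∀ j < k, ∀ u ∈ H, (∀ i < j, u • i = i) → h • j ≤ h • u • j := by
  induction k with
  | zero => exact ⟨g, by simp, fun j hj => absurd hj (Nat.not_lt_zero j)⟩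
  | succ k ih =>
    obtain ⟨h, hh, hm⟩ := ih
    have ex : ∃ m : ℕ, ∃ u ∈ H, (∀ i < k, u • i = i) ∧ h • u • k = m :=
      ⟨_, 1, one_mem _, fun i _ => one_smul _ i, rfl⟩
    obtain ⟨u0, hu0, hf, he⟩ := Nat.find_spec ex
    refine ⟨h * u0, by rw [← mul_assoc]; exact mul_mem hh hu0, fun j hj u hu hfu => ?_⟩
    have hfix : ∀ i < j, (u0 * u) • i = i := fun i hi => by
      rw [mul_smul, hfu i hi, hf i (by omega)]
    rcases Nat.lt_succ_iff_lt_or_eq.1 hj with hj | rfl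
    · have := hm j hj _ (mul_mem hu0 hu) hfix
      rw [mul_smul, hf j hj, mul_smul, ← mul_smul u0]
      exact this
    · rw [mul_smul, he, mul_smul, ← mul_smul u0]
      exact Nat.find_min' ex ⟨_, mul_mem hu0 hu, hfix, rfl⟩

theorem rd_exists (H : Grp) (g : FP) : ∃ h, g⁻¹ * h ∈ H.1 ∧ Rd H.1 h := by
  obtain ⟨h, hh, hm⟩ := rd_aux H.1 g H.bd
  refine ⟨h, hh, fun k u hu hf => ?_⟩
  by_cases hk : k < H.bd
  · exact hm k hk u hu hf
  · rw [H.le_bd hu k (not_lt.1 hk)]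

theorem cm_mem {S : Set FP} (H : Grp) {x : FP} (_hx : x ∈ S) (hS : ∀ y, x⁻¹ * y ∈ H.1 → y ∈ S) :
    cm S H.1 ∈ S := by
  obtain ⟨h, hh, hr⟩ := rd_exists H x
  have ex : ∃ g ∈ S, Rd H.1 g := ⟨h, hS h hh, hr⟩
  rw [cm, dif_pos ex]
  exact ex.choose_spec.1

theorem cm_gen {H : Grp} {i j : ℕ} (h : ∃ h ∈ H.1, (∀ k < i, h • k = k) ∧ h • i = j) :
    cm {h | h ∈ H.1 ∧ (∀ k < i, h • k = k) ∧ h • i = j} (H.1 ⊓ fx {k | k ≤ i}) ∈
      {h | h ∈ H.1 ∧ (∀ k < i, h • k = k) ∧ h • i = j} := by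
  obtain ⟨x, hx, hf, he⟩ := h
  refine cm_mem (H.cut (fx {k | k ≤ i})) (x := x) ⟨hx, hf, he⟩ fun y hy => ?_
  have e : ∀ k ≤ i, y • k = x • k := fun k hk => by
    have := hy.2 k hk
    rwa [mul_smul, inv_smul_eq_iff] at this
  refine ⟨by simpa using mul_mem hx hy.1, fun k hk => by rw [e k hk.le, hf k hk], ?_⟩
  rw [e i le_rfl, he]

theorem mem_of_gens {H : Grp} {g : FP} (hg : g ∈ H.gens) : g ∈ H.1 := by
  simp only [Grp.gens, List.mem_flatMap, List.mem_map, List.mem_filter, decide_eq_true_eq] at hg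
  obtain ⟨i, -, j, ⟨-, -, hj⟩, rfl⟩ := hg
  exact (cm_gen hj).1

theorem gens_strong {H : Grp} {h : FP} {i : ℕ} (hh : h ∈ H.1) (hf : ∀ k < i, h • k = k)
    (hi : h • i ≠ i) : ∃ g ∈ H.gens, (∀ k < i, g • k = k) ∧ g • i = h • i := by
  have h1 : i < H.bd := by
    by_contra hc
    exact hi (H.le_bd hh i (not_lt.1 hc))
  have h2 : h • i < H.bd := (smul_lt (H.le_bd hh)).2 h1
  have h3 : i < h • i := by
    rcases lt_trichotomy i (h • i) with h0 | h0 | h0
    · exact h0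
    · exact absurd h0.symm hi
    · exact absurd ((smul_left_cancel_iff h).1 (hf _ h0)) hi
  have ex : ∃ g ∈ H.1, (∀ k < i, g • k = k) ∧ g • i = h • i := ⟨h, hh, hf, rfl⟩
  refine ⟨_, ?_, (cm_gen ex).2⟩
  simp only [Grp.gens, List.mem_flatMap, List.mem_map, List.mem_filter, decide_eq_true_eq,
    List.mem_range]
  exact ⟨i, h1, h • i, ⟨h2, h3, ex⟩, rfl⟩

theorem cl_aux (H : Grp) (d : ℕ) : ∀ i, H.bd ≤ i + d → ∀ h ∈ H.1, (∀ k < i, h • k = k) →
    h ∈ Subgroup.closure {x | x ∈ H.gens ∧ ∀ k < i, x • k = k} := by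
  induction d with
  | zero =>
    intro i hi h hh hf
    have : h = 1 := FP.ext fun x => by
      rw [one_smul]
      by_cases hx : x < i
      · exact hf x hx
      · exact H.le_bd hh x (show H.bd ≤ x by omega)
    rw [this]
    exact one_mem _
  | succ d ih =>
    intro i hi h hh hf
    have mono : Subgroup.closure {x | x ∈ H.gens ∧ ∀ k < i + 1, x • k = k} ≤
        Subgroup.closure {x | x ∈ H.gens ∧ ∀ k < i, x • k = k} :=
      Subgroup.closure_mono fun x hx => ⟨hx.1, fun k hk => hx.2 k (by omega)⟩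
    by_cases h0 : h • i = i
    · refine mono (ih (i + 1) (by omega) h hh fun k hk => ?_)
      rcases Nat.lt_succ_iff_lt_or_eq.1 hk with hk | rfl
      exacts [hf k hk, h0]
    · obtain ⟨g, hg, hgf, hgi⟩ := gens_strong hh hf h0
      have h1 := mono (ih (i + 1) (by omega) (g⁻¹ * h) (mul_mem (inv_mem (mem_of_gens hg)) hh)
        fun k hk => by
          rw [mul_smul, inv_smul_eq_iff]
          rcases Nat.lt_succ_iff_lt_or_eq.1 hk with hk | rfl
          · rw [hf k hk, hgf k hk]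
          · exact hgi.symm)
      have h2 : g ∈ Subgroup.closure {x | x ∈ H.gens ∧ ∀ k < i, x • k = k} :=
        Subgroup.subset_closure ⟨hg, hgf⟩
      simpa using mul_mem h2 h1

theorem closure_gens_fx (H : Grp) (i : ℕ) :
    Subgroup.closure {x | x ∈ H.gens ∧ ∀ k < i, x • k = k} = H.1 ⊓ fx {k | k < i} :=
  le_antisymm ((Subgroup.closure_le _).2 fun _ hx => ⟨mem_of_gens hx.1, hx.2⟩)
    fun h hh => cl_aux H H.bd i (Nat.le_add_left _ _) h hh.1 hh.2

theorem closure_gens (H : Grp) : Subgroup.closure {x | x ∈ H.gens} = H.1 :=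
  le_antisymm ((Subgroup.closure_le _).2 fun _ hx => mem_of_gens hx) fun h hh =>
    Subgroup.closure_mono (fun _ hx => hx.1)
      (cl_aux H H.bd 0 (Nat.le_add_left _ _) h hh fun k hk => absurd hk (Nat.not_lt_zero k))

theorem len_flat {α β : Type} (l : List α) (f : α → List β) (m : ℕ)
    (h : ∀ a, (f a).length ≤ m) : (l.flatMap f).length ≤ l.length * m := by
  induction l with
  | nil => simp
  | cons a l ih =>
    have := h a
    rw [List.flatMap_cons, List.length_append, List.length_cons, Nat.succ_mul]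
    omega

theorem length_gens (H : Grp) : H.gens.length ≤ H.bd * H.bd := by
  refine (len_flat _ _ H.bd fun i => ?_).trans (by rw [List.length_range])
  rw [List.length_map]
  exact (List.length_filter_le _ _).trans (by rw [List.length_range])

theorem mem_of_grp {C : Cos} {x y : FP} (hx : x ∈ C) (hy : x⁻¹ * y ∈ C.grp.1) : y ∈ C := by
  rcases Cos.mem_grp.1 hy with h | ⟨a, ha, b, hb, h⟩
  · rwa [← inv_mul_eq_one.1 h]
  · have : y = x * a⁻¹ * b := by rw [mul_assoc, ← h, mul_inv_cancel_left]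
    rw [this]
    exact C.2.2 x hx a ha b hb

theorem rep_mem {C : Cos} {x : FP} (hx : x ∈ C) : C.rep ∈ C :=
  cm_mem (S := C.1) C.grp hx fun _ hy => mem_of_grp hx hy

theorem rep_emp {C : Cos} (h : C.isE = true) : C.rep = 1 :=
  dif_neg fun ⟨g, hg, _⟩ => Cos.isE_iff.1 h g hg

theorem grp_emp {C : Cos} (h : C.isE = true) : C.grp = Grp.bot := by
  refine Grp.ext (eq_bot_iff.2 fun x hx => ?_)
  rcases Cos.mem_grp.1 hx with h1 | ⟨a, ha, -⟩
  · exact h1
  · exact absurd ha (Cos.isE_iff.1 h a)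

theorem eq_emp {C : Cos} (h : C.isE = true) : C = Cos.emp :=
  Cos.ext fun x => iff_of_false (Cos.isE_iff.1 h x) (Cos.not_mem_emp x)

theorem mem_cos {C : Cos} {x : FP} (h : C.isE = false) : x ∈ C ↔ C.rep⁻¹ * x ∈ C.grp.1 := by
  obtain ⟨y, hy⟩ := Cos.isE_false.1 h
  exact ⟨fun hx => Cos.mem_grp.2 (Or.inr ⟨_, rep_mem hy, x, hx, rfl⟩), mem_of_grp (rep_mem hy)⟩

theorem grp_lc (g : FP) (H : Grp) : (Cos.lc g H).grp = H := by
  refine Grp.ext (Subgroup.ext fun h => ⟨fun hh => ?_, fun hh => ?_⟩)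
  · rcases Cos.mem_grp.1 hh with rfl | ⟨a, ha, b, hb, rfl⟩
    · exact one_mem _
    · simpa [mul_assoc] using mul_mem (inv_mem (Cos.mem_lc.1 ha)) (Cos.mem_lc.1 hb)
  · exact Cos.mem_grp.2 (Or.inr ⟨g, by simp, g * h, by simpa using hh, by simp⟩)

theorem grp_le {C : Cos} {K : SG} (h : ∀ x ∈ C, x ∈ K) : C.grp.1 ≤ K := fun x hx => by
  rcases Cos.mem_grp.1 hx with rfl | ⟨a, ha, b, hb, rfl⟩
  · exact one_mem _
  · exact mul_mem (inv_mem (h a ha)) (h b hb)

theorem rep_mem_of {C : Cos} {K : SG} (h : ∀ x ∈ C, x ∈ K) : C.rep ∈ K := by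
  cases hC : C.isE
  · obtain ⟨y, hy⟩ := Cos.isE_false.1 hC
    exact h _ (rep_mem hy)
  · rw [rep_emp hC]; exact one_mem _

theorem sz_gens [K1] {n : ℕ} {H : Grp} (h : H.1 ≤ Sy n) :
    sz H ≤ n * n * (2 * (n * (2 * n + 1)) + 1) := by
  have h1 : sz H.gens ≤ _ := sz_le_of_forall fun g hg => K1.sz_FP (h (mem_of_gens hg))
  have h2 := Grp.bd_le.2 h
  exact h1.trans (Nat.mul_le_mul_right _ ((length_gens H).trans (Nat.mul_le_mul h2 h2)))

theorem le_Sy_iff {H : Grp} {n : ℕ} : H.bd ≤ n ↔ ∀ g ∈ H.gens, bd g ≤ n := by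
  rw [Grp.bd_le]
  refine ⟨fun h g hg => bd_le.2 (h (mem_of_gens hg)), fun h => ?_⟩
  rw [← closure_gens, Subgroup.closure_le]
  exact fun g hg => bd_le.1 (h g hg)

theorem gbd_le_sz [K1] (H : Grp) : H.bd ≤ sz H :=
  le_Sy_iff.2 fun g hg => (K1.bd_le_sz g).trans (sz_le_of_mem hg)

theorem pt_gens : PT Grp.gens := Comp.refl _

theorem pt_toL : PT Cos.toL := Comp.refl _

theorem pt_gbd [K1] : PT Grp.bd := by
  have h1 : PT fun p : Grp × ℕ => p.1.gens.any fun g => Nat.blt p.2 (bd g) :=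
    PT.any (f := fun (p : Grp × ℕ) (g : FP) => Nat.blt p.2 (bd g))
      (PT.blt (PT.snd (PT.fst PT.id')) (K1.pt_bd.comp (PT.snd PT.id')))
      (pt_gens.comp (PT.fst PT.id'))
  have h2 := K1.pt_card.comp (K1.pt_fil (n := fun H : Grp => sz H)
    (f := fun (H : Grp) (x : ℕ) => H.gens.any fun g => Nat.blt x (bd g)) (PT.sz' PT.id') h1)
  refine h2.congr fun H => ?_
  rw [← Finset.card_range H.bd]
  congr 1
  ext x
  have h3 := gbd_le_sz H
  have h4 : x < H.bd ↔ ∃ g ∈ H.gens, x < bd g := by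
    rw [← not_le, le_Sy_iff]
    simp
  simp only [mem_fil, List.any_eq_true, Nat.blt_eq, Finset.mem_range, ← h4]
  omega

theorem head_toL (C : Cos) : C.toL.headD (Grp.bot, 1) = (C.grp, C.rep) := by
  cases hC : C.isE
  · simp [Cos.toL, hC]
  · simp [Cos.toL, hC, rep_emp hC, grp_emp hC]

end KGp

open KGp in
theorem b_kg [K1] : KG where
  closure_gens := closure_gens
  mem_of_gens := mem_of_gens
  gens_strong := gens_strong
  closure_gens_fx := closure_gens_fx
  length_gens := length_gens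
  rd_unique := rd_unique
  rd_exists := rd_exists
  rep_mem := rep_mem
  rep_emp := rep_emp
  grp_emp := grp_emp
  eq_emp := eq_emp
  mem_cos := mem_cos
  grp_lc := grp_lc
  grp_le := grp_le
  rep_mem_of := rep_mem_of
  tr_mem := fun _ _ _ => rep_mem_of fun _ hx => (mem_trC.1 hx).1
  tr_smul := fun ⟨_, hh, he⟩ => (mem_trC.1 (rep_mem (mem_trC.2 ⟨hh, he⟩))).2
  sz_Grp := fun {n H} h => (sz_gens h).trans (by unfold SB; ring_nf; omega)
  gbd_le_sz := gbd_le_sz
  sz_Cos := fun {n C} h => by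
    have h1 := sz_gens (grp_le h)
    have h2 := K1.sz_FP (rep_mem_of h)
    have h3 : sz C ≤ 2 * (2 * sz C.grp + 1 + sz C.rep) + 1 := by
      show sz C.toL ≤ _
      cases hC : C.isE <;> simp [Cos.toL, hC]
    refine h3.trans ?_
    unfold SB
    ring_nf at h1 h2 ⊢
    omega
  pt_gens := pt_gens
  pt_gbd := pt_gbd
  pt_isE := (PT.isEmpty pt_toL).congr fun C => by cases hC : C.isE <;> simp [Cos.toL, hC]
  pt_crep := (PT.snd (PT.headD pt_toL (PT.const (Grp.bot, 1)))).congr fun C => by rw [head_toL]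
  pt_grp := (PT.fst (PT.headD pt_toL (PT.const (Grp.bot, 1)))).congr fun C => by rw [head_toL]

end

end Pool.Agent.Lib.E5
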