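import Pool.Agent.Lib.E5.Spec

/-! E5, block KR: the recursion rule, run on a machine with a task stack and a value stack. -/

namespace Pool.Agent.Lib.E5

open Equiv Pool.Agent.Lib.helper80 Pool.Agent.Lib.MP_e519cf_lc Polynomial Function

noncomputable section
open Classical

namespace KRb

section Run
variable {σ : Type} [Enc σ] {f : σ → σ} {B : ℕ}

/-- `f` leads from `s` to `t` in at most `K` steps, growing by at most `B` in each step. -/
def Rn (f : σ → σ) (B K : ℕ) (s t : σ) : Prop :=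
  ∃ k, k ≤ K ∧ f^[k] s = t ∧ ∀ i, i ≤ k → sz (f^[i] s) ≤ sz s + i * B

theorem Rn.refl (s : σ) : Rn f B 0 s s :=
  ⟨0, le_rfl, rfl, fun i hi => by obtain rfl : i = 0 := by omega
                                  simp⟩

theorem Rn.one {s t : σ} (e : f s = t) (h : sz t ≤ sz s + B) : Rn f B 1 s t :=
  ⟨1, le_rfl, e, fun i hi => by
    obtain rfl | rfl : i = 0 ∨ i = 1 := by omega
    · simp
    · simpa [e] using h⟩

theorem Rn.mono {K L : ℕ} {s t : σ} (h : Rn f B K s t) (hl : K ≤ L) : Rn f B L s t := by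
  obtain ⟨k, h1, h2, h3⟩ := h
  exact ⟨k, h1.trans hl, h2, h3⟩

theorem Rn.trans {K L : ℕ} {s t u : σ} (h : Rn f B K s t) (h' : Rn f B L t u) :
    Rn f B (K + L) s u := by
  obtain ⟨k, h1, h2, h3⟩ := h
  obtain ⟨l, g1, g2, g3⟩ := h'
  refine ⟨l + k, by omega, by rw [iterate_add_apply, h2, g2], fun i hi => ?_⟩
  by_cases hk : i ≤ k
  · exact h3 i hk
  · obtain ⟨j, rfl⟩ : ∃ j, i = j + k := ⟨i - k, by omega⟩
    have a1 := g3 j (by omega)
    have a2 := h3 k le_rfl
    rw [h2] at a2
    rw [iterate_add_apply, h2, add_mul]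
    omega

theorem Rn.fin {K : ℕ} {s t : σ} (h : Rn f B K s t) (e : f t = t) :
    (∀ n, K ≤ n → f^[n] s = t) ∧ ∀ i, sz (f^[i] s) ≤ sz s + K * B := by
  obtain ⟨k, h1, h2, h3⟩ := h
  have key : ∀ n, k ≤ n → f^[n] s = t := fun n hn => by
    obtain ⟨j, rfl⟩ : ∃ j, n = j + k := ⟨n - k, by omega⟩
    rw [iterate_add_apply, h2, iterate_fixed e]
  refine ⟨fun n hn => key n (h1.trans hn), fun i => ?_⟩
  by_cases hk : i ≤ k
  · exact (h3 i hk).trans (by gcongr; omega)
  · rw [key i (by omega), ← h2]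
    exact (h3 k le_rfl).trans (by gcongr)

end Run

variable {α β : Type} [Enc α] [Enc β]

/-- States: the input, the task stack, the value stack. -/
abbrev St (α β : Type) : Type := α × List (ℕ × α) × List (List β)

/-- One step of the machine. -/
def stp (c1 : α → List α) (c2 : α × List β → List α) (out : α × List β × List β → β)
    (s : St α β) : St α β :=
  bif s.2.1.isEmpty then s else
    bif Nat.beq (s.2.1.headD (0, s.1)).1 0 then
      (s.1, ((c1 (s.2.1.headD (0, s.1)).2).map fun b => (0, b)) ++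
        (1, (s.2.1.headD (0, s.1)).2) :: s.2.1.tail, [] :: s.2.2)
    else bif Nat.beq (s.2.1.headD (0, s.1)).1 1 then
      (s.1, ((c2 ((s.2.1.headD (0, s.1)).2, s.2.2.headD [])).map fun b => (0, b)) ++
        (2, (s.2.1.headD (0, s.1)).2) :: s.2.1.tail, [] :: s.2.2)
    else
      (s.1, s.2.1.tail, (s.2.2.tail.tail.headD [] ++
        [out ((s.2.1.headD (0, s.1)).2, s.2.2.tail.headD [], s.2.2.headD [])]) ::
          s.2.2.tail.tail.tail)

theorem ot_stp [KO] {c1 : α → List α} {c2 : α × List β → List α}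
    {out : α × List β × List β → β} (h1 : OT c1) (h2 : OT c2) (h3 : OT out) :
    OT (stp c1 c2 out) := by
  have hd : PT fun s : St α β => (s.2.1.headD (0, s.1)).2 := by fun_prop
  have tg : PT fun l : List α => l.map fun b => ((0 : ℕ), b) := by fun_prop
  have e1 : OT fun s : St α β => (c1 (s.2.1.headD (0, s.1)).2).map fun b => ((0 : ℕ), b) :=
    OT.comp (OT.of_pt tg) (OT.comp h1 (OT.of_pt hd))
  have e2 : OT fun s : St α β =>
      (c2 ((s.2.1.headD (0, s.1)).2, s.2.2.headD [])).map fun b => ((0 : ℕ), b) :=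
    OT.comp (OT.of_pt tg) (OT.comp h2 (OT.of_pt (by fun_prop)))
  have e3 : OT fun s : St α β =>
      out ((s.2.1.headD (0, s.1)).2, s.2.2.tail.headD [], s.2.2.headD []) :=
    OT.comp h3 (OT.of_pt (by fun_prop))
  refine OT.cond (OT.of_pt (by fun_prop)) OT.id' (OT.cond (OT.of_pt (by fun_prop)) ?_
    (OT.cond (OT.of_pt (by fun_prop)) ?_ ?_))
  · exact OT.comp (f := fun p : St α β × List (ℕ × α) => ((p.1.1, p.2 ++
      (1, (p.1.2.1.headD (0, p.1.1)).2) :: p.1.2.1.tail, [] :: p.1.2.2) : St α β))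
      (OT.of_pt (by fun_prop)) (OT.prodMk OT.id' e1)
  · exact OT.comp (f := fun p : St α β × List (ℕ × α) => ((p.1.1, p.2 ++
      (2, (p.1.2.1.headD (0, p.1.1)).2) :: p.1.2.1.tail, [] :: p.1.2.2) : St α β))
      (OT.of_pt (by fun_prop)) (OT.prodMk OT.id' e2)
  · exact OT.comp (f := fun p : St α β × β => ((p.1.1, p.1.2.1.tail,
      (p.1.2.2.tail.tail.headD [] ++ [p.2]) :: p.1.2.2.tail.tail.tail) : St α β))
      (OT.of_pt (by fun_prop)) (OT.prodMk OT.id' e3)

omit [Enc α] in
theorem length_le_cost (c : α → ℕ) (l : List α) : l.length ≤ (l.map fun b => c b + 1).sum := by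
  induction l with
  | nil => simp
  | cons b t ih => simp only [List.length_cons, List.map_cons, List.sum_cons]; omega

omit [Enc α] in
theorem lt_cost (c : α → ℕ) {l : List α} {b : α} (h : b ∈ l) :
    c b < (l.map fun b => c b + 1).sum :=
  List.single_le_sum (by simp) (c b + 1) (List.mem_map.2 ⟨b, h, rfl⟩)

theorem sz_tasks {M : ℕ} {l : List α} (h1 : l.length ≤ M) (h2 : ∀ b ∈ l, sz b ≤ M) :
    sz (l.map fun b => ((0 : ℕ), b)) ≤ M * (2 * (1 + M) + 1) := by
  refine (sz_le_of_forall (m := 1 + M) fun x hx => ?_).trans ?_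
  · obtain ⟨b, hb, rfl⟩ := List.mem_map.1 hx
    have := h2 b hb
    simp only [sz_pair, sz_nat]
    omega
  · rw [List.length_map]; gcongr

theorem run_list {f : St α β → St α β} {B : ℕ} {F : α → β} {c : α → ℕ} {a0 : α} (l : List α)
    (h : ∀ b ∈ l, ∀ T L S, Rn f B (3 * (c b + 1)) (a0, (0, b) :: T, L :: S)
      (a0, T, (L ++ [F b]) :: S)) (T : List (ℕ × α)) (L : List β) (S : List (List β)) :
    Rn f B (3 * (l.map fun b => c b + 1).sum) (a0, (l.map fun b => (0, b)) ++ T, L :: S)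
      (a0, T, (L ++ l.map F) :: S) := by
  induction l generalizing L with
  | nil => simpa using Rn.refl _
  | cons b t ih =>
    have := (h b (by simp) ((t.map fun b => (0, b)) ++ T) L S).trans
      (ih (fun x hx => h x (by simp [hx])) (L ++ [F b]))
    simpa [mul_add] using this

theorem run_one {c1 : α → List α} {c2 : α × List β → List α} {out : α × List β × List β → β}
    {W : α → Prop} {F : α → β} {c : α → ℕ} {M : ℕ} (a0 : α)
    (h : ∀ a, W a → (∀ b ∈ c1 a ++ c2 (a, (c1 a).map F), W b) ∧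
      ((c1 a ++ c2 (a, (c1 a).map F)).map fun b => c b + 1).sum ≤ c a ∧
      out (a, (c1 a).map F, (c2 (a, (c1 a).map F)).map F) = F a)
    (hM : ∀ a, W a → sz a ≤ M ∧ sz (F a) ≤ M ∧ c a ≤ M) (m : ℕ) :
    ∀ a, W a → c a < m → ∀ T L S,
      Rn (stp c1 c2 out) (2 * (M * (2 * (1 + M) + 1)) + 4 * M + 9) (3 * (c a + 1))
        (a0, (0, a) :: T, L :: S) (a0, T, (L ++ [F a]) :: S) := by
  induction m with
  | zero => intro a _ ha; omega
  | succ m ih =>
    intro a ha hm T L S
    obtain ⟨h1, h2, h3⟩ := h a ha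
    obtain ⟨m1, m2, m3⟩ := hM a ha
    have hb : ∀ b ∈ c1 a ++ c2 (a, (c1 a).map F), c b < m := fun b hb => by
      have := lt_cost c hb
      omega
    rw [List.map_append, List.sum_append] at h2
    have l1 := length_le_cost c (c1 a)
    have l2 := length_le_cost c (c2 (a, (c1 a).map F))
    have s1 := sz_tasks (M := M) (l := c1 a) (by omega)
      fun b hb => (hM b (h1 b (List.mem_append_left _ hb))).1
    have s2 := sz_tasks (M := M) (l := c2 (a, (c1 a).map F)) (by omega)
      fun b hb => (hM b (h1 b (List.mem_append_right _ hb))).1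
    have r1 := run_list (c1 a) (fun b hb' => ih b (h1 b (List.mem_append_left _ hb'))
      (hb b (List.mem_append_left _ hb'))) ((1, a) :: T) [] (L :: S)
    have r2 := run_list (c2 (a, (c1 a).map F)) (fun b hb' => ih b
      (h1 b (List.mem_append_right _ hb')) (hb b (List.mem_append_right _ hb'))) ((2, a) :: T) []
      ((c1 a).map F :: L :: S)
    rw [List.nil_append] at r1 r2
    refine ((((Rn.one rfl ?_).trans r1).trans ((Rn.one rfl ?_).trans r2)).trans
      (Rn.one (by rw [← h3]; rfl) ?_)).mono (by omega)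
    · show sz ((a0, ((c1 a).map fun b => (0, b)) ++ (1, a) :: T, [] :: L :: S) : St α β) ≤ _
      simp only [sz_pair, sz_append, sz_cons, sz_nat, sz_nil]
      omega
    · show sz ((a0, ((c2 (a, (c1 a).map F)).map fun b => (0, b)) ++ (2, a) :: T,
        [] :: (c1 a).map F :: L :: S) : St α β) ≤ _
      simp only [sz_pair, sz_append, sz_cons, sz_nat, sz_nil]
      omega
    · simp only [sz_pair, sz_append, sz_cons, sz_nat, sz_nil]
      omega

theorem rec2 [K1] [KO] {V : α → Prop} {F : α → β} {N c : α → ℕ} (P : ℕ[X])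
    (h : Node V F N c (fun _ => True)) (hP : ∀ a, V a → N a ≤ sz a ∧ sz a ≤ P.eval (N a) ∧
      sz (F a) ≤ P.eval (N a) ∧ c a ≤ P.eval (N a)) : ∃ g, OT g ∧ ∀ a, V a → g a = F a := by
  obtain ⟨c1, c2, out, h1, h2, h3, h4⟩ := h
  have key : ∀ a, V a → Rn (stp c1 c2 out)
      (2 * (P.eval (sz a) * (2 * (1 + P.eval (sz a)) + 1)) + 4 * P.eval (sz a) + 9)
      (3 * (P.eval (sz a) + 1)) (a, [(0, a)], [[]]) (a, [], [[F a]]) := fun a ha => by
    have hc := (hP a ha).2.2.2.trans (eval_mono P (hP a ha).1)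
    refine (run_one (W := fun b => V b ∧ N b ≤ sz a) (c := c) a (fun b hb => ?_) (fun b hb => ?_)
      (c a + 1) a ⟨ha, (hP a ha).1⟩ (by omega) [] [] []).mono (by omega)
    · obtain ⟨g1, g2, g3⟩ := h4 b hb.1 trivial
      exact ⟨fun x hx => ⟨(g1 x hx).1, (g1 x hx).2.trans hb.2⟩, g2, g3⟩
    · obtain ⟨-, g1, g2, g3⟩ := hP b hb.1
      have := eval_mono P hb.2
      omega
  have ht : PT fun a : α => P.eval (sz a) := PT.comp (K1.pt_eval P) (PT.sz' PT.id')
  obtain ⟨g, hg, e⟩ := KO.ot_iter (s := fun a : α => ((a, [(0, a)], [[]]) : St α β))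
    (n := fun a => 3 * (P.eval (sz a) + 1)) V
    (6 * X + 9 + 3 * (P + 1) * (2 * (P * (2 * (1 + P) + 1)) + 4 * P + 9)) (ot_stp h1 h2 h3)
    (OT.of_pt (by fun_prop)) (OT.of_pt (by fun_prop)) fun a ha i _ => by
      refine (((key a ha).fin rfl).2 i).trans (le_of_eq ?_)
      simp only [eval_add, eval_mul, eval_ofNat, eval_one, eval_X, sz_pair, sz_cons, sz_nat, sz_nil]
      ring
  refine ⟨fun a => ((g a).2.2.headD []).headD (out (a, [], [])),
    OT.comp (f := fun p : St α β × β => (p.1.2.2.headD []).headD p.2) (OT.of_pt (by fun_prop))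
      (OT.prodMk hg (OT.comp h3 (OT.of_pt (by fun_prop)))), fun a ha => ?_⟩
  show ((g a).2.2.headD []).headD (out (a, [], [])) = F a
  rw [e a ha, ((key a ha).fin rfl).1 _ le_rfl]
  rfl

theorem node_cond [KO] {V U : α → Prop} {F : α → β} {N c : α → ℕ} {b : α → Bool} (hb : OT b)
    (h : Node V F N c (fun a => U a ∧ b a = true))
    (h' : Node V F N c (fun a => U a ∧ b a = false)) : Node V F N c U := by
  obtain ⟨c1, c2, out, h1, h2, h3, h4⟩ := h
  obtain ⟨d1, d2, out', g1, g2, g3, g4⟩ := h'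
  refine ⟨fun a => bif b a then c1 a else d1 a, fun p => bif b p.1 then c2 p else d2 p,
    fun p => bif b p.1 then out p else out' p, OT.cond hb h1 g1,
    OT.cond (OT.comp hb (OT.fst OT.id')) h2 g2, OT.cond (OT.comp hb (OT.fst OT.id')) h3 g3,
    fun a ha hu => ?_⟩
  cases e : b a
  · simpa only [e, cond_false] using g4 a ha ⟨hu, e⟩
  · simpa only [e, cond_true] using h4 a ha ⟨hu, e⟩

theorem node_mono {V U U' : α → Prop} {F : α → β} {N c : α → ℕ} (h : Node V F N c U')
    (hu : ∀ a, V a → U a → U' a) : Node V F N c U := by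
  obtain ⟨c1, c2, out, h1, h2, h3, h4⟩ := h
  exact ⟨c1, c2, out, h1, h2, h3, fun a ha h => h4 a ha (hu a ha h)⟩

theorem node_list [KO] {V U : α → Prop} {F : α → β} {N c : α → ℕ} {s : α → List α}
    {out : α × List β → β} (hs : OT s) (ho : OT out)
    (h : ∀ a, V a → U a → (∀ b ∈ s a, V b ∧ N b ≤ N a) ∧
      ((s a).map fun b => c b + 1).sum ≤ c a ∧ out (a, (s a).map F) = F a) : Node V F N c U :=
  ⟨s, fun _ => [], fun p => out (p.1, p.2.1), hs, OT.const _,
    OT.comp ho (OT.of_pt (by fun_prop)), fun a ha hu => by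
      simpa only [List.append_nil] using h a ha hu⟩

theorem node_leaf [KO] {V U : α → Prop} {F g : α → β} {N c : α → ℕ} (hg : OT g)
    (h : ∀ a, V a → U a → g a = F a) : Node V F N c U :=
  node_list (s := fun _ => []) (out := fun p => g p.1) (OT.const _) (OT.comp hg (OT.fst OT.id'))
    fun a ha hu => ⟨by simp, by simp, h a ha hu⟩

theorem node_one [KO] {V U : α → Prop} {F : α → Cos} {N c : α → ℕ} {s : α → α}
    {out : α × Cos → Cos} (hs : OT s) (ho : OT out)
    (h : ∀ a, V a → U a → V (s a) ∧ N (s a) ≤ N a ∧ c (s a) + 1 ≤ c a ∧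
      out (a, F (s a)) = F a) : Node V F N c U :=
  node_list (s := fun a => [s a]) (out := fun p => out (p.1, p.2.headD Cos.emp))
    (OT.comp (f := fun a : α => [a]) (OT.of_pt (by fun_prop)) hs)
    (OT.comp ho (OT.of_pt (by fun_prop))) fun a ha hu => by
      obtain ⟨h1, h2, h3, h4⟩ := h a ha hu
      exact ⟨by simpa using ⟨h1, h2⟩, by simpa using h3, h4⟩

theorem node_two [KG] [KO] {V U : α → Prop} {F : α → Cos} {N c : α → ℕ} {s : α → α}
    {t : α × Cos → α} {out : α × Cos × Cos → Cos} (hs : OT s) (ht : OT t) (ho : OT out)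
    (h : ∀ a, V a → U a → V (s a) ∧ N (s a) ≤ N a ∧
      ((F (s a)).isE = true → c (s a) + 1 ≤ c a ∧ F a = Cos.emp) ∧
      ((F (s a)).isE = false → V (t (a, F (s a))) ∧ N (t (a, F (s a))) ≤ N a ∧
        c (s a) + 1 + (c (t (a, F (s a))) + 1) ≤ c a ∧
        out (a, F (s a), F (t (a, F (s a)))) = F a)) : Node V F N c U := by
  refine ⟨fun a => [s a],
    fun p => bif (p.2.headD Cos.emp).isE then [] else [t (p.1, p.2.headD Cos.emp)],
    fun p => bif (p.2.1.headD Cos.emp).isE then Cos.emp else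
      out (p.1, p.2.1.headD Cos.emp, p.2.2.headD Cos.emp),
    OT.comp (f := fun a : α => [a]) (OT.of_pt (by fun_prop)) hs,
    OT.cond (OT.of_pt (by fun_prop)) (OT.const _)
      (OT.comp (f := fun a : α => [a]) (OT.of_pt (by fun_prop))
        (OT.comp ht (OT.of_pt (by fun_prop)))),
    OT.cond (OT.of_pt (by fun_prop)) (OT.const _) (OT.comp ho (OT.of_pt (by fun_prop))),
    fun a ha hu => ?_⟩
  obtain ⟨h1, h2, h3, h4⟩ := h a ha hu
  simp only [List.map_cons, List.map_nil, List.headD_cons]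
  cases e : (F (s a)).isE
  · obtain ⟨g1, g2, g3, g4⟩ := h4 e
    simp only [cond_false, List.map_cons, List.map_nil, List.headD_cons]
    exact ⟨by simpa using ⟨⟨h1, h2⟩, g1, g2⟩, by simpa using g3, g4⟩
  · obtain ⟨g1, g2⟩ := h3 e
    simp only [cond_true]
    exact ⟨by simpa using ⟨h1, h2⟩, by simpa using g1, g2.symm⟩

end KRb

theorem b_kr [K1] [KG] [KO] : KR where
  rec2 := KRb.rec2
  node_cond := KRb.node_cond
  node_mono := KRb.node_mono
  node_leaf := KRb.node_leaf
  node_list := KRb.node_list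
  node_one := KRb.node_one
  node_two := KRb.node_two

end

end Pool.Agent.Lib.E5
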