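import Pool.Agent.Lib.E5.Spec

/-! E5, block M1: conjugation, products, commutators. -/

namespace Pool.Agent.Lib.E5

open Equiv Pool.Agent.Lib.helper80 Pool.Agent.Lib.MP_e519cf_lc Polynomial

noncomputable section
open Classical

namespace BM1

theorem cj_eq (g : FP) (H : SG) : cj g H = (MulAut.conj g).mapSubgroup H := by
  ext x
  rw [mem_cj]
  constructor
  · intro h
    exact ⟨_, h, by simp [mul_assoc]⟩
  · rintro ⟨y, hy, rfl⟩
    simpa [mul_assoc] using hy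

theorem cj_map (g : FP) (H : SG) : cj g H = H.map (MulAut.conj g).toMonoidHom := cj_eq g H

theorem cj_one (H : SG) : cj 1 H = H := by ext x; simp

theorem cj_mul (g h : FP) (H : SG) : cj (g * h) H = cj g (cj h H) := by
  ext x; simp [mul_assoc]

theorem cj_inv_cj (g : FP) (H : SG) : cj g⁻¹ (cj g H) = H := by
  rw [← cj_mul, inv_mul_cancel, cj_one]

theorem cj_cj_inv (g : FP) (H : SG) : cj g (cj g⁻¹ H) = H := by
  rw [← cj_mul, mul_inv_cancel, cj_one]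

theorem cj_sup (g : FP) (A B : SG) : cj g (A ⊔ B) = cj g A ⊔ cj g B := by
  simp only [cj_eq, OrderIso.map_sup]

theorem cj_inf (g : FP) (A B : SG) : cj g (A ⊓ B) = cj g A ⊓ cj g B := by
  simp only [cj_eq, OrderIso.map_inf]

theorem cj_comm (g : FP) (A B : SG) : cj g ⁅A, B⁆ = ⁅cj g A, cj g B⁆ := by
  simp only [cj_map, Subgroup.map_commutator]

theorem cj_le_cj {g : FP} {A B : SG} : cj g A ≤ cj g B ↔ A ≤ B := by
  simp only [cj_eq, OrderIso.le_iff_le]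

theorem cj_of_nm {L D : SG} {l : FP} (h : Nm L D) (hl : l ∈ L) : cj l D = D := by
  ext x
  rw [mem_cj]
  constructor
  · intro hx
    simpa [mul_assoc] using h l hl _ hx
  · intro hx
    simpa using h l⁻¹ (inv_mem hl) _ hx

theorem nm_of_cj {L D : SG} (h : ∀ l ∈ L, cj l D = D) : Nm L D := by
  intro l hl d hd
  rw [← h l hl, mem_cj]
  simpa [mul_assoc] using hd

theorem nm_of_le {L D : SG} (h : L ≤ D) : Nm L D := fun _ hl _ hd =>
  mul_mem (mul_mem (h hl) hd) (inv_mem (h hl))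

theorem nm_closure {S : Set FP} {D : SG} (h : ∀ l ∈ S, cj l D = D) :
    Nm (Subgroup.closure S) D := by
  refine nm_of_cj fun l hl => ?_
  induction hl using Subgroup.closure_induction with
  | mem x hx => exact h x hx
  | one => exact cj_one D
  | mul x y _ _ hx hy => rw [cj_mul, hy, hx]
  | inv x _ hx =>
    have := cj_inv_cj x D
    rwa [hx] at this

theorem nm_sup_left {A B D : SG} (ha : Nm A D) (hb : Nm B D) : Nm (A ⊔ B) D := by
  rw [← Subgroup.closure_eq A, ← Subgroup.closure_eq B, ← Subgroup.closure_union]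
  refine nm_closure ?_
  rintro l (hl | hl)
  · exact cj_of_nm ha hl
  · exact cj_of_nm hb hl

theorem nm_inv {L D : SG} (h : Nm L D) {l d : FP} (hl : l ∈ L) (hd : d ∈ D) :
    l⁻¹ * d * l ∈ D := by
  simpa using h l⁻¹ (inv_mem hl) d hd

theorem mem_sup_nm {A B : SG} {x : FP} (h : Nm A B) :
    x ∈ A ⊔ B ↔ ∃ a ∈ A, ∃ b ∈ B, x = a * b := by
  constructor
  · intro hx
    let P : SG :=
      { carrier := {x | ∃ a ∈ A, ∃ b ∈ B, x = a * b}
        one_mem' := ⟨1, one_mem _, 1, one_mem _, by simp⟩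
        mul_mem' := by
          rintro _ _ ⟨a, ha, b, hb, rfl⟩ ⟨c, hc, d, hd, rfl⟩
          exact ⟨a * c, mul_mem ha hc, c⁻¹ * b * c * d, mul_mem (nm_inv h hc hb) hd, by group⟩
        inv_mem' := by
          rintro _ ⟨a, ha, b, hb, rfl⟩
          exact ⟨a⁻¹, inv_mem ha, a * b⁻¹ * a⁻¹, h a ha _ (inv_mem hb), by group⟩ }
    have : A ⊔ B ≤ P := sup_le (fun a ha => ⟨a, ha, 1, one_mem _, by simp⟩)
      (fun b hb => ⟨1, one_mem _, b, hb, by simp⟩)
    exact this hx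
  · rintro ⟨a, ha, b, hb, rfl⟩
    exact Subgroup.mul_mem_sup ha hb

theorem mem_sup_nm' {A B : SG} {x : FP} (h : Nm B A) :
    x ∈ A ⊔ B ↔ ∃ a ∈ A, ∃ b ∈ B, x = a * b := by
  constructor
  · intro hx
    rw [sup_comm, mem_sup_nm h] at hx
    obtain ⟨b, hb, a, ha, rfl⟩ := hx
    exact ⟨b * a * b⁻¹, h b hb a ha, b, hb, by group⟩
  · rintro ⟨a, ha, b, hb, rfl⟩
    exact Subgroup.mul_mem_sup ha hb

theorem pow_mul_nm {X Y : SG} (h : Nm X Y) {a y : FP} (ha : a ∈ X) (hy : y ∈ Y) (k : ℕ) :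
    ∃ z ∈ Y, (a * y) ^ k = a ^ k * z := by
  induction k with
  | zero => exact ⟨1, one_mem _, by simp⟩
  | succ k ih =>
    obtain ⟨z, hz, e⟩ := ih
    exact ⟨a⁻¹ * z * a * y, mul_mem (nm_inv h ha hz) hy, by rw [pow_succ, e, pow_succ]; group⟩

theorem comm_id (r d s e : FP) : r * d * (s * e) * (r * d)⁻¹ * (s * e)⁻¹ =
    (r * d * r⁻¹) * (r * s * r⁻¹ * s⁻¹) * ((s * r) * (e * d⁻¹) * (s * r)⁻¹) * (s * e⁻¹ * s⁻¹) := by
  group

theorem ea_sup {p : ℕ} {X D Y : SG} (h : EA p X D) (hn : Nm X Y) (hd : D ≤ Y) :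
    EA p (X ⊔ Y) Y := by
  refine ⟨le_sup_right, fun a ha b hb => ?_, fun a ha => ?_⟩
  · obtain ⟨r, hr, d, hd', rfl⟩ := (mem_sup_nm hn).1 ha
    obtain ⟨s, hs, e, he, rfl⟩ := (mem_sup_nm hn).1 hb
    rw [comm_id]
    exact mul_mem (mul_mem (mul_mem (hn r hr d hd') (hd (h.2.1 r hr s hs)))
      (hn _ (mul_mem hs hr) _ (mul_mem he (inv_mem hd')))) (hn s hs _ (inv_mem he))
  · obtain ⟨r, hr, d, hd', rfl⟩ := (mem_sup_nm hn).1 ha
    obtain ⟨z, hz, e⟩ := pow_mul_nm hn hr hd' p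
    rw [e]
    exact mul_mem (hd (h.2.2 r hr)) hz

theorem comm_left {S : Set FP} {D : SG} (hn : Nm (Subgroup.closure S) D) {b : FP}
    (h : ∀ a ∈ S, a * b * a⁻¹ * b⁻¹ ∈ D) :
    ∀ a ∈ Subgroup.closure S, a * b * a⁻¹ * b⁻¹ ∈ D := by
  intro a ha
  induction ha using Subgroup.closure_induction with
  | mem x hx => exact h x hx
  | one => simp
  | mul x y hx _ ix iy =>
    have e : x * y * b * (x * y)⁻¹ * b⁻¹ =
        x * (y * b * y⁻¹ * b⁻¹) * x⁻¹ * (x * b * x⁻¹ * b⁻¹) := by group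
    rw [e]
    exact mul_mem (hn x hx _ iy) ix
  | inv x hx ix =>
    have e : x⁻¹ * b * x⁻¹⁻¹ * b⁻¹ = x⁻¹ * (x * b * x⁻¹ * b⁻¹)⁻¹ * x := by group
    rw [e]
    exact nm_inv hn hx (inv_mem ix)

theorem comm_mem {R : SG} {a b : FP} (ha : a ∈ R) (hb : b ∈ R) : a * b * a⁻¹ * b⁻¹ ∈ R :=
  mul_mem (mul_mem (mul_mem ha hb) (inv_mem ha)) (inv_mem hb)

theorem comm_swap {D : SG} {a b : FP} (h : a * b * a⁻¹ * b⁻¹ ∈ D) : b * a * b⁻¹ * a⁻¹ ∈ D := by
  have e : b * a * b⁻¹ * a⁻¹ = (a * b * a⁻¹ * b⁻¹)⁻¹ := by group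
  rw [e]; exact inv_mem h

theorem pow_mul_comm {C D : SG} (hn : Nm C D) (hc : ∀ a ∈ C, ∀ b ∈ C, a * b * a⁻¹ * b⁻¹ ∈ D)
    {a b : FP} (ha : a ∈ C) (hb : b ∈ C) (k : ℕ) :
    ∃ z ∈ D, (a * b) ^ k = a ^ k * b ^ k * z := by
  induction k with
  | zero => exact ⟨1, one_mem _, by simp⟩
  | succ k ih =>
    obtain ⟨z, hz, e⟩ := ih
    have h1 := hc _ (inv_mem (pow_mem hb k)) _ (inv_mem ha)
    refine ⟨b⁻¹ * (((b ^ k)⁻¹ * a⁻¹ * (b ^ k)⁻¹⁻¹ * a⁻¹⁻¹) * (a⁻¹ * z * a)) * b,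
      nm_inv hn hb (mul_mem h1 (nm_inv hn ha hz)), ?_⟩
    rw [pow_succ, e, pow_succ, pow_succ]
    generalize a ^ k = u
    generalize b ^ k = v
    group

theorem ea_closure {p : ℕ} {S : Set FP} {D : SG} (h1 : ∀ a ∈ S, cj a D = D)
    (h2 : ∀ a ∈ S, ∀ b ∈ S, a * b * a⁻¹ * b⁻¹ ∈ D) (h3 : ∀ a ∈ S, a ^ p ∈ D) :
    EA p (Subgroup.closure S ⊔ D) D := by
  have hn := nm_closure h1
  have hc : ∀ a ∈ Subgroup.closure S, ∀ b ∈ Subgroup.closure S, a * b * a⁻¹ * b⁻¹ ∈ D := by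
    intro a ha b hb
    refine comm_left hn (fun x hx => comm_swap ?_) a ha
    exact comm_left hn (fun y hy => h2 y hy x hx) b hb
  have hp : ∀ a ∈ Subgroup.closure S, a ^ p ∈ D := by
    intro a ha
    induction ha using Subgroup.closure_induction with
    | mem x hx => exact h3 x hx
    | one => simp
    | mul x y hx hy ix iy =>
      obtain ⟨z, hz, e⟩ := pow_mul_comm hn hc hx hy p
      rw [e]; exact mul_mem (mul_mem ix iy) hz
    | inv x _ ix => rw [inv_pow]; exact inv_mem ix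
  refine ea_sup (D := Subgroup.closure S ⊓ D) ⟨inf_le_left, fun a ha b hb => ⟨?_, hc a ha b hb⟩,
    fun a ha => ⟨pow_mem ha p, hp a ha⟩⟩ hn inf_le_right
  exact comm_mem ha hb

theorem mem_of_coprime {p q : ℕ} {D : SG} {a : FP} (h : p.Coprime q) (hp : a ^ p ∈ D)
    (hq : a ^ q ∈ D) : a ∈ D := by
  have e : a = (a ^ p) ^ (Nat.gcdA p q) * (a ^ q) ^ (Nat.gcdB p q) := by
    rw [← zpow_natCast, ← zpow_natCast, ← zpow_mul, ← zpow_mul, ← zpow_add,
      ← Nat.gcd_eq_gcd_ab, h.gcd_eq_one]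
    simp
  rw [e]
  exact mul_mem (zpow_mem hp _) (zpow_mem hq _)

theorem mem_img (g : FP) (S : Set ℕ) (z : ℕ) : z ∈ (fun x => g • x) '' S ↔ g⁻¹ • z ∈ S := by
  constructor
  · rintro ⟨y, hy, rfl⟩
    simpa using hy
  · intro h
    exact ⟨_, h, by simp⟩

end BM1

open BM1 in
theorem b_m1 : M1 where
  cj_one := cj_one
  cj_mul := cj_mul
  cj_inv_cj := cj_inv_cj
  cj_cj_inv := cj_cj_inv
  cj_bot := fun g => by simp only [cj_eq, OrderIso.map_bot]
  cj_sup := cj_sup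
  cj_inf := cj_inf
  cj_comm := cj_comm
  cj_sSup := fun g S => by
    rw [sSup_image]; simp only [cj_eq, OrderIso.map_sSup]
  cj_sInf := fun g S => by
    rw [sInf_image]; simp only [cj_eq, OrderIso.map_sInf]
  cj_closure := fun g S => by
    rw [cj_map, MonoidHom.map_closure]; rfl
  cj_le_cj := cj_le_cj
  cj_inj := fun {g A B} => by simp only [le_antisymm_iff, cj_le_cj]
  cj_fx := fun g S => by
    ext x
    simp only [mem_cj, mem_fx]
    constructor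
    · rintro h _ ⟨y, hy, rfl⟩
      have := h y hy
      rwa [mul_smul, mul_smul, inv_smul_eq_iff] at this
    · intro h y hy
      rw [mul_smul, mul_smul, inv_smul_eq_iff]
      exact h _ ⟨y, hy, rfl⟩
  cj_sst := fun g S => by
    ext x
    simp only [mem_cj, mem_sst, mem_img]
    constructor
    · intro h z
      rw [← h (g⁻¹ • z), mul_smul, mul_smul, smul_inv_smul]
    · intro h y
      rw [mul_smul, mul_smul, h, inv_smul_smul]
  cj_of_nm := cj_of_nm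
  nm_of_cj := nm_of_cj
  cj_of_mem := fun hl => cj_of_nm (nm_of_le le_rfl) hl
  cj_le_of_mem := fun {H L l} hl h => by
    rw [← cj_of_nm (nm_of_le (le_refl L)) hl]; exact cj_le_cj.2 h
  nm_closure := nm_closure
  nm_sup_left := nm_sup_left
  nm_sup := fun ha hb => nm_of_cj fun l hl => by rw [cj_sup, cj_of_nm ha hl, cj_of_nm hb hl]
  nm_inf := fun ha hb => nm_of_cj fun l hl => by rw [cj_inf, cj_of_nm ha hl, cj_of_nm hb hl]
  nm_comm := fun ha hb => nm_of_cj fun l hl => by rw [cj_comm, cj_of_nm ha hl, cj_of_nm hb hl]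
  nm_mono := fun h hn l hl => hn l (h hl)
  nm_of_le := nm_of_le
  ea_nm := fun {p X D K} h h1 h2 l hl k hk => by
    have e : l * k * l⁻¹ = (l * k * l⁻¹ * k⁻¹) * k := by group
    rw [e]
    exact mul_mem (h1 (h.2.1 l hl k (h2 hk))) hk
  ea_cj := fun {p X D} g h => by
    refine ⟨cj_le_cj.2 h.1, fun a ha b hb => ?_, fun a ha => ?_⟩
    · rw [mem_cj] at ha hb ⊢
      have e : g⁻¹ * (a * b * a⁻¹ * b⁻¹) * g =
          g⁻¹ * a * g * (g⁻¹ * b * g) * (g⁻¹ * a * g)⁻¹ * (g⁻¹ * b * g)⁻¹ := by group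
      rw [e]; exact h.2.1 _ ha _ hb
    · rw [mem_cj] at ha ⊢
      have e : g⁻¹ * a ^ p * g = (g⁻¹ * a * g) ^ p := by
        have := conj_pow (i := p) (a := g⁻¹) (b := a)
        simpa using this.symm
      rw [e]; exact h.2.2 _ ha
  ea_sup := ea_sup
  ea_inf := fun Y h => ⟨inf_le_inf_right _ h.1, fun a ha b hb => ⟨h.2.1 a ha.1 b hb.1,
    comm_mem (R := Y) ha.2 hb.2⟩,
    fun a ha => ⟨h.2.2 a ha.1, Y.pow_mem ha.2 _⟩⟩
  ea_mono := fun h h1 h2 h3 => ⟨h3, fun a ha b hb => h2 (h.2.1 a (h1 ha) b (h1 hb)),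
    fun a ha => h2 (h.2.2 a (h1 ha))⟩
  ea_closure := ea_closure
  mem_of_coprime := mem_of_coprime
  mem_sup_nm := mem_sup_nm
  mem_sup_nm' := mem_sup_nm'
  dedekind := fun {A B C} h hc => by
    refine le_antisymm (fun x hx => ?_)
      (sup_le (le_inf le_sup_left hc) (inf_le_inf_right _ le_sup_right))
    obtain ⟨a, ha, b, hb, rfl⟩ := (mem_sup_nm h).1 hx.1
    exact Subgroup.mul_mem_sup ha ⟨hb, by simpa using C.mul_mem (C.inv_mem (hc ha)) hx.2⟩
  dedekind' := fun {A B C} h hc => by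
    refine le_antisymm (fun x hx => ?_)
      (sup_le (inf_le_inf_right _ le_sup_left) (le_inf le_sup_right hc))
    obtain ⟨a, ha, b, hb, rfl⟩ := (mem_sup_nm h).1 hx.1
    exact Subgroup.mul_mem_sup ⟨ha, by simpa using C.mul_mem hx.2 (C.inv_mem (hc hb))⟩ hb
  comm_le := fun {Q D A K} hD hA hK => by
    refine Subgroup.commutator_le.2 fun x hx y hy => ?_
    obtain ⟨d, hd, a, ha, rfl⟩ := (mem_sup_nm' fun l hl => hD.2 l (hA.1 hl)).1 hx
    obtain ⟨e, he, k, hk, rfl⟩ := (mem_sup_nm' fun l hl => hD.2 l (hK.1 hl)).1 hy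
    have e1 : d * a * (e * k) * (d * a)⁻¹ * (e * k)⁻¹ =
        d * (a * e * a⁻¹) * (a * k * a⁻¹ * k⁻¹) * (k * d⁻¹ * k⁻¹ * e⁻¹) := by
      group
    have e2 : a * k * a⁻¹ * k⁻¹ = a * (k * a⁻¹ * k⁻¹) := by group
    rw [commutatorElement_def, e1]
    refine mul_mem (Subgroup.mul_mem_sup (mul_mem hd (hD.2 a (hA.1 ha) e he)) ⟨?_, ?_⟩)
      (Subgroup.mem_sup_left (mul_mem (hD.2 k (hK.1 hk) _ (inv_mem hd)) (inv_mem he)))
    · rw [e2]; exact A.mul_mem ha (hA.2 k (hK.1 hk) _ (inv_mem ha))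
    · exact K.mul_mem (hK.2 a (hA.1 ha) k hk) (inv_mem hk)
  comm_sup_le := fun {R D} h => by
    refine Subgroup.commutator_le.2 fun x hx y hy => ?_
    obtain ⟨r, hr, d, hd, rfl⟩ := (mem_sup_nm h).1 hx
    obtain ⟨s, hs, e, he, rfl⟩ := (mem_sup_nm h).1 hy
    rw [commutatorElement_def, comm_id]
    refine mul_mem (mul_mem (mul_mem (Subgroup.mem_sup_right (h r hr d hd))
      (Subgroup.mem_sup_left (Subgroup.commutator_mem_commutator hr hs)))
      (Subgroup.mem_sup_right (h _ (mul_mem hs hr) _ (mul_mem he (inv_mem hd)))))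
      (Subgroup.mem_sup_right (h s hs _ (inv_mem he)))
  comm_self_le := fun R => Subgroup.commutator_le.2 fun a ha b hb =>
    mul_mem (mul_mem (mul_mem ha hb) (inv_mem ha)) (inv_mem hb)

end

end Pool.Agent.Lib.E5
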