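import Pool.Agent.Lib.E5.Spec

/-! Block M3: restrictions, halves, orbits. -/

namespace Pool.Agent.Lib.E5

open Equiv Pool.Agent.Lib.helper80 Pool.Agent.Lib.MP_e519cf_lc Polynomial

noncomputable section
open Classical

namespace BM3

theorem ok_sw (n : ℕ) : OkP (2 * n) fun x => bif Nat.blt x n then x + n else x - n := by
  have e : ∀ x, (bif Nat.blt x n then x + n else x - n) = if x < n then x + n else x - n := by
    intro x
    by_cases h : x < n
    · rw [if_pos h, Nat.blt_eq.mpr h]; rfl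
    · have : Nat.blt x n = false := by
        rw [← Bool.not_eq_true, Nat.blt_eq]; exact h
      rw [if_neg h, this]; rfl
  constructor
  · intro x hx
    show (bif Nat.blt x n then x + n else x - n) < _
    rw [e]; split_ifs <;> omega
  · intro x hx y hy h
    change (bif Nat.blt x n then x + n else x - n) = (bif Nat.blt y n then y + n else y - n) at h
    rw [e, e] at h
    split_ifs at h <;> omega

theorem sw_smul (n x : ℕ) :
    sw n • x = if x < n then x + n else if x < 2 * n then x - n else x := by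
  rw [sw, mkP_smul (ok_sw n)]
  by_cases h : x < n
  · rw [if_pos (by omega), if_pos h, Nat.blt_eq.mpr h]; rfl
  · have : Nat.blt x n = false := by
      rw [← Bool.not_eq_true, Nat.blt_eq]; exact h
    rw [if_neg h, this]; rfl

theorem sw_sw (n x : ℕ) : sw n • sw n • x = x := by
  rw [sw_smul n (sw n • x), sw_smul n x]
  split_ifs <;> omega

theorem sw_inv (n : ℕ) : (sw n)⁻¹ = sw n := by
  rw [inv_eq_iff_mul_eq_one]
  exact FP.ext fun x => by rw [mul_smul, sw_sw, one_smul]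

theorem bif_smem (S : Finset ℕ) (x a b : ℕ) :
    (bif smem x S then a else b) = if x ∈ S then a else b := by
  by_cases h : x ∈ S
  · rw [if_pos h, smem_iff.2 h]; rfl
  · rw [if_neg h, smem_false.2 h]; rfl

theorem sst_iff {S : Finset ℕ} {g : FP} (hg : g ∈ sst S) (x : ℕ) : g • x ∈ S ↔ x ∈ S := by
  have := hg x
  rwa [Finset.mem_coe, Finset.mem_coe] at this

theorem sst_of {S : Finset ℕ} {g : FP} (hg : ∀ x, g • x ∈ S ↔ x ∈ S) : g ∈ sst S := by
  intro x
  rw [Finset.mem_coe, Finset.mem_coe]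
  exact hg x

theorem res_smul {S : Finset ℕ} {g : FP} (hg : g ∈ sst S) (x : ℕ) :
    res S g • x = if x ∈ S then g • x else x := by
  have ok : OkP (bd g) fun x => bif smem x S then g • x else x := by
    constructor
    · intro x hx
      show (bif smem x S then g • x else x) < _
      rw [bif_smem]
      split_ifs
      · exact (smul_lt (mem_Sy_bd g)).2 hx
      · exact hx
    · intro x _ y _ h
      change (bif smem x S then g • x else x) = (bif smem y S then g • y else y) at h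
      rw [bif_smem, bif_smem] at h
      split_ifs at h with h1 h2 h2
      · exact smul_left_cancel _ h
      · exact absurd (h ▸ (sst_iff hg x).2 h1) h2
      · exact absurd (h ▸ (sst_iff hg y).2 h2) h1
      · exact h
  rw [res, mkP_smul ok]
  by_cases hx : x < bd g
  · rw [if_pos hx, bif_smem]
  · rw [if_neg hx, mem_Sy_bd g x (not_lt.1 hx), ite_self]

theorem res_one (S : Finset ℕ) : res S 1 = 1 :=
  FP.ext fun x => by rw [res_smul (one_mem _), one_smul, ite_self]

theorem res_mul {S : Finset ℕ} {g h : FP} (hg : g ∈ sst S) (hh : h ∈ sst S) :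
    res S (g * h) = res S g * res S h := by
  refine FP.ext fun x => ?_
  rw [mul_smul, res_smul (mul_mem hg hh), res_smul hh, res_smul hg]
  by_cases hx : x ∈ S
  · rw [if_pos hx, if_pos hx, if_pos ((sst_iff hh x).2 hx), mul_smul]
  · rw [if_neg hx, if_neg hx, if_neg hx]

theorem res_inv {S : Finset ℕ} {g : FP} (hg : g ∈ sst S) : res S g⁻¹ = (res S g)⁻¹ := by
  rw [eq_inv_iff_mul_eq_one, ← res_mul (inv_mem hg) hg, inv_mul_cancel, res_one]

theorem res_pow {S : Finset ℕ} {g : FP} (k : ℕ) (hg : g ∈ sst S) :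
    res S (g ^ k) = res S g ^ k := by
  induction k with
  | zero => rw [pow_zero, pow_zero, res_one]
  | succ k ih => rw [pow_succ, pow_succ, res_mul (pow_mem hg k) hg, ih]

theorem res_Sy {n : ℕ} (S : Finset ℕ) {g : FP} (hg : g ∈ Sy n) : res S g ∈ Sy n :=
  Sy_mono (bd_le.2 hg) (mkP_mem _ _)

theorem res_cj {S T : Finset ℕ} {g l : FP} (hg : g ∈ sst S) (hl : ∀ x, x ∈ S ↔ l • x ∈ T) :
    l * res S g * l⁻¹ = res T (l * g * l⁻¹) := by
  have hl' : ∀ y, y ∈ T ↔ l⁻¹ • y ∈ S := fun y => by rw [hl, smul_inv_smul]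
  have hc : l * g * l⁻¹ ∈ sst T := sst_of fun y => by
    rw [mul_smul, mul_smul, ← hl, sst_iff hg, hl']
  refine FP.ext fun x => ?_
  rw [res_smul hc, mul_smul, mul_smul, res_smul hg]
  by_cases hx : x ∈ T
  · rw [if_pos hx, if_pos ((hl' x).1 hx), mul_smul, mul_smul]
  · rw [if_neg hx, if_neg fun h => hx ((hl' x).2 h), smul_inv_smul]

theorem lft_smul {n : ℕ} {g : FP} (hg : g ∈ sst (Finset.range n)) (x : ℕ) :
    lft n g • x = if x < n then g • x else x := by
  rw [lft, res_smul hg]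
  simp only [Finset.mem_range]

theorem lt_iff {n : ℕ} {g : FP} (hg : g ∈ sst (Finset.range n)) (x : ℕ) : g • x < n ↔ x < n := by
  have := sst_iff hg x
  rwa [Finset.mem_range, Finset.mem_range] at this

theorem sst_range {n : ℕ} {g : FP} (hg : ∀ x, g • x < n ↔ x < n) : g ∈ sst (Finset.range n) :=
  sst_of fun x => by rw [Finset.mem_range, Finset.mem_range, hg]

theorem lft_mem {n : ℕ} {g : FP} (hg : g ∈ sst (Finset.range n)) : lft n g ∈ Sy n :=
  fun x hx => by rw [lft_smul hg, if_neg (not_lt.2 hx)]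

theorem mem_RH {n x : ℕ} : x ∈ RH n ↔ n ≤ x ∧ x < 2 * n := by
  rw [RH, mem_fil, Nat.ble_eq, and_comm]

theorem sst_RH {n : ℕ} {g : FP} (h1 : g ∈ Sy (2 * n)) (h2 : g ∈ sst (Finset.range n)) :
    g ∈ sst (RH n) := sst_of fun x => by
  rw [mem_RH, mem_RH, smul_lt h1, ← not_lt, lt_iff h2, not_lt]

theorem rgt_smul {n : ℕ} {g : FP} (h1 : g ∈ Sy (2 * n)) (h2 : g ∈ sst (Finset.range n)) (x : ℕ) :
    rgt n g • x = if x < n then x else g • x := by
  rw [rgt, res_smul (sst_RH h1 h2)]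
  by_cases hx : x < n
  · rw [if_pos hx, if_neg fun h => absurd (mem_RH.1 h).1 (not_le.2 hx)]
  · rw [if_neg hx]
    by_cases hy : x < 2 * n
    · rw [if_pos (mem_RH.2 ⟨not_lt.1 hx, hy⟩)]
    · rw [if_neg fun h => hy (mem_RH.1 h).2, h1 x (not_lt.1 hy)]

theorem lft_mul_rgt {n : ℕ} {g : FP} (h1 : g ∈ Sy (2 * n)) (h2 : g ∈ sst (Finset.range n)) :
    lft n g * rgt n g = g := by
  refine FP.ext fun x => ?_
  rw [mul_smul, rgt_smul h1 h2, lft_smul h2]
  by_cases hx : x < n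
  · rw [if_pos hx, if_pos hx]
  · rw [if_neg hx, if_neg fun h => hx ((lt_iff h2 x).1 h)]

theorem code_div {N a b : ℕ} (hb : b < N) : (a * N + b) / N = a := by
  rw [Nat.add_comm, Nat.add_mul_div_right _ _ (by omega), Nat.div_eq_of_lt hb, Nat.zero_add]

theorem code_mod {N a b : ℕ} (hb : b < N) : (a * N + b) % N = b := by
  rw [Nat.add_comm, Nat.add_mul_mod_self_right, Nat.mod_eq_of_lt hb]

theorem code_lt {N a b : ℕ} (ha : a < N) (hb : b < N) : a * N + b < N * N := by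
  have : (a + 1) * N ≤ N * N := Nat.mul_le_mul_right N ha
  rw [Nat.add_mul] at this
  omega

theorem decode {N c : ℕ} (hc : c < N * N) : c / N < N ∧ c % N < N ∧ c / N * N + c % N = c := by
  have hN : 0 < N := Nat.pos_of_ne_zero fun h => by rw [h] at hc; omega
  exact ⟨(Nat.div_lt_iff_lt_mul hN).2 hc, Nat.mod_lt _ hN, Nat.div_add_mod' c N⟩

theorem ok_prP {N : ℕ} {g : FP} (hg : g ∈ Sy N) :
    OkP (N * N) fun c => (g • (c / N)) * N + g • (c % N) := by
  constructor
  · intro c hc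
    obtain ⟨h1, h2, -⟩ := decode hc
    exact code_lt ((smul_lt hg).2 h1) ((smul_lt hg).2 h2)
  · intro c hc d hd h
    obtain ⟨-, h2, h3⟩ := decode hc
    obtain ⟨-, k2, k3⟩ := decode hd
    change (g • (c / N)) * N + g • (c % N) = (g • (d / N)) * N + g • (d % N) at h
    have e1 := congrArg (· / N) h
    have e2 := congrArg (· % N) h
    simp only [code_div ((smul_lt hg).2 h2), code_div ((smul_lt hg).2 k2),
      code_mod ((smul_lt hg).2 h2), code_mod ((smul_lt hg).2 k2), smul_left_cancel_iff] at e1 e2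
    rw [← h3, ← k3, e1, e2]

theorem prP_smul {N a b : ℕ} {g : FP} (hg : g ∈ Sy N) (ha : a < N) (hb : b < N) :
    prP N g • (a * N + b) = (g • a) * N + g • b := by
  rw [prP, mkP_smul (ok_prP hg), if_pos (code_lt ha hb), code_div hb, code_mod hb]

theorem prP_mul {N : ℕ} {g h : FP} (hg : g ∈ Sy N) (hh : h ∈ Sy N) :
    prP N (g * h) = prP N g * prP N h := by
  refine FP.ext fun c => ?_
  by_cases hc : c < N * N
  · obtain ⟨h1, h2, h3⟩ := decode hc
    rw [← h3, mul_smul, prP_smul (mul_mem hg hh) h1 h2, prP_smul hh h1 h2,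
      prP_smul hg ((smul_lt hh).2 h1) ((smul_lt hh).2 h2), mul_smul, mul_smul]
  · have e : ∀ u : FP, prP N u • c = c := fun u => mkP_mem _ _ c (not_lt.1 hc)
    rw [mul_smul, e, e, e]

theorem so_refl (H : SG) (x : ℕ) : So H x x := ⟨1, one_mem _, one_smul _ _⟩

theorem so_symm {H : SG} {x y : ℕ} (h : So H x y) : So H y x := by
  obtain ⟨g, hg, rfl⟩ := h
  exact ⟨g⁻¹, inv_mem hg, inv_smul_smul _ _⟩

theorem so_trans {H : SG} {x y z : ℕ} (h : So H x y) (k : So H y z) : So H x z := by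
  obtain ⟨g, hg, rfl⟩ := h
  obtain ⟨u, hu, rfl⟩ := k
  exact ⟨u * g, mul_mem hu hg, mul_smul _ _ _⟩

theorem so_cj (g : FP) (H : SG) (x y : ℕ) : So (cj g H) (g • x) (g • y) ↔ So H x y := by
  constructor
  · rintro ⟨h, hh, e⟩
    exact ⟨_, mem_cj.1 hh, by rw [mul_smul, mul_smul, e, inv_smul_smul]⟩
  · rintro ⟨h, hh, rfl⟩
    refine ⟨g * h * g⁻¹, mem_cj.2 ?_, by rw [mul_smul, mul_smul, inv_smul_smul]⟩
    simpa [mul_assoc] using hh

theorem po_of_nm {H : SG} {g : FP} (h : cj g H = H) : Po H g := fun x y => by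
  rw [← so_cj g H x y, h]

theorem le_sst_orb (H : Grp) (x : ℕ) : H.1 ≤ sst (H.orb x) := fun g hg => sst_of fun y => by
  rw [Grp.mem_orb, Grp.mem_orb]
  exact ⟨fun h => so_trans h (so_symm ⟨g, hg, rfl⟩), fun h => so_trans h ⟨g, hg, rfl⟩⟩

theorem rep_eq {H : Grp} {x y : ℕ} (h : So H.1 x y) : H.rep x = H.rep y :=
  le_antisymm (Grp.rep_le (so_trans h (H.so_rep y)))
    (Grp.rep_le (so_trans (so_symm h) (H.so_rep x)))

theorem orb_congr {H K : Grp} (h : ∀ x y, So H.1 x y ↔ So K.1 x y) (x : ℕ) :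
    H.orb x = K.orb x := by
  ext y
  rw [Grp.mem_orb, Grp.mem_orb, h]

theorem rep_congr {H K : Grp} (h : ∀ x y, So H.1 x y ↔ So K.1 x y) (x : ℕ) :
    H.rep x = K.rep x :=
  le_antisymm (Grp.rep_le ((h _ _).2 (K.so_rep x))) (Grp.rep_le ((h _ _).1 (H.so_rep x)))

theorem mem_con [KG] {S : Finset ℕ} {H : Grp} {x : FP} (hH : H.1 ≤ sst S) :
    x ∈ (H.con S).1 ↔ ∃ h ∈ H.1, res S h = x := by
  rw [Grp.con, Grp.ofL_val]
  constructor
  · intro hx
    induction hx using Subgroup.closure_induction with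
    | mem y hy =>
      obtain ⟨g, hg, rfl⟩ := List.mem_map.1 hy
      exact ⟨g, KG.mem_of_gens hg, rfl⟩
    | one => exact ⟨1, one_mem _, res_one S⟩
    | mul a b _ _ ha hb =>
      obtain ⟨g, hg, rfl⟩ := ha
      obtain ⟨u, hu, rfl⟩ := hb
      exact ⟨g * u, mul_mem hg hu, res_mul (hH hg) (hH hu)⟩
    | inv a _ ha =>
      obtain ⟨g, hg, rfl⟩ := ha
      exact ⟨g⁻¹, inv_mem hg, res_inv (hH hg)⟩
  · rintro ⟨h, hh, rfl⟩
    rw [← KG.closure_gens H] at hh hH
    induction hh using Subgroup.closure_induction with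
    | mem y hy => exact Subgroup.subset_closure (List.mem_map.2 ⟨y, hy, rfl⟩)
    | one => rw [res_one]; exact one_mem _
    | mul a b h1 h2 ha hb => rw [res_mul (hH h1) (hH h2)]; exact mul_mem ha hb
    | inv a h1 ha => rw [res_inv (hH h1)]; exact inv_mem ha

theorem con_le [KG] {n : ℕ} (S : Finset ℕ) {H : Grp} (hH : H.1 ≤ Sy n) : (H.con S).1 ≤ Sy n := by
  rw [Grp.con, Grp.ofL_val, Subgroup.closure_le]
  intro y hy
  obtain ⟨g, hg, rfl⟩ := List.mem_map.1 hy
  exact res_Sy S (hH (KG.mem_of_gens hg))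

theorem mem_symB' {n : ℕ} {g : FP} :
    g ∈ (symB n).1 ↔ g ∈ Sy (2 * n) ∧ ∀ x < n, g • x = x := by
  rw [symB, Grp.cj_val, mem_cj, Grp.sy_val, mem_Sy, mem_Sy]
  have e : ∀ x : ℕ, ((sw n)⁻¹ * g * sw n) • x = x ↔ g • sw n • x = sw n • x := fun x => by
    rw [mul_smul, mul_smul, inv_smul_eq_iff]
  simp only [e]
  constructor
  · intro h
    constructor
    · intro x hx
      have := h x (by omega)
      rwa [sw_smul, if_neg (by omega), if_neg (by omega)] at this
    · intro x hx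
      have := h (x + n) (by omega)
      rwa [sw_smul, if_neg (by omega), if_pos (by omega), Nat.add_sub_cancel] at this
  · rintro ⟨h1, h2⟩ x hx
    rw [sw_smul, if_neg (by omega)]
    split_ifs with h
    · exact h2 _ (by omega)
    · exact h1 _ (by omega)

theorem mem_symB {n : ℕ} {g : FP} :
    g ∈ (symB n).1 ↔ g ∈ Sy (2 * n) ∧ g ∈ fx (Finset.range n) := by
  rw [mem_symB', mem_fx]
  simp only [Finset.mem_coe, Finset.mem_range]

theorem rgt_mem {n : ℕ} {g : FP} (h1 : g ∈ Sy (2 * n)) (h2 : g ∈ sst (Finset.range n)) :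
    rgt n g ∈ (symB n).1 :=
  mem_symB'.2 ⟨res_Sy _ h1, fun x hx => by rw [rgt_smul h1 h2, if_pos hx]⟩

theorem symB_lt {n : ℕ} {b : FP} (hb : b ∈ (symB n).1) (x : ℕ) : b • x < n ↔ x < n := by
  have h := (mem_symB'.1 hb).2
  constructor
  · intro hx
    have := h _ hx
    rw [smul_left_cancel_iff] at this
    exact this ▸ hx
  · intro hx
    rwa [h x hx]

theorem prod_smul {n : ℕ} {a b : FP} (ha : a ∈ Sy n) (hb : b ∈ (symB n).1) (x : ℕ) :
    (a * b) • x = if x < n then a • x else b • x := by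
  rw [mul_smul]
  split_ifs with hx
  · rw [(mem_symB'.1 hb).2 x hx]
  · exact ha _ (not_lt.1 fun h => hx ((symB_lt hb x).1 h))

theorem comm_halves {n : ℕ} {a b : FP} (ha : a ∈ Sy n) (hb : b ∈ (symB n).1) :
    a * b = b * a := by
  refine FP.ext fun x => ?_
  rw [prod_smul ha hb, mul_smul]
  split_ifs with hx
  · rw [(mem_symB'.1 hb).2 _ ((smul_lt ha).2 hx)]
  · rw [ha x (not_lt.1 hx)]

theorem Sy_sst {n : ℕ} {a : FP} (ha : a ∈ Sy n) : a ∈ sst (Finset.range n) :=
  sst_range fun _ => smul_lt ha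

theorem symB_sst {n : ℕ} {b : FP} (hb : b ∈ (symB n).1) : b ∈ sst (Finset.range n) :=
  sst_range (symB_lt hb)

theorem Sy_two {n : ℕ} {a : FP} (ha : a ∈ Sy n) : a ∈ Sy (2 * n) := Sy_mono (by omega) ha

theorem lft_prod {n : ℕ} {a b : FP} (ha : a ∈ Sy n) (hb : b ∈ (symB n).1) :
    lft n (a * b) = a := by
  refine FP.ext fun x => ?_
  rw [lft_smul (mul_mem (Sy_sst ha) (symB_sst hb)), prod_smul ha hb]
  split_ifs with hx
  · rfl
  · exact (ha x (not_lt.1 hx)).symm

theorem rgt_prod {n : ℕ} {a b : FP} (ha : a ∈ Sy n) (hb : b ∈ (symB n).1) :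
    rgt n (a * b) = b := by
  refine FP.ext fun x => ?_
  rw [rgt_smul (mul_mem (Sy_two ha) (mem_symB'.1 hb).1) (mul_mem (Sy_sst ha) (symB_sst hb)),
    prod_smul ha hb]
  split_ifs with hx
  · exact ((mem_symB'.1 hb).2 x hx).symm
  · rfl

theorem mem_prod [M1] {n : ℕ} {A J : SG} {g : FP} (hA : A ≤ Sy n) (hJ : J ≤ (symB n).1) :
    g ∈ A ⊔ J ↔ g ∈ Sy (2 * n) ∧ g ∈ sst (Finset.range n) ∧ lft n g ∈ A ∧ rgt n g ∈ J := by
  constructor
  · intro hg
    have hn : Nm A J := fun l hl d hd => by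
      rw [comm_halves (hA hl) (hJ hd), mul_inv_cancel_right]
      exact hd
    obtain ⟨a, ha, b, hb, rfl⟩ := (M1.mem_sup_nm hn).1 hg
    refine ⟨mul_mem (Sy_two (hA ha)) (mem_symB'.1 (hJ hb)).1,
      mul_mem (Sy_sst (hA ha)) (symB_sst (hJ hb)), ?_, ?_⟩
    · rwa [lft_prod (hA ha) (hJ hb)]
    · rwa [rgt_prod (hA ha) (hJ hb)]
  · rintro ⟨h1, h2, h3, h4⟩
    rw [← lft_mul_rgt h1 h2]
    exact mul_mem (Subgroup.mem_sup_left h3) (Subgroup.mem_sup_right h4)

theorem ab_reg {M : SG} {g h : FP} {a x : ℕ} (hM : ∀ u ∈ M, ∀ v ∈ M, u * v = v * u)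
    (hg : g ∈ M) (hh : h ∈ M) (e : g • a = h • a) (hx : So M a x) : g • x = h • x := by
  obtain ⟨u, hu, rfl⟩ := hx
  rw [← mul_smul, hM g hg u hu, mul_smul, e, ← mul_smul, ← hM h hh u hu, mul_smul]

end BM3

theorem b_m3 [K1] [KG] [M1] : M3 where
  sw_smul := BM3.sw_smul
  sw_inv := BM3.sw_inv
  res_smul := BM3.res_smul
  res_one := BM3.res_one
  res_mul := BM3.res_mul
  res_inv := BM3.res_inv
  res_pow := BM3.res_pow
  res_Sy := BM3.res_Sy
  res_cj := BM3.res_cj
  lft_mem := BM3.lft_mem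
  mem_RH := BM3.mem_RH
  sst_RH := BM3.sst_RH
  lft_mul_rgt := BM3.lft_mul_rgt
  prP_smul := BM3.prP_smul
  prP_mul := BM3.prP_mul
  so_refl := BM3.so_refl
  so_symm := BM3.so_symm
  so_trans := BM3.so_trans
  so_cj := BM3.so_cj
  po_of_nm := BM3.po_of_nm
  le_sst_orb := BM3.le_sst_orb
  rep_eq := BM3.rep_eq
  orb_congr := BM3.orb_congr
  rep_congr := BM3.rep_congr
  mem_con := BM3.mem_con
  con_le := BM3.con_le
  mem_symB := BM3.mem_symB
  rgt_mem := BM3.rgt_mem
  comm_halves := BM3.comm_halves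
  lft_prod := BM3.lft_prod
  rgt_prod := BM3.rgt_prod
  mem_prod := BM3.mem_prod
  ab_reg := BM3.ab_reg

end

end Pool.Agent.Lib.E5
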