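import Pool.Agent.Lib.E5.Spec

/-! Block SPLIT: the two splitting nodes of the complement procedure. -/

namespace Pool.Agent.Lib.E5

open Equiv Pool.Agent.Lib.helper80 Pool.Agent.Lib.MP_e519cf_lc Polynomial

noncomputable section
open Classical

namespace Split

theorem wt {a b v : ℕ} (ha : 1 ≤ a) (hb : 1 ≤ b) (hv : 1 ≤ v) :
    a ^ 2 * v ^ 2 + 1 + (b ^ 2 * v ^ 2 + 1) ≤ (a + b) ^ 2 * v ^ 2 := by
  have : 1 ≤ a * b * v ^ 2 := Nat.mul_pos (Nat.mul_pos ha hb) (by positivity)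
  nlinarith

end Split

theorem b_splitY [KA] : S_splitY := by
  intro y U hy H
  refine KR.node_two
    (s := fun a : CI => ((a.1, a.2.1, a.L, y a, a.Y, a.X.sup (y a), a.Z.sup (y a)) : CI))
    (t := fun q : CI × Cos =>
      ((q.1.1, q.1.2.1, q.2.grp, q.1.D, y q.1, q.1.X, Grp.cj q.2.rep⁻¹ q.1.Z) : CI))
    (out := fun q : CI × Cos × Cos => Cos.lmul q.2.1.rep q.2.2) (by fun_prop) (by fun_prop)
    (by fun_prop) ?_
  rintro ⟨n, p, L, D, Y, X, Z⟩ hV hU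
  obtain ⟨h1, h2, h3, h4⟩ := H _ hV hU
  generalize y (n, p, L, D, Y, X, Z) = Y1 at h1 h2 h3 ⊢
  change VComp n p L.1 D.1 Y.1 X.1 Z.1 at hV
  change NI L.1 Y1.1 at h1
  change D.1 < Y1.1 at h2
  change Y1.1 < Y.1 at h3
  change ¬ X.1 ≤ D.1 at h4
  have hXL : X.1 ≤ L.1 := le_sup_left.trans hV.nE.1
  have hZL : Z.1 ≤ L.1 := le_sup_left.trans (hV.eq.le.trans hV.nE.1)
  have nX : Nm X.1 Y1.1 := M1.nm_mono hXL h1.2
  have nZ : Nm Z.1 Y1.1 := M1.nm_mono hZL h1.2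
  have iX : X.1 ⊓ Y1.1 = D.1 :=
    le_antisymm ((inf_le_inf_left _ h3.le).trans hV.iX.le) (le_inf hV.eX.1 h2.le)
  have iZ : Z.1 ⊓ Y1.1 = D.1 :=
    le_antisymm ((inf_le_inf_left _ h3.le).trans hV.iZ.le) (le_inf hV.eZ.1 h2.le)
  have hsub : ∀ x ∈ TR L X Z, x ∈ TR L (X.sup Y1) (Z.sup Y1) := fun x hx =>
    mem_TR.2 ⟨hx.1, by
      rw [Grp.sup_val, Grp.sup_val, M1.cj_sup, (mem_TR.1 hx).2, M1.cj_of_nm h1.2 hx.1]⟩
  have l1 : D.len < Y1.len := M2.len_lt (h1.1.trans hV.le) h2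
  have l2 : Y1.len < Y.len := M2.len_lt (hV.nY.1.trans hV.le) h3
  have l3 : D.len < X.len := M2.len_lt (hXL.trans hV.le) (lt_of_le_not_ge hV.eX.1 h4)
  have l4 : (X.sup Y1).len + D.len = X.len + Y1.len := by
    have := M2.len_sup (hXL.trans hV.le) (h1.1.trans hV.le) nX
    rwa [iX] at this
  have hw : (Y.len - Y1.len) ^ 2 * ((X.sup Y1).len - Y1.len) ^ 2 + 1 +
      ((Y1.len - D.len) ^ 2 * (X.len - D.len) ^ 2 + 1) ≤
        (Y.len - D.len) ^ 2 * (X.len - D.len) ^ 2 := by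
    rw [show (X.sup Y1).len - Y1.len = X.len - D.len by omega,
      show Y.len - D.len = (Y.len - Y1.len) + (Y1.len - D.len) by omega]
    exact Split.wt (by omega) (by omega) (by omega)
  have e1 : ∀ A : SG, A ⊔ Y1.1 ⊔ Y.1 = A ⊔ Y.1 := fun A => by rw [sup_assoc, sup_eq_right.2 h3.le]
  refine ⟨?_, le_rfl, fun hE => ⟨le_trans (Nat.le_add_right _ _) hw, M6.ref_emp hsub hE⟩,
    fun hE => ?_⟩
  · change VComp n p L.1 Y1.1 Y.1 (X.1 ⊔ Y1.1) (Z.1 ⊔ Y1.1)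
    exact ⟨hV.le, hV.pp, h1, hV.nY, h3.le, by rw [e1]; exact hV.nE, by rw [e1, e1, hV.eq],
      by rw [M1.dedekind' nX h3.le, hV.iX, sup_eq_right.2 h2.le],
      by rw [M1.dedekind' nZ h3.le, hV.iZ, sup_eq_right.2 h2.le],
      M1.ea_sup hV.eX nX h2.le, M1.ea_sup hV.eZ nZ h2.le,
      fun R a b => (hV.sol R a b).trans h2.le⟩
  change (TR L (X.sup Y1) (Z.sup Y1)).isE = false at hE
  refine ⟨?_, le_rfl, hw, (M6.ref hsub (fun x hx => hx.1) hE).symm⟩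
  set C := TR L (X.sup Y1) (Z.sup Y1) with hC
  change VComp n p C.grp.1 D.1 Y1.1 X.1 (cj C.rep⁻¹ Z.1)
  obtain ⟨x0, hx0⟩ := Cos.isE_false.1 hE
  obtain ⟨r1, r2⟩ : C.rep ∈ L.1 ∧ cj C.rep (X.1 ⊔ Y1.1) = Z.1 ⊔ Y1.1 := KG.rep_mem hx0
  have g1 : C.grp.1 ≤ L.1 := fun g hg => ((M6.grp_TR hE).1 hg).1
  have g2 : X.1 ⊔ Y1.1 ≤ C.grp.1 := fun g hg =>
    (M6.grp_TR hE).2 ⟨sup_le hXL h1.1 hg, M1.cj_of_mem hg⟩
  have c1 := M1.cj_of_nm h1.2 (inv_mem r1)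
  have c2 := M1.cj_of_nm hV.nD.2 (inv_mem r1)
  exact ⟨g1.trans hV.le, hV.pp, ⟨h2.le.trans (le_sup_right.trans g2), M1.nm_mono g1 hV.nD.2⟩,
    ⟨le_sup_right.trans g2, M1.nm_mono g1 h1.2⟩, h2.le,
    ⟨g2, M1.nm_of_cj fun g hg => ((M6.grp_TR hE).1 hg).2⟩,
    by rw [← M1.cj_inv_cj C.rep (X.1 ⊔ Y1.1), r2, M1.cj_sup, c1], iX,
    by rw [← c1, ← M1.cj_inf, iZ, c2], hV.eX, by rw [← c2]; exact M1.ea_cj _ hV.eZ,
    fun R a b => hV.sol R (a.trans h3.le) b⟩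

theorem b_splitV [KA] (h : Prim) : S_splitV := by
  intro k U hk H
  have hi := h.inf
  unfold S_inf at hi
  refine KR.node_two
    (s := fun a : CI => ((a.1, a.2.1, a.L, a.D, a.Y, a.X.inf (k a), a.Z.inf (k a)) : CI))
    (t := fun q : CI × Cos =>
      ((q.1.1, q.1.2.1, q.2.grp, q.1.X.inf (k q.1), k q.1, q.1.X, Grp.cj q.2.rep⁻¹ q.1.Z) : CI))
    (out := fun q : CI × Cos × Cos => Cos.lmul q.2.1.rep q.2.2) (by fun_prop) (by fun_prop)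
    (by fun_prop) ?_
  rintro ⟨n, p, L, D, Y, X, Z⟩ hV hU
  obtain ⟨h1, h2, h3, h4, h5⟩ := H _ hV hU
  generalize k (n, p, L, D, Y, X, Z) = K at h1 h2 h3 ⊢
  change VComp n p L.1 D.1 Y.1 X.1 Z.1 at hV
  change NI L.1 K.1 at h1
  change Y.1 < K.1 at h2
  change K.1 < X.1 ⊔ Y.1 at h3
  change ¬ Y.1 ≤ D.1 at h4
  change EA p (X.1 ⊔ Y.1) D.1 at h5
  have hXL : X.1 ≤ L.1 := le_sup_left.trans hV.nE.1
  have hZL : Z.1 ≤ L.1 := le_sup_left.trans (hV.eq.le.trans hV.nE.1)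
  have sX : X.1 ⊓ K.1 ⊔ Y.1 = K.1 := by
    rw [← M1.dedekind' (M1.nm_mono hXL hV.nY.2) h2.le, inf_eq_right.2 h3.le]
  have sZ : Z.1 ⊓ K.1 ⊔ Y.1 = K.1 := by
    rw [← M1.dedekind' (M1.nm_mono hZL hV.nY.2) h2.le, hV.eq, inf_eq_right.2 h3.le]
  have iX : X.1 ⊓ K.1 ⊓ Y.1 = D.1 := by rw [inf_assoc, inf_eq_right.2 h2.le, hV.iX]
  have iZ : Z.1 ⊓ K.1 ⊓ Y.1 = D.1 := by rw [inf_assoc, inf_eq_right.2 h2.le, hV.iZ]
  have dX : D.1 ≤ X.1 ⊓ K.1 := le_inf hV.eX.1 (hV.DY.trans h2.le)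
  have dZ : D.1 ≤ Z.1 ⊓ K.1 := le_inf hV.eZ.1 (hV.DY.trans h2.le)
  have eX : X.1 ⊔ K.1 = X.1 ⊔ Y.1 :=
    le_antisymm (sup_le le_sup_left h3.le) (sup_le_sup_left h2.le _)
  have eZ : Z.1 ⊔ K.1 = X.1 ⊔ Y.1 :=
    le_antisymm (sup_le (le_sup_left.trans hV.eq.le) h3.le)
      (hV.eq.ge.trans (sup_le_sup_left h2.le _))
  have hsub : ∀ x ∈ TR L X Z, x ∈ TR L (X.inf K) (Z.inf K) := fun x hx =>
    mem_TR.2 ⟨hx.1, by
      rw [Grp.inf_val, Grp.inf_val, M1.cj_inf, (mem_TR.1 hx).2, M1.cj_of_nm h1.2 hx.1]⟩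
  have b1 : X.1 ⊓ K.1 ≤ Sy n := inf_le_left.trans (hXL.trans hV.le)
  have l1 : D.len < (X.inf K).len := M2.len_lt b1 (lt_of_le_not_ge dX fun hc =>
    h2.not_ge (sX.ge.trans (sup_le (le_trans hc hV.DY) le_rfl)))
  have l2 : (X.inf K).len < X.len := M2.len_lt (hXL.trans hV.le) (lt_of_le_not_ge inf_le_left
    fun hc => h3.not_ge (sup_le (le_trans hc inf_le_right) h2.le))
  have l3 : D.len < Y.len := M2.len_lt (hV.nY.1.trans hV.le) (lt_of_le_not_ge hV.DY h4)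
  have l4 : K.len + D.len = (X.inf K).len + Y.len := by
    have := M2.len_sup b1 (hV.nY.1.trans hV.le) (M1.nm_mono (inf_le_left.trans hXL) hV.nY.2)
    rwa [sX, iX] at this
  have hw : (Y.len - D.len) ^ 2 * ((X.inf K).len - D.len) ^ 2 + 1 +
      ((K.len - (X.inf K).len) ^ 2 * (X.len - (X.inf K).len) ^ 2 + 1) ≤
        (Y.len - D.len) ^ 2 * (X.len - D.len) ^ 2 := by
    rw [show K.len - (X.inf K).len = Y.len - D.len by omega,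
      show X.len - D.len = ((X.inf K).len - D.len) + (X.len - (X.inf K).len) by omega,
      mul_comm ((Y.len - D.len) ^ 2), mul_comm ((Y.len - D.len) ^ 2),
      mul_comm ((Y.len - D.len) ^ 2)]
    exact Split.wt (by omega) (by omega) (by omega)
  refine ⟨?_, le_rfl, fun hE => ⟨le_trans (Nat.le_add_right _ _) hw, M6.ref_emp hsub hE⟩,
    fun hE => ?_⟩
  · change VComp n p L.1 D.1 Y.1 (X.1 ⊓ K.1) (Z.1 ⊓ K.1)
    exact ⟨hV.le, hV.pp, hV.nD, hV.nY, hV.DY, by rw [sX]; exact h1, by rw [sX, sZ], iX, iZ,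
      M1.ea_mono hV.eX inf_le_left le_rfl dX, M1.ea_mono hV.eZ inf_le_left le_rfl dZ, hV.sol⟩
  change (TR L (X.inf K) (Z.inf K)).isE = false at hE
  refine ⟨?_, le_rfl, hw, (M6.ref hsub (fun x hx => hx.1) hE).symm⟩
  set C := TR L (X.inf K) (Z.inf K) with hC
  change VComp n p C.grp.1 (X.1 ⊓ K.1) K.1 X.1 (cj C.rep⁻¹ Z.1)
  obtain ⟨x0, hx0⟩ := Cos.isE_false.1 hE
  obtain ⟨r1, r2⟩ : C.rep ∈ L.1 ∧ cj C.rep (X.1 ⊓ K.1) = Z.1 ⊓ K.1 := KG.rep_mem hx0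
  have g1 : C.grp.1 ≤ L.1 := fun g hg => ((M6.grp_TR hE).1 hg).1
  have g2 : X.1 ⊔ Y.1 ≤ C.grp.1 := fun g hg => (M6.grp_TR hE).2 ⟨hV.nE.1 hg,
    M1.cj_of_nm (M1.ea_nm h5 dX (inf_le_left.trans le_sup_left)) hg⟩
  have c1 := M1.cj_of_nm h1.2 (inv_mem r1)
  have c2 := M1.cj_of_nm hV.nE.2 (inv_mem r1)
  have c3 : cj C.rep⁻¹ Z.1 ⊔ K.1 = X.1 ⊔ Y.1 := by rw [← c1, ← M1.cj_sup, eZ, c2]
  have c4 : cj C.rep⁻¹ Z.1 ⊓ K.1 = X.1 ⊓ K.1 := by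
    rw [← M1.cj_inv_cj C.rep (X.1 ⊓ K.1), r2, M1.cj_inf, c1]
  exact ⟨g1.trans hV.le, hV.pp, ⟨inf_le_left.trans (le_sup_left.trans g2),
      M1.nm_of_cj fun g hg => ((M6.grp_TR hE).1 hg).2⟩,
    ⟨h3.le.trans g2, M1.nm_mono g1 h1.2⟩, inf_le_right,
    by rw [eX]; exact ⟨g2, M1.nm_mono g1 hV.nE.2⟩, by rw [c3, eX], rfl, c4,
    M1.ea_mono hV.eX le_rfl dX inf_le_left,
    M1.ea_mono h5 (le_sup_left.trans c3.le) dX (c4.ge.trans inf_le_left),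
    fun R a b => (b.trans (Subgroup.commutator_le.2 fun u hu v hv =>
      h5.2.1 u (h3.le (a hu)) v (h3.le (a hv)))).trans dX⟩

end

end Pool.Agent.Lib.E5
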