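import Pool.Agent.Lib.E5.Spec

/-! E5 block SUB: transporters of elementary abelian groups and of subgroups over a link. -/

namespace Pool.Agent.Lib.E5

open Equiv Pool.Agent.Lib.helper80 Pool.Agent.Lib.MP_e519cf_lc Polynomial

noncomputable section
open Classical

namespace SUB

set_option linter.unusedSectionVars false

variable [KA]

omit [KA] in
theorem norm_iff {g : FP} {H : SG} : g ∈ Subgroup.normalizer (H : Set FP) ↔ cj g H = H := by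
  rw [Subgroup.mem_normalizer_iff]
  constructor
  · intro h
    ext x
    rw [mem_cj, h]
    simp [mul_assoc]
  · intro h x
    conv_rhs => rw [← h]
    simp [mul_assoc]

theorem sw_sw (m : ℕ) : sw m * sw m = 1 := by
  have := M3.sw_inv m
  rw [inv_eq_iff_mul_eq_one] at this
  exact this

theorem cj_sw_sw (m : ℕ) (H : SG) : cj (sw m) (cj (sw m) H) = H := by
  rw [← M1.cj_mul, sw_sw, M1.cj_one]

theorem cj_sw_le {m : ℕ} {H : SG} (h : H ≤ Sy m) : cj (sw m) H ≤ (symB m).1 :=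
  M1.cj_le_cj.2 h

theorem cj_sw_le' {m : ℕ} {H : SG} (h : H ≤ (symB m).1) : cj (sw m) H ≤ Sy m := by
  rw [← cj_sw_sw m (Sy m)]
  exact M1.cj_le_cj.2 h

theorem cj_comm_eq {g : FP} {H : SG} (h : ∀ x ∈ H, g * x = x * g) : cj g H = H := by
  ext x
  rw [mem_cj]
  constructor
  · intro hx
    have := h _ hx
    have e : x = g⁻¹ * x * g := by
      calc x = g * (g⁻¹ * x * g) * g⁻¹ := by group
        _ = g⁻¹ * x * g := by rw [this]; group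
    rw [e]; exact hx
  · intro hx
    rw [mul_assoc, ← h x hx, inv_mul_cancel_left]; exact hx

theorem prod_inj {m : ℕ} {A A' J J' : SG} (hA : A ≤ Sy m) (hA' : A' ≤ Sy m) (hJ : J ≤ (symB m).1)
    (hJ' : J' ≤ (symB m).1) (e : A ⊔ J ≤ A' ⊔ J') : A ≤ A' ∧ J ≤ J' := by
  constructor
  · intro x hx
    have := ((M3.mem_prod hA' hJ').1 (e (Subgroup.mem_sup_left hx))).2.2.1
    have e1 := M3.lft_prod (hA hx) (one_mem (symB m).1)
    rw [mul_one] at e1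
    rwa [e1] at this
  · intro x hx
    have := ((M3.mem_prod hA' hJ').1 (e (Subgroup.mem_sup_right hx))).2.2.2
    have e1 := M3.rgt_prod (one_mem (Sy m)) (hJ hx)
    rw [one_mul] at e1
    rwa [e1] at this

theorem ea_prod {m p : ℕ} {A J : SG} (hA : A ≤ Sy m) (hJ : J ≤ (symB m).1) (eA : EA p A ⊥)
    (eJ : EA p J ⊥) : EA p (A ⊔ J) ⊥ := by
  have := M1.ea_closure (p := p) (S := (A : Set FP) ∪ J) (D := ⊥) (fun a _ => M1.cj_bot a) ?_ ?_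
  · rwa [Subgroup.closure_union, Subgroup.closure_eq, Subgroup.closure_eq, sup_bot_eq] at this
  · rintro a (ha | ha) b (hb | hb)
    · exact eA.2.1 a ha b hb
    · rw [M3.comm_halves (hA ha) (hJ hb)]; simp
    · rw [← M3.comm_halves (hA hb) (hJ ha)]; simp
    · exact eJ.2.1 a ha b hb
  · rintro a (ha | ha)
    · exact eA.2.2 a ha
    · exact eJ.2.2 a ha

theorem symB_le (m : ℕ) : (symB m).1 ≤ Sy (2 * m) := fun _ h => (M3.mem_symB.1 h).1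

theorem sw_mem (m : ℕ) : sw m ∈ Sy (2 * m) := mkP_mem _ _

theorem cj_prod {m : ℕ} {A J : SG} {a b : FP} (hA : A ≤ Sy m) (hJ : J ≤ (symB m).1) (ha : a ∈ Sy m)
    (hb : b ∈ (symB m).1) :
    cj (sw m * (a * b)) (A ⊔ J) = cj (sw m) (cj b J) ⊔ cj (sw m) (cj a A) := by
  rw [M1.cj_mul, M1.cj_sup, M1.cj_sup, sup_comm]
  congr 2
  · rw [M3.comm_halves ha hb, M1.cj_mul, cj_comm_eq fun x hx => M3.comm_halves ha (hJ hx)]
  · rw [M1.cj_mul, cj_comm_eq fun x hx => (M3.comm_halves (hA hx) hb).symm]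

theorem enormt_spec {m p : ℕ} {M M' : Grp} (pp : p.Prime) (h : M.1 ≤ Sy m) (h' : M'.1 ≤ Sy m)
    (e : EA p M.1 ⊥) (e' : EA p M'.1 ⊥) :
    Cos.con (Finset.range m) (Cos.lmul (sw m)⁻¹ ((Cos.lc (sw m) ((Grp.sy m).sup (symB m))).inter
      (Grp.enorm (2 * m) (M.sup (Grp.cj (sw m) M'))))) = TR (Grp.sy m) M M' := by
  have hJ : cj (sw m) M'.1 ≤ (symB m).1 := cj_sw_le h'
  have eJ : EA p (cj (sw m) M'.1) ⊥ := by
    have := M1.ea_cj (sw m) e'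
    rwa [M1.cj_bot] at this
  have hN : ∀ g, g ∈ (Grp.enorm (2 * m) (M.sup (Grp.cj (sw m) M'))).1 ↔
      g ∈ Sy (2 * m) ∧ cj g (M.1 ⊔ cj (sw m) M'.1) = M.1 ⊔ cj (sw m) M'.1 := by
    intro g
    rw [Grp.enorm, if_pos ⟨sup_le (h.trans (Sy_mono (by omega))) (hJ.trans (symB_le m)), p, pp,
      ea_prod h hJ e eJ⟩, Grp.cut_val, Subgroup.mem_inf, norm_iff]
    rfl
  have hm : ∀ c, c ∈ Cos.lmul (sw m)⁻¹ ((Cos.lc (sw m) ((Grp.sy m).sup (symB m))).inter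
      (Grp.enorm (2 * m) (M.sup (Grp.cj (sw m) M')))) ↔ c ∈ Sy m ⊔ (symB m).1 ∧
        cj (sw m * c) (M.1 ⊔ cj (sw m) M'.1) = M.1 ⊔ cj (sw m) M'.1 := by
    intro c
    rw [M6.mem_lmul, inv_inv, Cos.mem_inter, Cos.mem_lc, inv_mul_cancel_left, hN]
    exact and_congr_right fun hc => and_iff_right
      (mul_mem (sw_mem m) ((M3.mem_prod le_rfl le_rfl).1 hc).1)
  refine Cos.ext fun x => ?_
  rw [M6.mem_ccon fun c hc => ((M3.mem_prod le_rfl le_rfl).1 ((hm c).1 hc).1).2.1, mem_TR]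
  constructor
  · rintro ⟨c, hc, rfl⟩
    obtain ⟨h1, h2⟩ := (hm c).1 hc
    obtain ⟨k1, k2, k3, k4⟩ := (M3.mem_prod le_rfl le_rfl).1 h1
    refine ⟨k3, ?_⟩
    rw [← M3.lft_mul_rgt k1 k2, cj_prod h hJ k3 k4] at h2
    have a1 : cj (sw m) (cj (rgt m c) (cj (sw m) M'.1)) ≤ Sy m := cj_sw_le' (M1.cj_le_of_mem k4 hJ)
    have a2 : cj (sw m) (cj (lft m c) M.1) ≤ (symB m).1 := cj_sw_le (M1.cj_le_of_mem k3 h)
    exact M1.cj_inj.1 (le_antisymm (prod_inj a1 h a2 hJ h2.le).2 (prod_inj h a1 hJ a2 h2.ge).2)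
  · rintro ⟨h1, h2⟩
    have hb : sw m * x⁻¹ * (sw m)⁻¹ ∈ (symB m).1 := by
      show _ ∈ cj (sw m) (Sy m)
      simpa [mul_assoc] using inv_mem h1
    refine ⟨x * (sw m * x⁻¹ * (sw m)⁻¹), (hm _).2 ⟨mul_mem (Subgroup.mem_sup_left h1)
      (Subgroup.mem_sup_right hb), ?_⟩, M3.lft_prod h1 hb⟩
    rw [cj_prod h hJ h1 hb, h2, M1.cj_mul, M1.cj_mul, M1.cj_inv_cj, cj_sw_sw, ← h2, M1.cj_inv_cj]

/-- The right half of the part of `LA` lying over `X`. -/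
def Mt (n : ℕ) (LA X : Grp) : Grp := (LA.inf (X.sup (symB n))).con (RH n)

theorem ot_Mt (h : S_inf) : OT fun q : ℕ × Grp × Grp => Mt q.1 q.2.1 q.2.2 := by
  unfold S_inf at h
  unfold Mt
  fun_prop

section
variable {n : ℕ} {L E D LL LA X Z : Grp}

theorem lft_L (k : Lk n L E D LL LA) {g : FP} (hg : g ∈ LL.1) : lft n g ∈ L.1 :=
  k.covL ▸ Subgroup.mem_sup_left ((M3.mem_con k.pres).2 ⟨g, hg, rfl⟩)

theorem mem_Mt (k : Lk n L E D LL LA) (hX : X.1 ≤ Sy n) {m : FP} :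
    m ∈ (Mt n LA X).1 ↔ ∃ h ∈ LA.1, lft n h ∈ X.1 ∧ rgt n h = m := by
  rw [Mt, M3.mem_con (H := LA.inf (X.sup (symB n)))
    fun g hg => M3.sst_RH (k.le (k.ni.1 hg.1)) (k.pres (k.ni.1 hg.1))]
  constructor
  · rintro ⟨h, ⟨h1, h2⟩, rfl⟩
    exact ⟨h, h1, ((M3.mem_prod hX le_rfl).1 h2).2.2.1, rfl⟩
  · rintro ⟨h, h1, h2, rfl⟩
    have a := k.le (k.ni.1 h1)
    have b := k.pres (k.ni.1 h1)
    exact ⟨h, ⟨h1, (M3.mem_prod hX le_rfl).2 ⟨a, b, h2, M3.rgt_mem a b⟩⟩, rfl⟩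

theorem rgt_Mt (k : Lk n L E D LL LA) (hX : X.1 ≤ Sy n) (DX : D.1 ≤ X.1) {h : FP} (hh : h ∈ LA.1) :
    rgt n h ∈ (Mt n LA X).1 ↔ lft n h ∈ X.1 := by
  rw [mem_Mt k hX]
  refine ⟨?_, fun a => ⟨h, hh, a, rfl⟩⟩
  rintro ⟨g, hg, h1, h2⟩
  have a := k.pres (k.ni.1 hg)
  have b := k.pres (k.ni.1 hh)
  have a' := M3.sst_RH (k.le (k.ni.1 hg)) a
  have b' := M3.sst_RH (k.le (k.ni.1 hh)) b
  have := k.ker _ (mul_mem (inv_mem hg) hh) (by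
    unfold rgt at h2 ⊢
    rw [M3.res_mul (inv_mem a') b', M3.res_inv a', h2, inv_mul_cancel])
  unfold lft at this h1 ⊢
  rw [M3.res_mul (inv_mem a) b, M3.res_inv a] at this
  simpa using mul_mem h1 (DX this)

theorem conj_Mt (k : Lk n L E D LL LA) (hX : X.1 ≤ Sy n) (DX : D.1 ≤ X.1) {g h : FP}
    (hg : g ∈ LL.1) (hh : h ∈ LA.1) :
    rgt n h ∈ cj g (Mt n LA X).1 ↔ lft n h ∈ cj (lft n g) X.1 := by
  have a := k.pres hg
  have b := k.pres (k.ni.1 hh)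
  have a' := M3.sst_RH (k.le hg) a
  have b' := M3.sst_RH (k.le (k.ni.1 hh)) b
  have hc : g⁻¹ * h * g ∈ LA.1 := by simpa using k.ni.2 _ (inv_mem hg) h hh
  have e1 : g⁻¹ * rgt n h * g = rgt n (g⁻¹ * h * g) := by
    have := M3.res_cj (T := RH n) (l := g⁻¹) b' fun x => (inv_mem a' x).symm
    simpa [rgt] using this
  have e2 : (lft n g)⁻¹ * lft n h * lft n g = lft n (g⁻¹ * h * g) := by
    unfold lft
    rw [M3.res_mul (mul_mem (inv_mem a) b) a, M3.res_mul (inv_mem a) b, M3.res_inv a]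
  rw [mem_cj, mem_cj, e1, e2, rgt_Mt k hX DX hc]

theorem Mt_le (k : Lk n L E D LL LA) (hX : X.1 ≤ Sy n) : (Mt n LA X).1 ≤ (LA.con (RH n)).1 := by
  intro m hm
  obtain ⟨h, h1, -, h2⟩ := (mem_Mt k hX).1 hm
  exact ((M7.lk_M k).2.2 m).2 ⟨h, h1, h2⟩

theorem core (k : Lk n L E D LL LA) (Ln : L.1 ≤ Sy n) (nD : NI L.1 D.1) (nE : NI L.1 E.1)
    (DX : D.1 ≤ X.1) (DZ : D.1 ≤ Z.1) (XE : X.1 ≤ E.1) (ZE : Z.1 ≤ E.1) {g : FP} (hg : g ∈ LL.1) :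
    cj g (Mt n LA X).1 = (Mt n LA Z).1 ↔ cj (lft n g) X.1 = Z.1 := by
  have hX : X.1 ≤ Sy n := XE.trans (nE.1.trans Ln)
  have hZ : Z.1 ≤ Sy n := ZE.trans (nE.1.trans Ln)
  have gL := lft_L k hg
  constructor
  · intro e
    have key : ∀ x ∈ E.1, x ∈ cj (lft n g) X.1 ↔ x ∈ Z.1 := by
      intro x hx
      have cE : (LA.con (Finset.range n)).1 ≤ E.1 := k.covK ▸ le_sup_left
      obtain ⟨a, ha, d, hd, rfl⟩ :=
        (M1.mem_sup_nm (M1.nm_mono (cE.trans nE.1) nD.2)).1 (k.covK.symm ▸ hx)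
      obtain ⟨h, hh, rfl⟩ := (M3.mem_con (k.ni.1.trans k.pres)).1 ha
      have d1 : d ∈ cj (lft n g) X.1 := M1.cj_le_cj.2 DX (by rw [M1.cj_of_nm nD.2 gL]; exact hd)
      rw [mul_mem_cancel_right d1, mul_mem_cancel_right (DZ hd)]
      exact (conj_Mt k hX DX hg hh).symm.trans (by rw [e]; exact rgt_Mt k hZ DZ hh)
    ext x
    refine ⟨fun hx => (key x ?_).1 hx, fun hx => (key x (ZE hx)).2 hx⟩
    rw [← M1.cj_of_nm nE.2 gL]
    exact M1.cj_le_cj.2 XE hx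
  · intro e
    have key : ∀ m ∈ (LA.con (RH n)).1, m ∈ cj g (Mt n LA X).1 ↔ m ∈ (Mt n LA Z).1 := by
      intro m hm
      obtain ⟨h, hh, rfl⟩ := ((M7.lk_M k).2.2 m).1 hm
      rw [conj_Mt k hX DX hg hh, e, rgt_Mt k hZ DZ hh]
    ext m
    refine ⟨fun hm => (key m ?_).1 hm, fun hm => (key m (Mt_le k hZ hm)).2 hm⟩
    rw [← M1.cj_of_nm (M7.lk_M k).2.1 hg]
    exact M1.cj_le_cj.2 (Mt_le k hX) hm

theorem main (k : Lk n L E D LL LA) (Ln : L.1 ≤ Sy n) (nD : NI L.1 D.1) (nE : NI L.1 E.1)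
    (DX : D.1 ≤ X.1) (DZ : D.1 ≤ Z.1) (XE : X.1 ≤ E.1) (ZE : Z.1 ≤ E.1) :
    Cos.con (Finset.range n) ((TR (Grp.sy (2 * n)) (Mt n LA X) (Mt n LA Z)).inter LL) =
      TR (LL.con (Finset.range n)) X Z := by
  refine Cos.ext fun x => ?_
  rw [M6.mem_ccon fun c hc => k.pres (Cos.mem_inter.1 hc).2, mem_TR, M3.mem_con k.pres]
  constructor
  · rintro ⟨c, hc, rfl⟩
    obtain ⟨h1, h2⟩ := Cos.mem_inter.1 hc
    exact ⟨⟨c, h2, rfl⟩, (core k Ln nD nE DX DZ XE ZE h2).1 (mem_TR.1 h1).2⟩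
  · rintro ⟨⟨c, hc, rfl⟩, e⟩
    exact ⟨c, Cos.mem_inter.2 ⟨mem_TR.2 ⟨k.le hc, (core k Ln nD nE DX DZ XE ZE hc).2 e⟩, hc⟩, rfl⟩

end

end SUB

open SUB in
theorem b_enormt [KA] (h : S_inter) : S_enormt := by
  unfold S_inter at h
  exact ⟨fun q => Cos.con (Finset.range q.1) (Cos.lmul (sw q.1)⁻¹
    ((Cos.lc (sw q.1) ((Grp.sy q.1).sup (symB q.1))).inter
      (Grp.enorm (2 * q.1) (q.2.1.sup (Grp.cj (sw q.1) q.2.2))))), by fun_prop,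
    fun m p M M' pp h1 h2 e1 e2 => enormt_spec pp h1 h2 e1 e2⟩

open SUB in
theorem b_sub [KA] (h : Prim) : S_sub := by
  obtain ⟨en, hen, hs⟩ := h.enormt
  have h1 := ot_Mt h.inf
  have h2 := h.inter
  unfold S_inter at h2
  refine ⟨fun q => (Cos.con (Finset.range q.1) ((en (2 * q.1, Mt q.1 q.2.2.2.2.2 q.2.2.1,
    Mt q.1 q.2.2.2.2.2 q.2.2.2.1)).inter q.2.2.2.2.1)).rmul q.2.1, by fun_prop,
    fun n p L D E X Z LL LA Ln pp nD nE DX DZ XE ZE k eM => ?_⟩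
  have hX : X.1 ≤ Sy n := XE.trans (nE.1.trans Ln)
  have hZ : Z.1 ≤ Sy n := ZE.trans (nE.1.trans Ln)
  have hB : (LA.con (RH n)).1 ≤ Sy (2 * n) := (M7.lk_M k).1.trans (symB_le n)
  beta_reduce
  rw [hs (2 * n) p _ _ pp ((Mt_le k hX).trans hB) ((Mt_le k hZ).trans hB)
    (M1.ea_mono eM (Mt_le k hX) le_rfl bot_le) (M1.ea_mono eM (Mt_le k hZ) le_rfl bot_le),
    main k Ln nD nE DX DZ XE ZE]
  have CL : (LL.con (Finset.range n)).1 ≤ L.1 := k.covL ▸ le_sup_left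
  refine (M6.up_TR CL nD.1 (M1.nm_of_le DX)
    (fun s hs _ y hy => nD.2 s (CL hs) y hy) fun s hs => ?_).symm
  exact (M1.mem_sup_nm (M1.nm_mono CL nD.2)).1 (k.covL.symm ▸ (mem_TR.1 hs).1)

end

end Pool.Agent.Lib.E5
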