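import Pool.Agent.Lib.E5.Spec

/-! E5 block T3B: direct decomposition. -/

namespace Pool.Agent.Lib.E5

open Equiv Pool.Agent.Lib.helper80 Pool.Agent.Lib.MP_e519cf_lc Polynomial

noncomputable section
open Classical

namespace T3B

set_option linter.unusedSectionVars false

variable [KA]

def fac (mp : ℕ × Grp × Grp × List Grp → List Grp) (n : ℕ) (G D : Grp) (W : Finset ℕ) : List Grp :=
  (mp (n, G, D, kers G W)).map fun P => aP G (mp (n, G, D, kers G W)) P

def As (mp : ℕ × Grp × Grp × List Grp → List Grp) (a : TI) : List Grp := fac mp a.1 a.G a.D a.W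
def Bs (mp : ℕ × Grp × Grp × List Grp → List Grp) (a : TI) : List Grp := fac mp a.1 a.Z a.D a.W

def prs (mp : ℕ × Grp × Grp × List Grp → List Grp) (a : TI) : List (Grp × Grp) :=
  (As mp a).flatMap fun A => ((Bs mp a).filter fun B => eqb A.len B.len).map fun B => (A, B)

def cl (a : TI) (p : Grp × Grp) : TI := (a.1, a.L, a.D, p.1, p.2, a.W)

def look (ps : List (Grp × Grp)) (rs : List Cos) (A B : Grp) : Cos :=
  (((List.range ps.length).filter fun i => eqb (ps.getD i (A, B)) (A, B)).map fun i =>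
    rs.getD i Cos.emp).headD Cos.emp

theorem ot_fac (h : S_infL) {mp : ℕ × Grp × Grp × List Grp → List Grp} (hm : OT mp) :
    OT fun p : ℕ × Grp × Grp × Finset ℕ => fac mp p.1 p.2.1 p.2.2.1 p.2.2.2 := by
  unfold S_infL at h
  unfold fac aP; fun_prop

@[fun_prop] theorem pt_cl : PT fun p : TI × Grp × Grp => cl p.1 p.2 := by unfold cl; fun_prop

@[fun_prop] theorem pt_look : PT fun p : List (Grp × Grp) × List Cos × Grp × Grp =>
    look p.1 p.2.1 p.2.2.1 p.2.2.2 := by unfold look; fun_prop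

omit [KA] in
theorem look_eq (ps : List (Grp × Grp)) (f : Grp × Grp → Cos) (A B : Grp) :
    look ps (ps.map f) A B = if (A, B) ∈ ps then f (A, B) else Cos.emp := by
  unfold look
  cases e : (List.range ps.length).filter fun i => eqb (ps.getD i (A, B)) (A, B) with
  | nil =>
    rw [if_neg]
    · rfl
    · intro h
      obtain ⟨i, hi, e'⟩ := List.getElem_of_mem h
      have := List.filter_eq_nil_iff.1 e i (List.mem_range.2 hi)
      rw [List.getD_eq_getElem _ _ hi, e'] at this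
      simp at this
  | cons i t =>
    have : i ∈ (List.range ps.length).filter fun i => eqb (ps.getD i (A, B)) (A, B) := by
      rw [e]; simp
    rw [List.mem_filter, List.mem_range, eqb_iff, List.getD_eq_getElem _ _ this.1] at this
    rw [if_pos (this.2 ▸ List.getElem_mem this.1), List.map_cons, List.headD_cons,
      List.getD_eq_getElem _ _ (by simpa using this.1), List.getElem_map, this.2]

/-- What is used of the factor lists. -/
structure Fac (n : ℕ) (G D : Grp) (l : List Grp) : Prop where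
  nd : l.Nodup
  le : ∀ A ∈ l, D.1 ≤ A.1 ∧ A.1 ≤ G.1
  sum : (l.map fun A => A.len - D.len).sum ≤ G.len - D.len
  gen : G.1 = D.1 ⊔ sSup (vals l)

section
variable {mp : ℕ × Grp × Grp × List Grp → List Grp}
  (hs : ∀ n (B D : Grp) Ns, MPok n B.1 D.1 (vals Ns) →
    (mp (n, B, D, Ns)).Nodup ∧ ∀ P, P ∈ mp (n, B, D, Ns) ↔ P.1 ∈ MP B.1 D.1 (vals Ns))
  {n : ℕ} {G D : Grp} {W : Finset ℕ} (hG : G.1 ≤ Sy n) (nD : NI G.1 D.1)
  (pf : G.1 ≤ ⁅G.1, G.1⁆ ⊔ D.1)
include hs hG nD pf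

theorem vals_mp : vals (mp (n, G, D, kers G W)) = MP G.1 D.1 (vals (kers G W)) := by
  have ok := M5.kers_ok W hG nD pf
  ext P
  constructor
  · rintro ⟨Q, hQ, rfl⟩; exact ((hs _ _ _ _ ok).2 Q).1 hQ
  · intro hP
    exact ⟨⟨P, _, (M5.mp_basic ok hP).1.1.trans hG⟩, ((hs _ _ _ _ ok).2 _).2 hP, rfl⟩

theorem fac_ok (hJ : JJ G D W = D.1) : Fac n G D (fac mp n G D W) := by
  have ok := M5.kers_ok W hG nD pf
  obtain ⟨s1, s2⟩ := hs _ _ _ _ ok
  have e : infL G (mp (n, G, D, kers G W)) = D :=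
    Grp.ext (by rw [M6.infL_val, vals_mp hs hG nD pf]; exact hJ)
  refine ⟨M5.ap_nodup ok s2 s1, fun A hA => ?_, ?_, M5.ap_gen ok s2 pf e⟩
  · obtain ⟨P, hP, rfl⟩ := List.mem_map.1 hA
    obtain ⟨b1, -, b3, -⟩ := M5.ap_basic ok s2 hP
    rw [e] at b3
    exact ⟨b3 ▸ inf_le_left, b1.1⟩
  · have := M5.ap_len ok s2 s1
    rw [e] at this
    simpa [fac, List.map_map, Function.comp_def] using this

theorem fac_strict (hJ : JJ G D W = D.1) (nf : ∀ z ∈ W, ¬ G.1 ⊓ fx (G.orb z) ≤ D.1) :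
    ∀ A ∈ fac mp n G D W, D.len < A.len ∧ A.len < G.len := by
  have ok := M5.kers_ok W hG nD pf
  obtain ⟨s1, s2⟩ := hs _ _ _ _ ok
  have e : infL G (mp (n, G, D, kers G W)) = D :=
    Grp.ext (by rw [M6.infL_val, vals_mp hs hG nD pf]; exact hJ)
  intro A hA
  obtain ⟨P, hP, rfl⟩ := List.mem_map.1 hA
  obtain ⟨b1, b2, b3, b4⟩ := M5.ap_basic ok s2 hP
  obtain ⟨c1, c2, c3, -, N, ⟨N', hN, rfl⟩, c5⟩ := M5.mp_basic ok ((s2 P).1 hP)
  rw [e] at b3
  refine ⟨M2.len_lt (b1.1.trans hG) (lt_of_le_of_ne (b3 ▸ inf_le_left) fun h => c3 ?_),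
    M2.len_lt hG (lt_of_le_of_ne b1.1 fun h => ?_)⟩
  · rw [← b2, ← h, sup_eq_right.2 c2]
  · obtain ⟨z, hz, rfl⟩ := List.mem_map.1 hN
    rw [h, inf_eq_right.2 c1.1] at b3
    exact nf z (mem_els.1 hz) (b3 ▸ c5)

theorem fac_cj {g : FP} (hg : g ∈ sst W) (hD : Grp.cj g D = D) {Z : Grp} (e : Grp.cj g G = Z)
    (hZ : Z.1 ≤ Sy n) (nZ : NI Z.1 D.1) (pZ : Z.1 ≤ ⁅Z.1, Z.1⁆ ⊔ D.1) :
    ∀ A ∈ fac mp n G D W, Grp.cj g A ∈ fac mp n Z D W := by
  have e1 : vals (mp (n, Z, D, kers Z W)) = cj g '' vals (mp (n, G, D, kers G W)) := by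
    rw [vals_mp hs hG nD pf, vals_mp hs hZ nZ pZ, ← M5.mp_cj, ← M5.kers_cj hg, ← Grp.cj_val,
      ← Grp.cj_val, e, hD]
  have e2 : ∀ P : Grp, Grp.cj g P ∈ mp (n, Z, D, kers Z W) ↔ P ∈ mp (n, G, D, kers G W) := by
    intro P
    constructor
    · intro h
      have h1 : cj g P.1 ∈ vals (mp (n, Z, D, kers Z W)) := ⟨_, h, rfl⟩
      rw [e1] at h1
      obtain ⟨_, ⟨Q, hQ, rfl⟩, h2⟩ := h1
      rwa [← Grp.ext (M1.cj_inj.1 h2)]
    · intro h
      have h1 : cj g P.1 ∈ cj g '' vals (mp (n, G, D, kers G W)) := ⟨_, ⟨P, h, rfl⟩, rfl⟩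
      rw [← e1] at h1
      obtain ⟨Q, hQ, h2⟩ := h1
      rwa [← show Q = Grp.cj g P from Grp.ext h2]
  intro A hA
  obtain ⟨P, hP, rfl⟩ := List.mem_map.1 hA
  refine List.mem_map.2 ⟨Grp.cj g P, (e2 P).2 hP, Grp.ext ?_⟩
  rw [Grp.cj_val, aP, aP, M6.infL_val, M6.infL_val, M1.cj_inf, M1.cj_sInf, ← e, Grp.cj_val, e]
  congr 2
  ext R
  simp only [vals, List.mem_filter, Bool.not_eq_eq_eq_not, Bool.not_true, eqb_false, Set.mem_image,
    Set.mem_ofPred_eq]
  constructor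
  · rintro ⟨Q, ⟨h1, h2⟩, rfl⟩
    have e3 : Grp.cj g (Grp.cj g⁻¹ Q) = Q := Grp.ext (M1.cj_cj_inv _ _)
    exact ⟨_, ⟨Grp.cj g⁻¹ Q, ⟨(e2 _).1 (e3.symm ▸ h1), fun h => h2 (by rw [← h, e3])⟩, rfl⟩,
      M1.cj_cj_inv _ _⟩
  · rintro ⟨_, ⟨Q, ⟨h1, h2⟩, rfl⟩, rfl⟩
    exact ⟨Grp.cj g Q, ⟨(e2 Q).2 h1, fun h => h2 (Grp.ext (M1.cj_inj.1 (congrArg Grp.val h)))⟩, rfl⟩

end

omit [KA] in
theorem sum_le (As Bs : List Grp) (d f x : ℕ) (hf : 1 ≤ f)
    (h1 : ∀ A ∈ As, d < A.len ∧ A.len - d < x) (h2 : (As.map fun A => A.len - d).sum ≤ x)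
    (h3 : (Bs.map fun A => A.len - d).sum ≤ x) :
    ((As.flatMap fun A => (Bs.filter fun B => eqb A.len B.len).map fun B => (A, B)).map
      fun p => f * (p.1.len - d) ^ 3 + 1).sum ≤ f * x ^ 3 := by
  have k1 : ∀ (A : Grp) (l : List Grp), ((l.filter fun B => eqb A.len B.len).length) * (A.len - d) ≤
      (l.map fun A => A.len - d).sum := by
    intro A l
    induction l with
    | nil => simp
    | cons B l ih =>
      by_cases h : A.len = B.len
      · rw [List.filter_cons_of_pos (by simpa using h), List.length_cons, List.map_cons,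
          List.sum_cons, ← h]
        nlinarith
      · rw [List.filter_cons_of_neg (by simpa using h), List.map_cons, List.sum_cons]
        omega
  have k2 : ∀ l : List Grp, (∀ A ∈ l, d < A.len ∧ A.len - d < x) →
      ((l.flatMap fun A => (Bs.filter fun B => eqb A.len B.len).map fun B => (A, B)).map
      fun p => f * (p.1.len - d) ^ 3 + 1).sum ≤ f * x ^ 2 * (l.map fun A => A.len - d).sum := by
    intro l
    induction l with
    | nil => simp
    | cons A l ih =>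
      intro h
      have h4 := ih fun B hB => h B (List.mem_cons_of_mem _ hB)
      have h5 := h A List.mem_cons_self
      have h6 := (k1 A Bs).trans h3
      rw [List.flatMap_cons, List.map_append, List.sum_append, List.map_cons, List.sum_cons,
        mul_add, List.map_map]
      refine add_le_add ?_ h4
      have : ((fun p : Grp × Grp => f * (p.1.len - d) ^ 3 + 1) ∘ fun B => (A, B)) =
          fun _ => f * (A.len - d) ^ 3 + 1 := rfl
      rw [this, List.map_const', List.sum_replicate, smul_eq_mul]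
      generalize (Bs.filter fun B => eqb A.len B.len).length = m at h6
      have h7 : 1 ≤ A.len - d := by omega
      generalize A.len - d = y at h5 h6 h7
      have h8 : f * y ^ 3 + 1 ≤ f * y * y * (y + 1) := by nlinarith [Nat.mul_le_mul hf (Nat.mul_le_mul h7 h7)]
      calc m * (f * y ^ 3 + 1) ≤ m * (f * y * y * (y + 1)) := Nat.mul_le_mul_left _ h8
        _ = f * (m * y) * (y + 1) * y := by ring
        _ ≤ f * x * x * y := by gcongr; omega
        _ = _ := by ring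
  refine (k2 As h1).trans ?_
  calc _ ≤ f * x ^ 2 * x := Nat.mul_le_mul_left _ h2
    _ = _ := by ring

end T3B

open T3B in
theorem b_t3b [KA] (h : Prim) (hm : S_maxprod) : S_t3b := by
  obtain ⟨mp, hmp, hs⟩ := hm
  obtain ⟨gr, hgr, hg⟩ := h.gr
  have h1 := ot_fac h.infL hmp
  have h2 : OT (As mp) := by unfold As; fun_prop
  have h3 : OT (Bs mp) := by unfold Bs; fun_prop
  have h4 : OT (prs mp) := by unfold prs; fun_prop
  refine KR.node_list (s := fun a => (prs mp a).map fun p => cl a p)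
    (out := fun q => gr (q.1.1, q.1.L, As mp q.1, Bs mp q.1, (As mp q.1).map fun A =>
      (Bs mp q.1).map fun B => look (prs mp q.1) q.2 A B)) (by fun_prop) (by fun_prop)
    fun a v ⟨⟨u1, u2, u3, u4, u5⟩, j1, j2⟩ => ?_
  have hG : a.G.1 ≤ Sy a.1 := v.GlL.trans v.le
  have hZ : a.Z.1 ≤ Sy a.1 := v.ZL.trans v.le
  have nG : NI a.G.1 a.D.1 := ⟨v.DG, M1.nm_mono v.GlL v.nD.2⟩
  have nZ : NI a.Z.1 a.D.1 := ⟨v.DZ, M1.nm_mono v.ZL v.nD.2⟩
  have fA : Fac a.1 a.G a.D (As mp a) := fac_ok hs hG nG u3 j1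
  have fB : Fac a.1 a.Z a.D (Bs mp a) := fac_ok hs hZ nZ u4 j2
  have mp_prs : ∀ A B, (A, B) ∈ prs mp a ↔ A ∈ As mp a ∧ B ∈ Bs mp a ∧ A.len = B.len := by
    intro A B
    simp only [prs, List.mem_flatMap, List.mem_map, List.mem_filter, eqb_iff, Prod.mk.injEq]
    constructor
    · rintro ⟨A', h1, B', h2, rfl, rfl⟩; exact ⟨h1, h2⟩
    · rintro ⟨h1, h2⟩; exact ⟨A, h1, B, h2, rfl, rfl⟩
  refine ⟨fun b hb => ?_, ?_, Cos.ext fun l => ?_⟩
  · obtain ⟨⟨A, B⟩, hp, rfl⟩ := List.mem_map.1 hb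
    obtain ⟨p1, p2, -⟩ := (mp_prs A B).1 hp
    exact ⟨⟨v.le, v.nD, (fA.le A p1).1, (fB.le B p2).1, (fA.le A p1).2.trans v.GlL,
      (fB.le B p2).2.trans v.ZL, v.Wn, v.inv, (inf_le_inf_right _ (fA.le A p1).2).trans v.fai⟩,
      le_rfl⟩
  · rw [List.map_map]
    refine sum_le (As mp a) (Bs mp a) a.D.len (2 * a.W.card + 1) _ (by omega) (fun A hA => ?_) fA.sum
      (u2 ▸ fB.sum)
    have := fac_strict hs hG nG u3 j1 u5 A hA
    omega
  · dsimp only
    rw [hg _ _ _ _ _ v.le fA.nd fB.nd, tF, mem_TR]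
    · refine and_congr_right fun hl => ⟨fun ⟨k1, k2⟩ => ?_, fun e => ?_⟩
      · rw [fA.gen, fB.gen, M1.cj_sup, M1.cj_sSup, M1.cj_of_nm v.nD.2 hl]
        congr 2
        ext R
        constructor
        · rintro ⟨_, ⟨A, hA, rfl⟩, rfl⟩; exact ⟨_, k1 A hA, rfl⟩
        · rintro ⟨B, hB, rfl⟩; exact ⟨_, ⟨_, k2 B hB, rfl⟩, M1.cj_cj_inv _ _⟩
      · exact ⟨fac_cj hs hG nG u3 (v.inv hl) (Grp.ext (M1.cj_of_nm v.nD.2 hl)) (Grp.ext e) hZ nZ u4,
          fac_cj hs hZ nZ u4 (v.inv (inv_mem hl)) (Grp.ext (M1.cj_of_nm v.nD.2 (inv_mem hl)))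
            (Grp.ext (by rw [Grp.cj_val, ← e, M1.cj_inv_cj])) hG nG u3⟩
    · intro i hi j hj
      rw [List.getD_eq_getElem _ [] (by rw [List.length_map]; exact hi), List.getElem_map,
        List.getD_eq_getElem _ Cos.emp (by rw [List.length_map]; exact hj), List.getElem_map,
        List.getD_eq_getElem _ _ hi, List.getD_eq_getElem _ _ hj, List.map_map, look_eq]
      split_ifs with hp
      · rfl
      · refine (Cos.ext fun x => ⟨fun hx => hp ((mp_prs _ _).2 ⟨List.getElem_mem hi,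
          List.getElem_mem hj, ?_⟩) |>.elim, fun hx => (Cos.not_mem_emp x hx).elim⟩).symm
        rw [Grp.len, Grp.len, ← (mem_TR.1 hx).2, M2.len_cj]

end

end Pool.Agent.Lib.E5
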