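import Pool.Agent.Lib.E5.Spec

namespace Pool.Agent.Lib.E5

open Equiv Pool.Agent.Lib.helper80 Pool.Agent.Lib.MP_e519cf_lc Polynomial

noncomputable section
open Classical

namespace TransB

theorem emp_of {L G Z : Grp} (h : ∀ l ∈ L.1, cj l G.1 ≠ Z.1) : Cos.emp = TR L G Z :=
  Cos.ext fun x => iff_of_false (Cos.not_mem_emp x) fun hx => h x (mem_TR.1 hx).1 (mem_TR.1 hx).2

theorem infL_jj [KA] {n : ℕ} {G D : Grp} {W : Finset ℕ} {l : List Grp} (hG : G.1 ≤ Sy n)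
    (hD : NI G.1 D.1) (hp : G.1 ≤ ⁅G.1, G.1⁆ ⊔ D.1)
    (hl : ∀ P, P ∈ l ↔ P.1 ∈ MP G.1 D.1 (vals (kers G W))) : (infL G l).1 = JJ G D W := by
  rw [M6.infL_val, JJ]
  congr 2
  ext P
  refine ⟨fun ⟨A, hA, e⟩ => e ▸ (hl A).1 hA, fun hP => ?_⟩
  have := (M5.mp_basic (M5.kers_ok W hG hD hp) hP).1.1
  exact ⟨⟨P, n, this.trans hG⟩, (hl _).2 hP, rfl⟩

theorem node [KA] (h : Prim) (hm : S_maxprod) (h1 : S_t1) (h2 : S_t2) (h3 : S_t3a) (h4 : S_t3b) :
    Node tV tF tN tC fun _ => True := by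
  obtain ⟨mp, hmp, hms⟩ := hm
  have hi := h.infL
  unfold S_infL at hi
  have leaf : ∀ U : TI → Prop, (∀ a, tV a → U a → ∀ l ∈ a.L.1, cj l a.G.1 ≠ a.Z.1) →
      Node tV tF tN tC U := fun U hU =>
    KR.node_leaf (g := fun _ => Cos.emp) (OT.const _) fun a ha hu => emp_of (hU a ha hu)
  refine KR.node_cond (b := fun a : TI => Nat.beq a.G.len a.Z.len) (by fun_prop) ?_ ?_
  swap
  · refine leaf _ fun a _ hu l _ e => ?_
    have : a.G.len = a.Z.len := by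
      show len a.G.1 = len a.Z.1
      rw [← e, M2.len_cj]
    simp [this] at hu
  refine KR.node_cond (b := fun a : TI => Grp.le a.G a.D) (by fun_prop) ?_ ?_
  · refine KR.node_leaf (g := fun a : TI => Cos.lc 1 a.L) (by fun_prop) fun a ha hu => ?_
    have e1 : a.G.1 = a.D.1 := le_antisymm (Grp.le_iff.1 hu.2) ha.DG
    have e2 : len a.G.1 = len a.Z.1 := Nat.eq_of_beq_eq_true hu.1.2
    have e3 : a.D.1 = a.Z.1 := M2.eq_of_len (ha.ZL.trans ha.le) ha.DZ (by rw [← e2, e1])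
    exact (M6.TR_all (by rw [e1]; exact ha.nD.2) (Grp.ext (e3.symm.trans e1.symm))).symm
  refine KR.node_cond (b := fun a : TI => (els a.W).any fun z => Grp.le (a.G.fix (a.G.orb z)) a.D)
    (by fun_prop) ?_ ?_
  · refine KR.node_mono h1 fun a _ hu => ⟨Grp.le_false.1 hu.1.2, ?_⟩
    simpa using hu.2
  refine KR.node_cond (b := fun a : TI => eqb (a.G.top a.D) a.G) (by fun_prop) ?_ ?_
  swap
  · exact KR.node_mono h2 fun a _ hu e => (eqb_false _ _).1 hu.2 (Grp.ext e)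
  refine KR.node_cond (b := fun a : TI => eqb (a.Z.top a.D) a.Z) (by fun_prop) ?_ ?_
  swap
  · refine leaf _ fun a ha hu l hl e => (eqb_false _ _).1 hu.2 (Grp.ext ?_)
    have e1 : top a.G.1 a.D.1 = a.G.1 := congrArg Grp.val ((eqb_iff _ _).1 hu.1.2)
    have e2 := M4.cj_top l a.G.1 a.D.1
    rw [e1, e, M1.cj_of_nm ha.nD.2 hl] at e2
    exact e2.symm
  refine KR.node_mono (U' := U3) ?_ fun a ha hu => ⟨Grp.le_false.1 hu.1.1.1.2,
    Nat.eq_of_beq_eq_true hu.1.1.1.1.2,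
    (M4.top_eq_iff (ha.GlL.trans ha.le) ha.DG).1 (congrArg Grp.val ((eqb_iff _ _).1 hu.1.2)),
    (M4.top_eq_iff (ha.ZL.trans ha.le) ha.DZ).1 (congrArg Grp.val ((eqb_iff _ _).1 hu.2)),
    by simpa using hu.1.1.2⟩
  have jj : ∀ (a : TI) (X : Grp), tV a → a.D.1 ≤ X.1 → X.1 ≤ a.L.1 → X.1 ≤ ⁅X.1, X.1⁆ ⊔ a.D.1 →
      (infL X (mp (a.1, X, a.D, kers X a.W))).1 = JJ X a.D a.W := fun a X ha hD hL hp => by
    have hN : NI X.1 a.D.1 := ⟨hD, M1.nm_mono hL ha.nD.2⟩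
    exact infL_jj (hL.trans ha.le) hN hp
      (hms _ _ _ _ (M5.kers_ok a.W (hL.trans ha.le) hN hp)).2
  refine KR.node_cond (b := fun a : TI => eqb (infL a.G (mp (a.1, a.G, a.D, kers a.G a.W))) a.D)
    (by fun_prop) ?_ ?_
  swap
  · refine KR.node_mono h3 fun a ha hu => ⟨hu.1, fun e => (eqb_false _ _).1 hu.2 (Grp.ext ?_)⟩
    rw [jj a a.G ha ha.DG ha.GlL hu.1.2.2.1, e]
  refine KR.node_cond (b := fun a : TI => eqb (infL a.Z (mp (a.1, a.Z, a.D, kers a.Z a.W))) a.D)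
    (by fun_prop) ?_ ?_
  · refine KR.node_mono h4 fun a ha hu => ⟨hu.1.1, ?_, ?_⟩
    · rw [← jj a a.G ha ha.DG ha.GlL hu.1.1.2.2.1, (eqb_iff _ _).1 hu.1.2]
    · rw [← jj a a.Z ha ha.DZ ha.ZL hu.1.1.2.2.2.1, (eqb_iff _ _).1 hu.2]
  · refine leaf _ fun a ha hu l hl e => (eqb_false _ _).1 hu.2 (Grp.ext ?_)
    have e1 : JJ a.G a.D a.W = a.D.1 := by
      rw [← jj a a.G ha ha.DG ha.GlL hu.1.1.2.2.1, (eqb_iff _ _).1 hu.1.2]
    have e2 := M5.jj_cj (G := a.G) (D := a.D) (ha.inv hl)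
    have e3 : Grp.cj l a.G = a.Z := Grp.ext e
    have e4 : Grp.cj l a.D = a.D := Grp.ext (M1.cj_of_nm ha.nD.2 hl)
    rw [e1, e3, e4, M1.cj_of_nm ha.nD.2 hl] at e2
    rw [jj a a.Z ha ha.DZ ha.ZL hu.1.1.2.2.2.1, e2]

theorem up_one [K1] (n : ℕ) : up (1 : Perm (Fin n)) = 1 := by
  have := K1.up_mul (1 : Perm (Fin n)) 1
  rw [mul_one] at this
  exact left_eq_mul.1 this

theorem up_inv [K1] {n : ℕ} (σ : Perm (Fin n)) : up σ⁻¹ = (up σ)⁻¹ :=
  eq_inv_of_mul_eq_one_left (by rw [← K1.up_mul, inv_mul_cancel, up_one])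

theorem ofL_le {n : ℕ} (l : List (Perm (Fin n))) : (Grp.ofL (l.map up)).1 ≤ Sy n := by
  rw [Grp.ofL_val, Subgroup.closure_le]
  intro x hx
  obtain ⟨σ, -, rfl⟩ := List.mem_map.1 hx
  exact mkP_mem _ _

theorem cj_up [K1] {n : ℕ} (l : List (Perm (Fin n))) (σ : Perm (Fin n)) :
    cj (up σ) (Grp.ofL (l.map up)).1 = (Grp.ofL (l.map up)).1 ↔
      σ ∈ Subgroup.normalizer (gen l : Set (Perm (Fin n))) := by
  rw [Subgroup.mem_normalizer_iff'', SetLike.ext_iff]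
  have key : ∀ τ : Perm (Fin n), up τ ∈ cj (up σ) (Grp.ofL (l.map up)).1 ↔
      σ⁻¹ * τ * σ ∈ gen l := fun τ => by
    rw [mem_cj, K1.mem_gen_up, K1.up_mul, K1.up_mul, up_inv]
  refine ⟨fun h τ => by rw [← key, h, K1.mem_gen_up], fun h x => ?_⟩
  by_cases hx : x ∈ Sy n
  · obtain ⟨τ, rfl⟩ := K1.up_surj hx
    rw [key, ← h, K1.mem_gen_up]
  · refine iff_of_false (fun hc => hx ?_) fun hc => hx (ofL_le l hc)
    have hσ : up σ ∈ Sy n := mkP_mem _ _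
    simpa [mul_assoc] using mul_mem (mul_mem hσ (ofL_le l (mem_cj.1 hc))) (inv_mem hσ)

theorem lift_list [K1] {n : ℕ} (l : List FP) (h : ∀ g ∈ l, g ∈ Sy n) :
    ∃ out : List (Perm (Fin n)), out.map up = l := by
  induction l with
  | nil => exact ⟨[], rfl⟩
  | cons g l ih =>
    obtain ⟨σ, hσ⟩ := K1.up_surj (h g (by simp))
    obtain ⟨o, ho⟩ := ih fun x hx => h x (by simp [hx])
    exact ⟨σ :: o, by simp [hσ, ho]⟩

end TransB

open TransB in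
theorem b_trans [KA] (h : Prim) (hm : S_maxprod) (h1 : S_t1) (h2 : S_t2) (h3 : S_t3a)
    (h4 : S_t3b) : S_trans := by
  refine KR.rec2 (10 * SBp + (2 * X + 1) * (X * X) ^ 3 + 2 * X + 10) (node h hm h1 h2 h3 h4) ?_
  rintro ⟨n, L, D, G, Z, W⟩ ha
  have ha' : VTr n L.1 D.1 G.1 Z.1 W := ha
  have s1 := KG.sz_Grp ha'.le
  have s2 := KG.sz_Grp (ha'.nD.1.trans ha'.le)
  have s3 := KG.sz_Grp (ha'.GlL.trans ha'.le)
  have s4 := KG.sz_Grp (ha'.ZL.trans ha'.le)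
  have s5 := (K1.sz_FS ha'.Wn).trans (small_le_SB n)
  have s6 : sz (TR L G Z) ≤ SB n := KG.sz_Cos fun x hx => ha'.le (mem_TR.1 hx).1
  have s7 : W.card ≤ n := by
    simpa using Finset.card_le_card fun w hw => Finset.mem_range.2 (ha'.Wn w hw)
  have s8 : G.len - D.len ≤ n * n := (Nat.sub_le _ _).trans (M2.len_le (ha'.GlL.trans ha'.le))
  have s9 : (2 * W.card + 1) * (G.len - D.len) ^ 3 ≤ (2 * n + 1) * (n * n) ^ 3 := by gcongr
  simp only [tN, tF, tC, TI.L, TI.D, TI.G, TI.Z, TI.W, sz_pair, sz_nat, eval_add, eval_mul,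
    eval_pow, eval_X, eval_ofNat, eval_one, eval_SBp]
  omega

open TransB in
theorem b_final [KA] (h : Prim) (ht : S_trans) (he : S_export) : S_final := by
  obtain ⟨g, hg, hs⟩ := ht
  have hi := h.inter
  unfold S_inter at hi
  let cv : ℕ × Tabs → Grp := fun p => Grp.ofL (p.2.map fun t => mkP p.1 fun x => app t x)
  have hcv : PT cv := by fun_prop
  obtain ⟨Q, A, P, q1, q2, q3⟩ := he (fun x : NIn =>
    ((g (x.1, Grp.sy x.1, Grp.bot, cv (x.1, x.2.1), cv (x.1, x.2.1), Finset.range x.1)).inter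
      (cv (x.1, x.2.2))).grp.gens.map fun γ => (List.range x.1).map fun i => γ • i) (by fun_prop)
  refine ⟨Q, A, P, q1, q2, fun n gs hs' t ht => ⟨(q3 _ t ht).1, fun hl => ?_⟩⟩
  rw [(q3 _ t ht).2 hl]
  have ecv : ∀ l : List (Perm (Fin n)), cv (n, l.map tab) = Grp.ofL (l.map up) := fun l => by
    simp only [cv, List.map_map]
    rfl
  simp only [ecv]
  have hV : tV (n, Grp.sy n, Grp.bot, Grp.ofL (gs.map up), Grp.ofL (gs.map up), Finset.range n) :=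
    { le := le_rfl
      nD := ⟨bot_le, fun l _ d hd => by
        have : d = 1 := hd
        rw [this, mul_one, mul_inv_cancel]; exact one_mem _⟩
      DG := bot_le
      DZ := bot_le
      GlL := ofL_le gs
      ZL := ofL_le gs
      Wn := fun w hw => Finset.mem_range.1 hw
      inv := fun x hx y => by simpa [TI.W] using smul_lt hx
      fai := fun x hx => FP.ext fun y => by
        by_cases hy : y < n
        · exact hx.2 y (by simpa [TI.W] using hy)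
        · exact ofL_le gs hx.1 y (not_lt.1 hy) }
  rw [hs _ hV]
  show ∃ out : List (Perm (Fin n)), (((TR (Grp.sy n) (Grp.ofL (gs.map up))
    (Grp.ofL (gs.map up))).inter (Grp.ofL (hs'.map up))).grp.gens.map _) = _ ∧ _
  set C := (TR (Grp.sy n) (Grp.ofL (gs.map up)) (Grp.ofL (gs.map up))).inter
    (Grp.ofL (hs'.map up)) with hC
  have hC1 : (1 : FP) ∈ C := ⟨mem_TR.2 ⟨one_mem _, M1.cj_one _⟩, one_mem _⟩
  have hCg : ∀ x, x ∈ C.grp.1 ↔ x ∈ C := fun x => by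
    refine ⟨fun hx => ?_, fun hx => Cos.mem_grp.2 (Or.inr ⟨1, hC1, x, hx, by simp⟩)⟩
    rcases Cos.mem_grp.1 hx with rfl | ⟨a, ha, b, hb, rfl⟩
    · exact hC1
    · have := C.2.2 1 hC1 a ha b hb
      rwa [one_mul] at this
  obtain ⟨out, ho⟩ := lift_list (n := n) C.grp.gens fun x hx =>
    ofL_le hs' (Cos.mem_inter.1 ((hCg x).1 (KG.mem_of_gens hx))).2
  refine ⟨out, ?_, Subgroup.ext fun σ => ?_⟩
  · rw [← ho, List.map_map]
    exact List.map_congr_left fun σ _ => K1.tab_up σ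
  · rw [K1.mem_gen_up, ho, Grp.ofL_val, KG.closure_gens, hCg, hC, Cos.mem_inter, mem_TR, cj_up,
      Subgroup.mem_inf, K1.mem_gen_up hs']
    exact ⟨fun h => ⟨h.2, h.1.2⟩, fun h => ⟨⟨mkP_mem _ _, h.2⟩, h.1⟩⟩

end

end Pool.Agent.Lib.E5
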