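import Pool.Agent.Lib.E5.B_AB2
import Pool.Agent.Lib.E5.B_ABEL
import Pool.Agent.Lib.E5.B_CJ
import Pool.Agent.Lib.E5.B_COMP
import Pool.Agent.Lib.E5.B_COPR
import Pool.Agent.Lib.E5.B_EMB
import Pool.Agent.Lib.E5.B_EXP
import Pool.Agent.Lib.E5.B_GF
import Pool.Agent.Lib.E5.B_GR
import Pool.Agent.Lib.E5.B_HATUP
import Pool.Agent.Lib.E5.B_HOM
import Pool.Agent.Lib.E5.B_INT
import Pool.Agent.Lib.E5.B_K1
import Pool.Agent.Lib.E5.B_K3
import Pool.Agent.Lib.E5.B_K5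
import Pool.Agent.Lib.E5.B_KG
import Pool.Agent.Lib.E5.B_KL
import Pool.Agent.Lib.E5.B_KO
import Pool.Agent.Lib.E5.B_KR
import Pool.Agent.Lib.E5.B_M1
import Pool.Agent.Lib.E5.B_M2
import Pool.Agent.Lib.E5.B_M3
import Pool.Agent.Lib.E5.B_M3h
import Pool.Agent.Lib.E5.B_M4
import Pool.Agent.Lib.E5.B_M5
import Pool.Agent.Lib.E5.B_M6
import Pool.Agent.Lib.E5.B_M7
import Pool.Agent.Lib.E5.B_MAX
import Pool.Agent.Lib.E5.B_PAB
import Pool.Agent.Lib.E5.B_ROUND
import Pool.Agent.Lib.E5.B_SPLIT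
import Pool.Agent.Lib.E5.B_STT
import Pool.Agent.Lib.E5.B_SUB
import Pool.Agent.Lib.E5.B_T1
import Pool.Agent.Lib.E5.B_T2
import Pool.Agent.Lib.E5.B_T3B
import Pool.Agent.Lib.E5.B_TRANS

/-! E5: assembly. -/

namespace Pool.Agent.Lib.E5

theorem ka : KA := by
  have k1 := b_k1
  have kg := b_kg
  have kl := b_kl
  have m1 := b_m1
  have m2 := b_m2
  have m3 := b_m3
  have m3h := b_m3h
  have m4 := b_m4
  have m6 := b_m6
  have m5 := b_m5
  have m7 := b_m7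
  have k3 := b_k3
  have k5 := b_k5
  have ko := b_ko
  have kr := b_kr
  exact { k1, kg, kl, k3, k5, m1, m2, m3, m3h, m4, m6, m5, m7, ko, kr with }

theorem prim [KA] : Prim :=
  have gf0 := b_gf0 b_stt
  have gf := b_gf gf0
  have inter := b_inter gf
  have cjp := b_cjp gf
  ⟨b_stt, inter, b_inf inter, b_infL (b_inf inter), b_partt gf0, cjp, b_cf cjp, b_cf0 cjp, b_gr gf,
    b_enormt inter⟩

theorem final : S_final :=
  have := ka
  have h := prim
  have mp := b_maxprod h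
  have em := b_embed h (b_round h mp)
  have co := b_comp h em (b_hom h) (b_copr h) b_splitY (b_splitV h)
  have ab := b_abel h (b_abel2 h (b_pabel h em (b_sub h) co)) (b_hatup h)
  b_final h (b_trans h mp (b_t1 h) (b_t2 h ab) (b_t3a h mp) (b_t3b h mp)) b_export

end Pool.Agent.Lib.E5
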