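import Pool.Agent.Lib.E5.Defs
import Pool.Agent.Lib.E5.Stmt

/-! E5: the statements of the blocks. -/

namespace Pool.Agent.Lib.E5

open Equiv Pool.Agent.Lib.helper80 Pool.Agent.Lib.MP_e519cf_lc Polynomial

/-! ### Polynomial-time facts -/

/-- Block K1: permutations, finite sets, arithmetic. -/
class K1 : Prop where
  pt_smul : PT fun p : FP × ℕ => p.1 • p.2
  pt_mul : PT fun p : FP × FP => p.1 * p.2
  pt_inv : PT fun g : FP => g⁻¹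
  pt_pow : PT fun p : FP × ℕ => p.1 ^ p.2
  pt_bd : PT bd
  pt_eqFP : PT fun p : FP × FP => eqb p.1 p.2
  pt_mkF : ∀ {α : Type} [Enc α] {n : α → ℕ} {F : α → FP}, PT n → (∀ a, F a ∈ Sy (n a)) →
    (PT fun p : α × ℕ => F p.1 • p.2) → PT F
  pt_mkP : ∀ {α : Type} [Enc α] {n : α → ℕ} {f : α → ℕ → ℕ}, PT n →
    (PT fun p : α × ℕ => f p.1 p.2) → PT fun a => mkP (n a) (f a)
  pt_swp : PT fun p : ℕ × ℕ => swp p.1 p.2
  pt_div : PT fun p : ℕ × ℕ => p.1 / p.2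
  pt_mod : PT fun p : ℕ × ℕ => p.1 % p.2
  pt_max : PT fun p : ℕ × ℕ => max p.1 p.2
  pt_sum : PT fun l : List ℕ => l.sum
  pt_eval : ∀ P : ℕ[X], PT fun n : ℕ => P.eval n
  pt_els : PT els
  pt_fil : ∀ {α : Type} [Enc α] {n : α → ℕ} {f : α → ℕ → Bool}, PT n →
    (PT fun p : α × ℕ => f p.1 p.2) → PT fun a => fil (n a) (f a)
  pt_smem : PT fun p : ℕ × Finset ℕ => smem p.1 p.2
  pt_card : PT fun S : Finset ℕ => S.card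
  pt_frange : PT Finset.range
  pt_erase : PT fun p : Finset ℕ × ℕ => p.1.erase p.2
  pt_funion : PT fun p : Finset ℕ × Finset ℕ => p.1 ∪ p.2
  pt_single : PT fun x : ℕ => ({x} : Finset ℕ)
  pt_toFinset : PT fun l : List ℕ => l.toFinset
  pt_eqFS : PT fun p : Finset ℕ × Finset ℕ => eqb p.1 p.2
  sz_FP : ∀ {n : ℕ} {g : FP}, g ∈ Sy n → sz g ≤ n * (2 * n + 1)
  bd_le_sz : ∀ g : FP, bd g ≤ sz g
  sz_FS : ∀ {n : ℕ} {S : Finset ℕ}, (∀ x ∈ S, x < n) → sz S ≤ n * (2 * n + 1)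
  lt_sz_FS : ∀ {x : ℕ} {S : Finset ℕ}, x ∈ S → x < sz S
  finite_Sy : ∀ {n : ℕ} {H : SG}, H ≤ Sy n → Finite H
  card_Sy : ∀ n : ℕ, Nat.card (Sy n) = n.factorial
  up_smul : ∀ {n : ℕ} (σ : Perm (Fin n)) (x : Fin n), up σ • (x : ℕ) = σ x
  up_mul : ∀ {n : ℕ} (σ τ : Perm (Fin n)), up (σ * τ) = up σ * up τ
  up_inj : ∀ {n : ℕ}, Function.Injective (up : Perm (Fin n) → FP)
  up_surj : ∀ {n : ℕ} {g : FP}, g ∈ Sy n → ∃ σ : Perm (Fin n), up σ = g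
  tab_up : ∀ {n : ℕ} (σ : Perm (Fin n)), ((List.range n).map fun x => up σ • x) = tab σ
  mem_gen_up : ∀ {n : ℕ} (l : List (Perm (Fin n))) (σ : Perm (Fin n)),
    σ ∈ gen l ↔ up σ ∈ (Grp.ofL (l.map up)).1

/-- Block KG: canonical generators and representatives. -/
class KG : Prop where
  closure_gens : ∀ H : Grp, Subgroup.closure {x | x ∈ H.gens} = H.1
  mem_of_gens : ∀ {H : Grp} {g : FP}, g ∈ H.gens → g ∈ H.1
  /-- the generators are strong for the base `0, 1, 2, ...` -/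
  gens_strong : ∀ {H : Grp} {h : FP} {i : ℕ}, h ∈ H.1 → (∀ k < i, h • k = k) → h • i ≠ i →
    ∃ g ∈ H.gens, (∀ k < i, g • k = k) ∧ g • i = h • i
  closure_gens_fx : ∀ (H : Grp) (i : ℕ),
    Subgroup.closure {x | x ∈ H.gens ∧ ∀ k < i, x • k = k} = H.1 ⊓ fx {k | k < i}
  length_gens : ∀ H : Grp, H.gens.length ≤ H.bd * H.bd
  rd_unique : ∀ {H : SG} {g h : FP}, Rd H g → Rd H h → g⁻¹ * h ∈ H → g = h
  rd_exists : ∀ (H : Grp) (g : FP), ∃ h, g⁻¹ * h ∈ H.1 ∧ Rd H.1 h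
  rep_mem : ∀ {C : Cos} {x : FP}, x ∈ C → C.rep ∈ C
  rep_emp : ∀ {C : Cos}, C.isE = true → C.rep = 1
  grp_emp : ∀ {C : Cos}, C.isE = true → C.grp = Grp.bot
  eq_emp : ∀ {C : Cos}, C.isE = true → C = Cos.emp
  mem_cos : ∀ {C : Cos} {x : FP}, C.isE = false → (x ∈ C ↔ C.rep⁻¹ * x ∈ C.grp.1)
  grp_lc : ∀ (g : FP) (H : Grp), (Cos.lc g H).grp = H
  grp_le : ∀ {C : Cos} {K : SG}, (∀ x ∈ C, x ∈ K) → C.grp.1 ≤ K
  rep_mem_of : ∀ {C : Cos} {K : SG}, (∀ x ∈ C, x ∈ K) → C.rep ∈ K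
  tr_mem : ∀ (H : Grp) (x y : ℕ), tr H x y ∈ H.1
  tr_smul : ∀ {H : Grp} {x y : ℕ}, So H.1 x y → tr H x y • x = y
  sz_Grp : ∀ {n : ℕ} {H : Grp}, H.1 ≤ Sy n → sz H ≤ SB n
  gbd_le_sz : ∀ H : Grp, H.bd ≤ sz H
  sz_Cos : ∀ {n : ℕ} {C : Cos}, (∀ x ∈ C, x ∈ Sy n) → sz C ≤ SB n
  pt_gens : PT Grp.gens
  pt_gbd : PT Grp.bd
  pt_isE : PT Cos.isE
  pt_crep : PT Cos.rep
  pt_grp : PT Cos.grp

/-- Block KL: Schreier-Sims and normalisation. -/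
class KL : Prop where
  pt_ofL : PT Grp.ofL
  pt_lc : PT fun p : FP × Grp => Cos.lc p.1 p.2

/-- Block K3: the standard operations on groups and cosets. -/
class K3 : Prop where
  pt_mem : PT fun p : FP × Grp => Grp.mem p.1 p.2
  pt_le : PT fun p : Grp × Grp => Grp.le p.1 p.2
  pt_eqG : PT fun p : Grp × Grp => eqb p.1 p.2
  pt_sup : PT fun p : Grp × Grp => p.1.sup p.2
  pt_cj : PT fun p : FP × Grp => Grp.cj p.1 p.2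
  pt_sy : PT Grp.sy
  pt_fix : PT fun p : Grp × Finset ℕ => p.1.fix p.2
  pt_trC : PT fun p : Grp × ℕ × ℕ => trC p.1 p.2.1 p.2.2
  pt_tr : PT fun p : Grp × ℕ × ℕ => tr p.1 p.2.1 p.2.2
  pt_orb : PT fun p : Grp × ℕ => p.1.orb p.2
  pt_rep : PT fun p : Grp × ℕ => p.1.rep p.2
  pt_reps : PT fun p : Grp × ℕ => p.1.reps p.2
  pt_sw : PT sw
  pt_res : PT fun p : Finset ℕ × FP => res p.1 p.2
  pt_prP : PT fun p : ℕ × FP => prP p.1 p.2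
  pt_con : PT fun p : Finset ℕ × Grp => Grp.con p.1 p.2
  pt_hat : PT fun p : Grp × Grp => Grp.hat p.1 p.2
  pt_gb : PT fun p : Grp × ℕ => gb p.1 p.2
  pt_kers : PT fun p : Grp × Finset ℕ => kers p.1 p.2
  pt_RH : PT RH
  pt_lft : PT fun p : ℕ × FP => lft p.1 p.2
  pt_rgt : PT fun p : ℕ × FP => rgt p.1 p.2
  pt_lmul : PT fun p : FP × Cos => Cos.lmul p.1 p.2
  pt_rmul : PT fun p : Cos × Grp => p.1.rmul p.2
  pt_ccon : PT fun p : Finset ℕ × Cos => Cos.con p.1 p.2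
  pt_union : PT Cos.union
  pt_symB : PT symB

/-- Block K5: commutators, layers, length. -/
class K5 : Prop where
  pt_comm : PT fun p : Grp × Grp => p.1.comm p.2
  pt_yq : PT fun p : ℕ × Grp × Grp => Grp.yq p.1 p.2.1 p.2.2
  pt_pq : PT fun p : Grp × Grp => Grp.pq p.1 p.2
  pt_top : PT fun p : Grp × Grp => Grp.top p.1 p.2
  pt_ea : PT fun p : ℕ × Grp × Grp => Grp.ea p.1 p.2.1 p.2.2
  pt_len : PT Grp.len

/-! ### Group theory -/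

/-- Block M1: conjugation, products, commutators. -/
class M1 : Prop where
  cj_one : ∀ H : SG, cj 1 H = H
  cj_mul : ∀ (g h : FP) (H : SG), cj (g * h) H = cj g (cj h H)
  cj_inv_cj : ∀ (g : FP) (H : SG), cj g⁻¹ (cj g H) = H
  cj_cj_inv : ∀ (g : FP) (H : SG), cj g (cj g⁻¹ H) = H
  cj_bot : ∀ g : FP, cj g ⊥ = ⊥
  cj_sup : ∀ (g : FP) (A B : SG), cj g (A ⊔ B) = cj g A ⊔ cj g B
  cj_inf : ∀ (g : FP) (A B : SG), cj g (A ⊓ B) = cj g A ⊓ cj g B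
  cj_comm : ∀ (g : FP) (A B : SG), cj g ⁅A, B⁆ = ⁅cj g A, cj g B⁆
  cj_sSup : ∀ (g : FP) (S : Set SG), cj g (sSup S) = sSup (cj g '' S)
  cj_sInf : ∀ (g : FP) (S : Set SG), cj g (sInf S) = sInf (cj g '' S)
  cj_closure : ∀ (g : FP) (S : Set FP),
    cj g (Subgroup.closure S) = Subgroup.closure ((fun x => g * x * g⁻¹) '' S)
  cj_le_cj : ∀ {g : FP} {A B : SG}, cj g A ≤ cj g B ↔ A ≤ B
  cj_inj : ∀ {g : FP} {A B : SG}, cj g A = cj g B ↔ A = B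
  cj_fx : ∀ (g : FP) (S : Set ℕ), cj g (fx S) = fx ((fun x => g • x) '' S)
  cj_sst : ∀ (g : FP) (S : Set ℕ), cj g (sst S) = sst ((fun x => g • x) '' S)
  cj_of_nm : ∀ {L D : SG} {l : FP}, Nm L D → l ∈ L → cj l D = D
  nm_of_cj : ∀ {L D : SG}, (∀ l ∈ L, cj l D = D) → Nm L D
  cj_of_mem : ∀ {H : SG} {l : FP}, l ∈ H → cj l H = H
  cj_le_of_mem : ∀ {H L : SG} {l : FP}, l ∈ L → H ≤ L → cj l H ≤ L
  nm_closure : ∀ {S : Set FP} {D : SG}, (∀ l ∈ S, cj l D = D) → Nm (Subgroup.closure S) D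
  nm_sup_left : ∀ {A B D : SG}, Nm A D → Nm B D → Nm (A ⊔ B) D
  nm_sup : ∀ {L A B : SG}, Nm L A → Nm L B → Nm L (A ⊔ B)
  nm_inf : ∀ {L A B : SG}, Nm L A → Nm L B → Nm L (A ⊓ B)
  nm_comm : ∀ {L A B : SG}, Nm L A → Nm L B → Nm L ⁅A, B⁆
  nm_mono : ∀ {L K D : SG}, K ≤ L → Nm L D → Nm K D
  nm_of_le : ∀ {L D : SG}, L ≤ D → Nm L D
  ea_nm : ∀ {p : ℕ} {X D K : SG}, EA p X D → D ≤ K → K ≤ X → Nm X K
  ea_cj : ∀ {p : ℕ} {X D : SG} (g : FP), EA p X D → EA p (cj g X) (cj g D)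
  ea_sup : ∀ {p : ℕ} {X D Y : SG}, EA p X D → Nm X Y → D ≤ Y → EA p (X ⊔ Y) Y
  ea_inf : ∀ {p : ℕ} {X D : SG} (Y : SG), EA p X D → EA p (X ⊓ Y) (D ⊓ Y)
  ea_mono : ∀ {p : ℕ} {X D Y K : SG}, EA p X D → Y ≤ X → D ≤ K → K ≤ Y → EA p Y K
  ea_closure : ∀ {p : ℕ} {S : Set FP} {D : SG}, (∀ a ∈ S, cj a D = D) →
    (∀ a ∈ S, ∀ b ∈ S, a * b * a⁻¹ * b⁻¹ ∈ D) → (∀ a ∈ S, a ^ p ∈ D) →
      EA p (Subgroup.closure S ⊔ D) D
  mem_of_coprime : ∀ {p q : ℕ} {D : SG} {a : FP}, p.Coprime q → a ^ p ∈ D → a ^ q ∈ D → a ∈ D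
  mem_sup_nm : ∀ {A B : SG} {x : FP}, Nm A B → (x ∈ A ⊔ B ↔ ∃ a ∈ A, ∃ b ∈ B, x = a * b)
  mem_sup_nm' : ∀ {A B : SG} {x : FP}, Nm B A → (x ∈ A ⊔ B ↔ ∃ a ∈ A, ∃ b ∈ B, x = a * b)
  dedekind : ∀ {A B C : SG}, Nm A B → A ≤ C → (A ⊔ B) ⊓ C = A ⊔ (B ⊓ C)
  dedekind' : ∀ {A B C : SG}, Nm A B → B ≤ C → (A ⊔ B) ⊓ C = (A ⊓ C) ⊔ B
  comm_le : ∀ {Q D A K : SG}, NI Q D → NI Q A → NI Q K → ⁅D ⊔ A, D ⊔ K⁆ ≤ D ⊔ (A ⊓ K)
  comm_sup_le : ∀ {R D : SG}, Nm R D → ⁅R ⊔ D, R ⊔ D⁆ ≤ ⁅R, R⁆ ⊔ D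
  comm_self_le : ∀ R : SG, ⁅R, R⁆ ≤ R

/-- Block M2: finiteness arguments and length. -/
class M2 : Prop where
  sol_le : ∀ {n : ℕ} {E D : SG}, E ≤ Sy n → NI E D → Sol E D → E ≤ ⁅E, E⁆ ⊔ D → E ≤ D
  eq_of_cj_le : ∀ {n : ℕ} {X : SG} {g : FP}, X ≤ Sy n → cj g X ≤ X → cj g X = X
  len_lt : ∀ {n : ℕ} {A B : SG}, B ≤ Sy n → A < B → len A < len B
  len_mono : ∀ {n : ℕ} {A B : SG}, B ≤ Sy n → A ≤ B → len A ≤ len B
  eq_of_len : ∀ {n : ℕ} {A B : SG}, B ≤ Sy n → A ≤ B → len B ≤ len A → A = B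
  len_sup : ∀ {n : ℕ} {A B : SG}, A ≤ Sy n → B ≤ Sy n → Nm A B →
    len (A ⊔ B) + len (A ⊓ B) = len A + len B
  len_le : ∀ {n : ℕ} {H : SG}, H ≤ Sy n → len H ≤ n * n
  len_cj : ∀ (g : FP) (H : SG), len (cj g H) = len H
  len_bot : len ⊥ = 0
  /-- `E / D` is a finite `p`-group, hence nilpotent -/
  nilp : ∀ {n p : ℕ} {E Y D : SG}, E ≤ Sy n → p.Prime → NI E D → NI E Y → EA p Y D →
    (∀ e ∈ E, e ^ p ∈ Y) → Y ≤ ⁅Y, E⁆ ⊔ D → Y ≤ D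
  /-- Sylow conjugacy of complements -/
  sylow : ∀ {n p q : ℕ} {X Z Y D : SG}, X ⊔ Y ≤ Sy n → p.Prime → q.Prime → q ≠ p →
    NI (X ⊔ Y) D → NI (X ⊔ Y) Y → Z ⊔ Y = X ⊔ Y → X ⊓ Y = D → Z ⊓ Y = D → EA p X D → EA p Z D →
      EA q Y D → ∃ y ∈ Y, cj y X = Z

/-- Block M3: orbits, restrictions, the two halves. -/
class M3 : Prop where
  sw_smul : ∀ n x : ℕ, sw n • x = if x < n then x + n else if x < 2 * n then x - n else x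
  sw_inv : ∀ n : ℕ, (sw n)⁻¹ = sw n
  res_smul : ∀ {S : Finset ℕ} {g : FP}, g ∈ sst S → ∀ x, res S g • x = if x ∈ S then g • x else x
  res_one : ∀ S : Finset ℕ, res S 1 = 1
  res_mul : ∀ {S : Finset ℕ} {g h : FP}, g ∈ sst S → h ∈ sst S → res S (g * h) = res S g * res S h
  res_inv : ∀ {S : Finset ℕ} {g : FP}, g ∈ sst S → res S g⁻¹ = (res S g)⁻¹
  res_pow : ∀ {S : Finset ℕ} {g : FP} (k : ℕ), g ∈ sst S → res S (g ^ k) = res S g ^ k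
  res_Sy : ∀ {n : ℕ} (S : Finset ℕ) {g : FP}, g ∈ Sy n → res S g ∈ Sy n
  res_cj : ∀ {S T : Finset ℕ} {g l : FP}, g ∈ sst S → (∀ x, x ∈ S ↔ l • x ∈ T) →
    l * res S g * l⁻¹ = res T (l * g * l⁻¹)
  lft_mem : ∀ {n : ℕ} {g : FP}, g ∈ sst (Finset.range n) → lft n g ∈ Sy n
  mem_RH : ∀ {n x : ℕ}, x ∈ RH n ↔ n ≤ x ∧ x < 2 * n
  sst_RH : ∀ {n : ℕ} {g : FP}, g ∈ Sy (2 * n) → g ∈ sst (Finset.range n) → g ∈ sst (RH n)
  lft_mul_rgt : ∀ {n : ℕ} {g : FP}, g ∈ Sy (2 * n) → g ∈ sst (Finset.range n) →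
    lft n g * rgt n g = g
  prP_smul : ∀ {N a b : ℕ} {g : FP}, g ∈ Sy N → a < N → b < N →
    prP N g • (a * N + b) = (g • a) * N + g • b
  prP_mul : ∀ {N : ℕ} {g h : FP}, g ∈ Sy N → h ∈ Sy N → prP N (g * h) = prP N g * prP N h
  so_refl : ∀ (H : SG) (x : ℕ), So H x x
  so_symm : ∀ {H : SG} {x y : ℕ}, So H x y → So H y x
  so_trans : ∀ {H : SG} {x y z : ℕ}, So H x y → So H y z → So H x z
  so_cj : ∀ (g : FP) (H : SG) (x y : ℕ), So (cj g H) (g • x) (g • y) ↔ So H x y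
  po_of_nm : ∀ {H : SG} {g : FP}, cj g H = H → Po H g
  le_sst_orb : ∀ (H : Grp) (x : ℕ), H.1 ≤ sst (H.orb x)
  rep_eq : ∀ {H : Grp} {x y : ℕ}, So H.1 x y → H.rep x = H.rep y
  orb_congr : ∀ {H K : Grp}, (∀ x y, So H.1 x y ↔ So K.1 x y) → ∀ x, H.orb x = K.orb x
  rep_congr : ∀ {H K : Grp}, (∀ x y, So H.1 x y ↔ So K.1 x y) → ∀ x, H.rep x = K.rep x
  mem_con : ∀ {S : Finset ℕ} {H : Grp} {x : FP}, H.1 ≤ sst S →
    (x ∈ (H.con S).1 ↔ ∃ h ∈ H.1, res S h = x)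
  con_le : ∀ {n : ℕ} (S : Finset ℕ) {H : Grp}, H.1 ≤ Sy n → (H.con S).1 ≤ Sy n
  mem_symB : ∀ {n : ℕ} {g : FP}, g ∈ (symB n).1 ↔ g ∈ Sy (2 * n) ∧ g ∈ fx (Finset.range n)
  rgt_mem : ∀ {n : ℕ} {g : FP}, g ∈ Sy (2 * n) → g ∈ sst (Finset.range n) → rgt n g ∈ (symB n).1
  comm_halves : ∀ {n : ℕ} {a b : FP}, a ∈ Sy n → b ∈ (symB n).1 → a * b = b * a
  lft_prod : ∀ {n : ℕ} {a b : FP}, a ∈ Sy n → b ∈ (symB n).1 → lft n (a * b) = a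
  rgt_prod : ∀ {n : ℕ} {a b : FP}, a ∈ Sy n → b ∈ (symB n).1 → rgt n (a * b) = b
  mem_prod : ∀ {n : ℕ} {A J : SG} {g : FP}, A ≤ Sy n → J ≤ (symB n).1 →
    (g ∈ A ⊔ J ↔ g ∈ Sy (2 * n) ∧ g ∈ sst (Finset.range n) ∧ lft n g ∈ A ∧ rgt n g ∈ J)
  /-- an abelian group is regular on each orbit -/
  ab_reg : ∀ {M : SG} {g h : FP} {a x : ℕ}, (∀ u ∈ M, ∀ v ∈ M, u * v = v * u) → g ∈ M → h ∈ M →
    g • a = h • a → So M a x → g • x = h • x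

/-- Block M3h: products of constituents, Frattini argument. -/
class M3h : Prop where
  hat_eq : ∀ {X H : Grp}, (∀ h ∈ H.1, ∀ x, So X.1 x (h • x)) →
    (X.hat H).1 = Subgroup.closure {y | ∃ a, ∃ h ∈ H.1, res (X.orb a) h = y}
  le_hat : ∀ {X H : Grp}, (∀ h ∈ H.1, ∀ x, So X.1 x (h • x)) → H.1 ≤ (X.hat H).1
  hat_so : ∀ {X H : Grp} {y : FP}, (∀ h ∈ H.1, ∀ x, So X.1 x (h • x)) → y ∈ (X.hat H).1 →
    ∀ x, So H.1 x (y • x)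
  hat_res : ∀ {X H : Grp} {y : FP} (a : ℕ), (∀ h ∈ H.1, ∀ x, So X.1 x (h • x)) →
    y ∈ (X.hat H).1 → ∃ h ∈ H.1, res (X.orb a) y = res (X.orb a) h
  hat_mono : ∀ {X H K : Grp}, (∀ h ∈ H.1, ∀ x, So X.1 x (h • x)) → K.1 ≤ H.1 →
    (X.hat K).1 ≤ (X.hat H).1
  hat_congr : ∀ {X Z H : Grp}, (∀ h ∈ H.1, ∀ x, So X.1 x (h • x)) →
    (∀ x y, So X.1 x y ↔ So Z.1 x y) → X.hat H = Z.hat H
  hat_cj : ∀ (g : FP) {X H : Grp}, (∀ h ∈ H.1, ∀ x, So X.1 x (h • x)) →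
    (Grp.cj g X).hat (Grp.cj g H) = Grp.cj g (X.hat H)
  hat_ea : ∀ {p : ℕ} {X H D : Grp}, (∀ h ∈ H.1, ∀ x, So X.1 x (h • x)) → EA p H.1 D.1 →
    EA p (X.hat H).1 (X.hat D).1
  hat_bot : ∀ X : Grp, X.hat Grp.bot = Grp.bot
  hat_fx : ∀ {X H : Grp} {S : Set ℕ}, (∀ h ∈ H.1, ∀ x, So X.1 x (h • x)) → H.1 ≤ fx S →
    (X.hat H).1 ≤ fx S
  gb_mem : ∀ {J : Grp}, (∀ j ∈ J.1, ∀ a, res (J.orb a) j ∈ J.1) → ∀ b, gb J b ∈ J.1
  gb_smul : ∀ (J : Grp) (b : ℕ), gb J b • J.rep b = b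
  gb_fix : ∀ (J : Grp) {b x : ℕ}, ¬ So J.1 b x → gb J b • x = x
  frat : ∀ {n : ℕ} {J : Grp} {s : FP}, J.1 ≤ Sy n → s ∈ Sy n → Po J.1 s →
    ∃ j ∈ Subgroup.closure {y | ∃ b < n, gb J b = y}, j⁻¹ * s ∈ sst (J.reps n)

/-- Block M4: layers. -/
class M4 : Prop where
  le_yq : ∀ (q : ℕ) (E D : SG), D ≤ yq q E D
  yq_le : ∀ (q : ℕ) {E D : SG}, D ≤ E → yq q E D ≤ E
  yq_ea : ∀ (q : ℕ) {E D : SG}, D ≤ E → EA q E (yq q E D)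
  yq_min : ∀ {q : ℕ} {E D K : SG}, EA q E K → D ≤ K → yq q E D ≤ K
  cj_yq : ∀ (g : FP) (q : ℕ) (E D : SG), cj g (yq q E D) = yq q (cj g E) (cj g D)
  pq_cj : ∀ (g : FP) (E D : SG), pq (cj g E) (cj g D) = pq E D
  cj_top : ∀ (g : FP) (E D : SG), cj g (top E D) = top (cj g E) (cj g D)
  nm_top : ∀ {L E D : SG}, Nm L E → Nm L D → Nm L (top E D)
  top_eq_iff : ∀ {n : ℕ} {E D : SG}, E ≤ Sy n → D ≤ E → (top E D = E ↔ E ≤ ⁅E, E⁆ ⊔ D)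
  pq_prime : ∀ {n : ℕ} {E D : SG}, E ≤ Sy n → D ≤ E → top E D ≠ E → (pq E D).Prime ∧ pq E D ≤ n
  pq_le : ∀ {n : ℕ} {E D : SG}, E ≤ Sy n → pq E D ≤ n + 2
  /-- the layer of a group closed under restriction to `S` is closed under it -/
  yq_res : ∀ {q : ℕ} {S : Finset ℕ} {E : SG}, E ≤ sst S → (∀ e ∈ E, res S e ∈ E) →
    ∀ y ∈ yq q E ⊥, res S y ∈ yq q E ⊥

/-- Block M6: cosets and transporters. -/
class M6 : Prop where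
  mem_lmul : ∀ {g x : FP} {C : Cos}, x ∈ Cos.lmul g C ↔ g⁻¹ * x ∈ C
  mem_rmul : ∀ {C : Cos} {A : Grp} {x : FP}, Nm C.grp.1 A.1 →
    (x ∈ C.rmul A ↔ ∃ c ∈ C, ∃ a ∈ A.1, x = c * a)
  mem_ccon : ∀ {S : Finset ℕ} {C : Cos} {x : FP}, (∀ c ∈ C, c ∈ sst S) →
    (x ∈ C.con S ↔ ∃ c ∈ C, res S c = x)
  union_eq : ∀ {l : List Cos} {U : Cos}, (∀ x, x ∈ U ↔ ∃ C ∈ l, x ∈ C) → Cos.union l = U
  grp_TR : ∀ {L X Z : Grp} {h : FP}, (TR L X Z).isE = false →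
    (h ∈ (TR L X Z).grp.1 ↔ h ∈ L.1 ∧ cj h X.1 = X.1)
  grp_stt : ∀ {L : Grp} {S T : Finset ℕ}, (stt L S T).isE = false → (stt L S T).grp = L.stab S
  grp_partt : ∀ {L X Z : Grp} {h : FP}, (partt L X Z).isE = false →
    (h ∈ (partt L X Z).grp.1 ↔ h ∈ L.1 ∧ Po X.1 h)
  ref_emp : ∀ {L X Z : Grp} {C : Cos}, (∀ x ∈ TR L X Z, x ∈ C) → C.isE = true →
    TR L X Z = Cos.emp
  ref : ∀ {L X Z : Grp} {C : Cos}, (∀ x ∈ TR L X Z, x ∈ C) → (∀ x ∈ C, x ∈ L.1) → C.isE = false →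
    TR L X Z = Cos.lmul C.rep (TR C.grp X (Grp.cj C.rep⁻¹ Z))
  up_TR : ∀ {S S' X Z Y : Grp}, S'.1 ≤ S.1 → Y.1 ≤ S.1 → Nm Y.1 X.1 →
    (∀ s ∈ S'.1, cj s X.1 = X.1 → ∀ y ∈ Y.1, s * y * s⁻¹ ∈ Y.1) →
    (∀ s ∈ TR S X Z, ∃ s' ∈ S'.1, ∃ y ∈ Y.1, s = s' * y) → TR S X Z = (TR S' X Z).rmul Y
  TR_all : ∀ {L X Z : Grp}, Nm L.1 X.1 → Z = X → TR L X Z = Cos.lc 1 L
  climb : ∀ {n : ℕ} {L K A Z : SG} {g h : ℕ → FP}, L ≤ Sy n → Nm L K →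
    A = K ⊔ Subgroup.closure {y | ∃ b < n, g b = y} →
    Z = K ⊔ Subgroup.closure {y | ∃ b < n, h b = y} → ∀ l ∈ L,
    (∀ b < n, (h (l • b))⁻¹ * (l * g b * l⁻¹) ∈ K) → cj l A = Z
  infL_val : ∀ (B : Grp) (l : List Grp), (infL B l).1 = B.1 ⊓ sInf (vals l)

/-- Block M5: maximal proper products. -/
class M5 : Prop where
  mp_cj : ∀ (g : FP) (B D : SG) (Ns : Set SG),
    MP (cj g B) (cj g D) (cj g '' Ns) = cj g '' MP B D Ns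
  kers_cj : ∀ {g : FP} {G : Grp} {W : Finset ℕ}, g ∈ sst W →
    vals (kers (Grp.cj g G) W) = cj g '' vals (kers G W)
  kers_ni : ∀ (G : Grp) (W : Finset ℕ), ∀ N ∈ vals (kers G W), NI G.1 N
  mp_basic : ∀ {n : ℕ} {B D P : SG} {Ns : Set SG}, MPok n B D Ns → P ∈ MP B D Ns →
    NI B P ∧ D ≤ P ∧ P ≠ B ∧ B ≤ ⁅B, B⁆ ⊔ P ∧ ∃ N ∈ Ns, N ≤ P
  mp_exists : ∀ {n : ℕ} {B D N : SG} {Ns : Set SG}, MPok n B D Ns → N ∈ Ns → D ⊔ N ≠ B →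
    ∃ P ∈ MP B D Ns, N ≤ P
  mp_comax : ∀ {n : ℕ} {B D P : SG} {Ns S : Set SG}, MPok n B D Ns → S ⊆ MP B D Ns →
    P ∈ MP B D Ns → P ∉ S → (B ⊓ sInf S) ⊔ P = B
  mp_perf : ∀ {n : ℕ} {B D : SG} {Ns : Set SG}, MPok n B D Ns →
    B ≤ ⁅B, B⁆ ⊔ (B ⊓ sInf (MP B D Ns))
  ap_basic : ∀ {n : ℕ} {B D P : Grp} {Ns : Set SG} {l : List Grp}, MPok n B.1 D.1 Ns →
    (∀ Q, Q ∈ l ↔ Q.1 ∈ MP B.1 D.1 Ns) → P ∈ l →
      NI B.1 (aP B l P).1 ∧ (aP B l P).1 ⊔ P.1 = B.1 ∧ (aP B l P).1 ⊓ P.1 = (infL B l).1 ∧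
        ∀ Q ∈ l, Q ≠ P → (aP B l P).1 ≤ Q.1
  ap_nodup : ∀ {n : ℕ} {B D : Grp} {Ns : Set SG} {l : List Grp}, MPok n B.1 D.1 Ns →
    (∀ Q, Q ∈ l ↔ Q.1 ∈ MP B.1 D.1 Ns) → l.Nodup → (l.map (aP B l)).Nodup
  ap_len : ∀ {n : ℕ} {B D : Grp} {Ns : Set SG} {l : List Grp}, MPok n B.1 D.1 Ns →
    (∀ Q, Q ∈ l ↔ Q.1 ∈ MP B.1 D.1 Ns) → l.Nodup →
      (l.map fun P => (aP B l P).len - (infL B l).len).sum ≤ B.len - (infL B l).len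
  ap_gen : ∀ {n : ℕ} {B D : Grp} {Ns : Set SG} {l : List Grp}, MPok n B.1 D.1 Ns →
    (∀ Q, Q ∈ l ↔ Q.1 ∈ MP B.1 D.1 Ns) → B.1 ≤ ⁅B.1, B.1⁆ ⊔ D.1 → infL B l = D →
      B.1 = D.1 ⊔ sSup (vals (l.map (aP B l)))

  jj_cj : ∀ {g : FP} {G D : Grp} {W : Finset ℕ}, g ∈ sst W →
    JJ (Grp.cj g G) (Grp.cj g D) W = cj g (JJ G D W)
  kers_ok : ∀ {n : ℕ} {G D : Grp} (W : Finset ℕ), G.1 ≤ Sy n → NI G.1 D.1 →
    G.1 ≤ ⁅G.1, G.1⁆ ⊔ D.1 → MPok n G.1 D.1 (vals (kers G W))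
  jj_ne : ∀ {n : ℕ} {G D : Grp} {W : Finset ℕ}, G.1 ≤ Sy n → NI G.1 D.1 →
    G.1 ≤ ⁅G.1, G.1⁆ ⊔ D.1 → G.1 ⊓ fx W ≤ D.1 → ¬ G.1 ≤ D.1 → JJ G D W ≠ G.1

structure VEmb (n p : ℕ) (L K1 K2 : SG) : Prop where
  le : L ≤ Sy n
  pp : p.Prime
  n1 : NI L K1
  n2 : NI L K2
  ea : EA p K1 K2
  ne : ¬ K1 ≤ K2

/-- Block M7: links. -/
class M7 : Prop where
  lk_M : ∀ {n : ℕ} {L K1 K2 LL LA : Grp}, Lk n L K1 K2 LL LA →
    (LA.con (RH n)).1 ≤ (symB n).1 ∧ Nm LL.1 (LA.con (RH n)).1 ∧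
      ∀ m, m ∈ (LA.con (RH n)).1 ↔ ∃ g ∈ LA.1, rgt n g = m
  lk_ne : ∀ {n p : ℕ} {L K1 K2 LL LA : Grp}, VEmb n p L.1 K1.1 K2.1 → Lk n L K1 K2 LL LA →
    ∃ g ∈ LA.1, lft n g ∉ K2.1
  mem_ovr : ∀ {n : ℕ} {L K1 K2 LL LA J : Grp} {g : FP}, Lk n L K1 K2 LL LA → J.1 ≤ (symB n).1 →
    (g ∈ (ovr n LA J).1 ↔ g ∈ LA.1 ∧ rgt n g ∈ J.1)
  ovr_test : ∀ {n p : ℕ} {L K1 K2 LL LA J : Grp}, VEmb n p L.1 K1.1 K2.1 → Lk n L K1 K2 LL LA →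
    J.1 ≤ (symB n).1 → Nm LL.1 J.1 →
      NI L.1 (((ovr n LA J).con (Finset.range n)).1 ⊔ K2.1) ∧
      ((ovr n LA J).con (Finset.range n)).1 ⊔ K2.1 ≤ K1.1
  shrink : ∀ {n : ℕ} {L K1 K2 LL LA J : Grp}, Lk n L K1 K2 LL LA → J.1 ≤ (symB n).1 →
    Nm LL.1 J.1 → ((ovr n LA J).con (Finset.range n)).1 ⊔ K2.1 = K1.1 →
    ¬ (LA.con (RH n)).1 ≤ J.1 → Lk n L K1 K2 LL (ovr n LA J) ∧
      pot n ((ovr n LA J).con (RH n)) < pot n (LA.con (RH n))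
  enlarge : ∀ {n : ℕ} {L K1 K2 LL LA J : Grp}, Lk n L K1 K2 LL LA → J.1 ≤ (symB n).1 →
    Nm LL.1 J.1 → ((ovr n LA J).con (Finset.range n)).1 ≤ K2.1 → J.1 ≠ ⊥ →
    (∀ j ∈ J.1, ∀ a, res (J.orb a) j ∈ J.1) → (∀ j ∈ J.1, ∀ x, So (LA.con (RH n)).1 x (j • x)) →
      Lk n L K1 K2 ((LL.sup J).stab (J.reps (2 * n))) ((LA.sup J).stab (J.reps (2 * n))) ∧
      pot n (((LA.sup J).stab (J.reps (2 * n))).con (RH n)) < pot n (LA.con (RH n))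
  pot_le : ∀ {n : ℕ} {M : Grp}, M.1 ≤ Sy (2 * n) → pot n M ≤ (4 * n * n + 1) * (4 * n * n + 1)

/-! ### The oracle calculus -/

/-- Block KO: closure properties of `OT`. -/
class KO : Prop where
  ot_pt : ∀ {α β : Type} [Enc α] [Enc β] {f : α → β}, PT f → OT f
  ot_comp : ∀ {α β γ : Type} [Enc α] [Enc β] [Enc γ] {f : β → γ} {g : α → β}, OT f → OT g →
    OT fun a => f (g a)
  ot_pair : ∀ {α β γ : Type} [Enc α] [Enc β] [Enc γ] {f : α → β} {g : α → γ}, OT f → OT g →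
    OT fun a => (f a, g a)
  ot_orc : OT orc
  ot_sz : ∀ {α β : Type} [Enc α] [Enc β] {f : α → β}, OT f →
    ∃ p : ℕ[X], ∀ a, sz (f a) ≤ p.eval (sz a)
  ot_iter : ∀ {α β : Type} [Enc α] [Enc β] {step : β → β} {n : α → ℕ} {s : α → β} (V : α → Prop)
    (q : ℕ[X]), OT step → OT n → OT s →
    (∀ a, V a → ∀ i, i ≤ n a → sz (step^[i] (s a)) ≤ q.eval (sz a)) →
    ∃ g, OT g ∧ ∀ a, V a → g a = step^[n a] (s a)
  ot_foldl : ∀ {α β γ : Type} [Enc α] [Enc β] [Enc γ] {f : α → γ → β → γ} {l : α → List β}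
    {i : α → γ} (V : α → Prop) (q : ℕ[X]), (OT fun p : α × γ × β => f p.1 p.2.1 p.2.2) → OT l →
    OT i → (∀ a, V a → ∀ n, sz (((l a).take n).foldl (f a) (i a)) ≤ q.eval (sz a)) →
    ∃ g, OT g ∧ ∀ a, V a → g a = (l a).foldl (f a) (i a)
  ot_map : ∀ {α β γ : Type} [Enc α] [Enc β] [Enc γ] {f : α → β → γ} {l : α → List β},
    (OT fun p : α × β => f p.1 p.2) → OT l → OT fun a => (l a).map (f a)

/-- Block KR: the recursion rule. -/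
class KR : Prop where
  rec2 : ∀ {α β : Type} [Enc α] [Enc β] {V : α → Prop} {F : α → β} {N c : α → ℕ} (P : ℕ[X]),
    Node V F N c (fun _ => True) → (∀ a, V a → N a ≤ sz a ∧ sz a ≤ P.eval (N a) ∧
      sz (F a) ≤ P.eval (N a) ∧ c a ≤ P.eval (N a)) → ∃ g, OT g ∧ ∀ a, V a → g a = F a
  node_cond : ∀ {α β : Type} [Enc α] [Enc β] {V U : α → Prop} {F : α → β} {N c : α → ℕ}
    {b : α → Bool}, OT b → Node V F N c (fun a => U a ∧ b a = true) →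
      Node V F N c (fun a => U a ∧ b a = false) → Node V F N c U
  node_mono : ∀ {α β : Type} [Enc α] [Enc β] {V U U' : α → Prop} {F : α → β} {N c : α → ℕ},
    Node V F N c U' → (∀ a, V a → U a → U' a) → Node V F N c U
  node_leaf : ∀ {α β : Type} [Enc α] [Enc β] {V U : α → Prop} {F g : α → β} {N c : α → ℕ},
    OT g → (∀ a, V a → U a → g a = F a) → Node V F N c U
  node_list : ∀ {α β : Type} [Enc α] [Enc β] {V U : α → Prop} {F : α → β} {N c : α → ℕ}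
    {s : α → List α} {out : α × List β → β}, OT s → OT out →
    (∀ a, V a → U a → (∀ b ∈ s a, V b ∧ N b ≤ N a) ∧ ((s a).map fun b => c b + 1).sum ≤ c a ∧
      out (a, (s a).map F) = F a) → Node V F N c U
  node_one : ∀ {α : Type} [Enc α] {V U : α → Prop} {F : α → Cos} {N c : α → ℕ}
    {s : α → α} {out : α × Cos → Cos}, OT s → OT out →
    (∀ a, V a → U a → V (s a) ∧ N (s a) ≤ N a ∧ c (s a) + 1 ≤ c a ∧ out (a, F (s a)) = F a) →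
      Node V F N c U
  node_two : ∀ {α : Type} [Enc α] {V U : α → Prop} {F : α → Cos} {N c : α → ℕ}
    {s : α → α} {t : α × Cos → α} {out : α × Cos × Cos → Cos}, OT s → OT t → OT out →
    (∀ a, V a → U a → V (s a) ∧ N (s a) ≤ N a ∧
      ((F (s a)).isE = true → c (s a) + 1 ≤ c a ∧ F a = Cos.emp) ∧
      ((F (s a)).isE = false → V (t (a, F (s a))) ∧ N (t (a, F (s a))) ≤ N a ∧
        c (s a) + 1 + (c (t (a, F (s a))) + 1) ≤ c a ∧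
        out (a, F (s a), F (t (a, F (s a)))) = F a)) → Node V F N c U

/-- Everything above. -/
class KA : Prop extends K1, KG, KL, K3, K5, M1, M2, M3, M3h, M4, M6, M5, M7, KO, KR

attribute [fun_prop] K1.pt_smul K1.pt_mul K1.pt_inv K1.pt_pow K1.pt_bd K1.pt_mkP K1.pt_swp K1.pt_div
  K1.pt_mod K1.pt_max K1.pt_sum K1.pt_els K1.pt_fil K1.pt_smem K1.pt_card K1.pt_frange K1.pt_erase
  K1.pt_funion K1.pt_single K1.pt_toFinset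
  KG.pt_gens KG.pt_gbd KG.pt_isE KG.pt_crep KG.pt_grp KL.pt_ofL KL.pt_lc
  K3.pt_mem K3.pt_le K3.pt_sup K3.pt_cj K3.pt_sy K3.pt_fix K3.pt_trC K3.pt_tr K3.pt_orb K3.pt_rep
  K3.pt_reps K3.pt_sw K3.pt_res K3.pt_prP K3.pt_con K3.pt_hat K3.pt_gb K3.pt_kers K3.pt_RH
  K3.pt_lft K3.pt_rgt K3.pt_lmul K3.pt_rmul K3.pt_ccon K3.pt_union K3.pt_symB
  K5.pt_comm K5.pt_yq K5.pt_pq K5.pt_top K5.pt_ea K5.pt_len

theorem small_le_SB (n : ℕ) : n * (2 * n + 1) ≤ SB n := by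
  unfold SB; nlinarith [Nat.zero_le n, Nat.zero_le (n ^ 3), Nat.zero_le (n ^ 4)]

theorem SB_mono {n m : ℕ} (h : n ≤ m) : SB n ≤ SB m := by unfold SB; gcongr

/-- `SB` as a polynomial. -/
noncomputable def SBp : ℕ[X] := 100 * (X + 1) ^ 4

@[simp] theorem eval_SBp (n : ℕ) : SBp.eval n = SB n := by simp [SBp, SB]

instance [K1] : PB FP := ⟨K1.pt_eqFP⟩
instance [K1] : PB (Finset ℕ) := ⟨K1.pt_eqFS⟩
instance [K3] : PB Grp := ⟨K3.pt_eqG⟩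

namespace OT
variable {α β γ : Type} [Enc α] [Enc β] [Enc γ] [KO]

@[fun_prop] theorem id' : OT fun a : α => a := KO.ot_pt PT.id'
@[fun_prop] theorem const (b : β) : OT fun _ : α => b := KO.ot_pt (PT.const b)
@[fun_prop] theorem comp {f : β → γ} {g : α → β} (hf : OT f) (hg : OT g) : OT fun a => f (g a) :=
  KO.ot_comp hf hg
@[fun_prop] theorem prodMk {f : α → β} {g : α → γ} (hf : OT f) (hg : OT g) :
    OT fun a => (f a, g a) := KO.ot_pair hf hg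
@[fun_prop] theorem fst {f : α → β × γ} (hf : OT f) : OT fun a => (f a).1 :=
  comp (KO.ot_pt (PT.fst PT.id')) hf
@[fun_prop] theorem snd {f : α → β × γ} (hf : OT f) : OT fun a => (f a).2 :=
  comp (KO.ot_pt (PT.snd PT.id')) hf
@[fun_prop] theorem of_pt {f : α → β} (hf : PT f) : OT f := KO.ot_pt hf
omit [KO] in
theorem congr {f g : α → β} (h : OT f) (e : ∀ a, f a = g a) : OT g := by
  rw [← funext e]; exact h
@[fun_prop] theorem cond {b : α → Bool} {f g : α → β} (hb : OT b) (hf : OT f) (hg : OT g) :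
    OT fun a => bif b a then f a else g a :=
  comp (f := fun p : Bool × β × β => bif p.1 then p.2.1 else p.2.2) (of_pt (by fun_prop))
    (prodMk hb (prodMk hf hg))
@[fun_prop] theorem map {f : α → β → γ} {l : α → List β} (hf : OT fun p : α × β => f p.1 p.2)
    (hl : OT l) : OT fun a => (l a).map (f a) := KO.ot_map hf hl
@[fun_prop] theorem flatMap {f : α → β → List γ} {l : α → List β}
    (hf : OT fun p : α × β => f p.1 p.2) (hl : OT l) : OT fun a => (l a).flatMap (f a) :=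
  (comp (f := fun L : List (List γ) => L.flatMap fun x => x) (of_pt (by fun_prop))
    (map hf hl)).congr fun a => by simp [List.flatMap_def, Function.comp_def]
@[fun_prop] theorem filter {f : α → β → Bool} {l : α → List β}
    (hf : OT fun p : α × β => f p.1 p.2) (hl : OT l) : OT fun a => (l a).filter (f a) :=
  (flatMap (f := fun a b => bif f a b then [b] else [])
    (cond hf (of_pt (by fun_prop)) (const [])) hl).congr fun a => by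
    induction l a with
    | nil => rfl
    | cons b t ih => cases h : f a b <;> simp [ih, h]
@[fun_prop] theorem any {f : α → β → Bool} {l : α → List β}
    (hf : OT fun p : α × β => f p.1 p.2) (hl : OT l) : OT fun a => (l a).any (f a) :=
  (comp (f := fun L : List Bool => L.any fun x => x) (of_pt (by fun_prop)) (map hf hl)).congr
    fun a => by simp [List.any_map, Function.comp_def]
@[fun_prop] theorem all {f : α → β → Bool} {l : α → List β}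
    (hf : OT fun p : α × β => f p.1 p.2) (hl : OT l) : OT fun a => (l a).all (f a) :=
  (comp (f := fun L : List Bool => L.all fun x => x) (of_pt (by fun_prop)) (map hf hl)).congr
    fun a => by simp [List.all_map, Function.comp_def]
@[fun_prop] theorem stab : OT fun p : Grp × Finset ℕ => p.1.stab p.2 :=
  comp (g := fun p : Grp × Finset ℕ => ((true, 0, p.1, p.2) : Qy)) KO.ot_orc (of_pt (by fun_prop))
@[fun_prop] theorem enorm : OT fun p : ℕ × Grp => Grp.enorm p.1 p.2 :=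
  comp (g := fun p : ℕ × Grp => ((false, p.1, p.2, ∅) : Qy)) KO.ot_orc (of_pt (by fun_prop))
@[fun_prop] theorem fil [K1] {n : α → ℕ} {f : α → ℕ → Bool} (hn : OT n)
    (hf : OT fun p : α × ℕ => f p.1 p.2) : OT fun a => fil (n a) (f a) :=
  (comp (f := fun l : List ℕ => l.toFinset) (of_pt K1.pt_toFinset)
    (filter hf (comp (f := List.range) (of_pt (PT.range PT.id')) hn))).congr fun a => by
    ext x; simp
/-- Total form of the iteration rule. -/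
theorem iterate {step : β → β} {n : α → ℕ} {s : α → β} (h : OT step) (hn : OT n) (hs : OT s)
    (q : ℕ[X]) (hq : ∀ a i, i ≤ n a → sz (step^[i] (s a)) ≤ q.eval (sz a)) :
    OT fun a => step^[n a] (s a) := by
  obtain ⟨g, h1, h2⟩ := KO.ot_iter (fun _ => True) q h hn hs fun a _ => hq a
  exact h1.congr fun a => h2 a trivial
/-- Total form of the fold rule. -/
theorem foldl {f : α → γ → β → γ} {l : α → List β} {i : α → γ}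
    (h : OT fun p : α × γ × β => f p.1 p.2.1 p.2.2) (hl : OT l) (hi : OT i) (q : ℕ[X])
    (hq : ∀ a n, sz (((l a).take n).foldl (f a) (i a)) ≤ q.eval (sz a)) :
    OT fun a => (l a).foldl (f a) (i a) := by
  obtain ⟨g, h1, h2⟩ := KO.ot_foldl (fun _ => True) q h hl hi fun a _ => hq a
  exact h1.congr fun a => h2 a trivial

end OT

/-! ### Primitives -/

def S_stt : Prop := OT fun p : Grp × Finset ℕ × Finset ℕ => stt p.1 p.2.1 p.2.2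

abbrev Tp : Type := ℕ × ℕ × ℕ

def S_gf0 : Prop := ∃ g : ℕ × ℕ × List TriD × List Tp × List Tp → Cos, OT g ∧
  ∀ n m gs Γ Γ', OkT n m gs → (∀ w ∈ Γ ++ Γ', w.1 < m ∧ w.2.1 < n ∧ w.2.2 < n) →
    ∀ l, l ∈ g (n, m, gs, Γ, Γ') ↔ ∃ t ∈ triG gs, t.l = l ∧
      ∀ i x y, (i, x, y) ∈ Γ ↔ (t.p • i, t.a i • x, t.l • y) ∈ Γ'

def S_gf : Prop := ∃ g : ℕ × ℕ × List TriD × Finset ℕ × Finset ℕ × List FP × List FP → Cos, OT g ∧
  ∀ n m gs S S' τ τ', OkT n m gs → (∀ i ∈ S, i < m) → (∀ i ∈ S', i < m) → (∀ a ∈ τ, a ∈ Sy n) →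
    (∀ a ∈ τ', a ∈ Sy n) → ∀ l, l ∈ g (n, m, gs, S, S', τ, τ') ↔ ∃ t ∈ triG gs, t.l = l ∧
      (∀ i, i ∈ S ↔ t.p • i ∈ S') ∧ ∀ i ∈ S, l * τ.getD i 1 = τ'.getD (t.p • i) 1 * t.a i

def S_inter : Prop := OT fun p : Cos × Grp => p.1.inter p.2
def S_inf : Prop := OT fun p : Grp × Grp => p.1.inf p.2
def S_infL : Prop := OT fun p : Grp × List Grp => infL p.1 p.2
def S_partt : Prop := OT fun p : Grp × Grp × Grp => partt p.1 p.2.1 p.2.2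

def S_cjp : Prop :=
  ∃ g : ℕ × ℕ × List (FP × FP) × List (List FP) × List FP × List FP → Cos, OT g ∧
  ∀ n m ps us gs hs, (∀ d ∈ ps, d.1 ∈ Sy m ∧ d.2 ∈ Sy n) → (∀ u ∈ us, ∀ a ∈ u, a ∈ Sy n) →
    (∀ a ∈ gs, a ∈ Sy n) → (∀ a ∈ hs, a ∈ Sy n) →
    (∀ d ∈ Subgroup.closure {d | d ∈ ps}, ∀ u ∈ tupG us, ∃ v ∈ tupG us,
      ∀ i < m, v (d.1 • i) = d.2 * u i * d.2⁻¹) →
    ∀ l, l ∈ g (n, m, ps, us, gs, hs) ↔ ∃ π, (π, l) ∈ Subgroup.closure {d | d ∈ ps} ∧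
      ∃ u ∈ tupG us, ∀ i < m, l * gs.getD i 1 * l⁻¹ = hs.getD (π • i) 1 * u (π • i)

def S_cf : Prop := ∃ g : ℕ × Grp × Grp × List FP × List FP → Cos, OT g ∧
  ∀ n (L K : Grp) gs hs, L.1 ≤ Sy n → K.1 ≤ Sy n → Nm L.1 K.1 → (∀ a ∈ gs, a ∈ Sy n) →
    (∀ a ∈ hs, a ∈ Sy n) → ∀ l, l ∈ g (n, L, K, gs, hs) ↔
      l ∈ L.1 ∧ ∀ b < n, (hs.getD (l • b) 1)⁻¹ * (l * gs.getD b 1 * l⁻¹) ∈ K.1

def S_cf0 : Prop := ∃ g : ℕ × Grp × Grp × List FP × List FP → Cos, OT g ∧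
  ∀ n (L K : Grp) gs hs, L.1 ≤ Sy n → K.1 ≤ Sy n → Nm L.1 K.1 → (∀ a ∈ gs, a ∈ Sy n) →
    (∀ a ∈ hs, a ∈ Sy n) → ∀ l, l ∈ g (n, L, K, gs, hs) ↔
      l ∈ L.1 ∧ ∀ i < gs.length, (hs.getD i 1)⁻¹ * (l * gs.getD i 1 * l⁻¹) ∈ K.1

def S_gr : Prop := ∃ g : ℕ × Grp × List Grp × List Grp × List (List Cos) → Cos, OT g ∧
  ∀ n (L : Grp) As Bs Tb, L.1 ≤ Sy n → As.Nodup → Bs.Nodup →
    (∀ i < As.length, ∀ j < Bs.length,
      (Tb.getD i []).getD j Cos.emp = TR L (As.getD i Grp.bot) (Bs.getD j Grp.bot)) →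
    ∀ l, l ∈ g (n, L, As, Bs, Tb) ↔
      l ∈ L.1 ∧ (∀ A ∈ As, Grp.cj l A ∈ Bs) ∧ ∀ B ∈ Bs, Grp.cj l⁻¹ B ∈ As

def S_enormt : Prop := ∃ g : ℕ × Grp × Grp → Cos, OT g ∧
  ∀ m p (M M' : Grp), p.Prime → M.1 ≤ Sy m → M'.1 ≤ Sy m → EA p M.1 ⊥ → EA p M'.1 ⊥ →
    g (m, M, M') = TR (Grp.sy m) M M'

/-- All primitives. -/
structure Prim : Prop where
  stt : S_stt
  inter : S_inter
  inf : S_inf
  infL : S_infL
  partt : S_partt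
  cjp : S_cjp
  cf : S_cf
  cf0 : S_cf0
  gr : S_gr
  enormt : S_enormt

/-! ### Procedures -/

def S_maxprod : Prop := ∃ g : ℕ × Grp × Grp × List Grp → List Grp, OT g ∧
  ∀ n (B D : Grp) Ns, MPok n B.1 D.1 (vals Ns) →
    (g (n, B, D, Ns)).Nodup ∧ ∀ P, P ∈ g (n, B, D, Ns) ↔ P.1 ∈ MP B.1 D.1 (vals Ns)

/-- One round of the embedding procedure. -/
def S_round : Prop := ∃ g : ℕ × ℕ × Grp × Grp × Grp × Grp × Grp → Bool × Grp × Grp, OT g ∧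
  ∀ n p (L K1 K2 LL LA : Grp), VEmb n p L.1 K1.1 K2.1 → Lk n L K1 K2 LL LA →
    ¬ EA p (LA.con (RH n)).1 ⊥ → ∀ r, g (n, p, L, K1, K2, LL, LA) = r →
      (r.1 = true → NI L.1 r.2.1.1 ∧ K2.1 < r.2.1.1 ∧ r.2.1.1 < K1.1 ∧ r.2.2 = Grp.bot) ∧
      (r.1 = false → Lk n L K1 K2 r.2.1 r.2.2 ∧ pot n (r.2.2.con (RH n)) < pot n (LA.con (RH n)))

def S_embed : Prop := ∃ g : ℕ × ℕ × Grp × Grp × Grp → Bool × Grp × Grp, OT g ∧
  ∀ n p (L K1 K2 : Grp), VEmb n p L.1 K1.1 K2.1 → ∀ r, g (n, p, L, K1, K2) = r →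
    (r.1 = true → NI L.1 r.2.1.1 ∧ K2.1 < r.2.1.1 ∧ r.2.1.1 < K1.1) ∧
    (r.1 = false → Lk n L K1 K2 r.2.1 r.2.2 ∧ EA p (r.2.2.con (RH n)).1 ⊥)

def S_sub : Prop := ∃ g : ℕ × Grp × Grp × Grp × Grp × Grp → Cos, OT g ∧
  ∀ n p (L D E X Z LL LA : Grp), L.1 ≤ Sy n → p.Prime → NI L.1 D.1 → NI L.1 E.1 → D.1 ≤ X.1 →
    D.1 ≤ Z.1 → X.1 ≤ E.1 → Z.1 ≤ E.1 → Lk n L E D LL LA → EA p (LA.con (RH n)).1 ⊥ →
    g (n, D, X, Z, LL, LA) = TR L X Z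

structure VComp (n p : ℕ) (L D Y X Z : SG) : Prop where
  le : L ≤ Sy n
  pp : p.Prime
  nD : NI L D
  nY : NI L Y
  DY : D ≤ Y
  nE : NI L (X ⊔ Y)
  eq : Z ⊔ Y = X ⊔ Y
  iX : X ⊓ Y = D
  iZ : Z ⊓ Y = D
  eX : EA p X D
  eZ : EA p Z D
  sol : Sol Y D

/-- `(n, p, L, D, Y, X, Z)`, or `(n, p, L, D, E, X, Z)`. -/
abbrev CI : Type := ℕ × ℕ × Grp × Grp × Grp × Grp × Grp

def CI.L (a : CI) : Grp := a.2.2.1
def CI.D (a : CI) : Grp := a.2.2.2.1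
def CI.Y (a : CI) : Grp := a.2.2.2.2.1
def CI.X (a : CI) : Grp := a.2.2.2.2.2.1
def CI.Z (a : CI) : Grp := a.2.2.2.2.2.2
@[fun_prop] theorem pt_CL : PT CI.L := by unfold CI.L; fun_prop
@[fun_prop] theorem pt_CD : PT CI.D := by unfold CI.D; fun_prop
@[fun_prop] theorem pt_CY : PT CI.Y := by unfold CI.Y; fun_prop
@[fun_prop] theorem pt_CX : PT CI.X := by unfold CI.X; fun_prop
@[fun_prop] theorem pt_CZ : PT CI.Z := by unfold CI.Z; fun_prop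
noncomputable def cF (a : CI) : Cos := TR a.L a.X a.Z
def cN (a : CI) : ℕ := a.1 + a.2.1
def cV (a : CI) : Prop := VComp a.1 a.2.1 a.L.1 a.D.1 a.Y.1 a.X.1 a.Z.1
noncomputable def cC (a : CI) : ℕ := (a.Y.len - a.D.len) ^ 2 * (a.X.len - a.D.len) ^ 2

def S_hom : Prop := ∃ g : CI × Grp × Grp → Cos, OT g ∧
  ∀ (a : CI) (LL LA : Grp), cV a → EA a.2.1 (a.X.sup a.Y).1 a.D.1 →
    Lk a.1 a.L (a.X.sup a.Y) a.Y LL LA → EA a.2.1 (LA.con (RH a.1)).1 ⊥ → g (a, LL, LA) = cF a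

def S_copr : Prop := ∃ g : CI → Cos, OT g ∧
  ∀ (a : CI) (q : ℕ), cV a → q.Prime → q ≠ a.2.1 → EA q a.Y.1 a.D.1 → g a = cF a

def S_splitY : Prop := ∀ (y : CI → Grp) (U : CI → Prop), OT y →
  (∀ a, cV a → U a → NI a.L.1 (y a).1 ∧ a.D.1 < (y a).1 ∧ (y a).1 < a.Y.1 ∧ ¬ a.X.1 ≤ a.D.1) →
  Node cV cF cN cC U

def S_splitV : Prop := ∀ (k : CI → Grp) (U : CI → Prop), OT k →
  (∀ a, cV a → U a → NI a.L.1 (k a).1 ∧ a.Y.1 < (k a).1 ∧ (k a).1 < a.X.1 ⊔ a.Y.1 ∧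
    ¬ a.Y.1 ≤ a.D.1 ∧ EA a.2.1 (a.X.1 ⊔ a.Y.1) a.D.1) → Node cV cF cN cC U

def S_comp : Prop := ∃ g : CI → Cos, OT g ∧ ∀ a, cV a → g a = cF a

structure VPab (n p : ℕ) (L D E X Z : SG) : Prop where
  le : L ≤ Sy n
  pp : p.Prime
  nD : NI L D
  nE : NI L E
  XE : X ≤ E
  ZE : Z ≤ E
  eX : EA p X D
  eZ : EA p Z D
  sol : Sol E D

def pV (a : CI) : Prop := VPab a.1 a.2.1 a.L.1 a.D.1 a.Y.1 a.X.1 a.Z.1

def S_pabel : Prop := ∃ g : CI → Cos, OT g ∧ ∀ a, pV a → g a = cF a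

structure VAb (n p : ℕ) (L D X Z : SG) : Prop where
  le : L ≤ Sy n
  pp : p.Prime
  nD : NI L D
  XL : X ≤ L
  ZL : Z ≤ L
  eX : EA p X D
  eZ : EA p Z D

/-- The last step of the abelian procedure: inside the normaliser of the product of constituents. -/
def S_abel2 : Prop := ∃ g : ℕ × ℕ × Grp × Grp × Grp × Grp → Cos, OT g ∧
  ∀ n p (L D X Z : Grp), VAb n p L.1 D.1 X.1 Z.1 → Nm L.1 (X.hat X).1 → Z.1 ≤ (X.hat X).1 →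
    g (n, p, L, D, X, Z) = TR L X Z

/-- Climbing from the stabiliser of a transversal: `S` permutes the orbits of `A`, the groups `A`
and `Z` have the same orbits and are closed under restriction to orbits. -/
def S_hatup : Prop := ∃ g : ℕ × Grp × Grp × Grp × Cos → Cos, OT g ∧
  ∀ n (S A Z : Grp), S.1 ≤ Sy n → A.1 ≤ S.1 → Z.1 ≤ S.1 → (∀ s ∈ S.1, Po A.1 s) →
    (∀ x y, So A.1 x y ↔ So Z.1 x y) → (∀ j ∈ A.1, ∀ a, res (A.orb a) j ∈ A.1) →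
    (∀ j ∈ Z.1, ∀ a, res (Z.orb a) j ∈ Z.1) →
    g (n, S, A, Z, TR (S.stab (A.reps n)) (A.stab (A.reps n)) (Z.stab (A.reps n))) = TR S A Z

def S_abel : Prop := ∃ g : ℕ × ℕ × Grp × Grp × Grp × Grp → Cos, OT g ∧
  ∀ n p (L D X Z : Grp), VAb n p L.1 D.1 X.1 Z.1 → g (n, p, L, D, X, Z) = TR L X Z

structure VTr (n : ℕ) (L D G Z : SG) (W : Finset ℕ) : Prop where
  le : L ≤ Sy n
  nD : NI L D
  DG : D ≤ G
  DZ : D ≤ Z
  GlL : G ≤ L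
  ZL : Z ≤ L
  Wn : ∀ w ∈ W, w < n
  inv : L ≤ sst W
  fai : G ⊓ fx W ≤ D

/-- `(n, L, D, G, Z, W)`. -/
abbrev TI : Type := ℕ × Grp × Grp × Grp × Grp × Finset ℕ

def TI.L (a : TI) : Grp := a.2.1
def TI.D (a : TI) : Grp := a.2.2.1
def TI.G (a : TI) : Grp := a.2.2.2.1
def TI.Z (a : TI) : Grp := a.2.2.2.2.1
def TI.W (a : TI) : Finset ℕ := a.2.2.2.2.2
@[fun_prop] theorem pt_TL : PT TI.L := by unfold TI.L; fun_prop
@[fun_prop] theorem pt_TD : PT TI.D := by unfold TI.D; fun_prop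
@[fun_prop] theorem pt_TG : PT TI.G := by unfold TI.G; fun_prop
@[fun_prop] theorem pt_TZ : PT TI.Z := by unfold TI.Z; fun_prop
@[fun_prop] theorem pt_TW : PT TI.W := by unfold TI.W; fun_prop
noncomputable def tF (a : TI) : Cos := TR a.L a.G a.Z
def tN (a : TI) : ℕ := a.1
def tV (a : TI) : Prop := VTr a.1 a.L.1 a.D.1 a.G.1 a.Z.1 a.W
noncomputable def tC (a : TI) : ℕ := (2 * a.W.card + 1) * (a.G.len - a.D.len) ^ 3

def S_t1 : Prop := Node tV tF tN tC fun a =>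
  ¬ a.G.1 ≤ a.D.1 ∧ ∃ z ∈ a.W, a.G.1 ⊓ fx (a.G.orb z) ≤ a.D.1

def S_t2 : Prop := Node tV tF tN tC fun a => top a.G.1 a.D.1 ≠ a.G.1

/-- The perfect case without a faithful orbit. -/
def U3 (a : TI) : Prop := ¬ a.G.1 ≤ a.D.1 ∧ a.G.len = a.Z.len ∧ a.G.1 ≤ ⁅a.G.1, a.G.1⁆ ⊔ a.D.1 ∧
  a.Z.1 ≤ ⁅a.Z.1, a.Z.1⁆ ⊔ a.D.1 ∧ ∀ z ∈ a.W, ¬ a.G.1 ⊓ fx (a.G.orb z) ≤ a.D.1

def S_t3a : Prop := Node tV tF tN tC fun a => U3 a ∧ JJ a.G a.D a.W ≠ a.D.1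
def S_t3b : Prop := Node tV tF tN tC fun a => U3 a ∧ JJ a.G a.D a.W = a.D.1 ∧ JJ a.Z a.D a.W = a.D.1

def S_trans : Prop := ∃ g : TI → Cos, OT g ∧ ∀ a, tV a → g a = tF a

/-! ### Export and the final statement -/

def S_export : Prop := ∀ f : NIn → Tabs, OT f →
  ∃ (Q : NIn × List Tabs → Qr) (A : NIn × List Tabs → Tabs) (P : ℕ[X]),
    Nonempty (Turing.TM2ComputableInPolyTime (codeP codeNI (codeL codeT)) codeQ Q) ∧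
    Nonempty (Turing.TM2ComputableInPolyTime (codeP codeNI (codeL codeT)) codeT A) ∧
    ∀ (x : NIn) (t : List Tabs), (∀ (k : ℕ) (hk : k < t.length), Ans (Q (x, t.take k)) t[k]) →
      (codeQ (Q (x, t))).length ≤ P.eval (codeNI x).length ∧
      (t.length = P.eval (codeNI x).length → A (x, t) = f x)

def S_final : Prop :=
  ∃ (Q : NIn × List Tabs → Qr) (A : NIn × List Tabs → Tabs) (P : Polynomial ℕ),
    Nonempty (Turing.TM2ComputableInPolyTime (codeP codeNI (codeL codeT)) codeQ Q) ∧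
    Nonempty (Turing.TM2ComputableInPolyTime (codeP codeNI (codeL codeT)) codeT A) ∧
    ∀ (n : ℕ) (gs hs : List (Perm (Fin n))) (t : List Tabs),
      (∀ (k : ℕ) (hk : k < t.length), Ans (Q ((n, gs.map tab, hs.map tab), t.take k)) t[k]) →
      (codeQ (Q ((n, gs.map tab, hs.map tab), t))).length ≤
          P.eval (codeNI (n, gs.map tab, hs.map tab)).length ∧
      (t.length = P.eval (codeNI (n, gs.map tab, hs.map tab)).length →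
        ∃ out : List (Perm (Fin n)), A ((n, gs.map tab, hs.map tab), t) = out.map tab ∧
          gen out = gen hs ⊓ Subgroup.normalizer (gen gs : Set (Perm (Fin n))))

end Pool.Agent.Lib.E5
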